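import Pool.Agent.Lib.TWCY.Shape

/-!
# The commutator of `D` and `T_c`, and the polynomial `d`

* `comm`: `D (T_c f) = T_c (D f) - Σ δ_i T_c (∂_i f)`, `δ_i = (T_c - 1) D(w_i)`;
* `dP`: `d(s) = e (Σ N_j(s) n'_j + D f(s)) + (D x) P(u(s)) + D A(s)`;
* `tie_ge`: `d` has integral coefficients.
-/

set_option autoImplicit false

open MvPolynomial

namespace Pool.Agent.TWCY

open Pool.Agent.H15JM (RVal)
open Pool.Agent.LU1 (VPos)
open Pool.Agent.D2 (Ctx0)
open Pool.Agent.TWM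
open Pool.Agent.TWS (IsoE SphC)
open Pool.Agent.TWLY

universe u

variable {k Ω : Type u} [Field k] [Field Ω] [Algebra k Ω] {v : RVal Ω}
  {W F : IntermediateField k Ω} {w : Fin 2 → Ω} {T : (Fin 2 → k) → Ω →ₐ[k] Ω} {D : Ω → Ω}
  {dd : Fin 2 → Ω → Ω}

theorem eq_zero_of_ge {x : Ω} (h : ∀ r : ℝ, v.Ge r x) : x = 0 := by
  by_contra h0
  have := h (v x + 1) h0
  linarith

theorem ge_zero_of_eps' {x : Ω} {Q : ℝ} (hQ : 0 < Q) (h : ∀ ε : ℝ, 0 < ε → v.Ge (-(Q * ε)) x) :
    v.Ge 0 x := by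
  refine ge_zero_of_eps fun ε hε => ?_
  have := h (ε / Q) (by positivity)
  rwa [mul_div_cancel₀ _ hQ.ne'] at this

/-- `T - 1` on the limits of the fixed field. -/
theorem ge_fix {T : Ω →ₐ[k] Ω} (hT : IsoE v v T) (hW : ∀ f ∈ W, T f = f) {y : Ω}
    (hy : Lim v W 0 y) : v.Ge 0 (T y - y) := by
  refine ge_zero_of_eps fun ε hε => ?_
  obtain ⟨a, ha, h1⟩ := Lim.neg_eps hy hε
  have e : T y - y = T (y - a) - (y - a) := by
    rw [map_sub, hW a ha]
    ring
  rw [e]
  exact (IsoE.ge' hT h1).sub h1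

section comm

/-- **The commutator.** -/
theorem comm (hT : Trn v W F w T) (hD : Drv v F D) (hDW : ∀ f ∈ W, D f ∈ W)
    (hDL : ∀ i, Lim v W 0 (D (w i))) (hd : ∀ i, Drv v F (dd i)) (hdW : ∀ i, ∀ f ∈ W, dd i f = 0)
    (hdw : ∀ i j, dd i (w j) = if i = j then 1 else 0) (c : Fin 2 → k) {f : Ω} (hf : f ∈ F) :
    D (T c f) = T c (D f) - ∑ i, (T c (D (w i)) - D (w i)) * T c (dd i f) := by
  set δ : Fin 2 → Ω := fun i => T c (D (w i)) - D (w i) with hδ
  have hδ0 : ∀ i, v.Ge 0 (δ i) := fun i => ge_fix (hT.iso c) (hT.fix c) (hDL i)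
  set E : Ω → Ω := fun f => D (T c f) - T c (D f) + ∑ i, δ i * T c (dd i f) with hE
  have hEadd : ∀ f ∈ F, ∀ g ∈ F, E (f + g) = E f + E g := by
    intro f hf g hg
    simp only [hE]
    rw [map_add, hD.add _ (hT.mem c f hf) _ (hT.mem c g hg), hD.add _ hf _ hg, map_add]
    have : ∑ i, δ i * T c (dd i (f + g)) =
        ∑ i, δ i * T c (dd i f) + ∑ i, δ i * T c (dd i g) := by
      rw [← Finset.sum_add_distrib]
      refine Finset.sum_congr rfl fun i _ => ?_
      rw [(hd i).add _ hf _ hg, map_add]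
      ring
    rw [this]
    ring
  have hEmul : ∀ f ∈ F, ∀ g ∈ F, E (f * g) = T c f * E g + T c g * E f := by
    intro f hf g hg
    simp only [hE]
    rw [map_mul, hD.mul _ (hT.mem c f hf) _ (hT.mem c g hg), hD.mul _ hf _ hg, map_add, map_mul,
      map_mul]
    have : ∑ i, δ i * T c (dd i (f * g)) =
        T c f * ∑ i, δ i * T c (dd i g) + T c g * ∑ i, δ i * T c (dd i f) := by
      rw [Finset.mul_sum, Finset.mul_sum, ← Finset.sum_add_distrib]
      refine Finset.sum_congr rfl fun i _ => ?_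
      rw [(hd i).mul _ hf _ hg, map_add, map_mul, map_mul]
      ring
    rw [this]
    ring
  have hEW : ∀ f ∈ W, E f = 0 := by
    intro f hf
    simp only [hE]
    rw [hT.fix c f hf, hT.fix c _ (hDW f hf), sub_self, zero_add]
    refine Finset.sum_eq_zero fun i _ => ?_
    rw [hdW i f hf, map_zero, mul_zero]
  have hEw : ∀ j, E (w j) = 0 := by
    intro j
    simp only [hE]
    rw [hT.wT, hD.add _ (hT.wF j) _ (F.algebraMap_mem _), hD.alg, add_zero, Finset.sum_eq_single j]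
    · rw [hdw, if_pos rfl, map_one, mul_one, hδ]
      ring
    · intro i _ hij
      rw [hdw, if_neg hij, map_zero, mul_zero]
    · intro h0
      exact absurd (Finset.mem_univ _) h0
  have hEge : ∀ f ∈ F, ∀ r, v.Ge r f → v.Ge r (E f) := by
    intro f hf r hr
    simp only [hE]
    refine ((hD.norm _ (hT.mem c f hf) r (IsoE.ge' (hT.iso c) hr)).sub
      (IsoE.ge' (hT.iso c) (hD.norm f hf r hr))).add (RVal.Ge.sum _ _ fun i _ => ?_)
    have := (hδ0 i).mul (IsoE.ge' (hT.iso c) ((hd i).norm f hf r hr))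
    rwa [zero_add] at this
  have hEneg : ∀ f ∈ F, E (-f) = -E f := by
    intro f hf
    have h0 : E 0 = 0 := hEW 0 (zero_mem _)
    have h1 := hEadd f hf (-f) (neg_mem hf)
    rw [add_neg_cancel, h0] at h1
    exact (neg_eq_of_add_eq_zero_right h1.symm).symm
  let S : Subring Ω :=
    { carrier := {f | f ∈ F ∧ E f = 0}
      mul_mem' := fun {a b} ha hb => ⟨mul_mem ha.1 hb.1, by
        rw [hEmul a ha.1 b hb.1, ha.2, hb.2, mul_zero, mul_zero, add_zero]⟩
      one_mem' := ⟨one_mem _, hEW 1 (one_mem _)⟩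
      add_mem' := fun {a b} ha hb => ⟨add_mem ha.1 hb.1, by
        rw [hEadd a ha.1 b hb.1, ha.2, hb.2, add_zero]⟩
      zero_mem' := ⟨zero_mem _, hEW 0 (zero_mem _)⟩
      neg_mem' := fun {a} ha => ⟨neg_mem ha.1, by rw [hEneg a ha.1, ha.2, neg_zero]⟩ }
  have hS : ∀ q : MvPolynomial (Fin 2) Ω, (∀ g, coeff g q ∈ W) → eval w q ∈ S := by
    intro q hq
    have h1 : ∀ g, coeff g q ∈ S := fun g => ⟨hT.le (hq g), hEW _ (hq g)⟩
    have h2 : ∀ i, w i ∈ S := fun i => ⟨hT.wF i, hEw i⟩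
    exact eval_mem' h1 h2
  have key : E f = 0 := by
    refine eq_zero_of_ge (v := v) fun r => ?_
    obtain ⟨q, hq, h1⟩ := hT.dns f hf r
    obtain ⟨h2, h3⟩ := hS q hq
    have h4 := hEge _ (sub_mem hf h2) r h1
    rw [sub_eq_add_neg, hEadd f hf _ (neg_mem h2), hEneg _ h2, h3, neg_zero, add_zero] at h4
    exact h4
  have h5 : D (T c f) - T c (D f) + ∑ i, δ i * T c (dd i f) = 0 := key
  rw [sub_add_eq_add_sub, sub_eq_zero] at h5
  rw [← h5]
  ring

end comm

/-- Coefficientwise derivation. -/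
noncomputable def Dc (D : Ω → Ω) (f : MvPolynomial (Fin 2) Ω) : MvPolynomial (Fin 2) Ω :=
  ∑ g ∈ f.support, monomial g (D (coeff g f))

theorem coeff_Dc (hD : Drv v F D) (f : MvPolynomial (Fin 2) Ω) (g : Ex) :
    coeff g (Dc D f) = D (coeff g f) := by
  classical
  unfold Dc
  rw [coeff_sum]
  by_cases hg : g ∈ f.support
  · rw [Finset.sum_eq_single_of_mem g hg, coeff_monomial, if_pos rfl]
    intro b _ hb
    rw [coeff_monomial, if_neg hb]
  · rw [Finset.sum_eq_zero, notMem_support_iff.1 hg, hD.map_zero]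
    intro b hb
    rw [coeff_monomial, if_neg]
    rintro rfl
    exact hg hb

theorem eval_Dc (hD : Drv v F D) {f : MvPolynomial (Fin 2) Ω} (hf : ∀ g, coeff g f ∈ F)
    (s : Fin 2 → k) : eval (pt s) (Dc D f) = D (eval (pt s) f) := by
  have hm : ∀ m : Ex, (m.prod fun i e => pt (Ω := Ω) s i ^ e) =
      algebraMap k Ω (m.prod fun i e => s i ^ e) := by
    intro m
    rw [Finsupp.prod, Finsupp.prod, map_prod]
    refine Finset.prod_congr rfl fun i _ => ?_
    rw [map_pow]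
    rfl
  unfold Dc
  rw [map_sum]
  conv_rhs => rw [f.as_sum, map_sum]
  rw [hD.map_sum]
  · refine Finset.sum_congr rfl fun m _ => ?_
    rw [eval_monomial, eval_monomial, hm, mul_comm, mul_comm (coeff m f), hD.map_smul _ (hf m)]
  · intro m _
    rw [eval_monomial, hm]
    exact mul_mem (hf m) (F.algebraMap_mem _)

variable {p : ℕ} [hp : Fact p.Prime] [CharP Ω p] [CharP k p] {κ : ℕ → k} {t : ℕ}

omit hp [CharP k p] in
theorem Drv.map_PP (hD : Drv v F D) {y : Ω} (hy : y ∈ F) : D (PP p κ t y) = 0 := by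
  unfold PP
  rw [hD.map_sum]
  · refine Finset.sum_eq_zero fun i _ => ?_
    rw [hD.map_smul _ (pow_mem hy _), pow_succ, pow_mul, hD.map_pow_char (pow_mem hy _), mul_zero]
  · intro i _
    exact mul_mem (F.algebraMap_mem _) (pow_mem hy _)

omit hp [CharP Ω p] [CharP k p] in
theorem PP_mem {y : Ω} (hy : y ∈ F) : PP p κ t y ∈ F :=
  sum_mem fun _ _ => mul_mem (F.algebraMap_mem _) (pow_mem hy _)

omit [CharP Ω p] [CharP k p] in
theorem ge_PP (hk : Ctx0 k v) {ε : ℝ} (hε : 0 < ε) {y : Ω} (hy : v.Ge (-ε) y) :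
    v.Ge (-(p ^ (t + 1) * ε)) (PP p κ t y) := by
  unfold PP
  refine RVal.Ge.sum _ _ fun i hi => ?_
  have h0 : v.Ge (((p ^ (i + 1) : ℕ) : ℝ) * -ε) (y ^ p ^ (i + 1)) := TWM.ge_pow hy _
  have h1 := (hk.ge (κ i)).mul h0
  refine h1.mono ?_
  have h2 : (p : ℝ) ^ (i + 1) ≤ p ^ (t + 1) := by
    have hp1 : (1 : ℝ) ≤ p := by exact_mod_cast hp.out.one_lt.le
    refine pow_le_pow_right₀ hp1 ?_
    have := Finset.mem_range.1 hi
    omega
  push_cast
  nlinarith

section dpoly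

variable {ι : Type} [Fintype ι] {z : Ω} {n : ι → Ω} {N : ι → MvPolynomial (Fin 2) k}
  {f : MvPolynomial (Fin 2) Ω} {b : ι → Ex}

omit hp [CharP Ω p] [CharP k p] in
theorem natV_sum (hk : Ctx0 k v) (hD : Drv v F D) {n n' : ι → Ω} (hn : ∀ j, Lim v F 0 (n j))
    (hn' : ∀ j, NatV v F D (n j) (n' j)) (M : ι → k) :
    NatV v F D (∑ j, algebraMap k Ω (M j) * n j) (∑ j, algebraMap k Ω (M j) * n' j) := by
  intro ε hε g hg hgy
  choose f hf hfn using fun j => Lim.neg_eps (hn j) hε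
  have hsF : ∀ j ∈ (Finset.univ : Finset ι), algebraMap k Ω (M j) * f j ∈ F :=
    fun j _ => mul_mem (F.algebraMap_mem _) (hf j)
  have h1 : v.Ge (-ε) (∑ j, algebraMap k Ω (M j) * f j - g) := by
    have e : ∑ j, algebraMap k Ω (M j) * f j - g = (∑ j, algebraMap k Ω (M j) * n j - g) -
        ∑ j, algebraMap k Ω (M j) * (n j - f j) := by
      simp only [mul_sub, Finset.sum_sub_distrib]
      ring
    rw [e]
    exact hgy.sub (ge_sum_smul hk M hfn)
  have h2 := hD.norm _ (sub_mem (sum_mem hsF) hg) _ h1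
  rw [hD.map_sub (sum_mem hsF) hg, hD.map_sum _ hsF] at h2
  have h3 := ge_sum_smul hk M fun j => hn' j ε hε _ (hf j) (hfn j)
  have h4 := h3.add h2
  convert h4 using 1
  simp only [mul_sub, Finset.sum_sub_distrib]
  have : ∑ j, D (algebraMap k Ω (M j) * f j) = ∑ j, algebraMap k Ω (M j) * D (f j) :=
    Finset.sum_congr rfl fun j _ => hD.map_smul _ (hf j)
  rw [this]
  ring

/-- `d(s) = e (Σ N_j(s) n'_j + D f(s)) + ξ P(u(s)) + D A(s)`. -/
noncomputable def dP (p : ℕ) (D : Ω → Ω) (ξ : Ω) (e : k) (κ : ℕ → k) (t : ℕ) (n n' : ι → Ω)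
    (N : ι → MvPolynomial (Fin 2) k) (f A : MvPolynomial (Fin 2) Ω) : MvPolynomial (Fin 2) Ω :=
  C (algebraMap k Ω e) * (∑ j, C (n' j) * MvPolynomial.map (algebraMap k Ω) (N j) + Dc D f) +
    C ξ * PP p κ t (uu n N f) + Dc D A

omit hp [CharP Ω p] [CharP k p] in
theorem eval_PP (s : Fin 2 → k) (g : MvPolynomial (Fin 2) Ω) :
    eval (pt s) (PP p κ t g) = PP p κ t (eval (pt s) g) := by
  unfold PP
  rw [map_sum]
  refine Finset.sum_congr rfl fun i _ => ?_
  rw [map_mul, map_pow]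
  congr 1
  rw [IsScalarTower.algebraMap_apply k Ω (MvPolynomial (Fin 2) Ω), algebraMap_eq, eval_C]

omit hp [CharP Ω p] [CharP k p] in
theorem eval_dP (hD : Drv v F D) {n' : ι → Ω} {e : k} {ξ : Ω} {A : MvPolynomial (Fin 2) Ω}
    (hf : ∀ g, coeff g f ∈ F) (hA : ∀ g, coeff g A ∈ F) (s : Fin 2 → k) :
    eval (pt s) (dP p D ξ e κ t n n' N f A) =
    algebraMap k Ω e * (∑ j, algebraMap k Ω (eval s (N j)) * n' j + D (eval (pt s) f)) +
      ξ * PP p κ t (∑ j, algebraMap k Ω (eval s (N j)) * n j + eval (pt s) f) +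
      D (eval (pt s) A) := by
  unfold dP
  rw [map_add, map_add, map_mul, map_mul, eval_C, eval_C, map_add, eval_Dc hD hf, eval_Dc hD hA,
    eval_PP, eval_uu, map_sum]
  congr 4
  refine Finset.sum_congr rfl fun j _ => ?_
  rw [map_mul, eval_C, eval_pt_map, mul_comm]

variable [DecidableEq ι]

omit [CharP k p] in
/-- The values of `d` are integral. -/
theorem tie_ge_pt (hk : Ctx0 k v) (hT : Trn v W F w T) (h : Shp v F T z n N f b)
    {x a₀ : Ω} {e : k} {A : MvPolynomial (Fin 2) Ω} (ht : TieD p v W F T x z a₀ e κ t A)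
    (hD : Drv v F D) (hx : v.Ge 0 (D x)) {n' : ι → Ω} (hn' : ∀ j, NatV v F D (n j) (n' j))
    (c : Fin 2 → k) : v.Ge 0 (eval (pt c) (dP p D (D x) e κ t n n' N f A)) := by
  have hp0 : (0 : ℝ) < p ^ (t + 1) := by
    have : (0 : ℝ) < p := by exact_mod_cast hp.out.pos
    positivity
  refine ge_zero_of_eps' hp0 fun ε hε => ?_
  obtain ⟨θ, hθ, h1, g, hg, h2⟩ := ht.tie ε hε
  have hxF : x ∈ F := hT.le ht.xW
  set y := T c θ - θ with hy
  have hyF : y ∈ F := sub_mem (hT.mem c θ hθ) hθ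
  have hfc : eval (pt c) f ∈ F := eval_pt_mem h.fF c
  have hAc : eval (pt c) A ∈ F := eval_pt_mem ht.AF c
  have hPPF : PP p κ t y ∈ F := PP_mem hyF
  set gp := T c g - g with hgp
  have hgF : gp ∈ F := sub_mem (hT.mem c g hg) hg
  set R := algebraMap k Ω e * y + x * PP p κ t y + eval (pt c) A - gp ^ p with hR
  have hR1 : v.Ge (-ε) R := by
    have e1 : R = T c (algebraMap k Ω e * θ + x * PP p κ t θ + a₀ - g ^ p) -
        (algebraMap k Ω e * θ + x * PP p κ t θ + a₀ - g ^ p) := by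
      rw [hR, hy, hgp, sub_pow_char, PP_sub, map_sub, map_add, map_add, map_mul, map_mul,
        AlgHom.commutes, hT.fix c x ht.xW, ht.AT c, PP_map, map_pow]
      ring
    rw [e1]
    exact (IsoE.ge' (hT.iso c) h2).sub h2
  have hm1 : algebraMap k Ω e * y ∈ F := mul_mem (F.algebraMap_mem _) hyF
  have hm2 : x * PP p κ t y ∈ F := mul_mem hxF hPPF
  have hRF : R ∈ F := sub_mem (add_mem (add_mem hm1 hm2) hAc) (pow_mem hgF p)
  have hDR := hD.norm R hRF _ hR1
  have e2 : D R = algebraMap k Ω e * D y + D x * PP p κ t y + D (eval (pt c) A) := by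
    rw [hR, hD.map_sub (add_mem (add_mem hm1 hm2) hAc) (pow_mem hgF p), hD.map_pow_char hgF,
      sub_zero, hD.add _ (add_mem hm1 hm2) _ hAc, hD.add _ hm1 _ hm2, hD.map_smul _ hyF,
      hD.mul x hxF _ hPPF, hD.map_PP hyF, mul_zero, zero_add, mul_comm (PP p κ t y)]
  have h3 : v.Ge (-ε) (eval (pt c) (uu n N f) - y) := by
    have h4 := h.jet c
    have e3 : eval (pt c) (uu n N f) - y = -(T c z - z - eval (pt c) (uu n N f)) +
        (T c (z - θ) - (z - θ)) := by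
      rw [hy, map_sub]
      ring
    rw [e3]
    exact ((h4.mono (by linarith)).neg).add ((IsoE.ge' (hT.iso c) h1).sub h1)
  rw [eval_uu] at h3
  have h5 : v.Ge (-ε) (∑ j, algebraMap k Ω (eval c (N j)) * n' j - D (y - eval (pt c) f)) := by
    refine natV_sum hk hD h.lim hn' (fun j => eval c (N j)) ε hε _ (sub_mem hyF hfc) ?_
    convert h3 using 1
    ring
  rw [hD.map_sub hyF hfc] at h5
  have h6 := ge_PP (p := p) (κ := κ) (t := t) hk hε h3
  rw [PP_sub] at h6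
  have hle : -(p ^ (t + 1) * ε) ≤ -ε := by
    have : (1 : ℝ) ≤ p ^ (t + 1) := by
      have hp1 : (1 : ℝ) ≤ p := by exact_mod_cast hp.out.one_lt.le
      exact one_le_pow₀ hp1
    nlinarith
  have h7 := (hk.ge e).mul h5
  have h8 := hx.mul h6
  rw [zero_add] at h7 h8
  have h9 := ((hDR.mono hle).add (h7.mono hle)).add h8
  rw [eval_dP hD h.fF ht.AF]
  convert h9 using 1
  rw [e2]
  ring

omit [CharP k p] in
theorem tie_ge [Infinite k] (hk : Ctx0 k v) (hT : Trn v W F w T) (h : Shp v F T z n N f b)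
    {x a₀ : Ω} {e : k} {A : MvPolynomial (Fin 2) Ω} (ht : TieD p v W F T x z a₀ e κ t A)
    (hD : Drv v F D) (hx : v.Ge 0 (D x)) {n' : ι → Ω} (hn' : ∀ j, NatV v F D (n j) (n' j))
    (g : Ex) : v.Ge 0 (coeff g (dP p D (D x) e κ t n n' N f A)) :=
  ge_coeff hk (fun c => tie_ge_pt hk hT h ht hD hx hn' c) g

end dpoly

end Pool.Agent.TWCY
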