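import Pool.Agent.Lib.TWCY.Der

/-!
# CT, j = 1, J1.3: the shape of `z`, from the jets and the tie

* `JDns v F T`: the orbit map `c ↦ T c f` of `f ∈ F` is near a polynomial over `F` (`Trn.jdns`);
* `Jt v F T z g y`: `y` is the jet of index `g` of the limit `z` (modulo `O_0`), `exists_jt`;
* `TieD.fin`: **the shape is finite**: almost all the jets of `z` are in `O_0`, from the tie;
* `exists_shp`: **the shape of `z`**, the noises are a basis of the jets modulo `F + O_0`.
-/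

set_option autoImplicit false

open MvPolynomial

namespace Pool.Agent.TWCY

open Pool.Agent.H15JM (RVal)
open Pool.Agent.LU1 (VPos)
open Pool.Agent.D2 (Ctx0)
open Pool.Agent.TWM
open Pool.Agent.TWS (IsoE SphC)
open Pool.Agent.TWLY

universe u

variable {k Ω : Type u} [Field k] [Field Ω] [Algebra k Ω] {v : RVal Ω}
  {W F : IntermediateField k Ω} {w : Fin 2 → Ω} {T : (Fin 2 → k) → Ω →ₐ[k] Ω} {z : Ω}

/-! ### The orbit polynomials -/

/-- The orbit map of `f ∈ F` is near a polynomial over `F`. -/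
def JDns (v : RVal Ω) (F : IntermediateField k Ω) (T : (Fin 2 → k) → Ω →ₐ[k] Ω) : Prop :=
  ∀ f ∈ F, ∀ r : ℝ, ∃ A : MvPolynomial (Fin 2) Ω, (∀ g, coeff g A ∈ F) ∧
    ∀ c, v.Ge r (T c f - eval (pt c) A)

/-- The polynomials over `F`, a subring. -/
def PI2 (F : IntermediateField k Ω) : Subring (MvPolynomial (Fin 2) Ω) where
  carrier := {A | ∀ g, coeff g A ∈ F}
  mul_mem' := by
    intro f g hf hg n
    classical
    rw [coeff_mul]
    exact sum_mem fun x _ => mul_mem (hf _) (hg _)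
  one_mem' := by
    intro n
    classical
    rw [coeff_one]
    split_ifs
    exacts [one_mem _, zero_mem _]
  add_mem' := by
    intro f g hf hg n
    rw [coeff_add]
    exact add_mem (hf n) (hg n)
  zero_mem' := by
    intro n
    rw [coeff_zero]
    exact zero_mem _
  neg_mem' := by
    intro f hf n
    rw [coeff_neg]
    exact neg_mem (hf n)

theorem mem_PI2 {A : MvPolynomial (Fin 2) Ω} : A ∈ PI2 F ↔ ∀ g, coeff g A ∈ F := Iff.rfl

theorem C_mem_PI2 {a : Ω} (ha : a ∈ F) : (C a : MvPolynomial (Fin 2) Ω) ∈ PI2 F := by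
  classical
  intro g
  rw [coeff_C]
  split_ifs
  exacts [ha, zero_mem _]

theorem X_mem_PI2 (i : Fin 2) : (X i : MvPolynomial (Fin 2) Ω) ∈ PI2 F := by
  classical
  intro g
  rw [coeff_X]
  split_ifs
  exacts [one_mem _, zero_mem _]

/-- The orbits are near polynomials over `F`. -/
theorem Trn.jdns (hT : Trn v W F w T) : JDns v F T := by
  intro f hf r
  obtain ⟨P, hP, hPf⟩ := hT.dns f hf r
  refine ⟨eval₂ (C : Ω →+* MvPolynomial (Fin 2) Ω) (fun i => C (w i) + X i) P, ?_, fun c => ?_⟩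
  · rw [← mem_PI2, eval₂_eq']
    refine sum_mem fun g _ => mul_mem (C_mem_PI2 (hT.le (hP g))) (prod_mem fun i _ =>
      pow_mem (add_mem (C_mem_PI2 (hT.wF i)) (X_mem_PI2 i)) _)
  · have e1 : T c (eval w P) = eval (pt c) (eval₂ (C : Ω →+* MvPolynomial (Fin 2) Ω)
        (fun i => C (w i) + X i) P) := by
      rw [eval_eq', eval₂_eq', map_sum, map_sum]
      refine Finset.sum_congr rfl fun g _ => ?_
      rw [map_mul, map_mul, hT.fix c _ (hP g), eval_C, map_prod, map_prod]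
      congr 1
      refine Finset.prod_congr rfl fun i _ => ?_
      rw [map_pow, map_pow, hT.wT, map_add, eval_C, eval_X]
      rfl
    rw [← e1, ← map_sub]
    exact (hT.iso c).ge_iff.2 hPf

/-! ### The jets -/

/-- `y` is the jet of index `g` of `z`, modulo `O_0`. -/
def Jt (v : RVal Ω) (F : IntermediateField k Ω) (T : (Fin 2 → k) → Ω →ₐ[k] Ω) (z : Ω) (g : Ex)
    (y : Ω) : Prop :=
  ∀ ε : ℝ, 0 < ε → ∀ θ ∈ F, v.Ge (-ε) (z - θ) → ∀ A : MvPolynomial (Fin 2) Ω,
    (∀ c, v.Ge (-ε) (T c θ - eval (pt c) A)) → v.Ge (-ε) (y - coeff g A)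

/-- Two orbit polynomials of two approximations. -/
theorem orb_sub [Infinite k] (hk : Ctx0 k v) (hT : ∀ c, IsoE v v (T c)) {ε : ℝ} {θ θ' : Ω}
    (h : v.Ge (-ε) (z - θ)) (h' : v.Ge (-ε) (z - θ')) {A A' : MvPolynomial (Fin 2) Ω}
    (hA : ∀ c, v.Ge (-ε) (T c θ - eval (pt c) A)) (hA' : ∀ c, v.Ge (-ε) (T c θ' - eval (pt c) A'))
    (g : Ex) : v.Ge (-ε) (coeff g A - coeff g A') := by
  rw [← coeff_sub]
  refine ge_coeff hk (fun c => ?_) g
  have e : eval (pt c) (A - A') = (T c θ' - eval (pt c) A') - (T c θ - eval (pt c) A) +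
      T c ((z - θ') - (z - θ)) := by
    rw [map_sub, map_sub, map_sub, map_sub]
    ring
  rw [e]
  exact ((hA' c).sub (hA c)).add ((hT c).ge_iff.2 (h'.sub h))

/-- **The jets exist.** -/
theorem exists_jt [Infinite k] (hk : Ctx0 k v) (hs : SphC v) (hT : Trn v W F w T)
    (hz : Lim v F 0 z) (g : Ex) : ∃ y : Ω, Lim v F 0 y ∧ Jt v F T z g y := by
  have hpos : ∀ n : ℕ, (0 : ℝ) < 1 / ((n : ℝ) + 1) := fun n => Nat.one_div_pos_of_nat
  have h1 : ∀ n : ℕ, ∃ θ ∈ F, v.Ge (-(1 / ((n : ℝ) + 1))) (z - θ) := fun n =>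
    Lim.neg_eps hz (hpos n)
  choose θ hθ hzθ using h1
  choose A hA hAθ using fun n : ℕ => hT.jdns (θ n) (hθ n) 0
  have hle : ∀ n m : ℕ, n ≤ m → (1 : ℝ) / ((m : ℝ) + 1) ≤ 1 / ((n : ℝ) + 1) := fun n m h =>
    Nat.one_div_le_one_div h
  obtain ⟨y, hy⟩ := hs (fun n => coeff g (A n)) (fun n => -(1 / ((n : ℝ) + 1))) (fun n m h => by
    refine orb_sub hk hT.iso ((hzθ m).mono ?_) (hzθ n) (fun c => (hAθ m c).mono ?_)
      (fun c => (hAθ n c).mono ?_) g
    · linarith [hle n m h]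
    · linarith [hpos n]
    · linarith [hpos n])
  have hlim : ∀ ε : ℝ, 0 < ε → ∃ n : ℕ, 1 / ((n : ℝ) + 1) ≤ ε := fun ε hε =>
    (exists_nat_one_div_lt hε).imp fun n h => h.le
  refine ⟨y, fun ε hε => ?_, fun ε hε θ' hθ' hz' A' hA' => ?_⟩
  · obtain ⟨n, hn⟩ := hlim ε hε
    exact ⟨coeff g (A n), hA n g, (hy n).mono (by linarith)⟩
  · obtain ⟨n, hn⟩ := hlim ε hε
    have h2 := orb_sub hk hT.iso ((hzθ n).mono (by linarith : -ε ≤ -(1 / ((n : ℝ) + 1)))) hz'
      (fun c => (hAθ n c).mono (by linarith)) hA' g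
    have e : y - coeff g A' = (y - coeff g (A n)) + (coeff g (A n) - coeff g A') := by ring
    rw [e]
    exact ((hy n).mono (by linarith)).add h2

theorem Jt.unique [Infinite k] (hT : Trn v W F w T) (hz : Lim v F 0 z) {g : Ex} {y y' : Ω}
    (h : Jt v F T z g y) (h' : Jt v F T z g y') : v.Ge 0 (y - y') := by
  refine ge_zero_of_eps fun ε hε => ?_
  obtain ⟨θ, hθ, h1⟩ := Lim.neg_eps hz hε
  obtain ⟨A, hA, h2⟩ := hT.jdns θ hθ (-ε)
  have h3 := (h ε hε θ hθ h1 A h2).sub (h' ε hε θ hθ h1 A h2)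
  rwa [sub_sub_sub_cancel_right] at h3

/-! ### The shape is finite -/

section fin

variable {p : ℕ} [hp : Fact p.Prime] [CharP Ω p] {κ : ℕ → k} {t : ℕ}

omit [CharP Ω p] in
theorem ge_PP_nonneg (hk : Ctx0 k v) {R : ℝ} (hR : 0 ≤ R) {y : Ω} (hy : v.Ge R y) :
    v.Ge R (PP p κ t y) := by
  unfold PP
  refine RVal.Ge.sum _ _ fun i _ => ?_
  refine ((hk.ge (κ i)).mul (TWM.ge_pow hy (p ^ (i + 1)))).mono ?_
  have h1 : (1 : ℝ) ≤ ((p ^ (i + 1) : ℕ) : ℝ) := by
    exact_mod_cast Nat.one_le_pow _ _ hp.out.pos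
  nlinarith

omit hp in
theorem Drv.map_PP' {D : Ω → Ω} (hD : Drv v F D) {c : ℕ → Ω} (hc : ∀ i, c i ∈ F) :
    D (∑ i ∈ Finset.range (t + 1), algebraMap k Ω (κ i) * c i ^ p ^ (i + 1)) = 0 := by
  rw [hD.map_sum _ fun i _ => mul_mem (F.algebraMap_mem _) (pow_mem (hc i) _)]
  refine Finset.sum_eq_zero fun i _ => ?_
  rw [hD.map_smul _ (pow_mem (hc i) _), pow_succ, pow_mul,
    hD.map_pow_char (pow_mem (hc i) _), mul_zero]

theorem dg_pow_smul (j : ℕ) {g : Ex} (hj : j ≠ 0) (hg : 0 < dg g) : dg g < dg (p ^ j • g) := by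
  rw [dg_smul]
  have h1 : 2 ≤ p ^ j := hp.out.two_le.trans (Nat.le_self_pow hj p)
  nlinarith

/-- The relation between the coefficients of an orbit polynomial of an approximation of `z`. -/
theorem TieD.rel_coeff [Infinite k] (hk : Ctx0 k v) (hT : Trn v W F w T) {D : Ω → Ω}
    (hD : Drv v F D) {x a₀ : Ω} {e : k} {A : MvPolynomial (Fin 2) Ω}
    (h : TieD p v W F T x z a₀ e κ t A) {B : ℕ} (hB : ∀ g, B < dg g → coeff g A = 0)
    {ε : ℝ} (hε : 0 < ε) : ∃ θ ∈ F, v.Ge (-ε) (z - θ) ∧ ∃ P : MvPolynomial (Fin 2) Ω,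
      (∀ g, coeff g P ∈ F) ∧ (∀ c, v.Ge 0 (T c θ - eval (pt c) P)) ∧ ∀ g, B < dg g →
        v.Ge (-ε) (algebraMap k Ω e * D (coeff (p ^ (t + 1) • g) P) +
          (∑ i ∈ Finset.range (t + 1), algebraMap k Ω (κ i) *
            coeff (p ^ (t - i) • g) P ^ p ^ (i + 1)) * D x) := by
  obtain ⟨θ, hθ, hzθ, m, hm, htie⟩ := h.tie ε hε
  obtain ⟨P, hP, hPT⟩ := hT.jdns θ hθ |v x|
  obtain ⟨H, hH, hHT⟩ := hT.jdns m hm 0
  refine ⟨θ, hθ, hzθ, P, hP, fun c => (hPT c).mono (abs_nonneg _), fun g hg => ?_⟩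
  set E : MvPolynomial (Fin 2) Ω := C (algebraMap k Ω e) * P +
    C x * (∑ i ∈ Finset.range (t + 1), C (algebraMap k Ω (κ i)) * P ^ p ^ (i + 1)) +
    (C a₀ + A) - H ^ p with hE
  -- the values of `E`
  have h1 : ∀ c : Fin 2 → k, v.Ge (-ε) (eval (pt c) E) := by
    intro c
    have e1 : eval (pt c) E = algebraMap k Ω e * eval (pt c) P + x * PP p κ t (eval (pt c) P) +
        (a₀ + eval (pt c) A) - eval (pt c) H ^ p := by
      rw [hE]
      unfold PP
      simp only [map_sub, map_add, map_mul, map_pow, map_sum, eval_C]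
    have e2 : T c (algebraMap k Ω e * θ + x * PP p κ t θ + a₀ - m ^ p) =
        algebraMap k Ω e * T c θ + x * PP p κ t (T c θ) + (a₀ + eval (pt c) A) - T c m ^ p := by
      rw [map_sub, map_add, map_add, map_mul, map_mul, AlgHom.commutes, PP_map, map_pow,
        hT.fix c x h.xW, h.AT c]
    have e3 : eval (pt c) E = T c (algebraMap k Ω e * θ + x * PP p κ t θ + a₀ - m ^ p) -
        algebraMap k Ω e * (T c θ - eval (pt c) P) -
        x * PP p κ t (T c θ - eval (pt c) P) + (T c m - eval (pt c) H) ^ p := by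
      rw [e1, e2, PP_sub, sub_pow_char]
      ring
    rw [e3]
    refine (((((hT.iso c).ge_iff.2 htie).sub ?_).sub ?_).add ?_)
    · refine ((hk.ge e).mul (hPT c)).mono ?_
      have := abs_nonneg (v x)
      linarith
    · by_cases hx0 : x = 0
      · rw [hx0, zero_mul]; exact RVal.Ge.zero
      · refine ((RVal.Ge.of_le (le_refl (v x))).mul
          (ge_PP_nonneg hk (abs_nonneg _) (hPT c))).mono ?_
        have := neg_abs_le (v x)
        linarith
    · refine (TWM.ge_pow (hHT c) p).mono ?_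
      simp [hε.le]
  have h2 := ge_coeff hk h1 (p ^ (t + 1) • g)
  have hg0 : p ^ (t + 1) • g ≠ 0 := by
    intro h0
    have h3 : dg (p ^ (t + 1) • g) = 0 := dg_eq_zero.2 h0
    rw [dg_smul] at h3
    rcases Nat.mul_eq_zero.1 h3 with h4 | h4
    · exact (pow_ne_zero _ hp.out.ne_zero) h4
    · omega
  have e4 : coeff (p ^ (t + 1) • g) E = algebraMap k Ω e * coeff (p ^ (t + 1) • g) P +
      x * (∑ i ∈ Finset.range (t + 1), algebraMap k Ω (κ i) *
        coeff (p ^ (t - i) • g) P ^ p ^ (i + 1)) - coeff (p ^ t • g) H ^ p := by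
    rw [hE, coeff_sub, coeff_add, coeff_add, coeff_add, coeff_C_mul, coeff_C_mul, coeff_sum,
      coeff_C, if_neg (Ne.symm hg0), hB (p ^ (t + 1) • g)
        (hg.trans (dg_pow_smul (t + 1) (by omega) (by omega))), add_zero, add_zero]
    congr 1
    · congr 2
      refine Finset.sum_congr rfl fun i hi => ?_
      have hi' : i + 1 + (t - i) = t + 1 := by
        have := Finset.mem_range.1 hi
        omega
      rw [coeff_C_mul, ← hi', pow_add, mul_smul, coeff_pow_smul]
    · have e5 : p ^ (t + 1) • g = p ^ 1 • (p ^ t • g) := by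
        rw [smul_smul, ← pow_add, add_comm]
      have e6 := coeff_pow_smul p H 1 (p ^ t • g)
      rw [← e5, pow_one] at e6
      exact e6
  rw [e4] at h2
  have hxF : x ∈ F := hT.le h.xW
  have hSF : (∑ i ∈ Finset.range (t + 1), algebraMap k Ω (κ i) *
      coeff (p ^ (t - i) • g) P ^ p ^ (i + 1)) ∈ F :=
    sum_mem fun i _ => mul_mem (F.algebraMap_mem _) (pow_mem (hP _) _)
  have h3 := hD.norm _ (sub_mem (add_mem (mul_mem (F.algebraMap_mem _) (hP _))
    (mul_mem hxF hSF)) (pow_mem (hH _) p)) _ h2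
  rw [hD.map_sub (add_mem (mul_mem (F.algebraMap_mem _) (hP _)) (mul_mem hxF hSF))
    (pow_mem (hH _) p), hD.map_pow_char (hH _), sub_zero,
    hD.add _ (mul_mem (F.algebraMap_mem _) (hP _)) _ (mul_mem hxF hSF), hD.map_smul _ (hP _),
    hD.mul _ hxF _ hSF, hD.map_PP' fun i => hP (p ^ (t - i) • g), mul_zero, zero_add] at h3
  exact h3

/-- **The coefficients of high degree are small.** -/
theorem TieD.small [Infinite k] (hk : Ctx0 k v) (hT : Trn v W F w T) {D : Ω → Ω}
    (hD : Drv v F D) {x a₀ : Ω} (hx0 : D x ≠ 0) (hx : v (D x) = 0) {e : k}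
    {A : MvPolynomial (Fin 2) Ω} (h : TieD p v W F T x z a₀ e κ t A) {B : ℕ}
    (hB : ∀ g, B < dg g → coeff g A = 0) {ε : ℝ} (hε : 0 < ε) :
    ∃ θ ∈ F, v.Ge (-ε) (z - θ) ∧ ∃ P : MvPolynomial (Fin 2) Ω,
      (∀ g, coeff g P ∈ F) ∧ (∀ c, v.Ge 0 (T c θ - eval (pt c) P)) ∧ ∀ g, B < dg g →
        v.Ge (-ε) (coeff g P) := by
  obtain ⟨θ, hθ, hzθ, P, hP, hPT, hrel⟩ := h.rel_coeff hk hT hD hB hε
  refine ⟨θ, hθ, hzθ, P, hP, hPT, ?_⟩
  obtain ⟨M, hM⟩ : ∃ M : ℕ, ∀ g ∈ P.support, dg g ≤ M :=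
    ⟨P.support.sup dg, fun g hg => Finset.le_sup hg⟩
  have key : ∀ m : ℕ, ∀ g, B < dg g → M < dg g + m → v.Ge (-ε) (coeff g P) := by
    intro m
    induction m with
    | zero =>
      intro g _ hg
      rw [notMem_support_iff.1 fun h1 => absurd (hM g h1) (by omega)]
      exact RVal.Ge.zero
    | succ m ih =>
      intro g hg hgM
      have hpos : 0 < dg g := by omega
      have h1 : ∀ j, j ≠ 0 → v.Ge (-ε) (coeff (p ^ j • g) P) := fun j hj => by
        have := dg_pow_smul (p := p) j hj hpos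
        exact ih _ (by omega) (by omega)
      have h2 := (hrel g hg).sub (((hk.ge e).mul (hD.norm _ (hP _) _
        (h1 (t + 1) (by omega)))).mono (by linarith : -ε ≤ 0 + -ε))
      rw [add_sub_cancel_left] at h2
      -- divide by `D x`
      have h3 : v.Ge (-ε) (∑ i ∈ Finset.range (t + 1), algebraMap k Ω (κ i) *
            coeff (p ^ (t - i) • g) P ^ p ^ (i + 1)) := by
        have h4 := h2.mul (RVal.Ge.of_le (v.map_inv hx0).ge : v.Ge (-v (D x)) (D x)⁻¹)
        rw [mul_assoc, mul_inv_cancel₀ hx0, mul_one, hx] at h4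
        exact h4.mono (by linarith)
      have hpt : (1 : ℝ) ≤ (p : ℝ) ^ t := one_le_pow₀ (by exact_mod_cast hp.out.one_lt.le)
      have h5 : v.Ge (-((p : ℝ) ^ t * ε)) (algebraMap k Ω (κ t) * coeff g P ^ p ^ (t + 1)) := by
        rw [Finset.sum_range_succ, Nat.sub_self, pow_zero, one_smul] at h3
        have h6 : v.Ge (-((p : ℝ) ^ t * ε)) (∑ i ∈ Finset.range t, algebraMap k Ω (κ i) *
            coeff (p ^ (t - i) • g) P ^ p ^ (i + 1)) := by
          refine RVal.Ge.sum _ _ fun i hi => ?_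
          have hi' := Finset.mem_range.1 hi
          refine ((hk.ge (κ i)).mul (TWM.ge_pow (h1 (t - i) (by omega)) (p ^ (i + 1)))).mono ?_
          have h7 : (p : ℝ) ^ (i + 1) ≤ (p : ℝ) ^ t :=
            pow_le_pow_right₀ (by exact_mod_cast hp.out.one_lt.le) (by omega)
          push_cast
          nlinarith
        have h8 := (h3.mono (by nlinarith : -((p : ℝ) ^ t * ε) ≤ -ε)).sub h6
        rwa [add_sub_cancel_left] at h8
      intro hne
      have hκ : algebraMap k Ω (κ t) ≠ 0 := by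
        rw [Ne, _root_.map_eq_zero]
        exact h.kap
      have h9 := h5 (mul_ne_zero hκ (pow_ne_zero _ hne))
      rw [v.map_mul hκ (pow_ne_zero _ hne), hk.triv _ h.kap, v.map_pow hne, zero_add] at h9
      push_cast at h9
      by_contra hcon
      push Not at hcon
      have h10 : (p : ℝ) ^ (t + 1) * v (coeff g P) < (p : ℝ) ^ (t + 1) * (-ε) :=
        mul_lt_mul_of_pos_left hcon (pow_pos (by exact_mod_cast hp.out.pos) _)
      have h11 : (p : ℝ) ^ t ≤ (p : ℝ) ^ (t + 1) :=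
        pow_le_pow_right₀ (by exact_mod_cast hp.out.one_lt.le) (by omega)
      nlinarith
  intro g hg
  exact key (M + 1) g hg (by omega)

/-- **The shape is finite.** -/
theorem TieD.fin [Infinite k] (hk : Ctx0 k v) (hT : Trn v W F w T) {D : Ω → Ω}
    (hD : Drv v F D) {x a₀ : Ω} (hx0 : D x ≠ 0) (hx : v (D x) = 0) {e : k}
    {A : MvPolynomial (Fin 2) Ω} (h : TieD p v W F T x z a₀ e κ t A) {B : ℕ}
    (hB : ∀ g, B < dg g → coeff g A = 0) {g : Ex} (hg : B < dg g) {y : Ω}
    (hy : Jt v F T z g y) : v.Ge 0 y := by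
  refine ge_zero_of_eps fun ε hε => ?_
  obtain ⟨θ, hθ, hzθ, P, hP, hPT, h1⟩ := h.small hk hT hD hx0 hx hB hε
  have h2 := (hy ε hε θ hθ hzθ P fun c => (hPT c).mono (by linarith)).add (h1 g hg)
  rwa [sub_add_cancel] at h2

end fin

/-! ### The shape -/

/-- `F + O_0`, a subspace. -/
def nrS (hk : Ctx0 k v) (F : IntermediateField k Ω) : Submodule k Ω where
  carrier := {x | Nr v F 0 x}
  add_mem' := by
    rintro a b ⟨f, hf, h⟩ ⟨g, hg, h'⟩
    exact ⟨f + g, add_mem hf hg, by rw [add_sub_add_comm]; exact h.add h'⟩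
  zero_mem' := ⟨0, zero_mem _, by rw [sub_zero]; exact RVal.Ge.zero⟩
  smul_mem' := by
    rintro c a ⟨f, hf, h⟩
    refine ⟨c • f, by rw [Algebra.smul_def]; exact mul_mem (F.algebraMap_mem _) hf, ?_⟩
    rw [← smul_sub, Algebra.smul_def]
    exact ((hk.ge c).mul h).mono (by linarith)

theorem mem_nrS {hk : Ctx0 k v} {x : Ω} : x ∈ nrS hk F ↔ Nr v F 0 x := Iff.rfl

/-- A basis of finitely many jets modulo `F + O_0`, and the coordinates of the others. -/
theorem exists_basis (hk : Ctx0 k v) (S : Finset Ex) (y : Ex → Ω) :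
    ∃ (m : ℕ) (b : Fin m → Ex) (cc : Ex → Fin m → k) (ff : Ex → Ω),
      (∀ j, b j ∈ S) ∧
      (∀ c : Fin m → k, Nr v F 0 (∑ j, algebraMap k Ω (c j) * y (b j)) → ∀ j, c j = 0) ∧
      (∀ g, ff g ∈ F) ∧ (∀ g, g ∉ S → cc g = 0 ∧ ff g = 0) ∧
      (∀ g ∈ S, v.Ge 0 (y g - ∑ j, algebraMap k Ω (cc g j) * y (b j) - ff g)) ∧
      ∀ i j, cc (b j) i = (if i = j then 1 else 0) ∧ ff (b j) = 0 := by
  classical
  let π := (nrS hk F).mkQ
  obtain ⟨κ, a, ha, hsp, hli⟩ := exists_linearIndependent' k (fun g : S => π (y g.1))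
  have : Finite κ := Finite.of_injective a ha
  obtain ⟨m, ⟨σ⟩⟩ := Finite.exists_equiv_fin κ
  let b : Fin m → Ex := fun j => (a (σ.symm j)).1
  have hbS : ∀ j, b j ∈ S := fun j => (a (σ.symm j)).2
  have hbi : Function.Injective b := fun i j h =>
    σ.symm.injective (ha (Subtype.ext h))
  have hli' : LinearIndependent k fun j : Fin m => π (y (b j)) :=
    hli.comp σ.symm σ.symm.injective
  have hsp' : ∀ g ∈ S, π (y g) ∈ Submodule.span k (Set.range fun j : Fin m => π (y (b j))) := by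
    intro g hg
    have e1 : Set.range (fun j : Fin m => π (y (b j))) =
        Set.range ((fun g : S => π (y g.1)) ∘ a) := by
      ext q
      constructor
      · rintro ⟨j, rfl⟩
        exact ⟨σ.symm j, rfl⟩
      · rintro ⟨j, rfl⟩
        exact ⟨σ j, by simp [b]⟩
    rw [e1, hsp]
    exact Submodule.subset_span ⟨⟨g, hg⟩, rfl⟩
  have key : ∀ g, ∃ (c : Fin m → k) (f : Ω), f ∈ F ∧ (g ∉ S → c = 0 ∧ f = 0) ∧
      (g ∈ S → v.Ge 0 (y g - ∑ j, algebraMap k Ω (c j) * y (b j) - f)) ∧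
      ∀ i j, g = b j → c i = (if i = j then 1 else 0) ∧ f = 0 := by
    intro g
    by_cases hgb : ∃ j, g = b j
    · obtain ⟨j, rfl⟩ := hgb
      refine ⟨fun i => if i = j then 1 else 0, 0, zero_mem _, fun h => absurd (hbS j) h,
        fun _ => ?_, fun i i' h => ?_⟩
      · rw [Finset.sum_eq_single j]
        · beta_reduce
          rw [if_pos rfl, map_one, one_mul, sub_self, sub_zero]
          exact RVal.Ge.zero
        · intro i _ hi
          beta_reduce
          rw [if_neg hi, map_zero, zero_mul]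
        · intro h
          exact absurd (Finset.mem_univ j) h
      · rw [hbi h]
        exact ⟨rfl, rfl⟩
    · by_cases hg : g ∈ S
      · obtain ⟨c, hc⟩ := (Submodule.mem_span_range_iff_exists_fun k).1 (hsp' g hg)
        have h1 : π (y g - ∑ j, algebraMap k Ω (c j) * y (b j)) = 0 := by
          rw [map_sub, map_sum, ← hc, sub_eq_zero]
          refine Finset.sum_congr rfl fun j _ => ?_
          rw [← Algebra.smul_def, map_smul]
        have h2 : y g - ∑ j, algebraMap k Ω (c j) * y (b j) ∈ nrS hk F := by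
          rwa [Submodule.mkQ_apply, Submodule.Quotient.mk_eq_zero] at h1
        obtain ⟨f, hf, h3⟩ := mem_nrS.1 h2
        exact ⟨c, f, hf, fun h => absurd hg h, fun _ => h3, fun i j h => absurd ⟨j, h⟩ hgb⟩
      · exact ⟨0, 0, zero_mem _, fun _ => ⟨rfl, rfl⟩, fun h => absurd h hg,
          fun i j h => absurd ⟨j, h⟩ hgb⟩
  choose cc ff h1 h2 h3 h4 using key
  refine ⟨m, b, cc, ff, hbS, fun c hc => ?_, h1, h2, h3, fun i j => h4 (b j) i j rfl⟩
  have h5 : ∑ j, c j • π (y (b j)) = 0 := by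
    have h6 : π (∑ j, algebraMap k Ω (c j) * y (b j)) = 0 := by
      rw [Submodule.mkQ_apply, Submodule.Quotient.mk_eq_zero]
      exact hc
    rw [← h6, map_sum]
    refine Finset.sum_congr rfl fun j _ => ?_
    rw [← Algebra.smul_def, map_smul]
  exact Fintype.linearIndependent_iff.1 hli' c h5

/-- **The shape of `z`**, from a family of jets, almost all of them in `O_0`. -/
theorem exists_shp [Infinite k] (hk : Ctx0 k v) (hT : Trn v W F w T) (hz : Lim v F 0 z)
    (y : Ex → Ω) (hl : ∀ g, Lim v F 0 (y g)) (hy : ∀ g, Jt v F T z g (y g)) {B : ℕ}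
    (hB : ∀ g, B < dg g → v.Ge 0 (y g)) :
    ∃ (m : ℕ) (n : Fin m → Ω) (N : Fin m → MvPolynomial (Fin 2) k)
      (f : MvPolynomial (Fin 2) Ω) (b : Fin m → Ex), Shp v F T z n N f b ∧
      (∀ j, n j = y (b j)) ∧ ∀ g, v.Ge 0 (y g) → coeff g f = 0 ∧ ∀ j, coeff g (N j) = 0 := by
  classical
  set S : Finset Ex := ((Finset.range (B + 1) ×ˢ Finset.range (B + 1)).image
    fun q => mk q.1 q.2).filter fun g => g ≠ 0 ∧ ¬ v.Ge 0 (y g) with hS
  have hmem : ∀ g, g ∈ S ↔ g ≠ 0 ∧ ¬ v.Ge 0 (y g) := by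
    intro g
    rw [hS, Finset.mem_filter]
    refine ⟨fun h => h.2, fun h => ⟨?_, h⟩⟩
    have h1 : dg g ≤ B := by
      by_contra hcon
      exact h.2 (hB g (not_le.1 hcon))
    refine Finset.mem_image.2 ⟨(g 0, g 1), ?_, mk_eta g⟩
    rw [Finset.mem_product, Finset.mem_range, Finset.mem_range]
    unfold dg at h1
    constructor
    · change g 0 < B + 1
      omega
    · change g 1 < B + 1
      omega
  obtain ⟨m, b, cc, ff, hbS, hind, hF, hout, hin, hb⟩ := exists_basis (F := F) hk S y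
  let N : Fin m → MvPolynomial (Fin 2) k := fun j => ∑ g ∈ S, monomial g (cc g j)
  let f : MvPolynomial (Fin 2) Ω := ∑ g ∈ S, monomial g (ff g)
  have hN : ∀ g j, coeff g (N j) = cc g j := by
    intro g j
    change coeff g (∑ g ∈ S, monomial g (cc g j)) = cc g j
    rw [coeff_sum]
    simp_rw [coeff_monomial]
    rw [Finset.sum_ite_eq']
    split_ifs with h
    · rfl
    · rw [(hout g h).1]; rfl
  have hf : ∀ g, coeff g f = ff g := by
    intro g
    change coeff g (∑ g ∈ S, monomial g (ff g)) = ff g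
    rw [coeff_sum]
    simp_rw [coeff_monomial]
    rw [Finset.sum_ite_eq']
    split_ifs with h
    · rfl
    · rw [(hout g h).2]
  have h0S : (0 : Ex) ∉ S := fun h => ((hmem 0).1 h).1 rfl
  refine ⟨m, fun j => y (b j), N, f, b, ⟨hz, fun j => hl _, hind, fun g => ?_, fun j => ?_, ?_,
    fun i j => ?_, fun j => ?_, fun c => ?_⟩, fun j => rfl, fun g hg => ?_⟩
  · rw [hf]; exact hF g
  · change coeff 0 (N j) = 0
    rw [hN, (hout 0 h0S).1]; rfl
  · change coeff 0 f = 0
    rw [hf, (hout 0 h0S).2]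
  · rw [hN, (hb i j).1]
  · rw [hf, (hb j j).2]
  · refine ge_zero_of_eps fun ε hε => ?_
    obtain ⟨θ, hθ, hzθ⟩ := Lim.neg_eps hz hε
    obtain ⟨A, hA, hAT⟩ := hT.jdns θ hθ 0
    have hA0 : v.Ge 0 (θ - coeff 0 A) := by
      have h1 : T 0 θ = θ := by
        have h2 := hT.add 0 0 θ hθ
        rw [add_zero] at h2
        exact (T 0).injective h2
      have h3 := hAT 0
      have h4 : eval (pt (0 : Fin 2 → k)) A = coeff 0 A := by
        have : pt (Ω := Ω) (0 : Fin 2 → k) = 0 := by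
          funext i
          simp [pt]
        rw [this, eval_zero]
        rfl
      rwa [h1, h4] at h3
    have h5 : v.Ge (-ε) (eval (pt c) (A - C (coeff 0 A) - uu (fun j => y (b j)) N f)) := by
      refine ge_eval hk (fun g => ?_) c
      rw [coeff_sub, coeff_sub, coeff_C, coeff_uu]
      simp_rw [hN]
      rw [hf]
      have hyA : v.Ge (-ε) (y g - coeff g A) :=
        hy g ε hε θ hθ hzθ A fun c => (hAT c).mono (by linarith)
      by_cases hg0 : g = 0
      · subst hg0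
        rw [if_pos rfl, (hout 0 h0S).1, (hout 0 h0S).2, sub_self]
        simp only [Pi.zero_apply, map_zero, zero_mul, Finset.sum_const_zero, add_zero, sub_zero]
        exact RVal.Ge.zero
      · rw [if_neg (Ne.symm hg0), sub_zero]
        by_cases hgS : g ∈ S
        · have e : coeff g A - (∑ j, algebraMap k Ω (cc g j) * y (b j) + ff g) =
              (y g - ∑ j, algebraMap k Ω (cc g j) * y (b j) - ff g) - (y g - coeff g A) := by
            ring
          rw [e]
          exact ((hin g hgS).mono (by linarith)).sub hyA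
        · rw [(hout g hgS).1, (hout g hgS).2]
          simp only [Pi.zero_apply, map_zero, zero_mul, Finset.sum_const_zero, add_zero, sub_zero]
          have h6 : v.Ge 0 (y g) := by
            by_contra hcon
            exact hgS ((hmem g).2 ⟨hg0, hcon⟩)
          have e : coeff g A = y g - (y g - coeff g A) := by ring
          rw [e]
          exact (h6.mono (by linarith)).sub hyA
    have e : T c z - z - eval (pt c) (uu (fun j => y (b j)) N f) =
        T c (z - θ) - (z - θ) + (T c θ - eval (pt c) A) - (θ - coeff 0 A) +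
          eval (pt c) (A - C (coeff 0 A) - uu (fun j => y (b j)) N f) := by
      rw [map_sub, map_sub, map_sub, eval_C]
      ring
    rw [e]
    exact (((((hT.iso c).ge_iff.2 hzθ).sub hzθ).add ((hAT c).mono (by linarith))).sub
      (hA0.mono (by linarith))).add h5
  · have hgS : g ∉ S := fun h => ((hmem g).1 h).2 hg
    refine ⟨by rw [hf, (hout g hgS).2], fun j => ?_⟩
    rw [hN, (hout g hgS).1]; rfl

/-! ### The jets of index not divisible by `p` -/

/-- The orbit polynomial of a polynomial in `w`. -/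
noncomputable def shW (w : Fin 2 → Ω) : MvPolynomial (Fin 2) Ω →ₐ[Ω] MvPolynomial (Fin 2) Ω :=
  bind₁ fun i => C (w i) + X i

theorem shW_mem {P : MvPolynomial (Fin 2) Ω} (hw : ∀ i, w i ∈ F) (hP : ∀ g, coeff g P ∈ F)
    (g : Ex) : coeff g (shW w P) ∈ F := by
  revert g
  change shW w P ∈ PI2 F
  unfold shW
  rw [bind₁, aeval_def, eval₂_eq']
  exact sum_mem fun g _ => mul_mem (C_mem_PI2 (hP g)) (prod_mem fun i _ =>
    pow_mem (add_mem (C_mem_PI2 (hw i)) (X_mem_PI2 i)) _)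

theorem Trn.T_eval_shW (hT : Trn v W F w T) {P : MvPolynomial (Fin 2) Ω}
    (hP : ∀ g, coeff g P ∈ W) (c : Fin 2 → k) : T c (eval w P) = eval (pt c) (shW w P) := by
  unfold shW
  rw [bind₁, aeval_def, eval₂_eq', eval_eq', map_sum, map_sum]
  refine Finset.sum_congr rfl fun g _ => ?_
  rw [map_mul, map_mul, hT.fix c _ (hP g), map_prod, map_prod]
  congr 1
  · rw [algebraMap_eq, eval_C]
  · refine Finset.prod_congr rfl fun i _ => ?_
    rw [map_pow, map_pow, hT.wT, map_add, eval_C, eval_X]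
    rfl

theorem pderiv_shW (i : Fin 2) (P : MvPolynomial (Fin 2) Ω) :
    pderiv i (shW w P) = shW w (pderiv i P) := by
  induction P using MvPolynomial.induction_on with
  | C a => rw [shW, bind₁_C_right, pderiv_C, map_zero]
  | add P Q hP hQ => rw [map_add, map_add, hP, hQ, map_add, map_add]
  | mul_X P j hP =>
    have e1 : shW w (X j : MvPolynomial (Fin 2) Ω) = C (w j) + X j := bind₁_X_right _ _
    have e2 : pderiv i (X j : MvPolynomial (Fin 2) Ω) = C (if i = j then 1 else 0) := by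
      rw [pderiv_X]
      by_cases h : i = j
      · subst h; rw [if_pos rfl, Pi.single_eq_same, C_1]
      · rw [if_neg h, C_0, Pi.single_eq_of_ne (Ne.symm h)]
    have e3 : shW w (C (if i = j then (1 : Ω) else 0)) = C (if i = j then 1 else 0) :=
      bind₁_C_right _ _
    rw [map_mul, Derivation.leibniz, Derivation.leibniz, map_add, e1, hP, map_add, e2,
      pderiv_C, zero_add, smul_eq_mul, smul_eq_mul, smul_eq_mul, smul_eq_mul, map_mul, map_mul,
      e1, e3]

/-- `∂_i (P(w)) = (∂_i P)(w)`. -/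
theorem DrvT.dd_eval {D : Ω → Ω} {dd : Fin 2 → Ω → Ω} (hT : Trn v W F w T)
    (hD : DrvT v W F w T D dd) (i : Fin 2) (P : MvPolynomial (Fin 2) Ω)
    (hP : ∀ g, coeff g P ∈ W) : dd i (eval w P) = eval w (pderiv i P) := by
  have hpw : ∀ (j : Fin 2) (m : ℕ), dd i (w j ^ m) = m * w j ^ (m - 1) * (if i = j then 1 else 0) := by
    intro j m
    induction m with
    | zero =>
      have := (hD.drvi i).alg 1
      rw [map_one] at this
      rw [pow_zero, this]
      simp
    | succ m ih =>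
      rw [pow_succ, (hD.drvi i).mul _ (pow_mem (hT.wF j) _) _ (hT.wF j), ih, hD.ddw,
        Nat.add_sub_cancel]
      push_cast
      rcases m with _ | m
      · simp
      · rw [Nat.add_sub_cancel]
        ring
  have hmon : ∀ g : Ex, dd i (∏ j, w j ^ g j) =
      g i * ∏ j, w j ^ (g - Finsupp.single i 1 : Ex) j := by
    intro g
    rw [Fin.prod_univ_two, Fin.prod_univ_two,
      (hD.drvi i).mul _ (pow_mem (hT.wF 0) _) _ (pow_mem (hT.wF 1) _), hpw, hpw]
    fin_cases i
    · simp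
      ring
    · simp
      ring
  have e1 : eval w (pderiv i P) = ∑ g ∈ P.support, coeff g P * (g i *
      ∏ j, w j ^ (g - Finsupp.single i 1 : Ex) j) := by
    conv_lhs => rw [P.as_sum]
    rw [map_sum, map_sum]
    refine Finset.sum_congr rfl fun g _ => ?_
    rw [pderiv_monomial, eval_monomial, Finsupp.prod_fintype _ _ (by simp)]
    ring
  rw [e1, eval_eq', (hD.drvi i).map_sum _ fun g _ => mul_mem (hT.le (hP g))
    (prod_mem fun j _ => pow_mem (hT.wF j) _)]
  refine Finset.sum_congr rfl fun g _ => ?_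
  rw [(hD.drvi i).mul _ (hT.le (hP g)) _ (prod_mem fun j _ => pow_mem (hT.wF j) _),
    hD.ddW i _ (hP g), mul_zero, add_zero, hmon]

/-- If `∂_i` of `z` is attained in `O_0`, then the jets whose index is not divisible by `p` in the
direction `i` are in `O_0`. -/
theorem Jt.ge_of_nat [Infinite k] {p : ℕ} [CharP k p] (hk : Ctx0 k v) (hs : SphC v)
    (hT : Trn v W F w T) {D : Ω → Ω} {dd : Fin 2 → Ω → Ω} (hD : DrvT v W F w T D dd)
    (hz : Lim v F 0 z) {i : Fin 2} (hn : ∀ y, NatV v F (dd i) z y → v.Ge 0 y) {g : Ex}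
    (hg : ¬ p ∣ g i) {y : Ω} (hy : Jt v F T z g y) : v.Ge 0 y := by
  obtain ⟨y', hy'⟩ := exists_natV (hD.drvi i) hs hz
  have hy0 := hn y' hy'
  refine ge_zero_of_eps fun ε hε => ?_
  obtain ⟨θ, hθ, hzθ⟩ := Lim.neg_eps hz hε
  obtain ⟨P, hP, hPθ⟩ := hT.dns θ hθ 0
  have hPF : ∀ g, coeff g P ∈ F := fun g => hT.le (hP g)
  have hA : ∀ c, v.Ge (-ε) (T c θ - eval (pt c) (shW w P)) := fun c => by
    rw [← hT.T_eval_shW hP, ← map_sub]
    exact (hT.iso c).ge_iff.2 (hPθ.mono (by linarith))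
  have h1 := hy ε hε θ hθ hzθ _ hA
  -- the orbit polynomial of `∂_i θ`
  have h2 : v.Ge (-ε) (dd i θ) := by
    have h3 := (hy0.mono (by linarith : -ε ≤ 0)).sub (hy' ε hε θ hθ hzθ)
    rwa [sub_sub_cancel] at h3
  have hPe : eval w P ∈ F := eval_mem' hPF hT.wF
  have h4 : v.Ge (-ε) (eval w (pderiv i P)) := by
    have h5 := (hD.drvi i).norm _ (sub_mem hθ hPe) _ hPθ
    rw [(hD.drvi i).map_sub hθ hPe, hD.dd_eval hT i P hP] at h5
    have h6 := h2.sub (h5.mono (by linarith : -ε ≤ 0))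
    rwa [sub_sub_cancel] at h6
  have hPd : ∀ g, coeff g (pderiv i P) ∈ W := by
    intro g
    rw [coeff_pderiv]
    exact mul_mem (hP _) (add_mem (natCast_mem W _) (one_mem W))
  have h7 : ∀ c, v.Ge (-ε) (eval (pt c) (pderiv i (shW w P))) := fun c => by
    rw [pderiv_shW, ← hT.T_eval_shW hPd]
    exact (hT.iso c).ge_iff.2 h4
  have hgi : g i ≠ 0 := fun h => hg (by rw [h]; exact dvd_zero p)
  have h8 := ge_coeff hk h7 (g - Finsupp.single i 1)
  have e1 : g - Finsupp.single i 1 + Finsupp.single i 1 = g :=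
    tsub_add_cancel_of_le (by
      rw [Finsupp.single_le_iff]
      exact Nat.one_le_iff_ne_zero.2 hgi)
  have e2 : (((g - Finsupp.single i 1 : Ex) i : ℕ) : Ω) + 1 = algebraMap k Ω ((g i : ℕ) : k) := by
    have h9 : (g - Finsupp.single i 1 : Ex) i = g i - 1 := by simp
    rw [h9, map_natCast]
    have h10 : g i - 1 + 1 = g i := Nat.succ_pred_eq_of_ne_zero hgi
    exact_mod_cast congrArg (fun n : ℕ => (n : Ω)) h10
  rw [coeff_pderiv, e1, e2] at h8
  have hu : ((g i : ℕ) : k) ≠ 0 := fun h => hg ((CharP.cast_eq_zero_iff k p _).1 h)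
  have h11 : v.Ge (-ε) (coeff g (shW w P)) := by
    have h12 := h8.mul (hk.ge (((g i : ℕ) : k)⁻¹))
    rw [mul_assoc, ← map_mul, mul_inv_cancel₀ hu, map_one, mul_one, add_zero] at h12
    exact h12
  have h13 := h1.add h11
  rwa [sub_add_cancel] at h13

/-- **The shape of `z`**, from the tie. -/
theorem TieD.exists_shp [Infinite k] {p : ℕ} [Fact p.Prime] [CharP k p] [CharP Ω p]
    (hk : Ctx0 k v) (hs : SphC v) (hT : Trn v W F w T) {D : Ω → Ω} {dd : Fin 2 → Ω → Ω}
    (hD : DrvT v W F w T D dd) {x a₀ : Ω} (hx : Rs v (D x) (1 : k)) (hz : Lim v F 0 z) {e : k}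
    {κ : ℕ → k} {t : ℕ} {A : MvPolynomial (Fin 2) Ω} (h : TieD p v W F T x z a₀ e κ t A)
    (hn : e ≠ 0 → ∀ i y, NatV v F (dd i) z y → v.Ge 0 y) :
    ∃ (m : ℕ) (n : Fin m → Ω) (N : Fin m → MvPolynomial (Fin 2) k)
      (f : MvPolynomial (Fin 2) Ω) (b : Fin m → Ex), Shp v F T z n N f b ∧
      (e ≠ 0 → ∀ g, (¬ ∀ i, p ∣ g i) → ∀ j, coeff g (N j) = 0) ∧
      (e ≠ 0 → ∀ g, (¬ ∀ i, p ∣ g i) → coeff g f = 0) := by
  choose y hl hy using fun g => exists_jt hk hs hT hz g
  obtain ⟨B, hB⟩ : ∃ B : ℕ, ∀ g, B < dg g → coeff g A = 0 :=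
    ⟨A.support.sup dg, fun g hg => by
      by_contra hcon
      exact absurd (Finset.le_sup (f := dg) (mem_support_iff.2 hcon)) (not_le.2 hg)⟩
  have h1 : ¬ VPos v (algebraMap k Ω (1 : k)) := by
    intro h1
    have h2 := h1 (by rw [map_one]; exact one_ne_zero)
    rw [hk.triv 1 one_ne_zero] at h2
    exact lt_irrefl _ h2
  have hx0 : D x ≠ 0 := by
    intro h0
    apply h1
    have h2 := hx
    unfold Rs at h2
    rw [h0, zero_sub] at h2
    have h3 := VPos.neg h2
    rwa [neg_neg] at h3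
  have hxv : v (D x) = 0 := by
    rcases lt_trichotomy (v (D x)) 0 with h2 | h2 | h2
    · exact absurd (Rs.ge hk hx hx0) (not_le.2 h2)
    · exact h2
    · exfalso
      apply h1
      have h3 : VPos v (D x) := fun _ => h2
      have h4 := VPos.sub h3 hx
      rwa [sub_sub_cancel] at h4
  obtain ⟨m, n, N, f, b, hshp, -, hout⟩ := TWCY.exists_shp hk hT hz y hl hy
    (fun g hg => h.fin hk hT hD.drv hx0 hxv hB hg (hy g))
  have h2 : e ≠ 0 → ∀ g, (¬ ∀ i, p ∣ g i) → v.Ge 0 (y g) := by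
    intro he g hg
    push Not at hg
    obtain ⟨i, hi⟩ := hg
    exact Jt.ge_of_nat hk hs hT hD hz (hn he i) hi (hy g)
  exact ⟨m, n, N, f, b, hshp, fun he g hg => (hout g (h2 he g hg)).2,
    fun he g hg => (hout g (h2 he g hg)).1⟩

end Pool.Agent.TWCY
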