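import Pool.Agent.Lib.TWCY.Dat
import Pool.Agent.Lib.TWLY.K
import Pool.Agent.Lib.TWRR.G2
import Pool.Agent.Lib.TWCT.ConS

/-!
# CT, j = 1, abelian case: the core (radii and level `0`), the data and the rows

`Ω` is the big field of the hull, `W` the Gauss extension of the tame closure of the base,
`F = W⟨w 0, w 1⟩`, `K = F⟨z⟩`.

* `HD`: the data which come from the real fields; `BaseD`: the derivation of the base, `V_0(W) = k x`;
* `Rec`: the other data as one object, `CG`: their properties (normal form `NF`, 90's `Trn`, `DrvT`,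
  `Shp`, `TieD`; `GD`, `GiD`: the residue polynomials), `WN`: the space `W₁`;
* `Mot`, `ZaD`, `Zp`: a motion, the displacement of `z`, `Z'`; `OneM`: the output for one motion;
* the rows J1.0 - J1.6.
-/

set_option autoImplicit false

open MvPolynomial

namespace Pool.Agent.TWCY

open Pool.Agent.H15JM (RVal)
open Pool.Agent.LU1 (VPos)
open Pool.Agent.D2 (Ctx0)
open Pool.Agent.D2P (clI)
open Pool.Agent.TWM
open Pool.Agent.TWS (IsoE SphC)
open Pool.Agent.TWII (PG LP)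
open Pool.Agent.TWN1 (Par Unh Nrm)
open Pool.Agent.TWRR (GP JL OC OClsJ)
open Pool.Agent.TWCT (SMo)
open Pool.Agent.TWLY

universe u

variable {k Ω : Type u} [Field k] [Field Ω] [Algebra k Ω]

/-! ### Data -/

/-- The data which come from the real fields. -/
structure HD (p : ℕ) (v : RVal Ω) (L : ℕ → IntermediateField k Ω) (W F K : IntermediateField k Ω)
    (w : Fin 2 → Ω) (x z a : Ω) : Prop where
  c0 : Ctx0 k v
  cv : CompleteV v
  sph : SphC v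
  hval : ∀ r : ℝ, ∃ y : Ω, y ≠ 0 ∧ v y = r
  cld : Cld v W
  full : ∀ r : ℝ, ∃ y ∈ W, y ≠ 0 ∧ v y = r
  gp : GP p v W
  xW : x ∈ W
  mono : Monotone L
  le : ∀ J, L J ≤ W
  dense : W ≤ clI v (⨆ J, L J)
  par : Par v W F (w 0) 0 (w 1) 0
  zt : TL v F z 0
  K_eq : K = cadj v F z
  aK : a ∈ K
  lp : LP p v K 0 a
  crit : ∀ g ∈ K, ¬ Gt v 0 (a - g ^ p)
  hit : ¬ Unh p v F K z 0 0 a

/-- The derivation of the base and the class. -/
structure BaseD (p : ℕ) (v : RVal Ω) (W : IntermediateField k Ω) (x : Ω) (D : Ω → Ω) : Prop where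
  drv : Drv v W D
  dW : ∀ f ∈ W, D f ∈ W
  Dx : D x = 1
  gen : ∀ f ∈ W, ∃ c : Fin p → Ω, (∀ i, c i ∈ W) ∧ f = ∑ i, c i ^ p * x ^ (i : ℕ)
  lp : LP p v W 0 x
  cls : ∀ f ∈ W, LP p v W 0 f → ∃ c : k, PG p v W 0 (f - algebraMap k Ω c * x)

/-- The exponents divisible by `p`. -/
def DvE (p : ℕ) (g : Ex) : Prop := ∀ i, p ∣ g i

/-- The polynomial `Pa(w + s) - Pa(w)` (in `s`). -/
noncomputable def shA (w : Fin 2 → Ω) (Pa : MvPolynomial (Fin 2) Ω) : MvPolynomial (Fin 2) Ω :=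
  bind₁ (fun i => C (w i) + X i) Pa - C (eval w Pa)

/-- The data of the core, as one object. -/
structure Rec (k Ω : Type u) [Field k] [Field Ω] [Algebra k Ω] where
  /-- the translations of `F` -/
  T : (Fin 2 → k) → Ω →ₐ[k] Ω
  /-- the derivation `D` -/
  D : Ω → Ω
  /-- the derivations `∂_i` -/
  dd : Fin 2 → Ω → Ω
  /-- `a = e z + x P(z) + Pa(w)`, `P = ∑_(i ≤ t) κ i Fr^(i+1)` -/
  e : k
  /-- the coefficients of `P` -/
  κ : ℕ → k
  /-- the top of `P` -/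
  t : ℕ
  /-- the linear form -/
  l : MvPolynomial (Fin 2) k
  /-- `a₀ = Pa(w)` -/
  Pa : MvPolynomial (Fin 2) Ω
  /-- the number of noises -/
  m : ℕ
  /-- the noises -/
  n : Fin m → Ω
  /-- the noise polynomials -/
  N : Fin m → MvPolynomial (Fin 2) k
  /-- the attained part of the shape of `z` -/
  f : MvPolynomial (Fin 2) Ω
  /-- the exponents of the basis -/
  b : Fin m → Ex
  /-- the natural values of `D` at the noises -/
  nD : Fin m → Ω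
  /-- the natural values of `∂_i` at the noises -/
  nd : Fin 2 → Fin m → Ω
  /-- the residue polynomial of the `D`-relation -/
  G : MvPolynomial (Fin 2) k
  /-- the residue polynomials of the `∂_i` of the effects -/
  Gi : Fin 2 → MvPolynomial (Fin 2) k

/-- The shape `u(s) = ∑ N_j(s) n_j + f(s)`. -/
noncomputable def Rec.u (R : Rec k Ω) : MvPolynomial (Fin 2) Ω := uu R.n R.N R.f

/-- The space `W₁`. -/
noncomputable def Rec.WN (R : Rec k Ω) : Submodule k (MvPolynomial (Fin 2) k) :=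
  Submodule.span k (Set.range R.N ∪ Set.range R.Gi)

/-- **The normal form** of `a`, exact: `a₀ = Pa(w)`, `Pa` over `W` with exponents divisible by `p`,
up to a linear form `l` with coefficients in `k`, which is `0` if `e ≠ 0`; if `e ≠ 0` the shape of `z`
has exponents divisible by `p`. -/
structure NF (p : ℕ) (v : RVal Ω) (W F K : IntermediateField k Ω) (w : Fin 2 → Ω) (x z a : Ω)
    (R : Rec k Ω) : Prop where
  kap : R.κ R.t ≠ 0
  PaW : ∀ g, coeff g R.Pa ∈ W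
  lin : ∀ g, coeff g R.l ≠ 0 → ∃ i, g = Finsupp.single i 1
  PaD : ∀ g, ¬ DvE p g → coeff g R.Pa = algebraMap k Ω (coeff g R.l)
  cas : R.e = 0 ∨ R.l = 0
  Np : R.e ≠ 0 → ∀ g, ¬ DvE p g → ∀ j, coeff g (R.N j) = 0
  fp : R.e ≠ 0 → ∀ g, ¬ DvE p g → coeff g R.f = 0
  rel : PG p v K 0 (a - (algebraMap k Ω R.e * z + x * PP p R.κ R.t z + eval w R.Pa))

/-- `G` is the residue polynomial of the `D`-relation, `G^i = res (e (∑ N_j n^i_j + ∂_i f) + ∂_i A)`. -/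
structure GD (p : ℕ) (v : RVal Ω) (F : IntermediateField k Ω) (w : Fin 2 → Ω) (x : Ω)
    (R : Rec k Ω) : Prop where
  nat : ∀ j, NatV v F R.D (R.n j) (R.nD j)
  res : ∀ g, Rs v (algebraMap k Ω R.e * (∑ j, algebraMap k Ω (coeff g (R.N j)) * R.nD j +
    R.D (coeff g R.f)) + R.D x * coeff g (PP p R.κ R.t R.u) + R.D (coeff g (shA w R.Pa)))
    (coeff g R.G)
  nati : ∀ i j, NatV v F (R.dd i) (R.n j) (R.nd i j)
  resi : ∀ i g, Rs v (algebraMap k Ω R.e * (∑ j, algebraMap k Ω (coeff g (R.N j)) * R.nd i j +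
    R.dd i (coeff g R.f)) + R.dd i (coeff g (shA w R.Pa))) (coeff g (R.Gi i))

/-- The properties of the data, without the residue polynomials. -/
structure CD (p : ℕ) (v : RVal Ω) (L : ℕ → IntermediateField k Ω) (W F K : IntermediateField k Ω)
    (w : Fin 2 → Ω) (x z a : Ω) (R : Rec k Ω) : Prop
    extends HD p v L W F K w x z a, NF p v W F K w x z a R where
  base : BaseD p v W x R.D
  trn : Trn v W F w R.T
  drt : DrvT v W F w R.T R.D R.dd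
  shp : Shp v F R.T z R.n R.N R.f R.b
  tie : TieD p v W F R.T x z (eval w R.Pa) R.e R.κ R.t (shA w R.Pa)

/-- **The properties of the data.** -/
structure CG (p : ℕ) (v : RVal Ω) (L : ℕ → IntermediateField k Ω) (W F K : IntermediateField k Ω)
    (w : Fin 2 → Ω) (x z a : Ω) (R : Rec k Ω) : Prop
    extends CD p v L W F K w x z a R, GD p v F w x R

/-! ### Motions -/

/-- A motion of `F` over `A`; `X i ∈ W` is the displacement of `w i`. -/
structure Mot (v : RVal Ω) (A W F : IntermediateField k Ω) (w X : Fin 2 → Ω) (Φ : Ω →ₐ[k] Ω)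
    (η : ℝ) : Prop where
  mW : SMo v A W Φ η
  mF : SMo v A F Φ η
  XW : ∀ i, X i ∈ W
  mov : ∀ i, Φ (w i) = w i + X i

/-- `Za ∈ F` is the displacement of `z`, modulo strictly positive values. -/
structure ZaD (v : RVal Ω) (F : IntermediateField k Ω) (Φ : Ω →ₐ[k] Ω) (η : ℝ) (z Za : Ω) :
    Prop where
  mem : Za ∈ F
  za : ∀ θ ∈ F, v.Ge (-(η / 2)) (z - θ) → Gt v 0 (Φ θ - θ - Za)

/-- `Z' = Za - u(X)`. -/
noncomputable def Rec.Zp (R : Rec k Ω) (X : Fin 2 → Ω) (Za : Ω) : Ω := Za - eval X R.u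

/-- `Dl f = D (f(X))`. -/
def DlD (D : Ω → Ω) (X : Fin 2 → Ω) (Dl : MvPolynomial (Fin 2) k →ₗ[k] Ω) : Prop :=
  ∀ f, Dl f = D (aeval X f)

/-- **The output for one motion** (J1.2, J1.3, J1.4). -/
structure OneM (p : ℕ) (v : RVal Ω) (W₁ Wp : Submodule k (MvPolynomial (Fin 2) k))
    (X : Fin 2 → Ω) (Z : Ω) (κ : ℕ → k) (t : ℕ) (G : MvPolynomial (Fin 2) k)
    (lam : TWIV.JW.BB (Fin 2) k) (e : k) (l : MvPolynomial (Fin 2) k)
    (Dl : MvPolynomial (Fin 2) k →ₗ[k] Ω) : Prop where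
  kap : κ t ≠ 0
  le1 : W₁ ≤ Wp
  fg : Wp.FG
  zero : ∀ N ∈ Wp, constantCoeff N = 0
  tr : ∀ c, ∀ N ∈ Wp, TWLY.tr c N - C (eval c N) ∈ Wp
  ne : ∀ g : MvPolynomial (Fin 2) k, constantCoeff g = 0 → Z - aeval X g ≠ 0
  pos : ∀ g : MvPolynomial (Fin 2) k, constantCoeff g = 0 → v (Z - aeval X g) < 0
  sm : ∀ g : MvPolynomial (Fin 2) k, constantCoeff g = 0 → ∀ N ∈ Wp,
    Gt v (v (Z - aeval X g)) (aeval X N)
  rel : ∀ g : MvPolynomial (Fin 2) k, constantCoeff g = 0 → ∀ r ≤ 0, v.Ge r (Z - aeval X g) →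
    v.Ge r (PP p κ t Z + aeval X G + Dl (C e * g + l))
  leib : ∀ f g : MvPolynomial (Fin 2) k, Dl (f * g) = aeval X f * Dl g + aeval X g * Dl f
  norm : ∀ (f : MvPolynomial (Fin 2) k) (r : ℝ), v.Ge r (aeval X f) → v.Ge r (Dl f)
  G0 : constantCoeff G = 0
  Gp : ∃ h, G = h ^ p
  om : ∀ c, TWLY.tr c G - G - C (eval c G) + PP p κ t (evc c lam) ∈ Wp
  lin : Adt l
  cas : e = 0 ∨ (l = 0 ∧ (∀ i, coeff (Finsupp.single i 1) lam ∈ Wp) ∧
    ∀ c i, coeff (Finsupp.single i 1) (evc c lam) = 0)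

/-! ### Rows -/

section rows

variable (p : ℕ) (v : RVal Ω)

/-- The base is `W ^ p [x₀]`, `x₀` at positive distance of `W ^ p`. -/
structure BX (p : ℕ) (v : RVal Ω) (W : IntermediateField k Ω) (x₀ : Ω) : Prop where
  mem : x₀ ∈ W
  gen : ∀ f ∈ W, ∃ c : Fin p → Ω, (∀ i, c i ∈ W) ∧ f = ∑ i, c i ^ p * x₀ ^ (i : ℕ)
  far : ∃ C : ℝ, ∀ g ∈ W, ¬ v.Ge C (x₀ - g ^ p)

/-- J1.B (38): the derivation of the base (`gen` is that of `BX`). -/
def RowBase : Prop := ∀ (W : IntermediateField k Ω) (x₀ : Ω), Ctx0 k v → CompleteV v → Cld v W →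
  (∀ r : ℝ, ∃ y ∈ W, y ≠ 0 ∧ v y = r) → GP p v W → BX p v W x₀ →
  ∃ c ∈ W, c ≠ 0 ∧ ∃ D : Ω → Ω, BaseD p v W (x₀ / c ^ p) D

/-- J1.0 (90): the translations and the derivations. -/
def RowTrn : Prop := ∀ (L : ℕ → IntermediateField k Ω) (W F K : IntermediateField k Ω)
  (w : Fin 2 → Ω) (x z a : Ω) (D₀ : Ω → Ω), HD p v L W F K w x z a → BaseD p v W x D₀ →
  ∃ (T : (Fin 2 → k) → Ω →ₐ[k] Ω) (D : Ω → Ω) (dd : Fin 2 → Ω → Ω), Trn v W F w T ∧
    DrvT v W F w T D dd ∧ ∀ y ∈ W, D y = D₀ y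

/-- J1.1 (76, 42, 86; `m = 0`: 58): the normal form, the shape and the tie, for `z - φ`. -/
def RowNF : Prop := ∀ (L : ℕ → IntermediateField k Ω) (W F K : IntermediateField k Ω)
  (w : Fin 2 → Ω) (x z a : Ω) (D : Ω → Ω) (T : (Fin 2 → k) → Ω →ₐ[k] Ω) (dd : Fin 2 → Ω → Ω),
  HD p v L W F K w x z a → BaseD p v W x D → Trn v W F w T → DrvT v W F w T D dd →
  ∃ φ ∈ F, ∃ R : Rec k Ω, R.T = T ∧ R.D = D ∧ R.dd = dd ∧ CD p v L W F K w x (z - φ) a R

/-- J1.1, `V_0` of `F` (19, 58): critical elements with strict derivatives are in the class `x`. -/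
def RowV0 : Prop := ∀ (L : ℕ → IntermediateField k Ω) (W F K : IntermediateField k Ω)
  (w : Fin 2 → Ω) (x z a : Ω) (D : Ω → Ω) (T : (Fin 2 → k) → Ω →ₐ[k] Ω) (dd : Fin 2 → Ω → Ω),
  HD p v L W F K w x z a → BaseD p v W x D → Trn v W F w T → DrvT v W F w T D dd →
  ∀ y ∈ F, LP p v F 0 y → (∀ i, Gt v 0 (dd i y)) → ∃ c : k, PG p v F 0 (y - algebraMap k Ω c * x)

/-- J1.4 (90): the residue polynomials exist (`tie_ge`). -/
def RowG : Prop := ∀ (L : ℕ → IntermediateField k Ω) (W F K : IntermediateField k Ω)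
  (w : Fin 2 → Ω) (x z a : Ω) (R : Rec k Ω), CD p v L W F K w x z a R →
  ∃ (nD : Fin R.m → Ω) (nd : Fin 2 → Fin R.m → Ω) (G : MvPolynomial (Fin 2) k)
    (Gi : Fin 2 → MvPolynomial (Fin 2) k),
    CG p v L W F K w x z a { R with nD := nD, nd := nd, G := G, Gi := Gi }

/-- (T), (83): the tie of the displacement. -/
def RowTie : Prop := ∀ (L : ℕ → IntermediateField k Ω) (W F K : IntermediateField k Ω)
  (w : Fin 2 → Ω) (x z a : Ω) (R : Rec k Ω), CD p v L W F K w x z a R → ∃ J₀ : ℕ, ∀ J ≥ J₀,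
  ∀ (Φ : Ω →ₐ[k] Ω) (η : ℝ) (X : Fin 2 → Ω) (Za : Ω),
    Mot v (L J) W F w X Φ η → ZaD v F Φ η z Za → ∃ h ∈ F,
    VPos v (algebraMap k Ω R.e * Za + x * PP p R.κ R.t Za + eval X (shA w R.Pa) - h ^ p)

/-- `X`, `Z'` are small (83). -/
def RowSm : Prop := ∀ (L : ℕ → IntermediateField k Ω) (W F K : IntermediateField k Ω)
  (w : Fin 2 → Ω) (x z a : Ω) (R : Rec k Ω), CD p v L W F K w x z a R → ∀ ε : ℝ, 0 < ε →
  ∃ J₀ : ℕ, ∀ J ≥ J₀, ∀ (Φ : Ω →ₐ[k] Ω) (η : ℝ) (X : Fin 2 → Ω) (Za : Ω),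
    Mot v (L J) W F w X Φ η → ZaD v F Φ η z Za → (∀ i, v.Ge (-ε) (X i)) ∧
    v.Ge (-ε) (R.Zp X Za)

/-- (83): the translates of `Za` are a polynomial with the exponents of the shape of `z`. -/
def RowZb : Prop := ∀ (L : ℕ → IntermediateField k Ω) (W F K : IntermediateField k Ω)
  (w : Fin 2 → Ω) (x z a : Ω) (R : Rec k Ω), CD p v L W F K w x z a R →
  ∀ (A : IntermediateField k Ω) (Φ : Ω →ₐ[k] Ω) (η : ℝ) (X : Fin 2 → Ω) (Za : Ω),
    Mot v A W F w X Φ η → ZaD v F Φ η z Za → ∃ B : MvPolynomial (Fin 2) Ω,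
    (∀ g, coeff g B ∈ F) ∧ (∀ g, coeff g B ≠ 0 → coeff g R.f ≠ 0 ∨ ∃ j, coeff g (R.N j) ≠ 0) ∧
    ∀ c : Fin 2 → k, VPos v (R.T c Za - Za - eval (pt c) B)

/-- J1.3 (95): **the `D`-relation** (with `Dl (..)`, 90's rel'). -/
def RowRel : Prop := ∀ (L : ℕ → IntermediateField k Ω) (W F K : IntermediateField k Ω)
  (w : Fin 2 → Ω) (x z a : Ω) (R : Rec k Ω), CG p v L W F K w x z a R → ∃ J₀ : ℕ, ∀ J ≥ J₀,
  ∀ (Φ : Ω →ₐ[k] Ω) (η : ℝ) (X : Fin 2 → Ω) (Za : Ω) (Dl : MvPolynomial (Fin 2) k →ₗ[k] Ω),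
    Mot v (L J) W F w X Φ η → ZaD v F Φ η z Za → DlD R.D X Dl →
    ∀ g : MvPolynomial (Fin 2) k, constantCoeff g = 0 → ∀ r ≤ 0,
      v.Ge r (R.Zp X Za - aeval X g) →
      v.Ge r (PP p R.κ R.t (R.Zp X Za) + aeval X R.G + Dl (C R.e * g + R.l))

/-- J1.2 (32, typed: `Shp.gt_N`, `Shp.gt_G`), J1.4 (90): **the output for one motion** which moves a
function of `W₁` visibly or by a residue. -/
def RowOne : Prop := ∀ (L : ℕ → IntermediateField k Ω) (W F K : IntermediateField k Ω)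
  (w : Fin 2 → Ω) (x z a : Ω) (R : Rec k Ω), CG p v L W F K w x z a R → ∃ J₀ : ℕ, ∀ J ≥ J₀,
  ∀ (Φ : Ω →ₐ[k] Ω) (η : ℝ) (X : Fin 2 → Ω) (Za : Ω) (Dl : MvPolynomial (Fin 2) k →ₗ[k] Ω),
    Mot v (L J) W F w X Φ η → ZaD v F Φ η z Za → DlD R.D X Dl →
    (∃ f₀ ∈ R.WN, aeval X f₀ ≠ 0 ∧ v (aeval X f₀) ≤ 0) →
    ∃ (Wp : Submodule k (MvPolynomial (Fin 2) k)) (lam : TWIV.JW.BB (Fin 2) k),
      OneM p v R.WN Wp X (R.Zp X Za) R.κ R.t R.G lam R.e R.l Dl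

/-- **The core** (glue: 83; from `RowOne` and 64's `Lay.main`): after an additive automorphism the
elements of `W₁` depend on one variable, if some motion moves some element of `W₁`. -/
def Core : Prop := ∀ (L : ℕ → IntermediateField k Ω) (W F K : IntermediateField k Ω)
  (w : Fin 2 → Ω) (x z a : Ω) (R : Rec k Ω), CG p v L W F K w x z a R → ∃ J₀ : ℕ, ∀ J ≥ J₀,
  ∀ (Φ : Ω →ₐ[k] Ω) (η : ℝ) (X : Fin 2 → Ω), Mot v (L J) W F w X Φ η →
    (∃ f₀ ∈ R.WN, aeval X f₀ ≠ 0 ∧ v (aeval X f₀) ≤ 0) →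
    ∃ E : MvPolynomial (Fin 2) k ≃ₐ[k] MvPolynomial (Fin 2) k, AA E ∧
      ∃ b : Fin 2, ∀ N ∈ R.WN, ∀ m ∈ (E N).support, m b = 0

/-! ### The end (J1.6), `w 1` is a noise free direction -/

/-- The elements of `W₁` do not depend on the second variable. -/
def NFree (R : Rec k Ω) : Prop := ∀ N ∈ R.WN, ∀ m ∈ N.support, m 1 = 0

/-- `B(X) = Pa(w 0, X)`. -/
noncomputable def Bp (w : Fin 2 → Ω) (Pa : MvPolynomial (Fin 2) Ω) : Polynomial Ω :=
  aeval (fun i : Fin 2 => if i = 0 then Polynomial.C (w 0) else Polynomial.X) Pa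

/-- The coefficients `A i = κ (i - 1) x`. -/
def Ap (R : Rec k Ω) (x : Ω) (i : ℕ) : Ω := algebraMap k Ω (R.κ (i - 1)) * x

/-- The jets of `z` along `w 1`. -/
structure Ph (p : ℕ) (v : RVal Ω) (W : IntermediateField k Ω) (w : Fin 2 → Ω) (R : Rec k Ω)
    (φ : ℕ → Polynomial Ω) (d : ℕ) : Prop where
  mem : ∀ j, φ j ∈ PI (cadj v W (w 0))
  deg : ∀ j, d < j → φ j = 0
  X : R.e ≠ 0 → ∀ j, ¬ p ∣ j → φ j = 0
  near : ∀ j : ℕ, j ≠ 0 → v.Ge 1 ((φ j).eval (w 1) - coeff (Finsupp.single 1 j) R.f)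

/-- J1.6.1: the jets. -/
def RowPh : Prop := ∀ (L : ℕ → IntermediateField k Ω) (W F K : IntermediateField k Ω)
  (w : Fin 2 → Ω) (x z a : Ω) (R : Rec k Ω), CG p v L W F K w x z a R →
  (∃ (φ : ℕ → Polynomial Ω) (d : ℕ), Ph p v W w R φ d) ∧ GP p v (cadj v W (w 0))

/-- J1.6.2: `JL` (Vandermonde over `k`, `T_(0,c) θ(w 1) = θ(w 1 + c)`). -/
def RowJL : Prop := ∀ (L : ℕ → IntermediateField k Ω) (W F K : IntermediateField k Ω)
  (w : Fin 2 → Ω) (x z a : Ω) (R : Rec k Ω), CG p v L W F K w x z a R → NFree R →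
  ∀ (φ : ℕ → Polynomial Ω) (d : ℕ), Ph p v W w R φ d → ∀ J : ℕ,
    JL p v (cadj v W (w 0)) (w 1) z 0 0 (algebraMap k Ω R.e) J φ d

/-- J1.6.3: the normal form `Nrm` (approximants of bounded degree: `TWN1.exists_trunc`). -/
def RowNrm : Prop := ∀ (L : ℕ → IntermediateField k Ω) (W F K : IntermediateField k Ω)
  (w : Fin 2 → Ω) (x z a : Ω) (R : Rec k Ω), CG p v L W F K w x z a R → NFree R → ∃ J : ℕ,
    Nrm p v (cadj v W (w 0)) (w 1) z 0 0 0 (algebraMap k Ω R.e) (Ap R x) (R.t + 1) (Bp w R.Pa) J 0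

/-- J1.6.4: the classes of the effects (`LP` by Vandermonde, `∂_i` strict as `G^i` does not depend on
the second variable, `RowV0`). -/
def RowCls : Prop := ∀ (L : ℕ → IntermediateField k Ω) (W F K : IntermediateField k Ω)
  (w : Fin 2 → Ω) (x z a : Ω) (R : Rec k Ω), CG p v L W F K w x z a R → NFree R →
  ∀ (φ : ℕ → Polynomial Ω) (d : ℕ), Ph p v W w R φ d →
    OClsJ p v (cadj v W (w 0)) (w 1) 0 0 (algebraMap k Ω R.e) (Ap R x) (R.t + 1) (Bp w R.Pa) φ x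

/-- **The end** (glue): the input of 13's `hrone_j1`, in the big field. -/
def RowEnd : Prop := ∀ (L : ℕ → IntermediateField k Ω) (W F K : IntermediateField k Ω)
  (w : Fin 2 → Ω) (x z a : Ω) (R : Rec k Ω), CG p v L W F K w x z a R → NFree R →
  ∃ (e : Ω) (A : ℕ → Ω) (M : ℕ) (B : Polynomial Ω) (J : ℕ) (φ : ℕ → Polynomial Ω) (d : ℕ) (e₂ : Ω),
    GP p v (cadj v W (w 0)) ∧ Nrm p v (cadj v W (w 0)) (w 1) z 0 0 0 e A M B J 0 ∧
    JL p v (cadj v W (w 0)) (w 1) z 0 0 e J φ d ∧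
    (∀ i ∈ Finset.Icc 1 M, OC p v (cadj v W (w 0)) (cadj v W (w 0)) x 0 (A i)) ∧
    OClsJ p v (cadj v W (w 0)) (w 1) 0 0 e A M B φ x ∧
    Polynomial.hasseDeriv 1 B = Polynomial.C e₂ ∧
    PG p v K 0 (a - (e * z + ∑ i ∈ Finset.Icc 1 M, A i * z ^ p ^ i + B.eval (w 1)))

end rows

end Pool.Agent.TWCY
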