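import Pool.Agent.Lib.TWCY.Core
import Pool.Agent.Lib.TWCT.GssU
import Pool.Agent.Lib.TWCT.GssF
import Pool.Agent.Lib.TWCT.J1S
import Pool.Agent.Lib.TWC.BdTowB
import Pool.Agent.Lib.TWCT.Alt2
import Pool.Agent.Lib.TWC.Lv0M

/-!
# CT, j = 1: the base `W ^ p [x₀]`

* `bx_clI`: the closure of a field of transcendence degree one is `W ^ p [x₀]`, `x₀` at positive
  distance of `W ^ p`, if it is not perfect;
* `Gn`, `Gn.tow`: generating families over the `p`-th powers; `exists_bx`: the base of a tower with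
  bounded distortion;
* `BX.tam`: the tame closure; `BX.map`: isometries; `BX.pm`: the Gauss extension.
-/

set_option autoImplicit false

open Polynomial

namespace Pool.Agent.TWCY

open Pool.Agent.H15JM (RVal)
open Pool.Agent.LU1 (VPos adj)
open Pool.Agent.LUC (Cl clF)
open Pool.Agent.D2 (Ctx0)
open Pool.Agent.D2P (hen clI mem_clI)
open Pool.Agent.TW (Ctx Full BD PBasis Qp mem_Qp Qp_le' Qp_mono Spn Ind mon pcomb)
open Pool.Agent.TWM
open Pool.Agent.TWS (IsoE SphC TowR PM VG)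
open Pool.Agent.TWII (PG LP)
open Pool.Agent.TWCT (PB1 Gx)
open Pool.Agent.TWTam

universe u

variable {k Ω : Type u} [Field k] [Field Ω] [Algebra k Ω] {v : RVal Ω}

section Spn

variable {p : ℕ} [hp : Fact p.Prime] [CharP Ω p] {W T L : IntermediateField k Ω} {x₀ : Ω}

omit hp [CharP Ω p] in
theorem Spn.of_finite {ι : Type} [Fintype ι] {Q : Subfield Ω} {b : ι → Ω} (i : ι) :
    Spn Q b (b i) := TW.Spn.self i

/-- The powers of `x₀`. -/
def pwb (p : ℕ) (x₀ : Ω) : Fin p → Ω := fun i => x₀ ^ (i : ℕ)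

/-- The two forms of the span. -/
theorem spn_pw {f : Ω} : Spn (Qp p W) (pwb p x₀) f ↔
    ∃ c : Fin p → Ω, (∀ i, c i ∈ W) ∧ f = ∑ i, c i ^ p * x₀ ^ (i : ℕ) := by
  constructor
  · rintro ⟨c, hc, rfl⟩
    choose a ha hac using fun i => mem_Qp.1 (hc i)
    exact ⟨a, ha, Finset.sum_congr rfl fun i _ => by rw [hac i]; rfl⟩
  · rintro ⟨c, hc, rfl⟩
    exact ⟨fun i => c i ^ p, fun i => mem_Qp.2 ⟨c i, hc i, rfl⟩, rfl⟩

/-- The span of the powers of `x₀` over the `p`-th powers. -/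
theorem exists_spF [IsAlgClosed k] (hx : x₀ ∈ T) : ∃ T' : IntermediateField k Ω,
    ∀ u, u ∈ T' ↔ Spn (Qp p T) (pwb p x₀) u := by
  have h1 : Spn (Qp p T) (pwb p x₀) 1 := by
    have h2 : Spn (Qp p T) (pwb p x₀) (pwb p x₀ ⟨0, hp.out.pos⟩) := TW.Spn.self _
    rwa [pwb, pow_zero] at h2
  have hq : ∀ q ∈ Qp p T, Spn (Qp p T) (pwb p x₀) q := fun q hq => by
    have h2 := TW.Spn.smul hq h1
    rwa [mul_one] at h2
  have hpw : ∀ n : ℕ, Spn (Qp p T) (pwb p x₀) (x₀ ^ n) := by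
    intro n
    have e : x₀ ^ n = (x₀ ^ (n / p)) ^ p * pwb p x₀ ⟨n % p, Nat.mod_lt _ hp.out.pos⟩ := by
      rw [pwb, ← pow_mul, ← pow_add]
      congr 1
      conv_lhs => rw [← Nat.div_add_mod n p]
      ring
    rw [e]
    exact TW.Spn.smul (mem_Qp.2 ⟨_, pow_mem hx _, rfl⟩) (TW.Spn.self _)
  obtain ⟨S, hS⟩ := TWC.spn_field (F := Qp p T) (e := pwb p x₀) (p := p)
    (fun i j => by
      change Spn (Qp p T) (pwb p x₀) (x₀ ^ (i : ℕ) * x₀ ^ (j : ℕ))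
      rw [← pow_add]
      exact hpw _) h1
    (fun i => mem_Qp.2 ⟨pwb p x₀ i, pow_mem hx _, rfl⟩)
  refine ⟨S.toIntermediateField fun c => ?_, fun u => hS u⟩
  obtain ⟨c', rfl⟩ := IsAlgClosed.exists_pow_nat_eq c hp.out.pos
  rw [hS, map_pow]
  exact hq _ (mem_Qp.2 ⟨_, T.algebraMap_mem c', rfl⟩)

/-- The span is everything if it contains a dense subfield. -/
theorem gen_of_dense [IsAlgClosed k] [IsAlgClosed Ω] (hc : CompleteV v) (hT : Cld v T)
    (hx : x₀ ∈ T) (hL : T ≤ clI v L)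
    (h : ∀ T' : IntermediateField k Ω, (∀ u, u ∈ T' ↔ Spn (Qp p T) (pwb p x₀) u) → L ≤ T')
    {f : Ω} (hf : f ∈ T) : ∃ c : Fin p → Ω, (∀ i, c i ∈ T) ∧ f = ∑ i, c i ^ p * x₀ ^ (i : ℕ) := by
  obtain ⟨T', hT'⟩ := exists_spF (p := p) hx
  refine spn_pw.1 (TWC.spn_of_lim hc (TWC.cl_Qp hT) fun b => ?_)
  obtain ⟨a, ha, h1⟩ := mem_clI.1 (hL hf) b
  exact ⟨a, (hT' a).1 (h T' hT' ha), h1⟩

/-- An element which is not a `p`-th power is at positive distance of the `p`-th powers. -/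
theorem far_of_notMem [IsAlgClosed Ω] (hW : Cld v W) (hx : x₀ ∉ Qp p W) :
    ∃ C : ℝ, ∀ g ∈ W, ¬ v.Ge C (x₀ - g ^ p) := by
  by_contra hcon
  push Not at hcon
  refine hx (TWC.cl_Qp hW fun c => ?_)
  obtain ⟨g, hg, h1⟩ := hcon c
  exact ⟨g ^ p, mem_Qp.2 ⟨g, hg, rfl⟩, h1⟩

theorem BX.notMem (h : BX p v W x₀) : x₀ ∉ Qp p W := by
  intro h1
  obtain ⟨g, hg, h2⟩ := mem_Qp.1 h1
  obtain ⟨C, hC⟩ := h.far
  refine hC g hg ?_
  rw [h2, sub_self]
  exact RVal.Ge.zero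

end Spn

/-! ### Fields of transcendence degree one -/

section One

variable {p : ℕ} [hp : Fact p.Prime] [CharP Ω p] [CharP k p] [IsAlgClosed k]
  {E W₀ K₀ : IntermediateField k Ω} {b x₀ : Ω}

/-- A field of transcendence degree one is generated by any element which is not a `p`-th power. -/
theorem pb1_of_trdeg (htr : Algebra.trdeg k E ≤ 1) (hb : b ∈ E) (hbn : ∀ g ∈ E, g ^ p ≠ b) :
    PB1 p E b := by
  intro f hf
  set F : IntermediateField k Ω := IntermediateField.adjoin k {b, f} with hF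
  have hFE : F ≤ E := by
    rw [hF, IntermediateField.adjoin_le_iff]
    rintro y (rfl | rfl)
    exacts [hb, hf]
  have hfg : F.FG := IntermediateField.fg_def.2 ⟨{b, f}, Set.toFinite _, rfl⟩
  obtain ⟨n, t, ht⟩ := TW.exists_PBasis (p := p) hfg
  have h1 : Algebra.trdeg k F = n := (ht.trdeg p hfg).1
  have h2 : Algebra.trdeg k F ≤ Algebra.trdeg k E :=
    trdeg_le_of_injective (IntermediateField.inclusion hFE)
      (IntermediateField.inclusion_injective hFE)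
  have hn : n ≤ 1 := by
    have h3 := h2.trans htr
    rw [h1] at h3
    exact_mod_cast h3
  have hbF : b ∈ F := IntermediateField.subset_adjoin _ _ (by simp)
  have hfF : f ∈ F := IntermediateField.subset_adjoin _ _ (by simp)
  have hbF' : ∀ g ∈ F, g ^ p ≠ b := fun g hg => hbn g (hFE hg)
  interval_cases n
  · obtain ⟨c, hc, h3⟩ := ht.span b hbF
    refine absurd ?_ (hbF' (c Fin.elim0) (hc _))
    rw [h3, pcomb, Fintype.sum_eq_single Fin.elim0 fun β hβ => absurd (Subsingleton.elim _ _) hβ]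
    simp [mon]
  · obtain ⟨h, hh, h3⟩ := TWCT.pb1_of_pbasis ht hbF hbF' f hfF
    exact ⟨h, fun j => hFE (hh j), h3⟩

/-- **The closure of a field of transcendence degree one.** -/
theorem bx_clI [IsAlgClosed Ω] (hc : CompleteV v) (htr : Algebra.trdeg k W₀ ≤ 1) (hb : b ∈ W₀)
    (hbn : b ∉ Qp p (clI v W₀)) : BX p v (clI v W₀) b where
  mem := le_clI W₀ hb
  far := far_of_notMem (cld_clI v W₀) hbn
  gen := fun f hf => by
    have h1 := pb1_of_trdeg (p := p) htr hb fun g hg h1 => hbn (mem_Qp.2 ⟨g, le_clI W₀ hg, h1⟩)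
    refine gen_of_dense (L := W₀) hc (cld_clI v W₀) (le_clI W₀ hb) le_rfl (fun T' hT' u hu => ?_) hf
    rw [hT', spn_pw]
    obtain ⟨h, hh, h2⟩ := h1 u hu
    refine ⟨fun i => h i, fun i => le_clI W₀ (hh i), ?_⟩
    rw [h2, Finset.sum_range]

end One

/-! ### Towers -/

section Tow

variable {p : ℕ} [hp : Fact p.Prime] [CharP Ω p] {A B W₀ K₀ : IntermediateField k Ω}

/-- Generating families with `p ^ d` elements over the `p`-th powers. -/
def Gn (p : ℕ) [Fact p.Prime] [CharP Ω p] (d : ℕ) (F : IntermediateField k Ω) : Prop :=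
  ∃ (ι : Type) (_ : Fintype ι) (e : ι → Ω), Fintype.card ι = p ^ d ∧ (∀ i, e i ∈ F) ∧
    ∀ u ∈ F, Spn (Qp p F) e u

/-- A floor. -/
theorem Gn.floor [IsAlgClosed Ω] (hc : CompleteV v) {d : ℕ} (h : Gn p d A) {z : Ω} {s : ℝ}
    (hz : TL v A z s) : Gn p (d + 1) (cadj v A z) := by
  obtain ⟨ι, _, e, hcard, he, hs⟩ := h
  have hle : A ≤ cadj v A z := le_cadj v A z
  have hzm : z ∈ cadj v A z := self_mem_cadj v A z
  refine ⟨ι × Fin p, inferInstance, fun i => e i.1 * z ^ (i.2 : ℕ), ?_, fun i =>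
    mul_mem (hle (he _)) (pow_mem hzm _), fun u hu => ?_⟩
  · rw [Fintype.card_prod, Fintype.card_fin, hcard, pow_succ]
  · refine TWC.spn_of_lim hc (TWC.cl_Qp (cld_cadj v A z)) fun b => ?_
    obtain ⟨f, hf, h1⟩ := hz.dense hu b
    refine ⟨_, ?_, h1⟩
    rw [eval_eq_sum_range]
    refine TW.Spn.sum _ fun m _ => ?_
    obtain ⟨c, hcm, h2⟩ := hs (f.coeff m) (hf m)
    rw [h2, Finset.sum_mul]
    refine TW.Spn.sum _ fun i _ => ?_
    have e1 : c i * e i * z ^ m = (c i * (z ^ (m / p)) ^ p) *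
        (e (i, (⟨m % p, Nat.mod_lt _ hp.out.pos⟩ : Fin p)).1 *
          z ^ ((i, (⟨m % p, Nat.mod_lt _ hp.out.pos⟩ : Fin p)).2 : ℕ)) := by
      have e2 : z ^ m = (z ^ (m / p)) ^ p * z ^ (m % p) := by
        rw [← pow_mul, ← pow_add]
        congr 1
        conv_lhs => rw [← Nat.div_add_mod m p]
        ring
      rw [e2]
      ring
    rw [e1]
    exact TW.Spn.smul (mul_mem (Qp_mono hle (hcm i)) (mem_Qp.2 ⟨_, pow_mem hzm _, rfl⟩))
      (TW.Spn.self (b := fun i : ι × Fin p => e i.1 * z ^ (i.2 : ℕ)) (i, _))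

/-- A tower. -/
theorem Gn.tow [IsAlgClosed Ω] (hc : CompleteV v) {m : ℕ} (hT : TowR v m A B) :
    ∀ {d : ℕ}, Gn p d A → Gn p (d + m) B := by
  induction hT with
  | zero _ => exact fun h => h
  | @succ n A B z s hz _ ih =>
    intro d h
    have h1 := ih (h.floor hc hz)
    rwa [Nat.add_assoc, Nat.add_comm 1 n] at h1

/-- A field with bounded distortion has no small generating family. -/
theorem Gn.le [IsAlgClosed k] [CharP k p] (hc : CompleteV v) (hK : K₀.FG) (hBD : BD p v K₀)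
    {d D : ℕ} (htr : Algebra.trdeg k K₀ = D) (h : Gn p d (clI v K₀)) : D ≤ d := by
  obtain ⟨m, s₀, hsb, C₀, hC₀⟩ := hBD
  have hm : m = D := by
    have h4 := (hsb.trdeg p hK).1
    rw [htr] at h4
    exact_mod_cast h4.symm
  subst hm
  have hos : OI p v (clI v K₀) s₀ C₀ := (TWM.OI.of_orth_pb hC₀ hsb).cl
  have hpb : PBasis p (clI v K₀) s₀ := pbasis_clI hc hsb hos
  obtain ⟨ι, _, e, hcard, he, hs⟩ := h
  have h1 := TWC.card_le_of_ind hpb.bas.ind fun l => hs _ (hpb.bas.mem l)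
  rw [hcard, Fintype.card_fun, Fintype.card_fin, Fintype.card_fin] at h1
  exact (Nat.pow_le_pow_iff_right hp.out.one_lt).1 h1

/-- **The base of a tower with bounded distortion.** -/
theorem exists_bx [IsAlgClosed k] [IsAlgClosed Ω] [CharP k p] (hc : CompleteV v) (hK : K₀.FG)
    (hBD : BD p v K₀) {D : ℕ} (htr : Algebra.trdeg k K₀ = (D + 1 : ℕ))
    (hW : Algebra.trdeg k W₀ ≤ 1) (hT : TowR v D (clI v W₀) (clI v K₀)) :
    ∃ x₀ ∈ W₀, BX p v (clI v W₀) x₀ := by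
  by_cases h : ∃ b ∈ W₀, b ∉ Qp p (clI v W₀)
  · obtain ⟨b, hb, hbn⟩ := h
    exact ⟨b, hb, bx_clI hc hW hb hbn⟩
  · exfalso
    push Not at h
    have h1 : ∀ u ∈ clI v W₀, u ∈ Qp p (clI v W₀) := by
      intro u hu
      refine TWC.cl_Qp (cld_clI v W₀) fun c => ?_
      obtain ⟨a, ha, h2⟩ := mem_clI.1 hu c
      exact ⟨a, h a ha, h2⟩
    have h2 : Gn p 0 (clI v W₀) := ⟨Unit, inferInstance, fun _ => 1, by simp, fun _ => one_mem _,
      fun u hu => ⟨fun _ => u, fun _ => h1 u hu, by simp⟩⟩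
    have h3 := (h2.tow hc hT).le hc hK hBD htr
    omega

end Tow

/-! ### The tame closure, isometries, the Gauss extension -/

section Ext

variable {H : Type u} [Field H] [Algebra k H] {w : RVal H} {ι : Ω →ₐ[k] H}
  {p : ℕ} [hp : Fact p.Prime] [CharP Ω p] {W B : IntermediateField k Ω} {x x₀ : Ω}
  {G : AddSubgroup ℝ} {M : ℝ → Ω}

theorem spn_one_mem {T T' : IntermediateField k Ω} (hT' : ∀ u, u ∈ T' ↔ Spn (Qp p T) (pwb p x₀) u)
    {q : Ω} (hq : q ∈ Qp p T) : q ∈ T' := by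
  have h2 : Spn (Qp p T) (pwb p x₀) (pwb p x₀ ⟨0, hp.out.pos⟩) := TW.Spn.self _
  rw [pwb, pow_zero] at h2
  have h3 := TW.Spn.smul hq h2
  rw [mul_one] at h3
  exact (hT' q).2 h3

theorem BX.le_spF (h : BX p v W x₀) {T T' : IntermediateField k Ω} (hWT : W ≤ T)
    (hT' : ∀ u, u ∈ T' ↔ Spn (Qp p T) (pwb p x₀) u) : W ≤ T' := by
  intro u hu
  obtain ⟨c, hc, h1⟩ := h.gen u hu
  rw [hT', spn_pw]
  exact ⟨c, fun i => hWT (hc i), h1⟩

/-- **The tame closure.** -/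
theorem BX.tam [IsAlgClosed k] [IsAlgClosed Ω] [CharP k p] (hk : Ctx0 k v) (hc : CompleteV v)
    (hW : Cld v W) (hx0 : x ≠ 0) (hx : x ∈ W) (h : BX p v W x₀) :
    BX p v (TWTam.tam p v x W) x₀ where
  mem := le_tam W h.mem
  gen := fun f hf => by
    refine gen_of_dense (L := W ⊔ IntermediateField.adjoin k (TR p x)) hc (cld_tam W)
      (le_tam W h.mem) le_rfl (fun T' hT' => sup_le (h.le_spF (le_tam W) hT') ?_) hf
    rw [IntermediateField.adjoin_le_iff]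
    intro t ht
    have htT : t ∈ TWTam.tam p v x W := tr_mem_tam ht
    obtain ⟨ht0, n, hn, m, h1⟩ := ht
    have hco : Nat.Coprime p n := (Nat.Prime.coprime_iff_not_dvd hp.out).2 hn
    have h3 := Nat.gcd_eq_gcd_ab p n
    rw [hco.gcd_eq_one] at h3
    have h4 : t = (t ^ p.gcdA n) ^ p * (x ^ m) ^ p.gcdB n := by
      rw [← h1, ← zpow_natCast t n, ← zpow_natCast (t ^ p.gcdA n) p, ← zpow_mul, ← zpow_mul,
        ← zpow_add₀ ht0, mul_comm (p.gcdA n) (p : ℤ), ← h3]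
      simp
    rw [SetLike.mem_coe, h4]
    exact mul_mem (spn_one_mem hT' (mem_Qp.2 ⟨_, zpow_mem htT _, rfl⟩))
      (zpow_mem (h.le_spF (le_tam W) hT' (zpow_mem hx m)) _)
  far := by
    have hK : TamB p v x W := tamB_of hp.out hk hc hx0 hW hx
    obtain ⟨C, hC⟩ := h.far
    refine ⟨C, fun g hg h1 => hC (prT p v x W g) (hK.spec hg).1 ?_⟩
    have h2 := hK.prT_ge (sub_mem (le_tam W h.mem) (pow_mem hg p)) h1
    rwa [hK.prT_sub (le_tam W h.mem) (pow_mem hg p), hK.prT_self h.mem, hK.prT_pow hg] at h2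

omit hp [CharP Ω p] in
/-- Isometries. -/
theorem BX.map (hI : IsoE v w ι) (h : BX p v W x₀) : BX p w (W.map ι) (ι x₀) where
  mem := ⟨x₀, h.mem, rfl⟩
  gen := by
    rintro _ ⟨f, hf, rfl⟩
    obtain ⟨c, hc, h1⟩ := h.gen f hf
    refine ⟨fun i => ι (c i), fun i => ⟨c i, hc i, rfl⟩, ?_⟩
    rw [h1]
    simp
  far := by
    obtain ⟨C, hC⟩ := h.far
    refine ⟨C, ?_⟩
    rintro _ ⟨g, hg, rfl⟩ h1
    refine hC g hg (hI.ge_iff.1 ?_)
    rw [map_sub, map_pow]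
    exact h1

/-- **The Gauss extension.** -/
theorem BX.pm [IsAlgClosed k] [IsAlgClosed Ω] (hc : CompleteV v) (hB : Cld v B)
    (hM : Gx v B G M) (hG : ∀ g ∈ G, g / p ∈ G) (h : BX p v B x₀) :
    BX p v (PM v B G M) x₀ where
  mem := PM.le h.mem
  gen := fun f hf => by
    refine gen_of_dense (L := B ⊔ IntermediateField.adjoin k (M '' (G : Set ℝ))) hc PM.cld
      (PM.le h.mem) le_rfl (fun T' hT' => sup_le (h.le_spF PM.le hT') ?_) hf
    rw [IntermediateField.adjoin_le_iff]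
    rintro _ ⟨g, hg, rfl⟩
    rw [hM.mon_root hG hg]
    exact spn_one_mem hT' (mem_Qp.2 ⟨_, PM.mon (hG g hg), rfl⟩)
  far := by
    obtain ⟨π, hπ, hpow⟩ := hM.exists_pi (p := p) hc (Imm.refl B) hB
    obtain ⟨C, hC⟩ := h.far
    refine ⟨C, fun g hg h1 => hC (π ⟨g, hg⟩) (hπ.mem _) ?_⟩
    have h2 := hπ.norm (⟨x₀, PM.le h.mem⟩ - ⟨g, hg⟩ ^ p) C h1
    rwa [map_sub, hπ.self x₀ h.mem, hpow] at h2

/-- The closure of a base: `W ^ p [x₀]` is `PBasis`. -/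
theorem BX.pbasis (h : BX p v W x₀) : PBasis p W ![x₀] := by
  have hn : x₀ ∉ Qp p W := h.notMem
  have h1 := TW.bas_pow hn (mem_Qp.2 ⟨x₀, h.mem, rfl⟩)
  have e : ∀ c : (Fin 1 → Fin p) → Ω, pcomb ![x₀] c = ∑ i : Fin p, c ![i] ^ p * x₀ ^ (i : ℕ) := by
    intro c
    rw [pcomb, ← (Equiv.funUnique (Fin 1) (Fin p)).symm.sum_comp]
    refine Finset.sum_congr rfl fun i _ => ?_
    have e1 : (Equiv.funUnique (Fin 1) (Fin p)).symm i = ![i] := by
      funext j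
      fin_cases j
      rfl
    rw [e1]
    congr 1
    simp [mon]
  refine ⟨fun i => by fin_cases i; exact h.mem, fun u hu => ?_, fun c hc h0 α => ?_⟩
  · obtain ⟨c, hc, h2⟩ := h.gen u hu
    refine ⟨fun α => c (α 0), fun α => hc _, ?_⟩
    rw [e, h2]
    rfl
  · rw [e] at h0
    have h2 := h1.ind (fun i => c ![i] ^ p) (fun i => mem_Qp.2 ⟨_, hc _, rfl⟩) h0 (α 0)
    have e1 : α = ![α 0] := by
      funext j
      fin_cases j
      rfl
    rw [e1]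
    exact (pow_eq_zero_iff hp.out.ne_zero).1 h2

end Ext

/-! ### The values of the tame closure -/

section Val

variable {p : ℕ} [hp : Fact p.Prime] {W : IntermediateField k Ω} {x : Ω}

omit hp in
/-- Iterated division by `p`. -/
theorem PDiv.iter (h : TWS7.PDiv p v W) (j : ℕ) {f : Ω} (hf : f ∈ W) (hf0 : f ≠ 0) :
    ∃ g ∈ W, g ≠ 0 ∧ v f = (p ^ j : ℕ) * v g := by
  induction j with
  | zero => exact ⟨f, hf, hf0, by simp⟩
  | succ j ih =>
    obtain ⟨g, hg, hg0, h1⟩ := ih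
    obtain ⟨g', hg', hg0', h2⟩ := h g hg hg0
    refine ⟨g', hg', hg0', ?_⟩
    rw [h1, h2]
    push_cast
    ring

/-- **The values of the tame closure.** -/
theorem vg_tam [IsAlgClosed Ω] (hx0 : x ≠ 0) (hx : x ∈ W) (hpd : TWS7.PDiv p v W) (q : ℚ) :
    (q : ℝ) * v x ∈ VG v (TWTam.tam p v x W) := by
  have hden : q.den ≠ 0 := q.den_ne_zero
  obtain ⟨j, n, hn, hq⟩ := Nat.exists_eq_pow_mul_and_not_dvd hden p hp.out.ne_one
  have hn0 : n ≠ 0 := fun h0 => hn (h0 ▸ dvd_zero p)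
  have hpj : p ^ j ≠ 0 := (Nat.pow_pos hp.out.pos).ne'
  obtain ⟨y, hy, hy0, h1⟩ := PDiv.iter hpd j hx hx0
  obtain ⟨t, ht⟩ := IsAlgClosed.exists_pow_nat_eq x (Nat.pos_of_ne_zero hn0)
  have htR : t ∈ TR p x := TR.of_root hn ht hx0
  have ht0 : t ≠ 0 := htR.1
  have h2 : (n : ℝ) * v t = v x := by rw [← v.map_pow ht0, ht]
  have hco : Nat.Coprime (p ^ j) n :=
    Nat.Coprime.pow_left j ((Nat.Prime.coprime_iff_not_dvd hp.out).2 hn)
  have h3 := Nat.gcd_eq_gcd_ab (p ^ j) n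
  rw [hco.gcd_eq_one] at h3
  have hpj' : ((p ^ j : ℕ) : ℝ) ≠ 0 := by exact_mod_cast hpj
  have hn' : (n : ℝ) ≠ 0 := by exact_mod_cast hn0
  have h3' : (1 : ℝ) = ((p ^ j : ℕ) : ℝ) * ((p ^ j).gcdA n : ℤ) + n * ((p ^ j).gcdB n : ℤ) := by
    exact_mod_cast h3
  have h4 : (q : ℝ) * v x = ((q.num * (p ^ j).gcdB n : ℤ) : ℝ) * v y +
      ((q.num * (p ^ j).gcdA n : ℤ) : ℝ) * v t := by
    have e1 : (q : ℝ) = q.num / q.den := by exact_mod_cast (Rat.num_div_den q).symm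
    have e2 : (q.den : ℝ) = ((p ^ j : ℕ) : ℝ) * n := by exact_mod_cast hq
    have e3 : v y = v x / ((p ^ j : ℕ) : ℝ) := by
      rw [h1]
      field_simp
    have e4 : v t = v x / n := by
      rw [← h2]
      field_simp
    rw [e1, e2, e3, e4]
    push_cast at h3' ⊢
    have hpj'' : ((p : ℝ) ^ j) ≠ 0 := by exact_mod_cast hpj'
    field_simp
    linear_combination (q.num : ℝ) * v x * h3'
  rw [h4]
  have hm : ∀ (m : ℤ) {g : ℝ}, g ∈ VG v (TWTam.tam p v x W) →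
      (m : ℝ) * g ∈ VG v (TWTam.tam p v x W) := fun m g hg => by
    rw [← zsmul_eq_mul]
    exact (VG v (TWTam.tam p v x W)).zsmul_mem hg m
  exact add_mem (hm _ (VG.self (le_tam W hy) hy0)) (hm _ (VG.self (tr_mem_tam htR) ht0))

/-- Every value is a rational multiple of `v x` (rational rank one). -/
theorem exists_rat (h : Ctx k v 1) (hx0 : x ≠ 0) (hxv : v x ≠ 0) {g : Ω} (hg : g ≠ 0) :
    ∃ q : ℚ, v g = q * v x := by
  obtain ⟨X, hX0, -, hX⟩ := h.rank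
  have h1 : ∀ g : Ω, g ≠ 0 → ∃ q : ℚ, v g = q * v (X 0) := by
    intro g hg
    have h2 := hX g hg
    have e : Set.range (fun i => v (X i)) = {v (X 0)} := by
      ext r
      constructor
      · rintro ⟨i, rfl⟩
        fin_cases i
        rfl
      · rintro rfl
        exact ⟨0, rfl⟩
    rw [e, Submodule.mem_span_singleton] at h2
    obtain ⟨q, hq⟩ := h2
    exact ⟨q, by rw [← hq, Rat.smul_def]⟩
  obtain ⟨q, hq⟩ := h1 x hx0
  obtain ⟨q', hq'⟩ := h1 g hg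
  have hq0 : (q : ℝ) ≠ 0 := by
    intro h0
    rw [h0, zero_mul] at hq
    exact hxv hq
  refine ⟨q' / q, ?_⟩
  rw [hq', hq]
  push_cast
  field_simp

/-- The values of the tame closure are divisible. -/
theorem vg_tam_div [IsAlgClosed Ω] (h : Ctx k v 1) (hx0 : x ≠ 0) (hxv : v x ≠ 0) (hx : x ∈ W)
    (hpd : TWS7.PDiv p v W) (n : ℕ) {g : ℝ} (hg : g ∈ VG v (TWTam.tam p v x W)) :
    g / n ∈ VG v (TWTam.tam p v x W) := by
  obtain ⟨a, -, ha0, rfl⟩ := hg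
  obtain ⟨q, hq⟩ := exists_rat h hx0 hxv ha0
  have e : v a / n = ((q / n : ℚ) : ℝ) * v x := by
    rw [hq]
    push_cast
    ring
  rw [e]
  exact vg_tam hx0 hx hpd _

/-- All the values. -/
theorem vg_tam_all [IsAlgClosed Ω] (h : Ctx k v 1) (hx0 : x ≠ 0) (hxv : v x ≠ 0) (hx : x ∈ W)
    (hpd : TWS7.PDiv p v W) {g : Ω} (hg : g ≠ 0) : v g ∈ VG v (TWTam.tam p v x W) := by
  obtain ⟨q, hq⟩ := exists_rat h hx0 hxv hg
  rw [hq]
  exact vg_tam hx0 hx hpd q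

end Val

/-! ### The data of the row -/

section Gauss

variable {H : Type u} [Field H] [Algebra k H] {w : RVal H} {ι : Ω →ₐ[k] H}
  {p : ℕ} [hp : Fact p.Prime] {x : Ω} {W₀ K₀ B C : IntermediateField k Ω} {al : Ω} {ν : ℝ}
  {G : AddSubgroup ℝ} {M : ℝ → H}

omit hp in
/-- `gr C` is perfect if `C` has all the values. -/
theorem gp_of_full [IsAlgClosed k] (hp : 0 < p) (hk : Ctx0 k v)
    (hC : ∀ r : ℝ, ∃ y ∈ C, y ≠ 0 ∧ v y = r) : TWRR.GP p v C := by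
  intro c hc hc0
  have hp0 : (p : ℝ) ≠ 0 := by exact_mod_cast hp.ne'
  obtain ⟨y, hy, hy0, h1⟩ := hC (v c / p)
  have hyp : y ^ p ≠ 0 := pow_ne_zero p hy0
  have h2 : v (y ^ p) = v c := by
    rw [v.map_pow hy0, h1]
    field_simp
  have h3 : v (c / y ^ p) = 0 := by rw [v.map_div hc0 hyp, h2, sub_self]
  obtain ⟨ζ, hζ⟩ := hk.residue (f := c / y ^ p) (fun _ => by rw [h3])
  obtain ⟨ζ', rfl⟩ := IsAlgClosed.exists_pow_nat_eq ζ hp
  refine ⟨algebraMap k Ω ζ' * y, mul_mem (C.algebraMap_mem _) hy, ?_⟩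
  have e : c - (algebraMap k Ω ζ' * y) ^ p =
      (c / y ^ p - algebraMap k Ω (ζ' ^ p)) * y ^ p := by
    rw [map_pow, sub_mul, div_mul_cancel₀ _ hyp, mul_pow]
  rw [e]
  have h4 : Gt v 0 (c / y ^ p - algebraMap k Ω (ζ' ^ p)) := hζ
  have h5 := h4.mul_ge (RVal.ge_self (v := v) (y ^ p))
  rwa [h2, zero_add] at h5

omit hp in
/-- The values of the image. -/
theorem vg_map (hI : IsoE v w ι) : VG w (B.map ι) = VG v B := by
  ext g
  constructor
  · rintro ⟨_, ⟨a, ha, rfl⟩, ha0, rfl⟩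
    have ha0' : a ≠ 0 := fun h0 => ha0 (by rw [h0]; exact map_zero ι)
    exact ⟨a, ha, ha0', (hI.val a ha0').symm⟩
  · rintro ⟨a, ha, ha0, rfl⟩
    exact ⟨ι a, ⟨a, ha, rfl⟩, IsoE.ne_zero ha0, hI.val a ha0⟩

variable [CharP Ω p] [CharP H p] [CharP k p] [IsAlgClosed k] [IsAlgClosed Ω] [IsAlgClosed H]

omit [CharP Ω p] [CharP H p] [CharP k p] [IsAlgClosed k] in
/-- **The monomials** for the data of the row (j = 1): `G` is a complement of the group of the values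
of the tame closure of `W`, which are those of the tame closure of `K`. -/
theorem _root_.Pool.Agent.TWCT.J1D.exists_gauss (h : TWCT.J1D p v w ι x W₀ K₀ al ν) :
    ∃ (G : AddSubgroup ℝ) (M : ℝ → H), Gx w (TWCT.tH p v ι x (clI v K₀)) G M ∧
      (∀ n : ℕ, n ≠ 0 → ∀ g ∈ G, g / n ∈ G) ∧
      VG w (TWCT.tH p v ι x (clI v W₀)) ⊔ G = ⊤ := by
  have e : ∀ B : IntermediateField k Ω, VG w (TWCT.tH p v ι x B) = VG v (TWTam.tam p v x B) :=
    fun B => vg_map h.iso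
  obtain ⟨G, hG1, hG2, hG3⟩ := TWCT.exists_compl (VG v (TWTam.tam p v x (clI v W₀)))
    (fun n _ g hg => vg_tam_div h.ctx h.x0 h.xv h.xW h.pd n hg)
  obtain ⟨M, hM⟩ := TWC.exists_ms h.val
  refine ⟨G, M, ⟨TWS.MS.mono hM le_top, fun g hg hg1 => hG1 g hg ?_⟩, hG3, ?_⟩
  · rw [e] at hg1
    obtain ⟨a, -, ha0, rfl⟩ := hg1
    exact vg_tam_all h.ctx h.x0 h.xv h.xW h.pd ha0
  · rw [e]
    exact hG2

omit hp [CharP Ω p] [CharP H p] [CharP k p] [IsAlgClosed k] [IsAlgClosed Ω] [IsAlgClosed H] in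
/-- The Gauss extension has all the values. -/
theorem full_pm (hG : VG w (TWCT.tH p v ι x C) ⊔ G = ⊤) (hM : TWM.MS w G M) (hCB : C ≤ B)
    (r : ℝ) : ∃ y ∈ PM w (TWCT.tH p v ι x B) G M, y ≠ 0 ∧ w y = r := by
  have h1 : r ∈ VG w (TWCT.tH p v ι x C) ⊔ G := by
    rw [hG]
    trivial
  obtain ⟨a, ⟨y, hy, hy0, rfl⟩, g, hg, rfl⟩ := AddSubgroup.mem_sup.1 h1
  refine ⟨y * M g, mul_mem (PM.le (TWCT.tH_mono hCB hy)) (PM.mon hg),
    mul_ne_zero hy0 (hM.ne g hg), ?_⟩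
  rw [w.map_mul hy0 (hM.ne g hg), hM.val g hg]

/-- **The base of the core.** -/
theorem _root_.Pool.Agent.TWCT.J1D.exists_base (h : TWCT.J1D p v w ι x W₀ K₀ al ν) :
    ∃ x₀ ∈ W₀, BX p v (clI v W₀) x₀ ∧ ∀ (G : AddSubgroup ℝ) (M : ℝ → H),
      Gx w (TWCT.tH p v ι x (clI v K₀)) G M → (∀ g ∈ G, g / p ∈ G) →
      BX p w (PM w (TWCT.tH p v ι x (clI v W₀)) G M) (ι x₀) := by
  obtain ⟨x₀, hx₀, h1⟩ := exists_bx (D := 3) h.cpl h.fg h.bd (by rw [h.tr]) (by rw [h.trW]; simp)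
    h.tow
  refine ⟨x₀, hx₀, h1, fun G M hM hG => ?_⟩
  have h2 := (h1.tam h.ctx.toCtx0 h.cpl (cld_clI v W₀) h.x0 h.xW).map h.iso
  exact h2.pm h.cw (TWCT.tH_cld h.iso h.cpl _) (hM.mono (TWCT.tH_mono h.tow.le)) hG

/-- **The base of the core**, over the tame closure of `W` only. -/
theorem _root_.Pool.Agent.TWCT.J1D.exists_bx_pm (h : TWCT.J1D p v w ι x W₀ K₀ al ν)
    (hM : TWCT.GsM w (TWCT.tH p v ι x (clI v W₀)) G M) (hG : ∀ n : ℕ, n ≠ 0 → ∀ g ∈ G, g / n ∈ G) :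
    ∃ X₀ ∈ (clI v W₀).map ι, BX p w (PM w (TWCT.tH p v ι x (clI v W₀)) G M) X₀ := by
  obtain ⟨x₀, hx₀, h1⟩ := exists_bx (D := 3) h.cpl h.fg h.bd (by rw [h.tr]) (by rw [h.trW]; simp)
    h.tow
  have h2 := (h1.tam h.ctx.toCtx0 h.cpl (cld_clI v W₀) h.x0 h.xW).map h.iso
  exact ⟨ι x₀, ⟨x₀, le_clI W₀ hx₀, rfl⟩, h2.pm h.cw (TWCT.tH_cld h.iso h.cpl _) ⟨hM.ms, hM.dj⟩
    (hG p hp.out.ne_zero)⟩

end Gauss

end Pool.Agent.TWCY
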