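import Pool.Agent.Lib.TWCY.Core
import Pool.Agent.Lib.TWM.C1
import Pool.Agent.Lib.TWM.NNp

/-!
# CT, j = 1, abelian case: the derivation of the base (`RowBase`)

`W = W ^ p [x₀]`, `x₀` at finite distance of `W ^ p`, `W` full, `gr W` perfect: after scaling `x₀` is a
limit of `W ^ p` of radius `0`, not attained, the derivation with value `1` at `x₀` has norm `≤ 0`, and
the critical elements of level `0` are `k x₀` + null.
-/

set_option autoImplicit false
set_option linter.unusedSectionVars false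

open Polynomial

namespace Pool.Agent.TWCY

open Pool.Agent.H15JM (RVal)
open Pool.Agent.LU1 (VPos adj)
open Pool.Agent.D2 (Ctx0)
open Pool.Agent.D2P (clI mem_clI)
open Pool.Agent.TWM
open Pool.Agent.TWII (PG LP)
open Pool.Agent.TWRR (GP)

universe u

variable {k Ω : Type u} [Field k] [Field Ω] [Algebra k Ω] {v : RVal Ω}
  {W : IntermediateField k Ω} {p : ℕ} [hp : Fact p.Prime] [CharP k p] [CharP Ω p]
  [IsAlgClosed k] [IsAlgClosed Ω]

omit [CharP k p] in
theorem mem_powF1 {y : Ω} : y ∈ powF p 1 W ↔ ∃ b ∈ W, b ^ p = y := by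
  rw [mem_powF]
  simp only [pow_one]

omit [CharP k p] in
theorem cld_powF1 (hW : Cld v W) : Cld v (powF p 1 W) := by
  intro a ha
  have hp0 : (0 : ℝ) < (p : ℝ) ^ 1 := pow_pos (by exact_mod_cast hp.out.pos) 1
  obtain ⟨b, hb⟩ := IsAlgClosed.exists_pow_nat_eq a (pow_pos hp.out.pos 1)
  refine ⟨b, hW ?_, hb⟩
  rw [mem_clI]
  intro c
  obtain ⟨g, hg, h1⟩ := (mem_clI.1 ha) ((p : ℝ) ^ 1 * c)
  obtain ⟨h, hh, rfl⟩ := hg
  refine ⟨h, hh, ?_⟩
  rw [← hb] at h1
  change v.Ge _ (b ^ p ^ 1 - h ^ p ^ 1) at h1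
  rw [pow_sub_pow] at h1
  exact (ge_pow_iff (p := p) (e := 1)).1 h1

/-- The distance of `x₀` from `W ^ p` is attained by no element. -/
theorem exists_dist (hgp : GP p v W) {x₀ : Ω} (hx : x₀ ∈ W) {C : ℝ}
    (hC : ∀ g ∈ W, ¬ v.Ge C (x₀ - g ^ p)) :
    ∃ δ : ℝ, (∀ g ∈ W, ¬ v.Ge δ (x₀ - g ^ p)) ∧ ∀ ε : ℝ, 0 < ε → ∃ g ∈ W,
      v.Ge (δ - ε) (x₀ - g ^ p) := by
  set S : Set ℝ := {r | ∃ g ∈ W, r = v (x₀ - g ^ p)} with hS
  have hne0 : ∀ g ∈ W, x₀ - g ^ p ≠ 0 ∧ v (x₀ - g ^ p) < C := by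
    intro g hg
    have h1 := hC g hg
    refine ⟨fun h => h1 (by rw [h]; exact RVal.Ge.zero), ?_⟩
    by_contra h2
    exact h1 fun _ => not_lt.1 h2
  have hSne : S.Nonempty := ⟨_, 0, W.zero_mem, rfl⟩
  have hSb : BddAbove S := ⟨C, by rintro _ ⟨g, hg, rfl⟩; exact (hne0 g hg).2.le⟩
  refine ⟨sSup S, fun g hg h => ?_, fun ε hε => ?_⟩
  · have h1 := h (hne0 g hg).1
    obtain ⟨h', hh', h2⟩ := hgp (x₀ - g ^ p) (sub_mem hx (pow_mem hg p)) (hne0 g hg).1
    have h3 : x₀ - g ^ p - h' ^ p = x₀ - (g + h') ^ p := by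
      rw [add_pow_char]; ring
    rw [h3] at h2
    have h4 := h2 (hne0 _ (add_mem hg hh')).1
    have h5 : v (x₀ - (g + h') ^ p) ≤ sSup S := le_csSup hSb ⟨_, add_mem hg hh', rfl⟩
    linarith
  · obtain ⟨_, ⟨g, hg, rfl⟩, h1⟩ := exists_lt_of_lt_csSup hSne (sub_lt_self (sSup S) hε)
    exact ⟨g, hg, fun _ => h1.le⟩

/-- A step with a nonattained distance `0`. -/
structure Stp (p : ℕ) [Fact p.Prime] [CharP Ω p] (v : RVal Ω) (W : IntermediateField k Ω)
    (x : Ω) : Prop where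
  cld : Cld v W
  mem : x ∈ W
  gen : ∀ f ∈ W, ∃ c : Fin p → Ω, (∀ i, c i ∈ W) ∧ f = ∑ i, c i ^ p * x ^ (i : ℕ)
  far : ∀ g ∈ W, ¬ Gt v 0 (x - g ^ p)
  lp : LP p v W 0 x

omit [CharP k p] in
theorem Stp.pstep {x : Ω} (h : Stp p v W x) : C.PStep p v (powF p 1 W) x 0 where
  cld := cld_powF1 h.cld
  pw := mem_powF1.2 ⟨x, h.mem, rfl⟩
  far := by
    rintro ⟨g, hg, h1⟩
    obtain ⟨b, hb, rfl⟩ := mem_powF1.1 hg
    exact h.far b hb h1

omit [CharP k p] in
theorem Stp.adj_eq {x : Ω} (h : Stp p v W x) : adj (powF p 1 W) x = W := by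
  refine le_antisymm (D2P.adj_le (powF_le W) h.mem) fun f hf => ?_
  obtain ⟨c, hc, rfl⟩ := h.gen f hf
  have h1 := D2P.mem_adj_self (powF p 1 W) x
  refine sum_mem fun i _ => mul_mem (h1.2 (mem_powF1.2 ⟨_, hc i, rfl⟩)) (pow_mem h1.1 _)

/-- The derivation. -/
noncomputable def derW (p : ℕ) [Fact p.Prime] [CharP Ω p] (W : IntermediateField k Ω) (x : Ω) :
    Ω → Ω := C.der p (powF p 1 W) x

theorem Stp.drv (h0 : Ctx0 k v) {x : Ω} (h : Stp p v W x) : Drv v W (derW p W x) where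
  add f hf g hg := by
    rw [← h.adj_eq] at hf hg
    exact C.der_add p h0 h.pstep hf hg
  mul f hf g hg := by
    rw [← h.adj_eq] at hf hg
    have h1 := C.der_mul p h0 h.pstep hf hg
    unfold derW
    rw [h1]; ring
  alg c := C.der_M p h0 h.pstep (IntermediateField.algebraMap_mem _ c)
  norm f hf r hr := by
    rw [← h.adj_eq] at hf
    have h1 := C.der_ge p h0 h.pstep hf hr
    rwa [sub_zero] at h1

theorem Stp.der_mem {x : Ω} (h : Stp p v W x) {f : Ω} (hf : f ∈ W) : derW p W x f ∈ W := by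
  rw [← h.adj_eq] at hf
  have h1 := C.der_mem p h.pstep.pw hf
  rwa [h.adj_eq] at h1

theorem Stp.der_x (h0 : Ctx0 k v) {x : Ω} (h : Stp p v W x) : derW p W x x = 1 := by
  have h1 := C.der_poly p h0 h.pstep (X_mem_PI (A := powF p 1 W))
  rwa [eval_X, derivative_X, eval_one] at h1

theorem Stp.der_pow (h0 : Ctx0 k v) {x : Ω} (h : Stp p v W x) {g : Ω} (hg : g ∈ W) :
    derW p W x (g ^ p) = 0 := C.der_M p h0 h.pstep (mem_powF1.2 ⟨g, hg, rfl⟩)

/-- The Taylor coefficients. -/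
theorem Stp.hasse_gt (h0 : Ctx0 k v) {x : Ω} (h : Stp p v W x) {P : Polynomial Ω}
    (hP : P ∈ PI (powF p 1 W)) (hdeg : P.natDegree < p)
    (hd : Gt v 0 (derW p W x (P.eval x))) {j : ℕ} (hj : 1 ≤ j) :
    Gt v 0 ((taylor x P).coeff j) := by
  by_cases hjp : p ≤ j
  · rw [coeff_eq_zero_of_natDegree_lt (by rw [natDegree_taylor]; omega)]
    exact Gt.zero
  push Not at hjp
  have hmem : P.eval x ∈ adj (powF p 1 W) x := C.eval_mem_adj hP
  have h1 : Gt v 0 ((C.der p (powF p 1 W) x)^[j] (P.eval x)) := by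
    obtain ⟨i, rfl⟩ : ∃ i, j = i + 1 := ⟨j - 1, by omega⟩
    rw [Function.iterate_succ_apply]
    have h2 := C.der_iter_gt p h0 h.pstep i (C.der_mem p h.pstep.pw hmem) (c := 0) hd
    rwa [mul_zero, sub_zero] at h2
  rw [C.der_iter_poly p h0 h.pstep j hP] at h1
  have h2 : (derivative^[j] P).eval x = (j.factorial : Ω) * (taylor x P).coeff j := by
    rw [taylor_coeff]
    rw [← factorial_smul_hasseDeriv, LinearMap.smul_apply, nsmul_eq_mul, eval_mul, eval_natCast]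
  rw [h2] at h1
  have h3 : ((j.factorial : ℕ) : k) ≠ 0 := by
    rw [Ne, CharP.cast_eq_zero_iff k p, hp.out.dvd_factorial]
    omega
  obtain ⟨h4, h5⟩ := C.nat_val h0 h3
  intro h6
  have h7 := h1 (mul_ne_zero h4 h6)
  rwa [v.map_mul h4 h6, h5, zero_add] at h7

/-- The elements with a small derivative are null. -/
theorem Stp.null (h0 : Ctx0 k v) {x : Ω} (h : Stp p v W x) {f : Ω} (hf : f ∈ W)
    (hd : Gt v 0 (derW p W x f)) : PG p v W 0 f := by
  have hf' := hf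
  rw [← h.adj_eq] at hf'
  obtain ⟨P, hP, hdeg, rfl⟩ := C.exists_rep p h.pstep.pw hf'
  have h1 := fun (j : ℕ) (hj : 1 ≤ j) => h.hasse_gt h0 hP hdeg hd hj
  -- a uniform bound
  obtain ⟨η, hη, h2⟩ : ∃ η : ℝ, 0 < η ∧ ∀ j ∈ Finset.range (P.natDegree + 1), 1 ≤ j →
      v.Ge η ((taylor x P).coeff j) := by
    generalize Finset.range (P.natDegree + 1) = S
    classical
    induction S using Finset.induction_on with
    | empty => exact ⟨1, one_pos, fun j hj => absurd hj (Finset.notMem_empty j)⟩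
    | insert a S ha ih =>
      obtain ⟨η, hη, h3⟩ := ih
      by_cases h4 : 1 ≤ a ∧ (taylor x P).coeff a ≠ 0
      · refine ⟨min η (v ((taylor x P).coeff a)), lt_min hη (h1 a h4.1 h4.2), fun j hj hj1 => ?_⟩
        rcases Finset.mem_insert.1 hj with rfl | hj
        · exact fun _ => min_le_right _ _
        · exact (h3 j hj hj1).mono (min_le_left _ _)
      · refine ⟨η, hη, fun j hj hj1 => ?_⟩
        rcases Finset.mem_insert.1 hj with rfl | hj
        · have h5 : (taylor x P).coeff j = 0 := by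
            by_contra h6
            exact h4 ⟨hj1, h6⟩
          rw [h5]
          exact RVal.Ge.zero
        · exact h3 j hj hj1
  have hp0 : (0 : ℝ) < p := by exact_mod_cast hp.out.pos
  obtain ⟨g, hg, h3⟩ := h.lp (η / (2 * p)) (by positivity)
  have hb : g ^ p ∈ powF p 1 W := mem_powF1.2 ⟨g, hg, rfl⟩
  have h4 : P.eval (g ^ p) ∈ powF p 1 W := eval_mem hP hb
  obtain ⟨q, hq, h5⟩ := mem_powF1.1 h4
  refine ⟨q, hq, ?_⟩
  rw [h5]
  have h6 : P.eval (g ^ p) = (taylor x P).eval (g ^ p - x) := by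
    rw [taylor_eval]
    congr 1
    ring
  rw [h6, eval_eq_sum_range (p := taylor x P), natDegree_taylor, Finset.sum_range_succ',
    pow_zero, mul_one, taylor_coeff_zero]
  have h7 : P.eval x - (∑ i ∈ Finset.range P.natDegree,
      (taylor x P).coeff (i + 1) * (g ^ p - x) ^ (i + 1) + P.eval x) =
      -∑ i ∈ Finset.range P.natDegree, (taylor x P).coeff (i + 1) * (g ^ p - x) ^ (i + 1) := by
    ring
  rw [h7]
  have h8 : v.Ge (η / 2) (∑ i ∈ Finset.range P.natDegree,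
      (taylor x P).coeff (i + 1) * (g ^ p - x) ^ (i + 1)) := by
    refine RVal.Ge.sum _ _ fun i hi => ?_
    have hi' : i + 1 < p := by
      have := Finset.mem_range.1 hi
      omega
    have h9 := h2 (i + 1) (Finset.mem_range.2 (by
      have := Finset.mem_range.1 hi
      omega)) (by omega)
    have h10 : v.Ge (0 - η / (2 * p)) (g ^ p - x) := by
      have := h3.neg
      rwa [neg_sub] at this
    have h11 := h9.mul (ge_pow h10 (i + 1))
    refine h11.mono ?_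
    have h12 : ((i + 1 : ℕ) : ℝ) ≤ p := by exact_mod_cast hi'.le
    have h13 : ((i + 1 : ℕ) : ℝ) * (η / (2 * p)) ≤ p * (η / (2 * p)) :=
      mul_le_mul_of_nonneg_right h12 (by positivity)
    have h14 : (p : ℝ) * (η / (2 * p)) = η / 2 := by
      field_simp
    rw [zero_sub]
    nlinarith
  intro h9
  have h10 := h8.neg h9
  linarith

/-- **The classes.** -/
theorem Stp.cls (h0 : Ctx0 k v) {x : Ω} (h : Stp p v W x) {f : Ω} (hf : f ∈ W)
    (hl : LP p v W 0 f) : ∃ c : k, PG p v W 0 (f - algebraMap k Ω c * x) := by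
  have hD := h.drv h0
  have h1 : v.Ge 0 (derW p W x f) := by
    refine fun h0' => le_of_forall_sub_le fun ε hε => ?_
    revert h0'
    show v.Ge (0 - ε) _
    obtain ⟨g, hg, h2⟩ := hl ε hε
    have h3 := hD.norm (f - g ^ p) (sub_mem hf (pow_mem hg p)) _ h2
    have h4 : derW p W x f = derW p W x (f - g ^ p) + derW p W x (g ^ p) := by
      rw [← hD.add _ (sub_mem hf (pow_mem hg p)) _ (pow_mem hg p), sub_add_cancel]
    rw [h4, h.der_pow h0 hg, add_zero]
    exact h3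
  obtain ⟨c, hc⟩ := h0.residue h1
  refine ⟨c, h.null h0 (sub_mem hf (mul_mem (W.algebraMap_mem c) h.mem)) ?_⟩
  have h5 : derW p W x (f - algebraMap k Ω c * x) = derW p W x f - algebraMap k Ω c := by
    have e1 : f - algebraMap k Ω c * x = f + algebraMap k Ω (-c) * x := by
      rw [map_neg]; ring
    rw [e1, hD.add _ hf _ (mul_mem (W.algebraMap_mem _) h.mem),
      hD.mul _ (W.algebraMap_mem _) _ h.mem, hD.alg, h.der_x h0, mul_one, mul_zero, add_zero,
      map_neg, sub_eq_add_neg]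
  rw [h5]
  exact fun h6 => hc h6

/-- **The derivation for every scale of the right value.** -/
theorem BX.exists_base (h0 : Ctx0 k v) (hW : Cld v W) (hgp : GP p v W) {x₀ : Ω}
    (hx : BX p v W x₀) : ∃ δ : ℝ, ∀ c ∈ W, c ≠ 0 → v c = δ →
      BaseD p v W (x₀ / c ^ p) (derW p W (x₀ / c ^ p)) := by
  obtain ⟨C, hC⟩ := hx.far
  obtain ⟨δ, h1, h2⟩ := exists_dist hgp hx.mem hC
  refine ⟨δ / p, fun c hcW hc0 hcv => ?_⟩
  have hp0 : (0 : ℝ) < p := by exact_mod_cast hp.out.pos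
  have hcp : c ^ p ≠ 0 := pow_ne_zero _ hc0
  have hcpv : v (c ^ p) = δ := by
    rw [v.map_pow hc0, hcv]
    field_simp
  have hinv : v ((c ^ p)⁻¹) = -δ := by rw [v.map_inv hcp, hcpv]
  have hS : Stp p v W (x₀ / c ^ p) := by
    refine ⟨hW, div_mem hx.mem (pow_mem hcW p), fun f hf => ?_, fun g hg h3 => ?_, fun ε hε => ?_⟩
    · obtain ⟨b, hb, rfl⟩ := hx.gen f hf
      refine ⟨fun i => b i * c ^ (i : ℕ), fun i => mul_mem (hb i) (pow_mem hcW _), ?_⟩
      refine Finset.sum_congr rfl fun i _ => ?_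
      have e1 : (b i * c ^ (i : ℕ)) ^ p * (x₀ / c ^ p) ^ (i : ℕ) =
          b i ^ p * x₀ ^ (i : ℕ) * ((c ^ p) ^ (i : ℕ) / (c ^ p) ^ (i : ℕ)) := by
        rw [mul_pow, div_pow, ← pow_mul, ← pow_mul, mul_comm (i : ℕ) p]
        ring
      rw [e1, div_self (pow_ne_zero _ hcp), mul_one]
    · refine h1 (c * g) (mul_mem hcW hg) ?_
      have e1 : x₀ - (c * g) ^ p = c ^ p * (x₀ / c ^ p - g ^ p) := by
        rw [mul_sub, mul_div_cancel₀ _ hcp, mul_pow]
      rw [e1]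
      have h4 := (v.ge_self (c ^ p)).mul h3.ge
      rwa [hcpv, add_zero] at h4
    · obtain ⟨g, hg, h3⟩ := h2 ε hε
      refine ⟨g / c, div_mem hg hcW, ?_⟩
      have e1 : x₀ / c ^ p - (g / c) ^ p = (x₀ - g ^ p) * (c ^ p)⁻¹ := by
        rw [div_pow]
        field_simp
      rw [e1]
      have h4 := h3.mul (v.ge_self ((c ^ p)⁻¹))
      rw [hinv] at h4
      exact h4.mono (by linarith)
  exact ⟨hS.drv h0, fun f hf => hS.der_mem hf, hS.der_x h0, hS.gen, hS.lp,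
    fun f hf hl => hS.cls h0 hf hl⟩

/-- Scales in a set `S` with all values. -/
theorem BX.exists_base_of (h0 : Ctx0 k v) (hW : Cld v W) (hgp : GP p v W) {x₀ : Ω}
    (hx : BX p v W x₀) {S : Set Ω} (hSW : ∀ c ∈ S, c ∈ W) (hS0 : ∀ c ∈ S, c ≠ 0)
    (hall : ∀ r : ℝ, ∃ c ∈ S, v c = r) : ∃ c ∈ S, ∃ D : Ω → Ω, BaseD p v W (x₀ / c ^ p) D := by
  obtain ⟨δ, h1⟩ := hx.exists_base h0 hW hgp
  obtain ⟨c, hc, hcv⟩ := hall δ
  exact ⟨c, hc, _, h1 c (hSW c hc) (hS0 c hc) hcv⟩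

/-- **`RowBase`.** -/
theorem rowBase : RowBase (k := k) (Ω := Ω) p v := by
  intro W x₀ h0 hc hW hfull hgp hx
  obtain ⟨δ, h1⟩ := hx.exists_base h0 hW hgp
  obtain ⟨c, hcW, hc0, hcv⟩ := hfull δ
  exact ⟨c, hcW, hc0, _, h1 c hcW hc0 hcv⟩

end Pool.Agent.TWCY
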