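import Pool.Agent.Lib.TWCY.Nat

/-!
# The cocycle relation at a point

`T` is a translation by `c`, `s` is a point; everything is a value at `s`, `c` or `s + c`.
-/

set_option autoImplicit false

open MvPolynomial

namespace Pool.Agent.TWCY

open Pool.Agent.H15JM (RVal)
open Pool.Agent.LU1 (VPos)
open Pool.Agent.D2 (Ctx0)
open Pool.Agent.TWM
open Pool.Agent.TWS (IsoE SphC)
open Pool.Agent.TWLY

universe u

variable {k Ω : Type u} [Field k] [Field Ω] [Algebra k Ω] {v : RVal Ω}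
  {F : IntermediateField k Ω} {D : Ω → Ω} {ι : Type*} [Fintype ι]

/-- The difference `T Z(s) + Z(c) - Z(s + c)`. -/
theorem coc_L {T : Ω →ₐ[k] Ω} {n m ψ : ι → Ω} {M : ι → ι → k} {Ns Nc Nsc : ι → k}
    {fs fc fsc : Ω} (hN : ∀ j, Nsc j = Nc j + ∑ l, Ns l * M l j)
    (hT : ∀ l, T (n l) = ∑ j, algebraMap k Ω (M l j) * n j + ψ l + m l) :
    T (∑ j, algebraMap k Ω (Ns j) * n j + fs) + (∑ j, algebraMap k Ω (Nc j) * n j + fc) -
      (∑ j, algebraMap k Ω (Nsc j) * n j + fsc) =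
    (T fs + ∑ l, algebraMap k Ω (Ns l) * ψ l + fc - fsc) + ∑ l, algebraMap k Ω (Ns l) * m l := by
  have e1 : ∑ j, algebraMap k Ω (Nsc j) * n j = ∑ j, algebraMap k Ω (Nc j) * n j +
      ∑ l, ∑ j, algebraMap k Ω (Ns l) * (algebraMap k Ω (M l j) * n j) := by
    rw [Finset.sum_comm, ← Finset.sum_add_distrib]
    refine Finset.sum_congr rfl fun j _ => ?_
    rw [hN, map_add, map_sum, add_mul, Finset.sum_mul]
    congr 1
    refine Finset.sum_congr rfl fun l _ => ?_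
    rw [map_mul]
    ring
  have e2 : T (∑ j, algebraMap k Ω (Ns j) * n j) =
      ∑ l, ∑ j, algebraMap k Ω (Ns l) * (algebraMap k Ω (M l j) * n j) +
      ∑ l, algebraMap k Ω (Ns l) * ψ l + ∑ l, algebraMap k Ω (Ns l) * m l := by
    rw [map_sum, ← Finset.sum_add_distrib, ← Finset.sum_add_distrib]
    refine Finset.sum_congr rfl fun l _ => ?_
    rw [map_mul, AlgHom.commutes, hT, ← Finset.mul_sum]
    ring
  rw [map_add, e1, e2]
  ring

variable {p : ℕ} [hp : Fact p.Prime] [CharP Ω p] [CharP k p] {κ : ℕ → k} {t : ℕ}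

/-- The algebra of the cocycle relation. -/
theorem coc_alg (hD : Drv v F D) {dd : Fin 2 → Ω → Ω} {T : Ω →ₐ[k] Ω}
    (hTF : ∀ f ∈ F, T f ∈ F) {δ : Fin 2 → Ω}
    (hDT : ∀ f ∈ F, D (T f) = T (D f) - ∑ i, δ i * T (dd i f))
    {e : k} {ξ : Ω} (hξ : T ξ = ξ) {n n' m ψ : ι → Ω} {n'' : Fin 2 → ι → Ω} {M : ι → ι → k}
    {Ns Nc Nsc : ι → k} {fs fc fsc as ac asc : Ω} (hfs : fs ∈ F) (hfc : fc ∈ F) (hfsc : fsc ∈ F)
    (has : as ∈ F) (hac : ac ∈ F) (hψ : ∀ l, ψ l ∈ F)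
    (hN : ∀ j, Nsc j = Nc j + ∑ l, Ns l * M l j)
    (hT : ∀ l, T (n l) = ∑ j, algebraMap k Ω (M l j) * n j + ψ l + m l)
    (ha : asc = T as + ac) :
    (algebraMap k Ω e * (∑ j, algebraMap k Ω (Nsc j) * n' j + D fsc) +
      ξ * PP p κ t (∑ j, algebraMap k Ω (Nsc j) * n j + fsc) + D asc) -
    (algebraMap k Ω e * (∑ j, algebraMap k Ω (Nc j) * n' j + D fc) +
      ξ * PP p κ t (∑ j, algebraMap k Ω (Nc j) * n j + fc) + D ac) -
    T (algebraMap k Ω e * (∑ j, algebraMap k Ω (Ns j) * n' j + D fs) +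
      ξ * PP p κ t (∑ j, algebraMap k Ω (Ns j) * n j + fs) + D as) =
    algebraMap k Ω e * ∑ l, algebraMap k Ω (Ns l) * (∑ j, algebraMap k Ω (M l j) * n' j +
      D (ψ l) - T (n' l) + ∑ i, δ i * T (n'' i l)) -
    ∑ i, δ i * T (algebraMap k Ω e * (∑ j, algebraMap k Ω (Ns j) * n'' i j + dd i fs) + dd i as) -
    algebraMap k Ω e * D (T fs + ∑ l, algebraMap k Ω (Ns l) * ψ l + fc - fsc) -
    ξ * PP p κ t ((T fs + ∑ l, algebraMap k Ω (Ns l) * ψ l + fc - fsc) +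
      ∑ l, algebraMap k Ω (Ns l) * m l) := by
  have hψF : ∀ l ∈ (Finset.univ : Finset ι), algebraMap k Ω (Ns l) * ψ l ∈ F :=
    fun l _ => mul_mem (F.algebraMap_mem _) (hψ l)
  have hψS : ∑ l, algebraMap k Ω (Ns l) * ψ l ∈ F := sum_mem hψF
  have eP : PP p κ t ((T fs + ∑ l, algebraMap k Ω (Ns l) * ψ l + fc - fsc) +
      ∑ l, algebraMap k Ω (Ns l) * m l) =
      T (PP p κ t (∑ j, algebraMap k Ω (Ns j) * n j + fs)) +
      PP p κ t (∑ j, algebraMap k Ω (Nc j) * n j + fc) -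
      PP p κ t (∑ j, algebraMap k Ω (Nsc j) * n j + fsc) := by
    rw [← coc_L hN hT, PP_sub, PP_add, PP_map]
  have eA : D asc = T (D as) - ∑ i, δ i * T (dd i as) + D ac := by
    rw [ha, hD.add _ (hTF as has) _ hac, hDT as has]
  have eD : D (T fs + ∑ l, algebraMap k Ω (Ns l) * ψ l + fc - fsc) =
      T (D fs) - ∑ i, δ i * T (dd i fs) + ∑ l, algebraMap k Ω (Ns l) * D (ψ l) + D fc - D fsc := by
    rw [hD.map_sub (add_mem (add_mem (hTF fs hfs) hψS) hfc) hfsc,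
      hD.add _ (add_mem (hTF fs hfs) hψS) _ hfc, hD.add _ (hTF fs hfs) _ hψS, hDT fs hfs,
      hD.map_sum _ hψF]
    congr 3
    exact Finset.sum_congr rfl fun l _ => hD.map_smul _ (hψ l)
  have eN : ∑ j, algebraMap k Ω (Nsc j) * n' j = ∑ j, algebraMap k Ω (Nc j) * n' j +
      ∑ l, algebraMap k Ω (Ns l) * ∑ j, algebraMap k Ω (M l j) * n' j := by
    have : ∑ l, algebraMap k Ω (Ns l) * ∑ j, algebraMap k Ω (M l j) * n' j =
        ∑ j, ∑ l, algebraMap k Ω (Ns l) * (algebraMap k Ω (M l j) * n' j) := by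
      rw [Finset.sum_comm]
      exact Finset.sum_congr rfl fun l _ => by rw [Finset.mul_sum]
    rw [this, ← Finset.sum_add_distrib]
    refine Finset.sum_congr rfl fun j _ => ?_
    rw [hN, map_add, map_sum, add_mul, Finset.sum_mul]
    congr 1
    refine Finset.sum_congr rfl fun l _ => ?_
    rw [map_mul]
    ring
  have eT : T (algebraMap k Ω e * (∑ j, algebraMap k Ω (Ns j) * n' j + D fs) +
      ξ * PP p κ t (∑ j, algebraMap k Ω (Ns j) * n j + fs) + D as) =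
      algebraMap k Ω e * (∑ j, algebraMap k Ω (Ns j) * T (n' j) + T (D fs)) +
      ξ * T (PP p κ t (∑ j, algebraMap k Ω (Ns j) * n j + fs)) + T (D as) := by
    rw [map_add, map_add, map_mul, AlgHom.commutes, map_add, map_mul, hξ, map_sum]
    congr 4
    exact Finset.sum_congr rfl fun l _ => by rw [map_mul, AlgHom.commutes]
  have eE : ∀ i, T (algebraMap k Ω e * (∑ j, algebraMap k Ω (Ns j) * n'' i j + dd i fs) +
      dd i as) = algebraMap k Ω e * (∑ j, algebraMap k Ω (Ns j) * T (n'' i j) + T (dd i fs)) +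
      T (dd i as) := by
    intro i
    rw [map_add, map_mul, AlgHom.commutes, map_add, map_sum]
    congr 3
    exact Finset.sum_congr rfl fun l _ => by rw [map_mul, AlgHom.commutes]
  have eS : ∑ l, algebraMap k Ω (Ns l) * (∑ j, algebraMap k Ω (M l j) * n' j +
      D (ψ l) - T (n' l) + ∑ i, δ i * T (n'' i l)) =
      ∑ l, algebraMap k Ω (Ns l) * ∑ j, algebraMap k Ω (M l j) * n' j +
      ∑ l, algebraMap k Ω (Ns l) * D (ψ l) - ∑ l, algebraMap k Ω (Ns l) * T (n' l) +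
      ∑ i, δ i * ∑ l, algebraMap k Ω (Ns l) * T (n'' i l) := by
    have h1 : ∑ i, δ i * ∑ l, algebraMap k Ω (Ns l) * T (n'' i l) =
        ∑ l, algebraMap k Ω (Ns l) * ∑ i, δ i * T (n'' i l) := by
      simp_rw [Finset.mul_sum]
      rw [Finset.sum_comm]
      refine Finset.sum_congr rfl fun l _ => Finset.sum_congr rfl fun i _ => ?_
      ring
    rw [h1, ← Finset.sum_add_distrib, ← Finset.sum_sub_distrib, ← Finset.sum_add_distrib]
    refine Finset.sum_congr rfl fun l _ => ?_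
    ring
  rw [eP, eD, eT, eS, eA, eN]
  simp_rw [eE]
  have e3 : ∑ i, δ i * (algebraMap k Ω e * (∑ j, algebraMap k Ω (Ns j) * T (n'' i j) + T (dd i fs)) +
      T (dd i as)) = algebraMap k Ω e * (∑ i, δ i * ∑ l, algebraMap k Ω (Ns l) * T (n'' i l)) +
      algebraMap k Ω e * (∑ i, δ i * T (dd i fs)) + ∑ i, δ i * T (dd i as) := by
    rw [Finset.mul_sum, Finset.mul_sum, ← Finset.sum_add_distrib, ← Finset.sum_add_distrib]
    refine Finset.sum_congr rfl fun i _ => ?_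
    ring
  rw [e3]
  ring

end Pool.Agent.TWCY
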