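import Pool.Agent.Lib.TWCY.Der

/-!
# The cocycle relation

* `DD v W F w D`: a derivation of norm `≤ 0` with `D W ≤ W`, `D (w i) ∈ lim W`;
* `coc`: for every `c`, `G(s + c) - G(s) - G(c) + ξ P(λ_c(s)) = e Σ χ_l N_l(s) - Σ δ_i G^i(s)`,
  `λ_c = res (Lc) + Σ φ_l N_l`.
-/

set_option autoImplicit false

open MvPolynomial

namespace Pool.Agent.TWCY

open Pool.Agent.H15JM (RVal)
open Pool.Agent.LU1 (VPos)
open Pool.Agent.D2 (Ctx0)
open Pool.Agent.TWM
open Pool.Agent.TWS (IsoE SphC)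
open Pool.Agent.TWLY

universe u

variable {k Ω : Type u} [Field k] [Field Ω] [Algebra k Ω] {v : RVal Ω}
  {W F : IntermediateField k Ω} {w : Fin 2 → Ω} {T : (Fin 2 → k) → Ω →ₐ[k] Ω} {D : Ω → Ω}
  {dd : Fin 2 → Ω → Ω}

/-- A derivation of norm `≤ 0`, stable on `W`, with values at the `w i` in `lim W`. -/
structure DD (v : RVal Ω) (W F : IntermediateField k Ω) (w : Fin 2 → Ω) (D : Ω → Ω) : Prop where
  drv : Drv v F D
  dW : ∀ f ∈ W, D f ∈ W
  dL : ∀ i, Lim v W 0 (D (w i))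

/-- The partial derivations. -/
structure DDi (v : RVal Ω) (W F : IntermediateField k Ω) (w : Fin 2 → Ω)
    (dd : Fin 2 → Ω → Ω) : Prop where
  drv : ∀ i, Drv v F (dd i)
  dW : ∀ i, ∀ f ∈ W, dd i f = 0
  dw : ∀ i j, dd i (w j) = if i = j then 1 else 0

theorem DDi.toDD (h : DDi v W F w dd) (i : Fin 2) : DD v W F w (dd i) where
  drv := h.drv i
  dW := fun f hf => by rw [h.dW i f hf]; exact zero_mem _
  dL := fun j => by
    refine lim_self ?_
    rw [h.dw]
    split_ifs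
    · exact one_mem _
    · exact zero_mem _

theorem DrvT.toDD (h : DrvT v W F w T D dd) : DD v W F w D := ⟨h.drv, h.dW, h.dL⟩

theorem DrvT.toDDi (h : DrvT v W F w T D dd) : DDi v W F w dd := ⟨h.drvi, h.ddW, h.ddw⟩

variable {p : ℕ} [hp : Fact p.Prime] [CharP Ω p] [CharP k p] [Infinite k] {κ : ℕ → k} {t : ℕ}
  {ι : Type} [Fintype ι] [DecidableEq ι] {z : Ω} {n : ι → Ω} {N : ι → MvPolynomial (Fin 2) k}
  {f : MvPolynomial (Fin 2) Ω} {b : ι → Ex}

omit hp [CharP Ω p] [CharP k p] [Infinite k] [Fintype ι] [DecidableEq ι] in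
/-- `δ_i = (T_c - 1) D(w_i)` is integral. -/
theorem ge_delta (hT : Trn v W F w T) (hD : DD v W F w D) (c : Fin 2 → k) (i : Fin 2) :
    v.Ge 0 (T c (D (w i)) - D (w i)) := ge_fix (hT.iso c) (hT.fix c) (hD.dL i)

/-- **The cocycle relation**: `G` is the residue polynomial of `d`, `Gi i` those of the `∂_i`, `lam`
is the residue polynomial of `Lc`, `φ l` the residue of the defect of `T_c n_l`. -/
theorem coc (hk : Ctx0 k v) (hT : Trn v W F w T) (h : Shp v F T z n N f b)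
    {x a₀ : Ω} {e : k} {A : MvPolynomial (Fin 2) Ω} (ht : TieD p v W F T x z a₀ e κ t A)
    (hD : DD v W F w D) (hdd : DDi v W F w dd) {ξ : k} (hx : Rs v (D x) ξ)
    {n' : ι → Ω} (hn' : ∀ j, NatV v F D (n j) (n' j))
    {n'' : Fin 2 → ι → Ω} (hn'' : ∀ i j, NatV v F (dd i) (n j) (n'' i j))
    {G : MvPolynomial (Fin 2) k} (hG : ∀ g, Rs v (coeff g (dP p D (D x) e κ t n n' N f A)) (coeff g G))
    {Gi : Fin 2 → MvPolynomial (Fin 2) k}
    (hGi : ∀ i g, Rs v (coeff g (dP p (dd i) 0 e κ t n (n'' i) N f A)) (coeff g (Gi i)))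
    {c : Fin 2 → k} {lam : MvPolynomial (Fin 2) k}
    (hlam : ∀ g, Rs v (coeff g (Lc T N f b c)) (coeff g lam)) {φ : ι → k}
    (hφ : ∀ l, Rs v (T c (n l) - ∑ j, algebraMap k Ω (MM N b c l j) * n j - psi f b c l) (φ l))
    {δ : Fin 2 → k} (hδ : ∀ i, Rs v (T c (D (w i)) - D (w i)) (δ i)) :
    ∃ χ : ι → k, TWLY.tr c G - G - C (eval c G) + C ξ * PP p κ t (lam + ∑ l, C (φ l) * N l) =
      ∑ l, C (e * χ l) * N l - ∑ i, C (δ i) * Gi i := by
  set m : ι → Ω := fun l => T c (n l) - ∑ j, algebraMap k Ω (MM N b c l j) * n j - psi f b c l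
    with hm
  have hψF : ∀ l, psi f b c l ∈ F := fun l => coeff_tr_mem c h.fF _
  have hcomm : ∀ f ∈ F, D (T c f) = T c (D f) - ∑ i, (T c (D (w i)) - D (w i)) * T c (dd i f) :=
    fun f hf => comm hT hD.drv hD.dW hD.dL hdd.drv hdd.dW hdd.dw c hf
  have hH : ∀ l, v.Ge 0 (∑ j, algebraMap k Ω (MM N b c l j) * n' j + D (psi f b c l) -
      T c (n' l) + ∑ i, (T c (D (w i)) - D (w i)) * T c (n'' i l)) := by
    intro l
    exact nat_rel hk hD.drv (hT.iso c) (hT.mem c) (ge_delta hT hD c) hcomm (h.lim l) h.lim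
      (hn' l) (fun i => hn'' i l) hn' (hψF l) (h.ge_m hk hT c l)
  choose χ hχ using fun l => exists_rs0 hk (hH l)
  refine ⟨χ, ?_⟩
  refine MvPolynomial.funext fun s => ?_
  have hξT : T c (D x) = D x := hT.fix c _ (hD.dW x ht.xW)
  have hTA : eval (pt (s + c)) A = T c (eval (pt s) A) + eval (pt c) A := by
    have h1 := ht.AT (s + c)
    have h2 : T (s + c) a₀ = T c (T s a₀) := by rw [hT.add c s a₀ ht.aF, add_comm]
    rw [h2, ht.AT s, map_add, ht.AT c] at h1
    have h3 : a₀ + eval (pt c) A + T c (eval (pt s) A) = a₀ + eval (pt (s + c)) A := h1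
    rw [add_assoc] at h3
    have h4 := add_left_cancel h3
    rw [← h4]
    ring
  have halg := coc_alg (p := p) (κ := κ) (t := t) hD.drv (hT.mem c) hcomm (e := e) hξT (n := n)
    (n' := n') (n'' := n'') (M := MM N b c) (Ns := fun j => eval s (N j))
    (Nc := fun j => eval c (N j)) (Nsc := fun j => eval (s + c) (N j)) (ψ := psi f b c) (m := m)
    (eval_pt_mem h.fF s) (eval_pt_mem h.fF c) (eval_pt_mem h.fF (s + c)) (eval_pt_mem ht.AF s)
    (eval_pt_mem ht.AF c) hψF (fun j => h.eval_N hk hT c s j)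
    (fun l => by simp only [hm]; ring) hTA
  have hξ0 : v.Ge 0 (D x) := hx.ge hk
  have hd : ∀ s, Rs v (eval (pt s) (dP p D (D x) e κ t n n' N f A)) (eval s G) := rs_eval hk hG
  have hL := rs_eval hk hlam s
  have hLF : eval (pt s) (Lc T N f b c) ∈ F := by
    rw [eval_Lc]
    exact sub_mem (add_mem (add_mem (hT.mem c _ (eval_pt_mem h.fF s))
      (sum_mem fun l _ => mul_mem (F.algebraMap_mem _) (hψF l))) (eval_pt_mem h.fF c))
      (eval_pt_mem h.fF _)
  have hDL : Rs v (D (eval (pt s) (Lc T N f b c))) (0 : k) :=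
    rs_zero_iff.2 (hD.drv.vpos_of_ge hk hLF (hL.ge hk))
  have hE : ∀ i, Rs v (eval (pt s) (dP p (dd i) 0 e κ t n (n'' i) N f A)) (eval s (Gi i)) :=
    fun i => rs_eval hk (hGi i) s
  rw [← eval_dP hD.drv h.fF ht.AF, ← eval_dP hD.drv h.fF ht.AF, ← eval_dP hD.drv h.fF ht.AF,
    ← eval_Lc] at halg
  have hEi : ∀ i, algebraMap k Ω e * (∑ j, algebraMap k Ω (eval s (N j)) * n'' i j +
      dd i (eval (pt s) f)) + dd i (eval (pt s) A) =
      eval (pt s) (dP p (dd i) 0 e κ t n (n'' i) N f A) := by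
    intro i
    rw [eval_dP (hdd.drv i) h.fF ht.AF, zero_mul, add_zero]
  simp_rw [hEi] at halg
  have hl : Rs v (eval (pt (s + c)) (dP p D (D x) e κ t n n' N f A) -
      eval (pt c) (dP p D (D x) e κ t n n' N f A) -
      T c (eval (pt s) (dP p D (D x) e κ t n n' N f A)))
      (eval (s + c) G - eval c G - eval s G) :=
    ((hd (s + c)).sub (hd c)).sub ((hd s).map (hT.iso c))
  have hsumφ : Rs v (∑ l, algebraMap k Ω (eval s (N l)) * m l) (∑ l, eval s (N l) * φ l) :=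
    Rs.sum _ fun l _ => (hφ l).smul hk _
  have hr : Rs v (algebraMap k Ω e * ∑ l, algebraMap k Ω (eval s (N l)) *
      (∑ j, algebraMap k Ω (MM N b c l j) * n' j + D (psi f b c l) - T c (n' l) +
        ∑ i, (T c (D (w i)) - D (w i)) * T c (n'' i l)) -
      ∑ i, (T c (D (w i)) - D (w i)) * T c (eval (pt s) (dP p (dd i) 0 e κ t n (n'' i) N f A)) -
      algebraMap k Ω e * D (eval (pt s) (Lc T N f b c)) -
      D x * PP p κ t (eval (pt s) (Lc T N f b c) + ∑ l, algebraMap k Ω (eval s (N l)) * m l))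
      (e * ∑ l, eval s (N l) * χ l - ∑ i, δ i * eval s (Gi i) - e * 0 -
        ξ * PP p κ t (eval s lam + ∑ l, eval s (N l) * φ l)) := by
    refine ((Rs.sub ?_ ?_).sub ?_).sub ?_
    · exact (Rs.sum _ fun l _ => (hχ l).smul hk _).smul hk e
    · exact Rs.sum _ fun i _ => (hδ i).mul hk ((hE i).map (hT.iso c))
    · exact hDL.smul hk e
    · exact hx.mul hk ((hL.add hsumφ).PP hk)
  rw [halg] at hl
  have hfin := Rs.unique hk hl hr
  have hPP : eval s (PP p κ t (lam + ∑ l, C (φ l) * N l)) =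
      PP p κ t (eval s lam + ∑ l, eval s (N l) * φ l) := by
    have h1 := PP_map (p := p) (κ := κ) (t := t) (aeval s : MvPolynomial (Fin 2) k →ₐ[k] k)
      (lam + ∑ l, C (φ l) * N l)
    rw [aeval_eq_eval] at h1
    have h2 : eval s (lam + ∑ l, C (φ l) * N l) = eval s lam + ∑ l, eval s (N l) * φ l := by
      rw [map_add, map_sum]
      congr 1
      refine Finset.sum_congr rfl fun l _ => ?_
      rw [map_mul, eval_C, mul_comm]
    rw [← h2]
    exact h1
  rw [map_add, map_sub, map_sub, eval_tr, eval_C, map_mul, eval_C, hPP, map_sub, map_sum, map_sum]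
  have h5 : ∑ l, eval s (C (e * χ l) * N l) = e * ∑ l, eval s (N l) * χ l := by
    rw [Finset.mul_sum]
    refine Finset.sum_congr rfl fun l _ => ?_
    rw [map_mul, eval_C]
    ring
  have h6 : ∑ i, eval s (C (δ i) * Gi i) = ∑ i, δ i * eval s (Gi i) :=
    Finset.sum_congr rfl fun i _ => by rw [map_mul, eval_C]
  rw [h5, h6]
  linear_combination hfin

end Pool.Agent.TWCY
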