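import Pool.Agent.Lib.TWCY.Mot2

/-!
# CT, j = 1, abelian case: from one motion to the core

* `OneM.exists_lay`: the data of the layer lemma; `core_of_one : RowOne → Core`.
-/

set_option autoImplicit false

open MvPolynomial

namespace Pool.Agent.TWCY

open Pool.Agent.H15JM (RVal)
open Pool.Agent.LU1 (VPos)
open Pool.Agent.D2 (Ctx0)
open Pool.Agent.D2P (clI mem_clI)
open Pool.Agent.TWM
open Pool.Agent.TWS (IsoE SphC)
open Pool.Agent.TWLY

universe u

variable {k Ω : Type u} [Field k] [Field Ω] [Algebra k Ω] {v : RVal Ω} {p : ℕ}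

/-- The functional `f ↦ D (f(X))`. -/
theorem exists_dl {W : IntermediateField k Ω} {D : Ω → Ω} (hD : Drv v W D) {X : Fin 2 → Ω}
    (hX : ∀ i, X i ∈ W) : ∃ Dl : MvPolynomial (Fin 2) k →ₗ[k] Ω, DlD D X Dl := by
  have hm : ∀ f : MvPolynomial (Fin 2) k, aeval X f ∈ W := fun f => by
    rw [aeval_def, eval₂_eq']
    exact sum_mem fun g _ => mul_mem (W.algebraMap_mem _) (prod_mem fun i _ => pow_mem (hX i) _)
  refine ⟨
    { toFun := fun f => D (aeval X f)
      map_add' := fun f g => by rw [map_add]; exact hD.add _ (hm f) _ (hm g)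
      map_smul' := fun c f => by
        rw [map_smul, Algebra.smul_def, hD.mul _ (W.algebraMap_mem c) _ (hm f), hD.alg, mul_zero,
          add_zero, RingHom.id_apply, Algebra.smul_def] }, fun f => rfl⟩

section lay

variable {W₁ Wp : Submodule k (MvPolynomial (Fin 2) k)} {X : Fin 2 → Ω} {Z : Ω} {κ : ℕ → k} {t : ℕ}
  {G : MvPolynomial (Fin 2) k} {lam : TWIV.JW.BB (Fin 2) k} {e : k} {l : MvPolynomial (Fin 2) k}
  {Dl : MvPolynomial (Fin 2) k →ₗ[k] Ω}

/-- The bound. -/
theorem exists_nuW (hk : Ctx0 k v) (hfg : Wp.FG)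
    (pos : ∀ g : MvPolynomial (Fin 2) k, constantCoeff g = 0 → v (Z - aeval X g) < 0)
    (sm : ∀ g : MvPolynomial (Fin 2) k, constantCoeff g = 0 → ∀ N ∈ Wp,
      Gt v (v (Z - aeval X g)) (aeval X N)) :
    ∃ ν : ℝ, 0 ≤ ν ∧ (∀ N ∈ Wp, v.Ge (-ν) (aeval X N)) ∧
      ∀ g : MvPolynomial (Fin 2) k, constantCoeff g = 0 → v (Z - aeval X g) < -ν := by
  classical
  obtain ⟨S, hS⟩ := hfg
  have h1 : ∃ ν : ℝ, 0 ≤ ν ∧ (∀ N ∈ S, v.Ge (-ν) (aeval X N)) ∧
      ∀ g : MvPolynomial (Fin 2) k, constantCoeff g = 0 → v (Z - aeval X g) < -ν := by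
    have hS' : ∀ N ∈ S, N ∈ Wp := fun N hN => by
      rw [← hS]
      exact Submodule.subset_span hN
    clear hS
    induction S using Finset.induction_on with
    | empty => exact ⟨0, le_rfl, fun N hN => absurd hN (Finset.notMem_empty N), fun g hg => by
        rw [neg_zero]
        exact pos g hg⟩
    | insert a S _ ih =>
      obtain ⟨ν, hν, h1, h2⟩ := ih fun N hN => hS' N (Finset.mem_insert_of_mem hN)
      have ha := hS' a (Finset.mem_insert_self a S)
      by_cases h0 : aeval X a = 0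
      · refine ⟨ν, hν, fun N hN => ?_, h2⟩
        rcases Finset.mem_insert.1 hN with rfl | hN
        · rw [h0]
          exact RVal.Ge.zero
        · exact h1 N hN
      · refine ⟨max ν (-v (aeval X a)), hν.trans (le_max_left _ _), fun N hN => ?_, fun g hg => ?_⟩
        · rcases Finset.mem_insert.1 hN with rfl | hN
          · intro _
            have := le_max_right ν (-v (aeval X N))
            linarith
          · exact (h1 N hN).mono (neg_le_neg (le_max_left _ _))
        · have h3 := sm g hg a ha h0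
          have h4 := h2 g hg
          rcases max_choice ν (-v (aeval X a)) with h5 | h5 <;> rw [h5] <;> linarith
  obtain ⟨ν, hν, h2, h3⟩ := h1
  refine ⟨ν, hν, fun N hN => ?_, h3⟩
  rw [← hS] at hN
  refine Submodule.span_induction (p := fun N _ => v.Ge (-ν) (aeval X N)) (fun N hN => h2 N hN)
    (by rw [map_zero]; exact RVal.Ge.zero) (fun N M _ _ hN hM => by rw [map_add]; exact hN.add hM)
    (fun c N _ hN => ?_) hN
  rw [map_smul, Algebra.smul_def]
  have := (hk.ge c).mul hN
  rwa [zero_add] at this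

theorem exists_dgW {Wp : Submodule k (MvPolynomial (Fin 2) k)} (hfg : Wp.FG) :
    ∃ B : ℕ, ∀ N ∈ Wp, ∀ m ∈ N.support, dg m ≤ B := by
  classical
  obtain ⟨S, hS⟩ := hfg
  refine ⟨S.sup fun N => N.support.sup dg, fun N hN => ?_⟩
  rw [← hS] at hN
  refine Submodule.span_induction (p := fun N _ => ∀ m ∈ N.support, dg m ≤
    S.sup fun N => N.support.sup dg) (fun N hN m hm => ?_) (fun m hm => ?_)
    (fun N M _ _ hN hM m hm => ?_) (fun c N _ hN m hm => ?_) hN
  · exact (Finset.le_sup (f := dg) hm).trans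
      (Finset.le_sup (f := fun N : MvPolynomial (Fin 2) k => N.support.sup dg) hN)
  · simp at hm
  · rcases Finset.mem_union.1 (support_add hm) with h | h
    · exact hN m h
    · exact hM m h
  · exact hN m (support_smul hm)

/-- **The data of the layer lemma.** -/
theorem OneM.exists_lay (hk : Ctx0 k v) (h : OneM p v W₁ Wp X Z κ t G lam e l Dl) :
    ∃ ν : ℝ, Lay p v κ t ν Wp X Z G lam e l Dl := by
  obtain ⟨ν, hν, h1, h2⟩ := exists_nuW hk h.fg h.pos h.sm
  exact ⟨ν,
    { kap := h.kap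
      nu := hν
      bdd := exists_dgW h.fg
      zero := h.zero
      tr := h.tr
      le := h1
      z_ne := h.ne
      z_lt := h2
      rel := fun f hf r hr h3 h4 => by
        have h5 := (h.rel f hf r hr h3).sub h4
        rwa [add_sub_cancel_right] at h5
      leib := h.leib
      norm := h.norm
      G0 := h.G0
      Gp := h.Gp
      om := h.om
      lin := h.lin
      cas := h.cas }⟩

end lay

/-- **The core, from the output for one motion.** -/
theorem core_of_one [Fact p.Prime] [CharP k p] [IsAlgClosed k] (h : RowOne (k := k) (Ω := Ω) p v) :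
    Core (k := k) (Ω := Ω) p v := by
  intro L W F K w x z a R hR
  obtain ⟨J₀, h1⟩ := h L W F K w x z a R hR
  refine ⟨J₀, fun J hJ Φ η X hM hf => ?_⟩
  obtain ⟨Za, hZ⟩ := hM.exists_za hR.zt.lim
  obtain ⟨Dl, hDl⟩ := exists_dl hR.base.drv hM.XW
  obtain ⟨Wp, lam, h2⟩ := h1 J hJ Φ η X Za Dl hM hZ hDl hf
  obtain ⟨ν, h3⟩ := h2.exists_lay hR.c0
  obtain ⟨E, hE, b, -, -, h4⟩ := Lay.main hR.c0 h3
  exact ⟨E, hE, b, fun N hN => h4 N (h2.le1 hN)⟩

end Pool.Agent.TWCY
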