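import Pool.Agent.Lib.TWCY.Rel
import Pool.Agent.Lib.TWCY.Core

/-!
# CT, j = 1: the row J1.3 (the D-relation)

`RowTie → RowSm → RowRel`, from `Shp.rel'`.
-/

set_option autoImplicit false

open MvPolynomial

namespace Pool.Agent.TWCY

open Pool.Agent.H15JM (RVal)
open Pool.Agent.LU1 (VPos)
open Pool.Agent.D2 (Ctx0)
open Pool.Agent.TWM
open Pool.Agent.TWLY

universe u

variable {k Ω : Type u} [Field k] [Field Ω] [Algebra k Ω] {v : RVal Ω}

/-! ### Exponents divisible by `p` -/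

section pd

variable {R : Type*} [CommRing R] {p : ℕ}

/-- The exponents are divisible by `p`. -/
def PD (p : ℕ) (q : MvPolynomial (Fin 2) R) : Prop := ∀ g, ¬ DvE p g → coeff g q = 0

theorem PD.add {q q' : MvPolynomial (Fin 2) R} (h : PD p q) (h' : PD p q') : PD p (q + q') := by
  intro g hg
  rw [coeff_add, h g hg, h' g hg, add_zero]

theorem PD.sub {q q' : MvPolynomial (Fin 2) R} (h : PD p q) (h' : PD p q') : PD p (q - q') := by
  intro g hg
  rw [coeff_sub, h g hg, h' g hg, sub_zero]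

theorem PD.mul {q q' : MvPolynomial (Fin 2) R} (h : PD p q) (h' : PD p q') : PD p (q * q') := by
  classical
  intro g hg
  rw [coeff_mul]
  refine Finset.sum_eq_zero fun a ha => ?_
  by_cases h1 : DvE p a.1
  · have h2 : ¬ DvE p a.2 := by
      intro h2
      refine hg fun i => ?_
      rw [← Finset.HasAntidiagonal.mem_antidiagonal.1 ha, Finsupp.add_apply]
      exact dvd_add (h1 i) (h2 i)
    rw [h' _ h2, mul_zero]
  · rw [h _ h1, zero_mul]

theorem PD.C (a : R) : PD p (MvPolynomial.C a : MvPolynomial (Fin 2) R) := by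
  classical
  intro g hg
  rw [coeff_C, if_neg]
  rintro rfl
  exact hg fun i => dvd_zero _

theorem PD.one : PD p (1 : MvPolynomial (Fin 2) R) := by
  have h := PD.C (p := p) (1 : R)
  rwa [C_1] at h

theorem PD.pow {q : MvPolynomial (Fin 2) R} (h : PD p q) (m : ℕ) : PD p (q ^ m) := by
  induction m with
  | zero => rw [pow_zero]; exact PD.one
  | succ m ih => rw [pow_succ]; exact ih.mul h

theorem PD.sum {κ : Type*} {S : Finset κ} {q : κ → MvPolynomial (Fin 2) R}
    (h : ∀ i ∈ S, PD p (q i)) : PD p (∑ i ∈ S, q i) := by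
  intro g hg
  rw [coeff_sum]
  exact Finset.sum_eq_zero fun i hi => h i hi g hg

theorem PD.prod {κ : Type*} {S : Finset κ} {q : κ → MvPolynomial (Fin 2) R}
    (h : ∀ i ∈ S, PD p (q i)) : PD p (∏ i ∈ S, q i) := by
  classical
  induction S using Finset.induction_on with
  | empty => rw [Finset.prod_empty]; exact PD.one
  | insert i S hi ih =>
    rw [Finset.prod_insert hi]
    exact (h i (Finset.mem_insert_self i S)).mul
      (ih fun j hj => h j (Finset.mem_insert_of_mem hj))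

theorem PD.xp [Fact p.Prime] [CharP R p] (a : R) (i : Fin 2) :
    PD p ((MvPolynomial.C a + X i : MvPolynomial (Fin 2) R) ^ p) := by
  have : ExpChar R p := ExpChar.prime Fact.out
  rw [add_pow_expChar, ← C_pow]
  refine (PD.C _).add fun g hg => ?_
  classical
  rw [coeff_X_pow, if_neg]
  rintro rfl
  refine hg fun j => ?_
  by_cases hj : i = j
  · subst hj; rw [Finsupp.single_eq_same]
  · rw [Finsupp.single_eq_of_ne (Ne.symm hj)]; exact dvd_zero _

theorem PD.bind [Fact p.Prime] [CharP R p] (w : Fin 2 → R) {q : MvPolynomial (Fin 2) R}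
    (h : PD p q) : PD p (bind₁ (fun i => MvPolynomial.C (w i) + X i) q) := by
  rw [q.as_sum, map_sum]
  refine PD.sum fun g hg => ?_
  rw [bind₁_monomial]
  refine (PD.C _).mul (PD.prod fun i _ => ?_)
  have h1 : DvE p g := by
    by_contra h2
    exact (mem_support_iff.1 hg) (h g h2)
  obtain ⟨m, hm⟩ := h1 i
  rw [hm, pow_mul]
  exact (PD.xp (w i) i).pow m

end pd

/-! ### The polynomial `shA` -/

section shA

theorem shA_add (w : Fin 2 → Ω) (f g : MvPolynomial (Fin 2) Ω) :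
    shA w (f + g) = shA w f + shA w g := by
  unfold shA
  rw [map_add, map_add, C_add]
  ring

theorem shA_zero (w : Fin 2 → Ω) : shA w 0 = 0 := by
  unfold shA
  rw [map_zero, map_zero, C_0, sub_zero]

theorem shA_sum (w : Fin 2 → Ω) {κ : Type*} (S : Finset κ) (f : κ → MvPolynomial (Fin 2) Ω) :
    shA w (∑ i ∈ S, f i) = ∑ i ∈ S, shA w (f i) := by
  classical
  induction S using Finset.induction_on with
  | empty => rw [Finset.sum_empty, Finset.sum_empty, shA_zero]
  | insert i S hi ih => rw [Finset.sum_insert hi, Finset.sum_insert hi, shA_add, ih]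

theorem shA_pd {p : ℕ} [Fact p.Prime] [CharP Ω p] (w : Fin 2 → Ω) {q : MvPolynomial (Fin 2) Ω}
    (h : PD p q) : PD p (shA w q) := (PD.bind w h).sub (PD.C _)

theorem shA_mono (w : Fin 2 → Ω) (i : Fin 2) (a : Ω) :
    shA w (monomial (Finsupp.single i 1) a) = monomial (Finsupp.single i 1) a := by
  have e : (monomial (Finsupp.single i 1) a : MvPolynomial (Fin 2) Ω) = C a * X i := by
    rw [C_mul_X_eq_monomial]
  rw [e]
  unfold shA
  rw [map_mul, bind₁_X_right, map_mul, eval_C, eval_X, ← algebraMap_eq, AlgHom.commutes,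
    algebraMap_eq, C_mul]
  ring

theorem shA_lin (w : Fin 2 → Ω) {l : MvPolynomial (Fin 2) k}
    (hl : ∀ g, coeff g l ≠ 0 → ∃ i, g = Finsupp.single i 1) :
    shA w (MvPolynomial.map (algebraMap k Ω) l) = MvPolynomial.map (algebraMap k Ω) l := by
  have e : MvPolynomial.map (algebraMap k Ω) l =
      ∑ g ∈ l.support, monomial g (algebraMap k Ω (coeff g l)) := by
    conv_lhs => rw [l.as_sum, map_sum]
    exact Finset.sum_congr rfl fun g _ => map_monomial _ _ _
  rw [e, shA_sum]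
  refine Finset.sum_congr rfl fun g hg => ?_
  obtain ⟨i, rfl⟩ := hl g (mem_support_iff.1 hg)
  exact shA_mono w i _

/-- The coefficients of `shA` at exponents prime to `p`. -/
theorem coeff_shA_np {p : ℕ} [Fact p.Prime] [CharP Ω p] (w : Fin 2 → Ω)
    {Pa : MvPolynomial (Fin 2) Ω} {l : MvPolynomial (Fin 2) k}
    (hl : ∀ g, coeff g l ≠ 0 → ∃ i, g = Finsupp.single i 1)
    (hP : ∀ g, ¬ DvE p g → coeff g Pa = algebraMap k Ω (coeff g l)) {g : Ex}
    (hg : ¬ DvE p g) : coeff g (shA w Pa) = algebraMap k Ω (coeff g l) := by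
  have h1 : PD p (Pa - MvPolynomial.map (algebraMap k Ω) l) := by
    intro g hg
    rw [coeff_sub, coeff_map, hP g hg, sub_self]
  have e : Pa = (Pa - MvPolynomial.map (algebraMap k Ω) l) +
      MvPolynomial.map (algebraMap k Ω) l := by ring
  rw [e, shA_add, shA_lin w hl, coeff_add, shA_pd w h1 g hg, coeff_map, zero_add]

end shA

/-! ### The row -/

theorem CG.rel_d {p : ℕ} [Fact p.Prime] [CharP Ω p] {L : ℕ → IntermediateField k Ω}
    {W F K : IntermediateField k Ω} {w : Fin 2 → Ω} {x z a : Ω} {R : Rec k Ω}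
    (h : CG p v L W F K w x z a R) :
    ∃ η : ℝ, 0 < η ∧ ∀ X : Fin 2 → Ω, (∀ i, X i ∈ F) → (∀ i, v.Ge (-η) (X i)) →
      ∀ Za ∈ F, ∀ h ∈ F,
      VPos v (algebraMap k Ω R.e * Za + x * PP p R.κ R.t Za + eval X (shA w R.Pa) - h ^ p) →
      ∀ fc : MvPolynomial (Fin 2) k, ∀ r : ℝ, r ≤ 0 → v.Ge r (R.Zp X Za - aeval X fc) →
      v.Ge r (PP p R.κ R.t (R.Zp X Za) + aeval X R.G + R.D (aeval X (C R.e * fc + R.l))) := by
  have hG : ∀ g, Rs v (coeff g (dG p R.κ R.t R.e R.n R.nD R.N R.f (shA w R.Pa) R.D))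
      (coeff g R.G) := by
    intro g
    have h1 := h.res g
    rw [h.base.Dx, one_mul] at h1
    have e : coeff g (dG p R.κ R.t R.e R.n R.nD R.N R.f (shA w R.Pa) R.D) =
        algebraMap k Ω R.e * (∑ j, algebraMap k Ω (coeff g (R.N j)) * R.nD j +
        R.D (coeff g R.f)) + coeff g (PP p R.κ R.t R.u) + R.D (coeff g (shA w R.Pa)) := by
      unfold dG RG Rec.u
      rw [coeff_add, coeff_add, coeff_C_mul, coeff_add, coeff_sum, coeff_dc h.drt.drv.zero,
        coeff_dc h.drt.drv.zero]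
      have e1 : ∑ j, coeff g (C (R.nD j) * MvPolynomial.map (algebraMap k Ω) (R.N j)) =
          ∑ j, algebraMap k Ω (coeff g (R.N j)) * R.nD j :=
        Finset.sum_congr rfl fun j _ => by rw [coeff_C_mul, coeff_map, mul_comm]
      rw [e1]
      ring
    rw [e]
    exact h1
  obtain ⟨η, hη, h2⟩ := h.shp.rel' h.c0 h.drt.drv h.nat (h.trn.le h.xW) h.base.Dx h.tie.AF
    (l := R.l) (fun g hg => coeff_shA_np w h.lin h.PaD hg) (fun he j g hg => h.Np he g hg j)
    (fun he g hg => h.fp he g hg) hG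
  exact ⟨η, hη, fun X hX hXη Za hZ h₀ hh h3 fc r hr hr1 =>
    h2 X hX hXη Za hZ h₀ hh h3 fc r hr hr1⟩

/-- **The row J1.3.** -/
theorem rowRel {p : ℕ} [Fact p.Prime] [CharP Ω p] (hT : RowTie (k := k) p v)
    (hS : RowSm (k := k) p v) : RowRel (k := k) p v := by
  intro L W F K w x z a R h
  obtain ⟨J₁, h1⟩ := hT L W F K w x z a R h.toCD
  obtain ⟨η, hη, h2⟩ := h.rel_d
  obtain ⟨J₂, h3⟩ := hS L W F K w x z a R h.toCD η hη
  refine ⟨max J₁ J₂, fun J hJ Φ η' X Za Dl hM hZ hDl g _ r hr hr1 => ?_⟩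
  obtain ⟨h₀, hh₀, h4⟩ := h1 J (le_trans (le_max_left _ _) hJ) Φ η' X Za hM hZ
  obtain ⟨h5, _⟩ := h3 J (le_trans (le_max_right _ _) hJ) Φ η' X Za hM hZ
  rw [hDl]
  exact h2 X (fun i => h.trn.le (hM.XW i)) h5 Za hZ.mem h₀ hh₀ h4 g r hr hr1

end Pool.Agent.TWCY
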