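import Pool.Agent.Lib.TWCY.RowOne
import Pool.Agent.Lib.TWCY.RowRel
import Pool.Agent.Lib.TWCY.Glue

/-!
# The core: all rows together
-/

set_option autoImplicit false

namespace Pool.Agent.TWCY

open Pool.Agent.H15JM (RVal)

universe u

variable {k Ω : Type u} [Field k] [Field Ω] [Algebra k Ω] {v : RVal Ω} {p : ℕ}

/-- **Row One**, all rows. -/
theorem rowOne_all [Fact p.Prime] [CharP Ω p] [CharP k p] [IsAlgClosed k] [IsAlgClosed Ω] :
    RowOne (k := k) p v :=
  rowOne (rowRel rowTie rowSm) rowZb rowSm rowTie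

/-- **The core.** -/
theorem core [Fact p.Prime] [CharP Ω p] [CharP k p] [IsAlgClosed k] [IsAlgClosed Ω] :
    Core (k := k) p v := core_of_one rowOne_all

end Pool.Agent.TWCY
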