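import Pool.Agent.Lib.TWLY.C
import Pool.Agent.Lib.TWS.Tr
import Pool.Agent.Lib.TWS.Ac

/-!
# CT, j = 1, abelian case: the data (radii and level `0`)

`Ω` is the big field (spherically complete, residue field `k`), `W ≤ F` are closed subfields,
`F` is the closure of `W(w 0, w 1)`, `w i ∈ lim W`, radii `0`.

* `Trn v W F w T`: `T c`, `c ∈ k²`, is an isometry of `Ω`, `W`-linear, `w i ↦ w i + c i`, `T c` is a
  one parameter group on `F` only (the extension to `Ω` is arbitrary for each `c`);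
* `Drv v F D`: a derivation `F → Ω` over `k` of norm `≤ 0`;
* `NatV v F D y y'`: `y'` is the value of `D` at the limit `y` of `F` (unique modulo `O_0`);
* `Shp v F T z n N f b`: the shape `u(s) = Σ N_j(s) n_j + f(s)` of `z`, `u(c) = (T_c - 1) z` mod
  `O_0`; the `n_j` are a basis of the noises, chosen among the coefficients of `u` (exponents `b j`);
* `TieD`: the tie `a = e z + x P(z) + a_0` mod null, specialised at the approximations of `z`.
-/

set_option autoImplicit false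

open MvPolynomial

namespace Pool.Agent.TWCY

open Pool.Agent.H15JM (RVal)
open Pool.Agent.LU1 (VPos)
open Pool.Agent.D2 (Ctx0)
open Pool.Agent.TWM
open Pool.Agent.TWS (IsoE SphC)
open Pool.Agent.TWLY

universe u

variable {k Ω : Type u} [Field k] [Field Ω] [Algebra k Ω]

/-- `c` is the residue of `x`. -/
def Rs (v : RVal Ω) (x : Ω) (c : k) : Prop := VPos v (x - algebraMap k Ω c)

/-- a point of `k²`, in `Ω²` -/
def pt (c : Fin 2 → k) : Fin 2 → Ω := fun i => algebraMap k Ω (c i)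

/-- The translations `w i ↦ w i + c i` of `F`, each one extended to `Ω`. -/
structure Trn (v : RVal Ω) (W F : IntermediateField k Ω) (w : Fin 2 → Ω)
    (T : (Fin 2 → k) → Ω →ₐ[k] Ω) : Prop where
  le : W ≤ F
  iso : ∀ c, IsoE v v (T c)
  fix : ∀ c, ∀ f ∈ W, T c f = f
  wF : ∀ i, w i ∈ F
  wT : ∀ c i, T c (w i) = w i + algebraMap k Ω (c i)
  mem : ∀ c, ∀ f ∈ F, T c f ∈ F
  add : ∀ c c', ∀ f ∈ F, T c (T c' f) = T (c + c') f
  dns : ∀ y ∈ F, ∀ r : ℝ, ∃ q : MvPolynomial (Fin 2) Ω, (∀ g, coeff g q ∈ W) ∧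
    v.Ge r (y - eval w q)

/-- A derivation `F → Ω` over `k` of norm `≤ 0`. -/
structure Drv (v : RVal Ω) (F : IntermediateField k Ω) (D : Ω → Ω) : Prop where
  add : ∀ f ∈ F, ∀ g ∈ F, D (f + g) = D f + D g
  mul : ∀ f ∈ F, ∀ g ∈ F, D (f * g) = f * D g + g * D f
  alg : ∀ c : k, D (algebraMap k Ω c) = 0
  norm : ∀ f ∈ F, ∀ r : ℝ, v.Ge r f → v.Ge r (D f)

/-- The value of `D` at the limit `y` of `F`. -/
def NatV (v : RVal Ω) (F : IntermediateField k Ω) (D : Ω → Ω) (y y' : Ω) : Prop :=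
  ∀ ε : ℝ, 0 < ε → ∀ f ∈ F, v.Ge (-ε) (y - f) → v.Ge (-ε) (y' - D f)

/-- The derivations of the abelian case: `D` on `W` (with arbitrary values at the `w i`), `∂_i`. -/
structure DrvT (v : RVal Ω) (W F : IntermediateField k Ω) (w : Fin 2 → Ω)
    (T : (Fin 2 → k) → Ω →ₐ[k] Ω) (D : Ω → Ω) (dd : Fin 2 → Ω → Ω) : Prop where
  drv : Drv v F D
  drvi : ∀ i, Drv v F (dd i)
  dW : ∀ f ∈ W, D f ∈ W
  dL : ∀ i, Lim v W 0 (D (w i))
  ddF : ∀ i, ∀ f ∈ F, dd i f ∈ F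
  ddW : ∀ i, ∀ f ∈ W, dd i f = 0
  ddw : ∀ i j, dd i (w j) = if i = j then 1 else 0

section shape

variable {ι : Type} [Fintype ι]

/-- The polynomial `u(s) = Σ N_j(s) n_j + f(s)`. -/
noncomputable def uu (n : ι → Ω) (N : ι → MvPolynomial (Fin 2) k) (f : MvPolynomial (Fin 2) Ω) :
    MvPolynomial (Fin 2) Ω :=
  ∑ j, C (n j) * MvPolynomial.map (algebraMap k Ω) (N j) + f

/-- The shape of `z`. -/
structure Shp [DecidableEq ι] (v : RVal Ω) (F : IntermediateField k Ω) (T : (Fin 2 → k) → Ω →ₐ[k] Ω)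
    (z : Ω) (n : ι → Ω) (N : ι → MvPolynomial (Fin 2) k) (f : MvPolynomial (Fin 2) Ω)
    (b : ι → Ex) : Prop where
  zlim : Lim v F 0 z
  lim : ∀ j, Lim v F 0 (n j)
  ind : ∀ c : ι → k, Nr v F 0 (∑ j, algebraMap k Ω (c j) * n j) → ∀ j, c j = 0
  fF : ∀ g, coeff g f ∈ F
  N0 : ∀ j, constantCoeff (N j) = 0
  f0 : constantCoeff f = 0
  Nb : ∀ i j, coeff (b j) (N i) = if i = j then 1 else 0
  fb : ∀ j, coeff (b j) f = 0
  jet : ∀ c : Fin 2 → k, v.Ge 0 (T c z - z - eval (pt c) (uu n N f))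

end shape

/-- The tie `a = e z + x P(z) + a_0` modulo null, specialised at the approximations `θ` of `z`;
`A(s) = a_0(w + s) - a_0(w)`. -/
structure TieD (p : ℕ) (v : RVal Ω) (W F : IntermediateField k Ω) (T : (Fin 2 → k) → Ω →ₐ[k] Ω)
    (x z a₀ : Ω) (e : k) (κ : ℕ → k) (t : ℕ) (A : MvPolynomial (Fin 2) Ω) : Prop where
  xW : x ∈ W
  aF : a₀ ∈ F
  AF : ∀ g, coeff g A ∈ F
  A0 : constantCoeff A = 0
  AT : ∀ c : Fin 2 → k, T c a₀ = a₀ + eval (pt c) A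
  kap : κ t ≠ 0
  tie : ∀ ε : ℝ, 0 < ε → ∃ θ ∈ F, v.Ge (-ε) (z - θ) ∧
    ∃ h ∈ F, v.Ge (-ε) (algebraMap k Ω e * θ + x * PP p κ t θ + a₀ - h ^ p)

end Pool.Agent.TWCY
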