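import Pool.Agent.Lib.TWCY.Dat
import Pool.Agent.Lib.TWN1.Base
import Pool.Agent.Lib.TWII.Soc
import Mathlib.Algebra.DualNumber

/-!
# CT, j = 1: extension of derivations of norm `≤ 0` to a floor of transcendental type

* `dn A D`: the ring homomorphism `a ↦ a + D a ε` of `A`;
* `Gd v r x`: both components of the dual number `x` are of value `≥ r`;
* `exists_drv_dense`: a derivation of norm `≤ 0` given on a dense subring;
* `Drv.exists_tl`: `z` of transcendental type of radius `0` over `A`, `y` a natural value of `D` at `z`: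
  `D` extends to the closure of `A(z)`, `z ↦ y`, with norm `≤ 0`.
-/

set_option autoImplicit false
set_option linter.unusedSectionVars false

open Polynomial

namespace Pool.Agent.TWCY

open Pool.Agent.H15JM (RVal)
open Pool.Agent.LU1 (VPos)
open Pool.Agent.D2 (Ctx0)
open Pool.Agent.D2P (clI mem_clI)
open Pool.Agent.TWM
open Pool.Agent.TWS (IsoE SphC)


universe u

variable {k Ω : Type u} [Field k] [Field Ω] [Algebra k Ω] {v : RVal Ω}
  {A B : IntermediateField k Ω} {D : Ω → Ω} {z y : Ω}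

theorem Drv.zero (h : Drv v A D) : D 0 = 0 := by
  have h1 := h.add 0 A.zero_mem 0 A.zero_mem
  rw [add_zero] at h1
  exact left_eq_add.1 h1

theorem Drv.neg (h : Drv v A D) {a : Ω} (ha : a ∈ A) : D (-a) = -D a := by
  have h1 := h.add a ha (-a) (neg_mem ha)
  rw [add_neg_cancel, h.zero] at h1
  exact (neg_eq_of_add_eq_zero_right h1.symm).symm

theorem Drv.sub (h : Drv v A D) {a b : Ω} (ha : a ∈ A) (hb : b ∈ A) : D (a - b) = D a - D b := by
  rw [sub_eq_add_neg, h.add a ha _ (neg_mem hb), h.neg hb, ← sub_eq_add_neg]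

theorem Drv.one (h : Drv v A D) : D 1 = 0 := by
  have h1 := h.alg 1
  rwa [map_one] at h1

/-- `a ↦ a + D a ε`. -/
noncomputable def Drv.dn (h : Drv v A D) : A →+* DualNumber Ω where
  toFun a := TrivSqZeroExt.inl (a : Ω) + TrivSqZeroExt.inr (D a)
  map_one' := by
    ext
    · simp
    · simp [h.one]
  map_mul' a b := by
    ext
    · simp
    · have := h.mul a a.2 b b.2
      simp [this, mul_comm]
  map_zero' := by
    ext
    · simp
    · simp [h.zero]
  map_add' a b := by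
    ext
    · simp
    · have := h.add a a.2 b b.2
      simp [this]

theorem Drv.dn_fst (h : Drv v A D) (a : A) : TrivSqZeroExt.fst (h.dn a) = a := by
  show TrivSqZeroExt.fst ((TrivSqZeroExt.inl (a : Ω) + TrivSqZeroExt.inr (D a) : DualNumber Ω)) = a
  simp

theorem Drv.dn_snd (h : Drv v A D) (a : A) : TrivSqZeroExt.snd (h.dn a) = D a := by
  show TrivSqZeroExt.snd ((TrivSqZeroExt.inl (a : Ω) + TrivSqZeroExt.inr (D a) : DualNumber Ω)) = D a
  simp

/-- Both components are of value `≥ r`. -/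
def Gd (v : RVal Ω) (r : ℝ) (x : DualNumber Ω) : Prop :=
  v.Ge r (TrivSqZeroExt.fst x) ∧ v.Ge r (TrivSqZeroExt.snd x)

theorem Gd.mul {r s : ℝ} {x x' : DualNumber Ω} (h : Gd v r x) (h' : Gd v s x') : Gd v (r + s) (x * x') := by
  refine ⟨?_, ?_⟩
  · rw [TrivSqZeroExt.fst_mul]
    exact h.1.mul h'.1
  · rw [DualNumber.snd_mul]
    exact (h.1.mul h'.2).add (h.2.mul h'.1)

theorem Gd.add {r : ℝ} {x x' : DualNumber Ω} (h : Gd v r x) (h' : Gd v r x') : Gd v r (x + x') :=
  ⟨by rw [TrivSqZeroExt.fst_add]; exact h.1.add h'.1,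
    by rw [TrivSqZeroExt.snd_add]; exact h.2.add h'.2⟩

theorem Gd.mono {r s : ℝ} {x : DualNumber Ω} (h : Gd v r x) (hs : s ≤ r) : Gd v s x :=
  ⟨h.1.mono hs, h.2.mono hs⟩

theorem Gd.zero {r : ℝ} : Gd v r (0 : DualNumber Ω) :=
  ⟨by rw [TrivSqZeroExt.fst_zero]; exact RVal.Ge.zero,
    by rw [TrivSqZeroExt.snd_zero]; exact RVal.Ge.zero⟩

theorem Gd.sum {ι : Type*} {r : ℝ} (s : Finset ι) (x : ι → DualNumber Ω) (h : ∀ i ∈ s, Gd v r (x i)) :
    Gd v r (∑ i ∈ s, x i) := by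
  classical
  induction s using Finset.induction_on with
  | empty => rw [Finset.sum_empty]; exact Gd.zero
  | insert a s ha ih =>
    rw [Finset.sum_insert ha]
    exact (h a (Finset.mem_insert_self a s)).add (ih fun i hi => h i (Finset.mem_insert_of_mem hi))

theorem Gd.pow {r : ℝ} {x : DualNumber Ω} (h : Gd v r x) (hv1 : v.Ge 0 (1 : Ω)) (n : ℕ) :
    Gd v (n * r) (x ^ n) := by
  induction n with
  | zero =>
    rw [Nat.cast_zero, zero_mul, pow_zero]
    exact ⟨by rw [TrivSqZeroExt.fst_one]; exact hv1,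
      by rw [TrivSqZeroExt.snd_one]; exact RVal.Ge.zero⟩
  | succ n ih =>
    rw [pow_succ]
    have h1 := ih.mul h
    have e : ((n + 1 : ℕ) : ℝ) * r = n * r + r := by push_cast; ring
    rwa [e]

/-! ### Dense subrings -/

/-- **A derivation of norm `≤ 0` given on a dense subring.** -/
theorem exists_drv_dense {R : Type u} [CommRing R] (hΩ : CompleteV v) (E : R →+* DualNumber Ω)
    (hbd : ∀ g b, v.Ge b (TrivSqZeroExt.fst (E g)) → v.Ge b (TrivSqZeroExt.snd (E g)))
    (hmem : ∀ g, TrivSqZeroExt.fst (E g) ∈ B)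
    (hd : ∀ x ∈ B, ∀ b : ℝ, ∃ g, v.Ge b (x - TrivSqZeroExt.fst (E g)))
    (hk : ∀ c : k, ∃ g, TrivSqZeroExt.fst (E g) = algebraMap k Ω c ∧
      TrivSqZeroExt.snd (E g) = 0) :
    ∃ D' : Ω → Ω, Drv v B D' ∧
      (∀ g, D' (TrivSqZeroExt.fst (E g)) = TrivSqZeroExt.snd (E g)) ∧
      (∀ x ∈ B, ∀ b : ℝ, ∀ g, v.Ge b (x - TrivSqZeroExt.fst (E g)) →
        v.Ge b (D' x - TrivSqZeroExt.snd (E g))) := by
  classical
  have hsub : ∀ g g' b, v.Ge b (TrivSqZeroExt.fst (E g) - TrivSqZeroExt.fst (E g')) →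
      v.Ge b (TrivSqZeroExt.snd (E g) - TrivSqZeroExt.snd (E g')) := by
    intro g g' b h
    have h1 := hbd (g - g') b
    rw [map_sub, TrivSqZeroExt.fst_sub, TrivSqZeroExt.snd_sub] at h1
    exact h1 h
  have h1 : ∀ x ∈ B, ∃ y : Ω, ∀ (b : ℝ) (g : R), v.Ge b (x - TrivSqZeroExt.fst (E g)) →
      v.Ge b (y - TrivSqZeroExt.snd (E g)) := by
    intro x hx
    choose f hf using fun n : ℕ => hd x hx (n : ℝ)
    have hdif : ∀ (g g' : R) (b : ℝ), v.Ge b (x - TrivSqZeroExt.fst (E g)) →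
        v.Ge b (x - TrivSqZeroExt.fst (E g')) →
        v.Ge b (TrivSqZeroExt.snd (E g) - TrivSqZeroExt.snd (E g')) := by
      intro g g' b h2 h3
      refine hsub g g' b ?_
      have e : TrivSqZeroExt.fst (E g) - TrivSqZeroExt.fst (E g') =
          (x - TrivSqZeroExt.fst (E g')) - (x - TrivSqZeroExt.fst (E g)) := by ring
      rw [e]
      exact h3.sub h2
    obtain ⟨y, hy⟩ := hΩ (fun n => TrivSqZeroExt.snd (E (f n))) fun c => by
      obtain ⟨N, hN⟩ := exists_nat_ge c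
      refine ⟨N, fun m n hm hn => ?_⟩
      refine (hdif (f m) (f n) N ((hf m).mono (by exact_mod_cast hm))
        ((hf n).mono (by exact_mod_cast hn))).mono hN
    refine ⟨y, fun b g hb => ?_⟩
    obtain ⟨N, hN⟩ := hy b
    obtain ⟨N', hN'⟩ := exists_nat_ge b
    have e : y - TrivSqZeroExt.snd (E g) = (y - TrivSqZeroExt.snd (E (f (max N N')))) +
        (TrivSqZeroExt.snd (E (f (max N N'))) - TrivSqZeroExt.snd (E g)) := by ring
    rw [e]
    refine (hN _ (le_max_left _ _)).add (hdif _ _ b ((hf _).mono (hN'.trans ?_)) hb)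
    exact_mod_cast le_max_right N N'
  choose! D' hD using h1
  have huniq : ∀ x ∈ B, ∀ y : Ω, (∀ b : ℝ, ∃ g, v.Ge b (x - TrivSqZeroExt.fst (E g)) ∧
      v.Ge b (y - TrivSqZeroExt.snd (E g))) → D' x = y := by
    intro x hx y h2
    refine sub_eq_zero.1 (TWLM.eq_zero_of_ge (v := v) fun b => ?_)
    obtain ⟨g, h3, h4⟩ := h2 b
    have e : D' x - y = (D' x - TrivSqZeroExt.snd (E g)) - (y - TrivSqZeroExt.snd (E g)) := by ring
    rw [e]
    exact (hD x hx b g h3).sub h4
  have hpol : ∀ g, D' (TrivSqZeroExt.fst (E g)) = TrivSqZeroExt.snd (E g) := fun g =>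
    huniq _ (hmem g) _ fun b => ⟨g, by rw [sub_self]; exact RVal.Ge.zero,
      by rw [sub_self]; exact RVal.Ge.zero⟩
  have hnorm : ∀ x ∈ B, ∀ b : ℝ, v.Ge b x → v.Ge b (D' x) := by
    intro x hx b hb
    have h2 := hD x hx b 0 (by rwa [map_zero, TrivSqZeroExt.fst_zero, sub_zero])
    rwa [map_zero, TrivSqZeroExt.snd_zero, sub_zero] at h2
  refine ⟨D', ⟨?_, ?_, ?_, hnorm⟩, hpol, hD⟩
  · intro x hx y hy
    refine huniq _ (add_mem hx hy) _ fun b => ?_
    obtain ⟨g, hg⟩ := hd x hx b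
    obtain ⟨g', hg'⟩ := hd y hy b
    refine ⟨g + g', ?_, ?_⟩
    · rw [map_add, TrivSqZeroExt.fst_add, add_sub_add_comm]
      exact hg.add hg'
    · rw [map_add, TrivSqZeroExt.snd_add, add_sub_add_comm]
      exact (hD x hx b g hg).add (hD y hy b g' hg')
  · intro x hx y hy
    refine huniq _ (mul_mem hx hy) _ fun b => ?_
    -- a common bound
    obtain ⟨R, hR0, hxR, hyR⟩ : ∃ R : ℝ, 0 ≤ R ∧ v.Ge (-R) x ∧ v.Ge (-R) y := by
      obtain ⟨c, hc⟩ := TWLM.exists_ge v x
      obtain ⟨c', hc'⟩ := TWLM.exists_ge v y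
      exact ⟨|c| + |c'|, by positivity, hc.mono (by linarith [neg_abs_le c, abs_nonneg c']),
        hc'.mono (by linarith [neg_abs_le c', abs_nonneg c])⟩
    have hDx := hnorm x hx _ hxR
    have hDy := hnorm y hy _ hyR
    set T : ℝ := |b| + R with hT
    have hT0 : 0 ≤ T := by positivity
    obtain ⟨g, hg⟩ := hd x hx T
    obtain ⟨g', hg'⟩ := hd y hy T
    have h3 := hD x hx T g hg
    have h4 := hD y hy T g' hg'
    have hmulb : ∀ a a' c c' : Ω, v.Ge (-R) a → v.Ge (-R) c → v.Ge T (a - a') → v.Ge T (c - c') →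
        v.Ge b (a * c - a' * c') := by
      intro a a' c c' h6 h7 h8 h9
      have e : a * c - a' * c' = (a - a') * c + a * (c - c') - (a - a') * (c - c') := by ring
      rw [e]
      refine ((((h8.mul h7)).mono ?_).add ((h6.mul h9).mono ?_)).sub ((h8.mul h9).mono ?_)
      · linarith [le_abs_self b]
      · linarith [le_abs_self b]
      · linarith [le_abs_self b, abs_nonneg b]
    refine ⟨g * g', ?_, ?_⟩
    · rw [map_mul, TrivSqZeroExt.fst_mul]
      exact hmulb _ _ _ _ hxR hyR hg hg'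
    · rw [map_mul, DualNumber.snd_mul]
      have e : x * D' y + y * D' x - (TrivSqZeroExt.fst (E g) * TrivSqZeroExt.snd (E g') +
          TrivSqZeroExt.snd (E g) * TrivSqZeroExt.fst (E g')) =
          (x * D' y - TrivSqZeroExt.fst (E g) * TrivSqZeroExt.snd (E g')) +
          (D' x * y - TrivSqZeroExt.snd (E g) * TrivSqZeroExt.fst (E g')) := by ring
      rw [e]
      exact (hmulb _ _ _ _ hxR hDy hg h4).add (hmulb _ _ _ _ hDx hyR h3 hg')
  · intro c
    obtain ⟨g, h2, h3⟩ := hk c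
    rw [← h2, hpol, h3]

/-! ### One floor -/

section floor

/-- The dual number of a polynomial. -/
noncomputable def Drv.ev (h : Drv v A D) (z y : Ω) : A[X] →+* DualNumber Ω :=
  eval₂RingHom h.dn (TrivSqZeroExt.inl z + TrivSqZeroExt.inr y)

theorem Drv.ev_fst (h : Drv v A D) (z y : Ω) (g : A[X]) :
    TrivSqZeroExt.fst (h.ev z y g) = (g.map (algebraMap A Ω)).eval z := by
  have h1 : ((TrivSqZeroExt.fstHom Ω Ω Ω : DualNumber Ω →ₐ[Ω] Ω) : DualNumber Ω →+* Ω).comp (h.ev z y) =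
      (evalRingHom z).comp (mapRingHom (algebraMap A Ω)) := by
    refine Polynomial.ringHom_ext (fun a => ?_) ?_
    · show TrivSqZeroExt.fst (h.ev z y (C a)) = ((C a).map (algebraMap A Ω)).eval z
      rw [Drv.ev, coe_eval₂RingHom, eval₂_C, h.dn_fst, map_C, eval_C]
      rfl
    · show TrivSqZeroExt.fst (h.ev z y X) = ((X : A[X]).map (algebraMap A Ω)).eval z
      rw [Drv.ev, coe_eval₂RingHom, eval₂_X, map_X, eval_X]
      simp
  exact DFunLike.congr_fun h1 g

theorem Drv.ev_C (h : Drv v A D) (z y : Ω) (a : A) : h.ev z y (C a) = h.dn a := by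
  rw [Drv.ev, coe_eval₂RingHom, eval₂_C]

theorem Drv.ev_X (h : Drv v A D) (z y : Ω) :
    h.ev z y X = TrivSqZeroExt.inl z + TrivSqZeroExt.inr y := by
  rw [Drv.ev, coe_eval₂RingHom, eval₂_X]

/-- **The bound.** -/
theorem Drv.ev_bd [IsAlgClosed Ω] (h0 : Ctx0 k v) (h : Drv v A D) (hz : TL v A z 0)
    (hy : ∀ a ∈ A, ∀ r : ℝ, v.Ge r (z - a) → v.Ge r (y - D a)) (g : A[X]) (b : ℝ)
    (hb : v.Ge b (TrivSqZeroExt.fst (h.ev z y g))) : Gd v b (h.ev z y g) := by
  classical
  set f : Polynomial Ω := g.map (algebraMap A Ω) with hf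
  have hfA : f ∈ PI A := fun i => by rw [hf, coeff_map]; exact SetLike.coe_mem _
  rw [h.ev_fst, ← hf] at hb
  set L := g.natDegree with hL
  have hv1 : v.Ge 0 (1 : Ω) := by
    have := h0.ge (1 : k)
    rwa [map_one] at this
  -- stationary values
  obtain ⟨δ, hδ, hdeep⟩ := TWN1.TL.deep hz ((Finset.range (L + 1)).image fun l => hasseDeriv l f) (by
    intro q hq
    obtain ⟨l, -, rfl⟩ := Finset.mem_image.1 hq
    exact hasse_mem_PI hfA l)
  have hmar : ∀ N : ℕ, ∃ μ : ℝ, 0 < μ ∧ ∀ l : ℕ, 1 ≤ l → l ≤ N →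
      v.Ge (b + μ) ((hasseDeriv l f).eval z) := by
    intro N
    induction N with
    | zero => exact ⟨1, one_pos, fun l h1 h2 => absurd h1 (by omega)⟩
    | succ N ih =>
      obtain ⟨μ, hμ, h1⟩ := ih
      have h2 := TWII.TL.jet_gt hz hfA hb (l := N + 1) (by omega)
      rw [taylor_coeff, mul_zero, sub_zero] at h2
      obtain ⟨e, he, h3⟩ := TWLM.exists_ge_of_gt h2
      refine ⟨min μ e, lt_min hμ he, fun l hl hlN => ?_⟩
      by_cases h4 : l ≤ N
      · exact (h1 l hl h4).mono (by linarith [min_le_left μ e])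
      · obtain rfl : l = N + 1 := by omega
        exact h3.mono (by linarith [min_le_right μ e])
  obtain ⟨μ, hμ, hmar⟩ := hmar L
  set δ' : ℝ := min δ (μ / (L + 1)) with hδ'
  have hδ'0 : 0 < δ' := lt_min hδ (by positivity)
  have hδ'1 : δ' ≤ δ := min_le_left _ _
  have hδ'3 : ∀ l : ℕ, l ≤ L → (l : ℝ) * δ' ≤ μ := by
    intro l hl
    have h1 : δ' ≤ μ / (L + 1) := min_le_right _ _
    have h2 : (l : ℝ) ≤ L + 1 := by
      have : (l : ℝ) ≤ L := by exact_mod_cast hl
      linarith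
    calc (l : ℝ) * δ' ≤ (L + 1) * δ' := mul_le_mul_of_nonneg_right h2 hδ'0.le
      _ ≤ (L + 1) * (μ / (L + 1)) := mul_le_mul_of_nonneg_left h1 (by positivity)
      _ = μ := by field_simp
  obtain ⟨c, hc, hzc⟩ := hz.lim δ' hδ'0
  have hfl : ∀ l : ℕ, 1 ≤ l → l ≤ L → v.Ge (b + μ) ((hasseDeriv l f).eval c) := by
    intro l h1 hl
    exact ((hdeep c (hzc.mono (by linarith)) (hasseDeriv l f)
      (Finset.mem_image.2 ⟨l, Finset.mem_range.2 (by omega), rfl⟩)).1 _).1 (hmar l h1 hl)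
  have hf0 : v.Ge b (f.eval c) := by
    have h1 := (hdeep c (hzc.mono (by linarith)) (hasseDeriv 0 f)
      (Finset.mem_image.2 ⟨0, Finset.mem_range.2 (by omega), rfl⟩)).1 b
    rw [hasseDeriv_zero'] at h1
    exact h1.1 hb
  -- Taylor
  set c' : A := ⟨c, hc⟩ with hc'
  have htay : g = ∑ l ∈ Finset.range (L + 1), C ((taylor c' g).coeff l) * (X - C c') ^ l := by
    conv_lhs => rw [← sum_taylor_eq g c']
    rw [Polynomial.sum_over_range' _ (fun n => by rw [C_0, zero_mul]) (L + 1)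
      (by rw [natDegree_taylor]; omega)]
  have hcoe : ∀ l : ℕ, (((taylor c' g).coeff l : A) : Ω) = (hasseDeriv l f).eval c := by
    intro l
    have h1 := congrArg (fun q => q.coeff l) (map_taylor g c' (algebraMap A Ω))
    simp only [coeff_map] at h1
    rw [← taylor_coeff]
    exact h1
  rw [htay, map_sum]
  refine Gd.sum _ _ fun l hl => ?_
  have hlL : l ≤ L := by
    have := Finset.mem_range.1 hl
    omega
  rw [map_mul, map_pow, h.ev_C, map_sub, h.ev_C, h.ev_X]
  have hX : Gd v (-δ') (TrivSqZeroExt.inl z + TrivSqZeroExt.inr y - h.dn c') := by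
    refine ⟨?_, ?_⟩
    · rw [TrivSqZeroExt.fst_sub, h.dn_fst]
      simp only [TrivSqZeroExt.fst_add, TrivSqZeroExt.fst_inl, TrivSqZeroExt.fst_inr, add_zero]
      exact hzc.mono (by linarith)
    · rw [TrivSqZeroExt.snd_sub, h.dn_snd]
      simp only [TrivSqZeroExt.snd_add, TrivSqZeroExt.snd_inl, TrivSqZeroExt.snd_inr, zero_add]
      exact hy c hc _ (hzc.mono (by linarith))
  have hcl : ∀ r : ℝ, v.Ge r ((hasseDeriv l f).eval c) → Gd v r (h.dn ((taylor c' g).coeff l)) := by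
    intro r hr
    refine ⟨?_, ?_⟩
    · rw [h.dn_fst, hcoe]
      exact hr
    · rw [h.dn_snd, hcoe]
      exact h.norm _ (by rw [← hcoe]; exact SetLike.coe_mem _) _ hr
  rcases Nat.eq_zero_or_pos l with rfl | hl1
  · have h1 := hcl b (by rw [hasseDeriv_zero']; exact hf0)
    have h2 := h1.mul (hX.pow hv1 0)
    rw [Nat.cast_zero, zero_mul, add_zero] at h2
    exact h2
  · have h1 := hcl _ (hfl l hl1 hlL)
    refine (h1.mul (hX.pow hv1 l)).mono ?_
    linarith [hδ'3 l hlL]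

/-- **Extension to a floor of transcendental type.** -/
theorem Drv.exists_tl [IsAlgClosed Ω] (h0 : Ctx0 k v) (hΩ : CompleteV v) (h : Drv v A D)
    (hz : TL v A z 0) (hy : ∀ a ∈ A, ∀ r : ℝ, v.Ge r (z - a) → v.Ge r (y - D a)) :
    ∃ D' : Ω → Ω, Drv v (cadj v A z) D' ∧ (∀ a ∈ A, D' a = D a) ∧ D' z = y ∧
      ∀ B : IntermediateField k Ω, Cld v B → (∀ a ∈ A, a ∈ B) → z ∈ B → (∀ a ∈ A, D a ∈ B) →
        y ∈ B → ∀ f ∈ cadj v A z, D' f ∈ B := by
  have hg1 : ∀ g, TrivSqZeroExt.fst (h.ev z y g) ∈ cadj v A z := by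
    intro g
    rw [h.ev_fst]
    exact TWLM.eval_mem_cadj fun i => by rw [coeff_map]; exact SetLike.coe_mem _
  have hg2 : ∀ x ∈ cadj v A z, ∀ b : ℝ, ∃ g, v.Ge b (x - TrivSqZeroExt.fst (h.ev z y g)) := by
    intro x hx b
    obtain ⟨q, hq, h5⟩ := hz.dense hx b
    obtain ⟨g, hg'⟩ : ∃ g : A[X], g.map (algebraMap A Ω) = q := by
      have hl : q ∈ Polynomial.lifts (algebraMap A Ω) := by
        rw [Polynomial.lifts_iff_coeff_lifts]
        exact fun i => ⟨⟨q.coeff i, hq i⟩, rfl⟩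
      exact hl
    refine ⟨g, ?_⟩
    rwa [h.ev_fst, hg']
  have hg3 : ∀ c : k, ∃ g, TrivSqZeroExt.fst (h.ev z y g) = algebraMap k Ω c ∧
      TrivSqZeroExt.snd (h.ev z y g) = 0 := by
    intro c
    refine ⟨C ⟨algebraMap k Ω c, A.algebraMap_mem c⟩, ?_, ?_⟩
    · rw [h.ev_C, h.dn_fst]
    · rw [h.ev_C, h.dn_snd, h.alg]
  obtain ⟨D', h1, h2, h3⟩ := exists_drv_dense (B := cadj v A z) hΩ (h.ev z y)
    (fun g b hb => (h.ev_bd h0 hz hy g b hb).2) hg1 hg2 hg3
  refine ⟨D', h1, fun a ha => ?_, ?_, fun B hB hAB hzB hDB hyB f hf => ?_⟩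
  · have h4 := h2 (C ⟨a, ha⟩)
    rw [h.ev_C, h.dn_fst, h.dn_snd] at h4
    exact h4
  · have h4 := h2 X
    rw [h.ev_X] at h4
    simpa using h4
  · have hg : ∀ g : A[X], TrivSqZeroExt.snd (h.ev z y g) ∈ B := by
      intro g
      have hg' : TrivSqZeroExt.fst (h.ev z y g) ∈ B ∧ TrivSqZeroExt.snd (h.ev z y g) ∈ B := by
        induction g using Polynomial.induction_on' with
        | add f g hf hg =>
          rw [map_add, TrivSqZeroExt.fst_add, TrivSqZeroExt.snd_add]
          exact ⟨add_mem hf.1 hg.1, add_mem hf.2 hg.2⟩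
        | monomial n a =>
          rw [← C_mul_X_pow_eq_monomial, map_mul, map_pow, h.ev_C, h.ev_X]
          have hpow : TrivSqZeroExt.fst ((TrivSqZeroExt.inl z + TrivSqZeroExt.inr y :
              DualNumber Ω) ^ n) ∈ B ∧ TrivSqZeroExt.snd ((TrivSqZeroExt.inl z +
              TrivSqZeroExt.inr y : DualNumber Ω) ^ n) ∈ B := by
            induction n with
            | zero =>
              rw [pow_zero, TrivSqZeroExt.fst_one, TrivSqZeroExt.snd_one]
              exact ⟨one_mem _, zero_mem _⟩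
            | succ n ih =>
              rw [pow_succ, TrivSqZeroExt.fst_mul, DualNumber.snd_mul]
              simp only [TrivSqZeroExt.fst_add, TrivSqZeroExt.snd_add, TrivSqZeroExt.fst_inl,
                TrivSqZeroExt.fst_inr, TrivSqZeroExt.snd_inl, TrivSqZeroExt.snd_inr, add_zero,
                zero_add]
              exact ⟨mul_mem ih.1 hzB, add_mem (mul_mem ih.1 hyB) (mul_mem ih.2 hzB)⟩
          rw [TrivSqZeroExt.fst_mul, DualNumber.snd_mul, h.dn_fst, h.dn_snd]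
          exact ⟨mul_mem (hAB a a.2) hpow.1, add_mem (mul_mem (hAB a a.2) hpow.2)
            (mul_mem (hDB a a.2) hpow.1)⟩
      exact hg'.2
    refine hB (mem_clI.2 fun b => ?_)
    obtain ⟨q, hq, h5⟩ := hz.dense hf b
    obtain ⟨g, hg'⟩ : ∃ g : A[X], g.map (algebraMap A Ω) = q := by
      have hl : q ∈ Polynomial.lifts (algebraMap A Ω) := by
        rw [Polynomial.lifts_iff_coeff_lifts]
        exact fun i => ⟨⟨q.coeff i, hq i⟩, rfl⟩
      exact hl
    refine ⟨_, hg g, h3 f hf b g ?_⟩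
    rwa [h.ev_fst, hg']

end floor

/-! ### Natural values -/

/-- `y` is a natural value of `D` at `z`. -/
def NatA (v : RVal Ω) (A : IntermediateField k Ω) (D : Ω → Ω) (z y : Ω) : Prop :=
  ∀ a ∈ A, ∀ r : ℝ, v.Ge r (z - a) → v.Ge r (y - D a)

theorem TL.neg_of_ge (hz : TL v A z 0) {a : Ω} (ha : a ∈ A) {r : ℝ} (hr : v.Ge r (z - a)) :
    r < 0 := by
  have h1 := hz.far a (isAlgebraic_algebraMap (⟨a, ha⟩ : A))
  exact (hr (sub_ne_zero.2 h1.1)).trans_lt h1.2

/-- **Natural values exist.** -/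
theorem Drv.exists_nat (hs : SphC v) (h : Drv v A D) (hz : TL v A z 0) :
    ∃ y, NatA v A D z y := by
  choose a ha hza using fun n : ℕ => hz.lim (1 / ((n : ℝ) + 1)) (by positivity)
  obtain ⟨y, hy⟩ := hs (fun n => D (a n)) (fun n => 0 - 1 / ((n : ℝ) + 1)) fun n m hnm => by
    rw [← h.sub (ha m) (ha n)]
    refine h.norm _ (sub_mem (ha m) (ha n)) _ ?_
    have e : a m - a n = (z - a n) - (z - a m) := by ring
    rw [e]
    refine (hza n).sub ((hza m).mono ?_)
    have h1 : 1 / ((m : ℝ) + 1) ≤ 1 / ((n : ℝ) + 1) := by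
      refine one_div_le_one_div_of_le (by positivity) ?_
      have : (n : ℝ) ≤ m := by exact_mod_cast hnm
      linarith
    linarith
  refine ⟨y, fun b hb r hr => ?_⟩
  have hr0 := TL.neg_of_ge hz hb hr
  obtain ⟨n, hn⟩ := exists_nat_one_div_lt (neg_pos.2 hr0)
  have e : y - D b = (y - D (a n)) + D (a n - b) := by
    rw [h.sub (ha n) hb]; ring
  rw [e]
  refine ((hy n).mono (by linarith)).add (h.norm _ (sub_mem (ha n) hb) _ ?_)
  have e1 : a n - b = (z - b) - (z - a n) := by ring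
  rw [e1]
  exact hr.sub ((hza n).mono (by linarith))

/-- Natural values over a bigger field. -/
theorem NatA.up (hAB : A ≤ B) (h : Drv v B D) (hl : Lim v A 0 z) (hz : TL v B z 0)
    (hy : NatA v A D z y) : NatA v B D z y := by
  intro b hb r hr
  have hr0 := TL.neg_of_ge hz hb hr
  obtain ⟨a, ha, h1⟩ := hl (-r) (neg_pos.2 hr0)
  rw [zero_sub, neg_neg] at h1
  have e : y - D b = (y - D a) + D (a - b) := by
    rw [h.sub (hAB ha) hb]; ring
  rw [e]
  refine (hy a ha r h1).add (h.norm _ (sub_mem (hAB ha) hb) _ ?_)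
  have e1 : a - b = (z - b) - (z - a) := by ring
  rw [e1]
  exact hr.sub h1

end Pool.Agent.TWCY
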