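import Pool.Agent.Lib.TWCY.Der
import Pool.Agent.Lib.TWCY.DerX
import Pool.Agent.Lib.TWCT.NoiseE1

/-!
# CT, j = 1, J1.2: the bounds (E1) for the noise polynomials and for the `G^i`

`Za ∈ F` is the attained displacement of `z`, `X i` the displacements of `w i`,
`Z' = Za - u(X)`.

* `Shp.gt_N`: `|N_j(X)| < |Z' - a|` for every `a ∈ F`;
* `Shp.gt_nat`: the natural value of a derivation `D`, `D X = 0`, at `Z' - a` is smaller than
  `Z' - a`;
* `Shp.gt_G`: `|G^i(X)| < |Z' - a|`;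
* `exists_nu`: the bound `ν`.
-/

set_option autoImplicit false

open MvPolynomial

namespace Pool.Agent.TWCY

open Pool.Agent.H15JM (RVal)
open Pool.Agent.LU1 (VPos)
open Pool.Agent.D2 (Ctx0)
open Pool.Agent.TWM
open Pool.Agent.TWS (IsoE SphC)
open Pool.Agent.TWLY
open Pool.Agent.TWCT (noise_gt aeval_mem)

universe u

variable {k Ω : Type u} [Field k] [Field Ω] [Algebra k Ω] {v : RVal Ω}
  {W F : IntermediateField k Ω}

theorem eval_map_aeval (X : Fin 2 → Ω) (N : MvPolynomial (Fin 2) k) :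
    eval X (MvPolynomial.map (algebraMap k Ω) N) = aeval X N := by
  rw [aeval_def, eval₂_eq_eval_map]

theorem ge_alg (hk : Ctx0 k v) (a : k) : v.Ge 0 (algebraMap k Ω a) := by
  by_cases ha : a = 0
  · rw [ha, map_zero]; exact RVal.Ge.zero
  · exact RVal.Ge.of_le (hk.triv a ha).ge

/-- monomials -/
def mo (X : Fin 2 → Ω) (g : Ex) : Ω := g.prod fun i e => X i ^ e

theorem eval_sum_mo (X : Fin 2 → Ω) (f : MvPolynomial (Fin 2) Ω) :
    eval X f = ∑ g ∈ f.support, coeff g f * mo X g := by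
  rw [eval_eq']
  refine Finset.sum_congr rfl fun g _ => ?_
  rw [mo, Finsupp.prod_fintype _ _ fun i => pow_zero _]

theorem mo_mem {X : Fin 2 → Ω} (hX : ∀ i, X i ∈ F) (g : Ex) : mo X g ∈ F :=
  prod_mem fun i _ => pow_mem (hX i) _

theorem eval_mem {X : Fin 2 → Ω} (hX : ∀ i, X i ∈ F) {f : MvPolynomial (Fin 2) Ω}
    (hf : ∀ g, coeff g f ∈ F) : eval X f ∈ F := by
  rw [eval_sum_mo]
  exact sum_mem fun g _ => mul_mem (hf g) (mo_mem hX g)

section shape

variable {ι : Type} [Fintype ι] {T : (Fin 2 → k) → Ω →ₐ[k] Ω} {z : Ω} {n n' : ι → Ω}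
  {N : ι → MvPolynomial (Fin 2) k} {f : MvPolynomial (Fin 2) Ω} {b : ι → Ex}

theorem eval_uuX (X : Fin 2 → Ω) :
    eval X (uu n N f) = ∑ j, aeval X (N j) * n j + eval X f := by
  unfold uu
  rw [map_add, map_sum]
  congr 1
  refine Finset.sum_congr rfl fun j _ => ?_
  rw [map_mul, eval_C, eval_map_aeval, mul_comm]

/-- **(E1) for the noise polynomials.** -/
theorem Shp.gt_N [DecidableEq ι] (h : Shp v F T z n N f b) (hk : Ctx0 k v) {X : Fin 2 → Ω}
    (hX : ∀ i, X i ∈ F) {Za a : Ω} (hZ : Za ∈ F) (ha : a ∈ F) {r : ℝ}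
    (hr : v.Ge r (Za - eval X (uu n N f) - a)) (j : ι) : Gt v r (aeval X (N j)) := by
  refine noise_gt (F := F) (s := 0) (g := fun j => aeval X (N j)) hk Finset.univ
    (fun j _ => h.lim j) ?_ (fun j _ => aeval_mem hX _) ?_ j (Finset.mem_univ j)
  · rintro c ⟨j, _, hj⟩ h1
    exact hj (h.ind c h1 j)
  · refine ⟨Za - a - eval X f, sub_mem (sub_mem hZ ha) (eval_mem hX h.fF), ?_⟩
    have e : ∑ j, aeval X (N j) * n j - (Za - a - eval X f) =
        -(Za - eval X (uu n N f) - a) := by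
      rw [eval_uuX]; ring
    rw [e, add_zero]
    exact hr.neg

/-! ### Derivations -/

section der

variable {D : Ω → Ω}

theorem Drv.sum (hD : Drv v F D) {κ : Type*} (S : Finset κ) {f : κ → Ω}
    (hf : ∀ i ∈ S, f i ∈ F) : D (∑ i ∈ S, f i) = ∑ i ∈ S, D (f i) := by
  classical
  induction S using Finset.induction_on with
  | empty => rw [Finset.sum_empty, Finset.sum_empty, hD.zero]
  | insert i S hi ih =>
    rw [Finset.sum_insert hi, Finset.sum_insert hi,
      hD.add _ (hf i (Finset.mem_insert_self i S)) _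
        (sum_mem fun j hj => hf j (Finset.mem_insert_of_mem hj)),
      ih fun j hj => hf j (Finset.mem_insert_of_mem hj)]

theorem Drv.pow (hD : Drv v F D) {f : Ω} (hf : f ∈ F) (m : ℕ) :
    D (f ^ (m + 1)) = (m + 1 : ℕ) * f ^ m * D f := by
  induction m with
  | zero => simp
  | succ m ih =>
    rw [pow_succ, hD.mul _ (pow_mem hf _) _ hf, ih]
    push_cast
    ring

theorem Drv.pow_p (hD : Drv v F D) {p : ℕ} (hp : p ≠ 0) [CharP Ω p] {f : Ω} (hf : f ∈ F) :
    D (f ^ p) = 0 := by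
  obtain ⟨m, rfl⟩ := Nat.exists_eq_succ_of_ne_zero hp
  rw [Nat.succ_eq_add_one, hD.pow hf m]
  have h0 : ((m + 1 : ℕ) : Ω) = 0 := CharP.cast_eq_zero Ω (m + 1)
  rw [h0, zero_mul, zero_mul]

theorem Drv.pow_zero_of (hD : Drv v F D) {x : Ω} (hx : x ∈ F) (h0 : D x = 0) (m : ℕ) :
    D (x ^ m) = 0 := by
  cases m with
  | zero =>
    have := hD.alg 1
    rwa [map_one, ← pow_zero x] at this
  | succ m => rw [hD.pow hx m, h0, mul_zero]

theorem Drv.mo_zero (hD : Drv v F D) {X : Fin 2 → Ω} (hX : ∀ i, X i ∈ F)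
    (hDX : ∀ i, D (X i) = 0) (g : Ex) : D (mo X g) = 0 := by
  have e : mo X g = X 0 ^ g 0 * X 1 ^ g 1 := by
    rw [mo, Finsupp.prod_fintype _ _ fun i => pow_zero _, Fin.prod_univ_two]
  rw [e, hD.mul _ (pow_mem (hX 0) _) _ (pow_mem (hX 1) _), hD.pow_zero_of (hX 0) (hDX 0),
    hD.pow_zero_of (hX 1) (hDX 1), mul_zero, mul_zero, add_zero]

theorem Drv.aeval_zero (hD : Drv v F D) {X : Fin 2 → Ω} (hX : ∀ i, X i ∈ F)
    (hDX : ∀ i, D (X i) = 0) (N : MvPolynomial (Fin 2) k) : D (aeval X N) = 0 := by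
  induction N using MvPolynomial.induction_on with
  | C a =>
    rw [← algebraMap_eq, AlgHom.commutes]
    exact hD.alg a
  | add f g hf hg =>
    rw [map_add, hD.add _ (aeval_mem hX f) _ (aeval_mem hX g), hf, hg, add_zero]
  | mul_X f i hf =>
    rw [map_mul, aeval_X, hD.mul _ (aeval_mem hX f) _ (hX i), hf, hDX i, mul_zero, mul_zero,
      add_zero]

/-- `D` on the coefficients. -/
noncomputable def dc (D : Ω → Ω) (f : MvPolynomial (Fin 2) Ω) : MvPolynomial (Fin 2) Ω :=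
  ∑ g ∈ f.support, monomial g (D (coeff g f))

theorem coeff_dc (h0 : D 0 = 0) (f : MvPolynomial (Fin 2) Ω) (g : Ex) :
    coeff g (dc D f) = D (coeff g f) := by
  classical
  unfold dc
  rw [coeff_sum]
  simp_rw [coeff_monomial]
  rw [Finset.sum_ite_eq' f.support g]
  split_ifs with h
  · rfl
  · rw [notMem_support_iff.1 h, h0]

theorem eval_dc (X : Fin 2 → Ω) (f : MvPolynomial (Fin 2) Ω) :
    eval X (dc D f) = ∑ g ∈ f.support, D (coeff g f) * mo X g := by
  unfold dc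
  rw [map_sum]
  refine Finset.sum_congr rfl fun g _ => ?_
  rw [eval_monomial, mo]

theorem Drv.eval_eq (hD : Drv v F D) {X : Fin 2 → Ω} (hX : ∀ i, X i ∈ F)
    (hDX : ∀ i, D (X i) = 0) {f : MvPolynomial (Fin 2) Ω} (hf : ∀ g, coeff g f ∈ F) :
    D (eval X f) = eval X (dc D f) := by
  rw [eval_dc, eval_sum_mo, hD.sum _ fun g _ => mul_mem (hf g) (mo_mem hX g)]
  refine Finset.sum_congr rfl fun g _ => ?_
  rw [hD.mul _ (hf g) _ (mo_mem hX g), hD.mo_zero hX hDX, mul_zero, zero_add, mul_comm]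

/-- A derivation of norm `≤ 0` is strict if `gr F` is perfect. -/
theorem Drv.strict (hD : Drv v F D) {p : ℕ} (hp : p ≠ 0) [CharP Ω p]
    (hgp : ∀ f ∈ F, f ≠ 0 → ∃ g ∈ F, Gt v (v f) (f - g ^ p)) {f : Ω} (hf : f ∈ F)
    {r : ℝ} (hr : v.Ge r f) : Gt v r (D f) := by
  by_cases h0 : f = 0
  · rw [h0, hD.zero]; exact Gt.zero
  · obtain ⟨g, hg, h1⟩ := hgp f hf h0
    have e : D f = D (f - g ^ p) := by
      rw [hD.sub hf (pow_mem hg p), hD.pow_p hp hg, sub_zero]
    rw [e]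
    by_cases h2 : f - g ^ p = 0
    · rw [h2, hD.zero]; exact Gt.zero
    · refine Gt.of_ge (hD.norm _ (sub_mem hf (pow_mem hg p)) _ (RVal.ge_self (v := v) _)) ?_
      exact lt_of_le_of_lt (hr h0) (h1 h2)

theorem exists_eps {κ : Type*} (S : Finset κ) {m : κ → Ω} {r : ℝ}
    (hm : ∀ j ∈ S, Gt v r (m j)) : ∃ ε : ℝ, 0 < ε ∧ ∀ j ∈ S, Gt v (r + ε) (m j) := by
  classical
  induction S using Finset.induction_on with
  | empty => exact ⟨1, one_pos, fun j hj => absurd hj (Finset.notMem_empty j)⟩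
  | insert i S hi ih =>
    obtain ⟨ε, hε, h1⟩ := ih fun j hj => hm j (Finset.mem_insert_of_mem hj)
    by_cases h0 : m i = 0
    · refine ⟨ε, hε, fun j hj => ?_⟩
      rcases Finset.mem_insert.1 hj with rfl | hj
      · rw [h0]; exact Gt.zero
      · exact h1 j hj
    · have h2 := hm i (Finset.mem_insert_self i S) h0
      refine ⟨min ε ((v (m i) - r) / 2), lt_min hε (by linarith), fun j hj => ?_⟩
      rcases Finset.mem_insert.1 hj with rfl | hj
      · intro _
        have := min_le_right ε ((v (m j) - r) / 2)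
        linarith
      · exact (h1 j hj).mono (by
          have := min_le_left ε ((v (m i) - r) / 2)
          linarith)

/-- The natural value of `D` at `Z' - a`. -/
theorem Shp.gt_nat [DecidableEq ι] (h : Shp v F T z n N f b) (hk : Ctx0 k v) {p : ℕ}
    (hp : p ≠ 0) [CharP Ω p]
    (hgp : ∀ f ∈ F, f ≠ 0 → ∃ g ∈ F, Gt v (v f) (f - g ^ p)) (hD : Drv v F D)
    (hn' : ∀ j, NatV v F D (n j) (n' j)) {X : Fin 2 → Ω} (hX : ∀ i, X i ∈ F)
    (hDX : ∀ i, D (X i) = 0) {Za a : Ω} (hZ : Za ∈ F) (ha : a ∈ F) {r : ℝ}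
    (hr : v.Ge r (Za - eval X (uu n N f) - a)) :
    Gt v r (D (Za - a) - ∑ j, aeval X (N j) * n' j - eval X (dc D f)) := by
  classical
  have hm := h.gt_N hk hX hZ ha hr
  obtain ⟨ε, hε, hε'⟩ := exists_eps Finset.univ (m := fun j => aeval X (N j)) (r := r)
    fun j _ => hm j
  have hε2 : ∀ j, Gt v (r + ε) (aeval X (N j)) := fun j => hε' j (Finset.mem_univ j)
  choose θ hθ hθ' using fun j => h.lim j ε hε
  have hmF : ∀ j, aeval X (N j) ∈ F := fun j => aeval_mem hX _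
  set y := Za - a - eval X f - ∑ j, aeval X (N j) * θ j with hy
  have hyF : y ∈ F := sub_mem (sub_mem (sub_mem hZ ha) (eval_mem hX h.fF))
    (sum_mem fun j _ => mul_mem (hmF j) (hθ j))
  have hy1 : v.Ge r y := by
    have e : y = (Za - eval X (uu n N f) - a) + ∑ j, aeval X (N j) * (n j - θ j) := by
      rw [eval_uuX, hy]
      simp_rw [mul_sub]
      rw [Finset.sum_sub_distrib]
      ring
    rw [e]
    refine hr.add (RVal.Ge.sum _ _ fun j _ => ?_)
    exact ((hε2 j).ge.mul (hθ' j)).mono (by linarith)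
  have h1 := hD.strict hp hgp hyF hy1
  have e1 : D y = D (Za - a) - eval X (dc D f) - ∑ j, aeval X (N j) * D (θ j) := by
    rw [hy, hD.sub (sub_mem (sub_mem hZ ha) (eval_mem hX h.fF))
      (sum_mem fun j _ => mul_mem (hmF j) (hθ j)),
      hD.sub (sub_mem hZ ha) (eval_mem hX h.fF), hD.eval_eq hX hDX h.fF,
      hD.sum _ fun j _ => mul_mem (hmF j) (hθ j)]
    congr 1
    refine Finset.sum_congr rfl fun j _ => ?_
    rw [hD.mul _ (hmF j) _ (hθ j), hD.aeval_zero hX hDX, mul_zero, add_zero]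
  have e2 : D (Za - a) - ∑ j, aeval X (N j) * n' j - eval X (dc D f) =
      D y - ∑ j, aeval X (N j) * (n' j - D (θ j)) := by
    rw [e1]
    simp_rw [mul_sub]
    rw [Finset.sum_sub_distrib]
    ring
  rw [e2]
  refine h1.sub (Gt.sum _ _ fun j _ => ?_)
  exact ((hε2 j).mul_ge (hn' j ε hε (θ j) (hθ j) ((hθ' j).mono (by linarith)))).mono
    (by linarith)

/-! ### Small points -/

theorem ge_mo {X : Fin 2 → Ω} {η : ℝ} (hX : ∀ i, v.Ge (-η) (X i)) (g : Ex) :
    v.Ge (-(dg g * η)) (mo X g) := by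
  have e : mo X g = X 0 ^ g 0 * X 1 ^ g 1 := by
    rw [mo, Finsupp.prod_fintype _ _ fun i => pow_zero _, Fin.prod_univ_two]
  rw [e]
  refine ((ge_pow (hX 0) _).mul (ge_pow (hX 1) _)).mono ?_
  unfold dg
  push_cast
  linarith

theorem exists_gap {κ : Type*} (S : Finset κ) {m : κ → Ω} (hm : ∀ j ∈ S, VPos v (m j)) :
    ∃ μ : ℝ, 0 < μ ∧ ∀ j ∈ S, v.Ge μ (m j) := by
  obtain ⟨ε, hε, h1⟩ := exists_eps (r := 0) S (m := m) fun j hj => hm j hj
  exact ⟨ε, hε, fun j hj => (h1 j hj).ge.mono (by linarith)⟩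

/-- A polynomial with coefficients of value `> 0` has value `> 0` at small points. -/
theorem exists_small (R : MvPolynomial (Fin 2) Ω) (hR : ∀ g, VPos v (coeff g R)) :
    ∃ η : ℝ, 0 < η ∧ ∀ X : Fin 2 → Ω, (∀ i, v.Ge (-η) (X i)) → VPos v (eval X R) := by
  obtain ⟨μ, hμ, h1⟩ := exists_gap R.support fun g _ => hR g
  obtain ⟨B, hB⟩ : ∃ B : ℕ, ∀ g ∈ R.support, dg g ≤ B :=
    ⟨R.support.sup dg, fun g hg => Finset.le_sup hg⟩
  refine ⟨μ / (2 * (B + 1)), by positivity, fun X hX => ?_⟩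
  rw [eval_sum_mo]
  refine Gt.sum (r := 0) _ _ fun g hg => ?_
  refine Gt.of_ge ((h1 g hg).mul (ge_mo hX g)) ?_
  have h2 : (dg g : ℝ) ≤ B := by exact_mod_cast hB g hg
  have h3 : (dg g : ℝ) * (μ / (2 * (B + 1))) ≤ μ / 2 := by
    rw [← mul_div_assoc, div_le_iff₀ (by positivity)]
    nlinarith
  linarith

/-! ### The polynomials `G^i` -/

/-- `e (Σ n'_j N_j + D f) + D A`, with residues `G^i`. -/
noncomputable def RG (e : k) (n' : ι → Ω) (N : ι → MvPolynomial (Fin 2) k)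
    (f A : MvPolynomial (Fin 2) Ω) (D : Ω → Ω) : MvPolynomial (Fin 2) Ω :=
  C (algebraMap k Ω e) * (∑ j, C (n' j) * MvPolynomial.map (algebraMap k Ω) (N j) + dc D f) +
    dc D A

theorem eval_RG (e : k) (A : MvPolynomial (Fin 2) Ω) (X : Fin 2 → Ω) :
    eval X (RG e n' N f A D) =
      algebraMap k Ω e * (∑ j, aeval X (N j) * n' j + eval X (dc D f)) + eval X (dc D A) := by
  unfold RG
  rw [map_add, map_mul, eval_C, map_add, map_sum]
  congr 3
  refine Finset.sum_congr rfl fun j _ => ?_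
  rw [map_mul, eval_C, eval_map_aeval, mul_comm]

theorem Drv.PP_zero {p : ℕ} {κ : ℕ → k} {t : ℕ} (hD : Drv v F D) (hp : p ≠ 0) [CharP Ω p]
    {y : Ω} (hy : y ∈ F) : D (PP p κ t y) = 0 := by
  unfold PP
  rw [hD.sum _ fun _ _ => mul_mem (F.algebraMap_mem _) (pow_mem hy _)]
  refine Finset.sum_eq_zero fun _ _ => ?_
  rw [hD.mul _ (F.algebraMap_mem _) _ (pow_mem hy _), hD.alg, mul_zero, add_zero, pow_succ,
    pow_mul, hD.pow_p hp (pow_mem hy _), mul_zero]

/-- `D` of the tie of `Za`. -/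
theorem Drv.tie {p : ℕ} {κ : ℕ → k} {t : ℕ} (hD : Drv v F D) (hp : p ≠ 0) [CharP Ω p]
    {X : Fin 2 → Ω} (hX : ∀ i, X i ∈ F) (hDX : ∀ i, D (X i) = 0) {x Za : Ω} {e : k}
    {A : MvPolynomial (Fin 2) Ω} (hx : x ∈ F) (hDx : D x = 0) (hZ : Za ∈ F)
    (hA : ∀ g, coeff g A ∈ F) {h : Ω} (hh : h ∈ F)
    (htie : VPos v (algebraMap k Ω e * Za + x * PP p κ t Za + eval X A - h ^ p)) :
    VPos v (algebraMap k Ω e * D Za + eval X (dc D A)) := by
  have hP : PP p κ t Za ∈ F := PP_mem hZ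
  have h1 : algebraMap k Ω e * Za ∈ F := mul_mem (F.algebraMap_mem _) hZ
  have h2 : x * PP p κ t Za ∈ F := mul_mem hx hP
  have e1 : algebraMap k Ω e * D Za + eval X (dc D A) =
      D (algebraMap k Ω e * Za + x * PP p κ t Za + eval X A - h ^ p) := by
    rw [hD.sub (add_mem (add_mem h1 h2) (eval_mem hX hA)) (pow_mem hh p), hD.pow_p hp hh,
      sub_zero, hD.add _ (add_mem h1 h2) _ (eval_mem hX hA), hD.add _ h1 _ h2,
      hD.mul _ (F.algebraMap_mem _) _ hZ, hD.alg, hD.mul _ hx _ hP, hD.PP_zero hp hZ, hDx,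
      hD.eval_eq hX hDX hA]
    ring
  rw [e1]
  set y := algebraMap k Ω e * Za + x * PP p κ t Za + eval X A - h ^ p with hy
  have hyF : y ∈ F := sub_mem (add_mem (add_mem h1 h2) (eval_mem hX hA)) (pow_mem hh p)
  by_cases h0 : y = 0
  · rw [h0, hD.zero]; exact Gt.zero
  · exact Gt.of_ge (hD.norm y hyF _ (RVal.ge_self (v := v) _)) (htie h0)

/-- **(E1) for the `G^i`.** -/
theorem Shp.gt_G [DecidableEq ι] (h : Shp v F T z n N f b) (hk : Ctx0 k v) {p : ℕ}
    {κ : ℕ → k} {t : ℕ} (hp : p ≠ 0) [CharP Ω p]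
    (hgp : ∀ f ∈ F, f ≠ 0 → ∃ g ∈ F, Gt v (v f) (f - g ^ p)) (hD : Drv v F D)
    (hn' : ∀ j, NatV v F D (n j) (n' j)) {x : Ω} {e : k} {A : MvPolynomial (Fin 2) Ω}
    (hx : x ∈ F) (hDx : D x = 0) (hA : ∀ g, coeff g A ∈ F) {Gi : MvPolynomial (Fin 2) k}
    (hGi : ∀ g, Rs v (coeff g (RG e n' N f A D)) (coeff g Gi)) :
    ∃ η : ℝ, 0 < η ∧ ∀ X : Fin 2 → Ω, (∀ i, X i ∈ F) → (∀ i, D (X i) = 0) →
      (∀ i, v.Ge (-η) (X i)) → ∀ Za ∈ F, ∀ h ∈ F,
      VPos v (algebraMap k Ω e * Za + x * PP p κ t Za + eval X A - h ^ p) →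
      ∀ a ∈ F, D a = 0 → ∀ r : ℝ, r ≤ 0 → v.Ge r (Za - eval X (uu n N f) - a) →
      Gt v r (aeval X Gi) := by
  obtain ⟨η, hη, h1⟩ := exists_small
    (RG e n' N f A D - MvPolynomial.map (algebraMap k Ω) Gi) fun g => by
      rw [coeff_sub, coeff_map]
      exact hGi g
  refine ⟨η, hη, fun X hX hDX hXη Za hZ h₀ hh htie a ha hDa r hr hr2 => ?_⟩
  have h2 := h1 X hXη
  rw [map_sub, eval_map_aeval, eval_RG] at h2
  have h3 := hD.tie hp hX hDX hx hDx hZ hA hh htie
  have h4 := h.gt_nat hk hp hgp hD hn' hX hDX hZ ha hr2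
  rw [hD.sub hZ ha, hDa, sub_zero] at h4
  have e1 : aeval X Gi = (algebraMap k Ω e * D Za + eval X (dc D A)) -
      algebraMap k Ω e * (D Za - ∑ j, aeval X (N j) * n' j - eval X (dc D f)) -
      (algebraMap k Ω e * (∑ j, aeval X (N j) * n' j + eval X (dc D f)) +
        eval X (dc D A) - aeval X Gi) := by ring
  rw [e1]
  have h3' : Gt v r (algebraMap k Ω e * D Za + eval X (dc D A)) := Gt.mono (r := 0) h3 hr
  have h2' : Gt v r (algebraMap k Ω e * (∑ j, aeval X (N j) * n' j + eval X (dc D f)) +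
      eval X (dc D A) - aeval X Gi) := Gt.mono (r := 0) h2 hr
  have h4' := h4.mul_ge (ge_alg hk e)
  rw [add_zero, mul_comm] at h4'
  exact (h3'.sub h4').sub h2'

end der

end shape

/-! ### The bound `ν` -/

/-- The bound `ν` of the layer lemma. -/
theorem exists_nu (hk : Ctx0 k v) {κ : Type*} (S : Finset κ)
    {M : κ → MvPolynomial (Fin 2) k} {X : Fin 2 → Ω} {Z : Ω}
    (h : ∀ f : MvPolynomial (Fin 2) k, constantCoeff f = 0 → ∀ r : ℝ, r ≤ 0 →
      v.Ge r (Z - aeval X f) → ∀ j ∈ S, Gt v r (aeval X (M j)))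
    {ν₀ : ℝ} (hν₀ : 0 < ν₀) (h0 : ∀ f : MvPolynomial (Fin 2) k, constantCoeff f = 0 →
      Z - aeval X f ≠ 0 ∧ v (Z - aeval X f) < -ν₀) :
    ∃ ν : ℝ, 0 < ν ∧
      (∀ N ∈ Submodule.span k (M '' (S : Set κ)), v.Ge (-ν) (aeval X N)) ∧
      (∀ f : MvPolynomial (Fin 2) k, constantCoeff f = 0 → Z - aeval X f ≠ 0) ∧
      ∀ f : MvPolynomial (Fin 2) k, constantCoeff f = 0 → v (Z - aeval X f) < -ν := by
  classical
  -- the maximum of the sizes
  obtain ⟨ν, hν, hge, hlt⟩ : ∃ ν : ℝ, 0 < ν ∧ (∀ j ∈ S, v.Ge (-ν) (aeval X (M j))) ∧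
      ∀ f : MvPolynomial (Fin 2) k, constantCoeff f = 0 → v (Z - aeval X f) < -ν := by
    induction S using Finset.induction_on with
    | empty => exact ⟨ν₀, hν₀, fun j hj => absurd hj (Finset.notMem_empty j),
        fun f hf => (h0 f hf).2⟩
    | insert i S hi ih =>
      obtain ⟨ν, hν, hge, hlt⟩ := ih fun f hf r hr h1 j hj =>
        h f hf r hr h1 j (Finset.mem_insert_of_mem hj)
      by_cases hz : aeval X (M i) = 0
      · refine ⟨ν, hν, fun j hj => ?_, hlt⟩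
        rcases Finset.mem_insert.1 hj with rfl | hj
        · rw [hz]; exact RVal.Ge.zero
        · exact hge j hj
      · refine ⟨max ν (-v (aeval X (M i))), lt_max_of_lt_left hν, fun j hj => ?_,
          fun f hf => ?_⟩
        · rcases Finset.mem_insert.1 hj with rfl | hj
          · refine RVal.Ge.of_le ?_
            have := le_max_right ν (-v (aeval X (M j)))
            linarith
          · exact (hge j hj).mono (neg_le_neg (le_max_left _ _))
        · have h1 := hlt f hf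
          have h2 := h f hf _ (by linarith) (RVal.ge_self (v := v) _) i
            (Finset.mem_insert_self i S) hz
          rcases max_cases ν (-v (aeval X (M i))) with ⟨h3, _⟩ | ⟨h3, _⟩
          · rw [h3]; exact h1
          · rw [h3]; linarith
  refine ⟨ν, hν, fun N hN => ?_, fun f hf => (h0 f hf).1, hlt⟩
  induction hN using Submodule.span_induction with
  | mem y hy =>
    obtain ⟨j, hj, rfl⟩ := hy
    exact hge j hj
  | zero => rw [map_zero]; exact RVal.Ge.zero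
  | add y y' _ _ hy hy' => rw [map_add]; exact hy.add hy'
  | smul a y _ hy =>
    rw [map_smul, Algebra.smul_def]
    exact ((ge_alg hk a).mul hy).mono (by linarith)

/-- The bound `ν ≥ 0` of the layer lemma. -/
theorem exists_nu1 (hk : Ctx0 k v) {κ : Type*} (S : Finset κ)
    {M : κ → MvPolynomial (Fin 2) k} {X : Fin 2 → Ω} {Z : Ω}
    (h : ∀ f : MvPolynomial (Fin 2) k, constantCoeff f = 0 → ∀ r : ℝ, r ≤ 0 →
      v.Ge r (Z - aeval X f) → ∀ j ∈ S, Gt v r (aeval X (M j)))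
    (hvis : ∀ f : MvPolynomial (Fin 2) k, constantCoeff f = 0 →
      Z - aeval X f ≠ 0 ∧ v (Z - aeval X f) < 0) :
    ∃ ν : ℝ, 0 ≤ ν ∧
      (∀ N ∈ Submodule.span k (M '' (S : Set κ)), v.Ge (-ν) (aeval X N)) ∧
      (∀ f : MvPolynomial (Fin 2) k, constantCoeff f = 0 → Z - aeval X f ≠ 0) ∧
      ∀ f : MvPolynomial (Fin 2) k, constantCoeff f = 0 → v (Z - aeval X f) < -ν := by
  classical
  obtain ⟨ν, hν, hge, hlt⟩ : ∃ ν : ℝ, 0 ≤ ν ∧ (∀ j ∈ S, v.Ge (-ν) (aeval X (M j))) ∧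
      ∀ f : MvPolynomial (Fin 2) k, constantCoeff f = 0 → v (Z - aeval X f) < -ν := by
    induction S using Finset.induction_on with
    | empty => exact ⟨0, le_rfl, fun j hj => absurd hj (Finset.notMem_empty j),
        fun f hf => by rw [neg_zero]; exact (hvis f hf).2⟩
    | insert i S hi ih =>
      obtain ⟨ν, hν, hge, hlt⟩ := ih fun f hf r hr h1 j hj =>
        h f hf r hr h1 j (Finset.mem_insert_of_mem hj)
      by_cases hz : aeval X (M i) = 0
      · refine ⟨ν, hν, fun j hj => ?_, hlt⟩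
        rcases Finset.mem_insert.1 hj with rfl | hj
        · rw [hz]; exact RVal.Ge.zero
        · exact hge j hj
      · refine ⟨max ν (-v (aeval X (M i))), le_max_of_le_left hν, fun j hj => ?_,
          fun f hf => ?_⟩
        · rcases Finset.mem_insert.1 hj with rfl | hj
          · refine RVal.Ge.of_le ?_
            have := le_max_right ν (-v (aeval X (M j)))
            linarith
          · exact (hge j hj).mono (neg_le_neg (le_max_left _ _))
        · have h1 := hlt f hf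
          have h2 := h f hf _ (by linarith) (RVal.ge_self (v := v) _) i
            (Finset.mem_insert_self i S) hz
          rcases max_cases ν (-v (aeval X (M i))) with ⟨h3, _⟩ | ⟨h3, _⟩
          · rw [h3]; exact h1
          · rw [h3]; linarith
  refine ⟨ν, hν, fun N hN => ?_, fun f hf => (hvis f hf).1, hlt⟩
  induction hN using Submodule.span_induction with
  | mem y hy =>
    obtain ⟨j, hj, rfl⟩ := hy
    exact hge j hj
  | zero => rw [map_zero]; exact RVal.Ge.zero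
  | add y y' _ _ hy hy' => rw [map_add]; exact hy.add hy'
  | smul a y _ hy =>
    rw [map_smul, Algebra.smul_def]
    exact ((ge_alg hk a).mul hy).mono (by linarith)

/-- If some element of the span is visible at `X`, all `Z - f(X)` are visible. -/
theorem vis_of_span (hk : Ctx0 k v) {κ : Type*} (S : Finset κ)
    {M : κ → MvPolynomial (Fin 2) k} {X : Fin 2 → Ω} {Z : Ω}
    (h : ∀ f : MvPolynomial (Fin 2) k, constantCoeff f = 0 → ∀ r : ℝ, r ≤ 0 →
      v.Ge r (Z - aeval X f) → ∀ j ∈ S, Gt v r (aeval X (M j)))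
    {N₀ : MvPolynomial (Fin 2) k} (hN₀ : N₀ ∈ Submodule.span k (M '' (S : Set κ)))
    (h0 : aeval X N₀ ≠ 0) (h0' : v (aeval X N₀) ≤ 0) (f : MvPolynomial (Fin 2) k)
    (hf : constantCoeff f = 0) : Z - aeval X f ≠ 0 ∧ v (Z - aeval X f) < 0 := by
  by_contra hcon
  have h1 : v.Ge 0 (Z - aeval X f) := by
    intro h2
    by_contra h3
    exact hcon ⟨h2, not_le.1 h3⟩
  have h2 : ∀ N ∈ Submodule.span k (M '' (S : Set κ)), Gt v 0 (aeval X N) := by
    intro N hN
    induction hN using Submodule.span_induction with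
    | mem y hy =>
      obtain ⟨j, hj, rfl⟩ := hy
      exact h f hf 0 le_rfl h1 j hj
    | zero => rw [map_zero]; exact Gt.zero
    | add y y' _ _ hy hy' => rw [map_add]; exact hy.add hy'
    | smul a y _ hy =>
      rw [map_smul, Algebra.smul_def, mul_comm]
      exact (hy.mul_ge (ge_alg hk a)).mono (by linarith)
  exact absurd (h2 N₀ hN₀ h0) (not_lt.2 h0')

/-- The bound `ν ≥ 0` of the layer lemma, if some element of the span is visible at `X`. -/
theorem exists_nu0 (hk : Ctx0 k v) {κ : Type*} (S : Finset κ)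
    {M : κ → MvPolynomial (Fin 2) k} {X : Fin 2 → Ω} {Z : Ω}
    (h : ∀ f : MvPolynomial (Fin 2) k, constantCoeff f = 0 → ∀ r : ℝ, r ≤ 0 →
      v.Ge r (Z - aeval X f) → ∀ j ∈ S, Gt v r (aeval X (M j)))
    {N₀ : MvPolynomial (Fin 2) k} (hN₀ : N₀ ∈ Submodule.span k (M '' (S : Set κ)))
    (h0 : aeval X N₀ ≠ 0) (h0' : v (aeval X N₀) ≤ 0) :
    ∃ ν : ℝ, 0 ≤ ν ∧
      (∀ N ∈ Submodule.span k (M '' (S : Set κ)), v.Ge (-ν) (aeval X N)) ∧
      (∀ f : MvPolynomial (Fin 2) k, constantCoeff f = 0 → Z - aeval X f ≠ 0) ∧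
      ∀ f : MvPolynomial (Fin 2) k, constantCoeff f = 0 → v (Z - aeval X f) < -ν :=
  exists_nu1 hk S h (vis_of_span hk S h hN₀ h0 h0')

end Pool.Agent.TWCY
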