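import Pool.Agent.Lib.TWCY.Core
import Pool.Agent.Lib.TWRR.J0

/-!
# CT, j = 1, abelian case: the classes of the effects (J1.6.4)

* `coeff_shA`: the coefficients of `Pa(w + s) - Pa(w)` along the second variable;
* `rowCls`: `RowCls`, from `RowNrm`, `RowJL`, `RowV0`.
-/

set_option autoImplicit false

open MvPolynomial

namespace Pool.Agent.TWCY

open Pool.Agent.H15JM (RVal)
open Pool.Agent.LU1 (VPos)
open Pool.Agent.D2 (Ctx0)
open Pool.Agent.D2P (clI)
open Pool.Agent.TWM
open Pool.Agent.TWII (PG LP)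
open Pool.Agent.TWN1 (Par Unh Nrm)
open Pool.Agent.TWRR (GP JL OC OClsJ)
open Pool.Agent.TWLY

universe u

variable {k Ω : Type u} [Field k] [Field Ω] [Algebra k Ω]

/-- The coefficients along the second variable. -/
theorem coeff_single_one (Q : MvPolynomial (Fin 2) Ω) (l : ℕ) :
    coeff (Finsupp.single 1 l) Q =
      (aeval (fun i : Fin 2 => if i = 0 then (0 : Polynomial Ω) else Polynomial.X) Q).coeff l := by
  induction Q using MvPolynomial.induction_on' with
  | monomial m a =>
    rw [coeff_monomial, aeval_monomial, Finsupp.prod_fintype _ _ fun i => pow_zero _,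
      Fin.prod_univ_two, if_pos rfl, if_neg (one_ne_zero : (1 : Fin 2) ≠ 0),
      Polynomial.algebraMap_apply, Algebra.algebraMap_self, RingHom.id_apply,
      Polynomial.coeff_C_mul]
    by_cases h0 : m 0 = 0
    · rw [h0, pow_zero, one_mul, Polynomial.coeff_X_pow]
      by_cases h1 : l = m 1
      · have h2 : m = Finsupp.single 1 l := by
          ext i
          fin_cases i
          · simpa using h0
          · simpa using h1.symm
        rw [if_pos h2, if_pos h1, mul_one]
      · have h2 : m ≠ Finsupp.single 1 l := fun h3 => h1 (by rw [h3, Finsupp.single_eq_same])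
        rw [if_neg h2, if_neg h1, mul_zero]
    · have h2 : m ≠ Finsupp.single 1 l := fun h3 => h0 (by
        rw [h3]
        simp)
      rw [if_neg h2, zero_pow h0, zero_mul, Polynomial.coeff_zero, mul_zero]
  | add P Q hP hQ => rw [coeff_add, hP, hQ, map_add, Polynomial.coeff_add]

/-- **The coefficients of `Pa(w + s) - Pa(w)`** along the second variable. -/
theorem coeff_shA (w : Fin 2 → Ω) (Pa : MvPolynomial (Fin 2) Ω) {l : ℕ} (hl : l ≠ 0) :
    coeff (Finsupp.single 1 l) (shA w Pa) = (Polynomial.hasseDeriv l (Bp w Pa)).eval (w 1) := by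
  have h0 : (0 : Fin 2 →₀ ℕ) ≠ Finsupp.single 1 l := fun h1 => hl (by
    have h2 := DFunLike.congr_fun h1 1
    rw [Finsupp.single_eq_same] at h2
    exact h2.symm)
  rw [shA, coeff_sub, coeff_C, if_neg h0, sub_zero, coeff_single_one, ← Polynomial.taylor_coeff]
  congr 1
  have h1 : ((aeval (fun i : Fin 2 => if i = 0 then (0 : Polynomial Ω) else Polynomial.X)).comp
      (bind₁ fun i => C (w i) + X i)) = (Polynomial.taylorAlgHom (w 1)).comp
      (aeval (fun i : Fin 2 => if i = 0 then Polynomial.C (w 0) else Polynomial.X)) := by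
    refine MvPolynomial.algHom_ext fun i => ?_
    rw [AlgHom.comp_apply, AlgHom.comp_apply, bind₁_X_right, map_add, aeval_X, aeval_X, aeval_C]
    have h2 : ∀ P : Polynomial Ω, (Polynomial.taylorAlgHom (w 1)) P = Polynomial.taylor (w 1) P :=
      fun _ => rfl
    rw [h2]
    fin_cases i
    · simp
    · simp [add_comm]
  exact DFunLike.congr_fun h1 Pa

variable {p : ℕ} {v : RVal Ω}

/-- The coefficients of the elements of `W₁` along the second variable. -/
theorem NFree.coeff {R : Rec k Ω} (h : NFree R) {N : MvPolynomial (Fin 2) k} (hN : N ∈ R.WN)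
    {l : ℕ} (hl : l ≠ 0) : MvPolynomial.coeff (Finsupp.single 1 l) N = 0 := by
  by_contra h1
  have h2 := h N hN _ (mem_support_iff.2 h1)
  rw [Finsupp.single_eq_same] at h2
  exact hl h2

/-- **The classes of the effects.** -/
theorem rowCls [hp : Fact p.Prime] [CharP Ω p] [IsAlgClosed Ω] [IsAlgClosed k]
    (hNrm : RowNrm (k := k) p v) (hJL : RowJL (k := k) p v) (hV0 : RowV0 (k := k) p v) :
    RowCls (k := k) p v := by
  intro L W F K w x z a R h hNF φ d hφ
  obtain ⟨J, hN⟩ := hNrm L W F K w x z a R h hNF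
  have hjl := hJL L W F K w x z a R h hNF φ d hφ J
  have hF : F = cadj v (cadj v W (w 0)) (w 1) := h.par.eq1
  have hdrv : ∀ i, Drv v (cadj v (cadj v W (w 0)) (w 1)) (R.dd i) := fun i => by
    rw [← hF]
    exact h.drt.drvi i
  refine TWRR.oclsJ_of_drv (f := fun l => MvPolynomial.coeff (Finsupp.single 1 l) R.f) h.par.t21 hN
    hjl hdrv (fun i => (hdrv i).alg _) (fun m _ i => ?_) (fun b hb hlp hdd => ?_) (fun l => ?_)
    (fun l hl _ => ?_) fun l hl _ i => ?_
  · rw [Ap]
    exact h.drt.ddW i _ (mul_mem (W.algebraMap_mem _) h.xW)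
  · rw [← hF] at hb hlp ⊢
    exact hV0 L W F K w x z a R.D R.T R.dd h.toHD h.base h.trn h.drt b hb hlp hdd
  · rw [← hF]
    exact h.shp.fF _
  · exact ge_sub_comm (hφ.near l hl)
  · have h1 := h.resi i (Finsupp.single 1 l)
    have hG : MvPolynomial.coeff (Finsupp.single 1 l) (R.Gi i) = 0 :=
      hNF.coeff (Submodule.subset_span (Or.inr ⟨i, rfl⟩)) hl
    have hNj : ∑ j, algebraMap k Ω (MvPolynomial.coeff (Finsupp.single 1 l) (R.N j)) * R.nd i j = 0 :=
      Finset.sum_eq_zero fun j _ => by
        rw [hNF.coeff (Submodule.subset_span (Or.inl ⟨j, rfl⟩)) hl, map_zero, zero_mul]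
    rw [Rs, hG, hNj, zero_add, map_zero, sub_zero, coeff_shA w R.Pa hl] at h1
    exact h1

end Pool.Agent.TWCY
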