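import Pool.Agent.Lib.TWCY.Der
import Pool.Agent.Lib.TWCY.EndC

/-!
# CT, j = 1, abelian case: the translations along `w 1`

* `eval_pt_snd`: the value at `(0, c)` of a polynomial in two variables;
* `cadj_fix`: `T_(0, c)` fixes `W⟨w 0⟩`;
* `att_of_nfree`: the jets of `z` along `w 1` are attained (`TWRR.Att`);
* `vpos_dd_snd`: the derivatives `∂_i` of `e ∑ f_j c^j + (T_(0,c) - 1) a₀` are strict.
-/

set_option autoImplicit false

open MvPolynomial

namespace Pool.Agent.TWCY

open Pool.Agent.H15JM (RVal)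
open Pool.Agent.LU1 (VPos adj)
open Pool.Agent.D2 (Ctx0)
open Pool.Agent.TWM
open Pool.Agent.TWS (IsoE SphC)
open Pool.Agent.TWLY

universe u

variable {k Ω : Type u} [Field k] [Field Ω] [Algebra k Ω]

/-- The point `(0, c)`. -/
def p01 (c : k) : Fin 2 → k := ![0, c]

theorem p01_zero (c : k) : p01 c 0 = 0 := rfl

theorem p01_one (c : k) : p01 c 1 = c := rfl

/-- The value at `(0, c)`. -/
theorem eval_pt_snd' (f : MvPolynomial (Fin 2) Ω) {D : ℕ} (hD : f.totalDegree ≤ D) (c : k) :
    eval (pt (p01 c)) f = ∑ j ∈ Finset.range (D + 1),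
      algebraMap k Ω c ^ j * coeff (Finsupp.single 1 j) f := by
  set P : Polynomial Ω :=
    aeval (fun i : Fin 2 => if i = 0 then (0 : Polynomial Ω) else Polynomial.X) f with hP
  have h1 : P.natDegree ≤ D := by
    rw [Polynomial.natDegree_le_iff_coeff_eq_zero]
    intro l hl
    rw [hP, ← coeff_single_one]
    refine coeff_eq_zero_of_totalDegree_lt ?_
    have h2 : ∑ i ∈ (Finsupp.single (1 : Fin 2) l).support, (Finsupp.single (1 : Fin 2) l) i = l := by
      have h3 := Finsupp.degree_single (1 : Fin 2) l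
      rwa [Finsupp.degree_apply] at h3
    rw [h2]
    omega
  have h2 : eval (pt (p01 c)) f = P.eval (algebraMap k Ω c) := by
    have h3 : (Polynomial.aeval (algebraMap k Ω c)).comp
        (aeval (fun i : Fin 2 => if i = 0 then (0 : Polynomial Ω) else Polynomial.X)) =
        aeval (R := Ω) (pt (Ω := Ω) (p01 c)) := by
      refine MvPolynomial.algHom_ext fun i => ?_
      rw [AlgHom.comp_apply, aeval_X, aeval_X]
      fin_cases i
      · simp [pt, p01]
      · simp [pt, p01]
    have h4 := DFunLike.congr_fun h3 f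
    rw [AlgHom.comp_apply, ← hP] at h4
    rw [← Polynomial.coe_aeval_eq_eval, ← MvPolynomial.coe_aeval_eq_eval]
    exact h4.symm
  rw [h2, Polynomial.eval_eq_sum_range' (Nat.lt_succ_of_le h1)]
  refine Finset.sum_congr rfl fun j _ => ?_
  rw [coeff_single_one, mul_comm]

theorem eval_pt_snd {f : MvPolynomial (Fin 2) Ω} (h0 : constantCoeff f = 0) {D : ℕ}
    (hD : f.totalDegree ≤ D) (c : k) :
    eval (pt (p01 c)) f = ∑ j ∈ Finset.Icc 1 D,
      algebraMap k Ω c ^ j * coeff (Finsupp.single 1 j) f := by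
  rw [eval_pt_snd' f hD, Finset.sum_range_succ']
  have h1 : coeff (Finsupp.single (1 : Fin 2) 0) f = 0 := by
    rw [Finsupp.single_zero]
    exact h0
  rw [h1, mul_zero, add_zero]
  refine Finset.sum_bij' (fun j _ => j + 1) (fun j _ => j - 1) (fun j hj => ?_) (fun j hj => ?_)
    (fun j _ => ?_) (fun j hj => ?_) (fun j _ => ?_)
  · have h2 := Finset.mem_range.1 hj
    exact Finset.mem_Icc.2 ⟨by omega, by omega⟩
  · obtain ⟨h2, h3⟩ := Finset.mem_Icc.1 hj
    exact Finset.mem_range.2 (by omega)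
  · simp
  · obtain ⟨h2, h3⟩ := Finset.mem_Icc.1 hj
    exact Nat.sub_add_cancel h2
  · rfl

variable {p : ℕ} {v : RVal Ω} {L : ℕ → IntermediateField k Ω} {W F K : IntermediateField k Ω}
  {w : Fin 2 → Ω} {x z a : Ω}

/-- A polynomial which does not depend on the second variable, at `(0, c)`. -/
theorem NFree.eval {R : Rec k Ω} (h : NFree R) {N : MvPolynomial (Fin 2) k} (hN : N ∈ R.WN)
    (c : k) : MvPolynomial.eval (p01 c) N = constantCoeff N := by
  have h1 : ∀ m ∈ N.support, m 1 = 0 := h N hN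
  rw [eval_eq']
  change _ = MvPolynomial.coeff 0 N
  by_cases h0 : (0 : Fin 2 →₀ ℕ) ∈ N.support
  · rw [Finset.sum_eq_single_of_mem 0 h0]
    · simp
    · intro m hm hm0
      have h2 : m 0 ≠ 0 := by
        intro h3
        apply hm0
        ext i
        fin_cases i
        · exact h3
        · exact h1 m hm
      rw [Fin.prod_univ_two, p01_zero, zero_pow h2, zero_mul, mul_zero]
  · rw [notMem_support_iff.1 h0]
    refine Finset.sum_eq_zero fun m hm => ?_
    have h2 : m 0 ≠ 0 := by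
      intro h3
      have h4 : m = 0 := by
        ext i
        fin_cases i
        · exact h3
        · exact h1 m hm
      exact h0 (h4 ▸ hm)
    rw [Fin.prod_univ_two, p01_zero, zero_pow h2, zero_mul, mul_zero]

/-- The noises vanish at `(0, c)`. -/
theorem NFree.eval_N {R : Rec k Ω} (h : NFree R) (hC : CG p v L W F K w x z a R) (c : k)
    (j : Fin R.m) : MvPolynomial.eval (p01 c) (R.N j) = 0 := by
  rw [h.eval (Submodule.subset_span (Or.inl ⟨j, rfl⟩)) c]
  exact hC.shp.N0 j

/-- The shape at `(0, c)`. -/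
theorem NFree.eval_u {R : Rec k Ω} (h : NFree R) (hC : CG p v L W F K w x z a R) (c : k) :
    MvPolynomial.eval (pt (p01 c)) (uu R.n R.N R.f) = MvPolynomial.eval (pt (p01 c)) R.f := by
  rw [eval_uu]
  have h1 : ∑ j, algebraMap k Ω (MvPolynomial.eval (p01 c) (R.N j)) * R.n j = 0 :=
    Finset.sum_eq_zero fun j _ => by rw [h.eval_N hC c j, map_zero, zero_mul]
  rw [h1, zero_add]

/-- `T_(0,c)` fixes `W⟨w 0⟩`. -/
theorem Trn.fix0 {T : (Fin 2 → k) → Ω →ₐ[k] Ω} (hT : Trn v W F w T) (c : k) :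
    ∀ y ∈ cadj v W (w 0), T (p01 c) y = y := by
  have h1 : adj W (w 0) ≤ TWCT.fixF (T (p01 c)) := D2P.adj_le (fun y hy => hT.fix _ y hy) (by
    rw [TWCT.mem_fixF, hT.wT, p01_zero, map_zero, add_zero])
  exact fun y hy => TWCT.clI_le_fixF (hT.iso _) h1 hy

/-- **The jets of `z` along `w 1` are attained.** -/
theorem att_of_nfree {R : Rec k Ω} (hC : CG p v L W F K w x z a R) (hNF : NFree R) {D : ℕ}
    (hD : R.f.totalDegree ≤ D) :
    TWRR.Att v (cadj v W (w 0)) F (w 1) z (fun c => R.T (p01 c)) D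
      fun j => MvPolynomial.coeff (Finsupp.single 1 j) R.f := by
  refine ⟨fun c => hC.trn.iso _, fun c y hy => hC.trn.fix0 c y hy, fun c => ?_,
    fun j => hC.shp.fF _, fun c => ?_⟩
  · rw [hC.trn.wT, p01_one]
  · have h1 := hC.shp.jet (p01 c)
    rw [hNF.eval_u hC, eval_pt_snd hC.shp.f0 hD] at h1
    exact h1

/-- **The derivatives of the effects along `w 1` are strict.** -/
theorem vpos_dd_snd {R : Rec k Ω} (hC : CG p v L W F K w x z a R) (hNF : NFree R) (c : k)
    (i : Fin 2) : VPos v (R.dd i (algebraMap k Ω R.e * MvPolynomial.eval (pt (p01 c)) R.f +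
      (R.T (p01 c) (MvPolynomial.eval w R.Pa) - MvPolynomial.eval w R.Pa))) := by
  set f := R.f
  set A := shA w R.Pa
  have hd := hC.drt.drvi i
  obtain ⟨D, hDf, hDA⟩ : ∃ D, f.totalDegree ≤ D ∧ A.totalDegree ≤ D :=
    ⟨max f.totalDegree A.totalDegree, le_max_left _ _, le_max_right _ _⟩
  have hfF : ∀ g, MvPolynomial.coeff g f ∈ F := hC.shp.fF
  have hAF : ∀ g, MvPolynomial.coeff g A ∈ F := hC.tie.AF
  have e1 : algebraMap k Ω R.e * MvPolynomial.eval (pt (p01 c)) f +
      (R.T (p01 c) (MvPolynomial.eval w R.Pa) - MvPolynomial.eval w R.Pa) =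
      ∑ j ∈ Finset.Icc 1 D, algebraMap k Ω (c ^ j) * (algebraMap k Ω R.e *
        MvPolynomial.coeff (Finsupp.single 1 j) f + MvPolynomial.coeff (Finsupp.single 1 j) A) := by
    rw [hC.tie.AT, add_sub_cancel_left, eval_pt_snd hC.shp.f0 hDf, eval_pt_snd hC.tie.A0 hDA,
      Finset.mul_sum, ← Finset.sum_add_distrib]
    refine Finset.sum_congr rfl fun j _ => ?_
    rw [map_pow]
    ring
  have hm : ∀ j, algebraMap k Ω R.e * MvPolynomial.coeff (Finsupp.single 1 j) f +
      MvPolynomial.coeff (Finsupp.single 1 j) A ∈ F := fun j =>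
    add_mem (mul_mem (F.algebraMap_mem _) (hfF _)) (hAF _)
  rw [e1, hd.map_sum _ fun j _ => mul_mem (F.algebraMap_mem _) (hm j)]
  refine Finset.sum_induction _ (VPos v) (fun _ _ h1 h2 => VPos.add h1 h2) VPos.zero fun j hj => ?_
  have hj0 : j ≠ 0 := by
    have := (Finset.mem_Icc.1 hj).1
    omega
  rw [hd.map_smul _ (hm j), hd.add _ (mul_mem (F.algebraMap_mem _) (hfF _)) _ (hAF _),
    hd.map_smul _ (hfF _)]
  refine VPos.mul' (hC.c0.ge _) ?_
  have h1 := hC.resi i (Finsupp.single 1 j)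
  have hG : MvPolynomial.coeff (Finsupp.single 1 j) (R.Gi i) = 0 :=
    hNF.coeff (Submodule.subset_span (Or.inr ⟨i, rfl⟩)) hj0
  have hNj : ∑ l, algebraMap k Ω (MvPolynomial.coeff (Finsupp.single 1 j) (R.N l)) * R.nd i l = 0 :=
    Finset.sum_eq_zero fun l _ => by
      rw [hNF.coeff (Submodule.subset_span (Or.inl ⟨l, rfl⟩)) hj0, map_zero, zero_mul]
  rw [Rs, hG, hNj, zero_add, map_zero, sub_zero] at h1
  exact h1

end Pool.Agent.TWCY
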