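import Pool.Agent.Lib.TWCY.Core

/-!
# CT, j = 1, abelian case: the end, the jets along the noise free direction

* `rowPh` (J1.6.1): the jets of `z` along `w 1` as polynomials over `W⟨w 0⟩`; `gr W⟨w 0⟩` is perfect;
* `rowJL` (J1.6.2): the jets of the approximants of `z` are near these jets (Vandermonde over `k`);
* `rowEnd`: the input of the exit.
-/

set_option autoImplicit false

namespace Pool.Agent.TWCY

open MvPolynomial
open Pool.Agent.H15JM (RVal)
open Pool.Agent.LU1 (VPos adj)
open Pool.Agent.D2 (Ctx0)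
open Pool.Agent.D2P (clI)
open Pool.Agent.TWM
open Pool.Agent.TWS (IsoE SphC)
open Pool.Agent.TWII (PG LP)
open Pool.Agent.TWRR (GP JL OC OClsJ)
open Pool.Agent.TWLY

universe u

variable {k Ω : Type u} [Field k] [Field Ω] [Algebra k Ω] {p : ℕ} {v : RVal Ω}

/-! ### The graded field -/

/-- `gr` of an immediate extension. -/
theorem gp_of_imm {A B : IntermediateField k Ω} (hi : Imm v A B) (h : GP p v A) : GP p v B := by
  intro c hc h0
  obtain ⟨a, ha, h1⟩ := hi.imm c hc h0
  obtain ⟨h2, h3⟩ := Gt.val_eq h0 h1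
  obtain ⟨g, hg, h4⟩ := h a ha h2
  refine ⟨g, hi.le hg, ?_⟩
  rw [show c - g ^ p = (c - a) + (a - g ^ p) by ring]
  rw [h3] at h4
  exact h1.add h4

/-! ### The jets -/

theorem not_dvE {j : ℕ} (hj : ¬ p ∣ j) : ¬ DvE p (Finsupp.single (1 : Fin 2) j) := fun h => by
  have h1 := h 1
  rw [Finsupp.single_eq_same] at h1
  exact hj h1

theorem coeff_single_zero {f : MvPolynomial (Fin 2) Ω} {j : ℕ} (hj : f.totalDegree < j) :
    coeff (Finsupp.single (1 : Fin 2) j) f = 0 := by
  refine coeff_eq_zero_of_totalDegree_lt ?_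
  have h1 : (Finsupp.single (1 : Fin 2) j).support = {1} := Finsupp.support_single _ (by omega)
  rw [h1, Finset.sum_singleton, Finsupp.single_eq_same]
  exact hj

/-- **J1.6.1.** -/
theorem rowPh [IsAlgClosed Ω] : RowPh (k := k) p v := by
  classical
  intro L W F K w x z a R h
  have ht : TL v (cadj v W (w 0)) (w 1) 0 := h.par.t21
  refine ⟨?_, gp_of_imm h.par.t1.imm h.gp⟩
  have h1 : ∀ j : ℕ, ∃ φ : Polynomial Ω, φ ∈ PI (cadj v W (w 0)) ∧
      (coeff (Finsupp.single (1 : Fin 2) j) R.f = 0 → φ = 0) ∧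
      v.Ge 1 (φ.eval (w 1) - coeff (Finsupp.single 1 j) R.f) := by
    intro j
    by_cases h0 : coeff (Finsupp.single (1 : Fin 2) j) R.f = 0
    · refine ⟨0, zero_mem _, fun _ => rfl, ?_⟩
      rw [Polynomial.eval_zero, h0, sub_zero]
      exact RVal.Ge.zero
    · have h2 : coeff (Finsupp.single (1 : Fin 2) j) R.f ∈ cadj v (cadj v W (w 0)) (w 1) := by
        rw [← h.par.eq1]
        exact h.shp.fF _
      obtain ⟨f, hf, h3⟩ := ht.dense h2 1
      refine ⟨f, hf, fun h4 => absurd h4 h0, ?_⟩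
      rw [← neg_sub]
      exact h3.neg
  choose φ hφ h0 hn using h1
  refine ⟨φ, R.f.totalDegree, hφ, fun j hj => h0 j (coeff_single_zero hj), fun he j hj => h0 j ?_,
    fun j _ => hn j⟩
  exact h.fp he _ (not_dvE hj)

/-! ### Vandermonde -/

/-- The elements of value `≥ b`. -/
def ges (hk : Ctx0 k v) (b : ℝ) : Submodule k Ω where
  carrier := {y | v.Ge b y}
  add_mem' h h' := h.add h'
  zero_mem' := RVal.Ge.zero
  smul_mem' c x hx := by
    have h1 := (hk.ge c).mul hx
    rw [zero_add] at h1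
    rw [Algebra.smul_def]
    exact h1

theorem ge_coeff_of_evals [Infinite k] (hk : Ctx0 k v) {b : ℝ} {h : Polynomial Ω}
    (hh : ∀ g : k, v.Ge b (h.eval (algebraMap k Ω g))) (j : ℕ) : v.Ge b (h.coeff j) := by
  by_cases hj : j < h.natDegree + 1
  · refine TWD.mem_of_vdm (ges hk b) (A := fun l => h.coeff l) (N := h.natDegree + 1)
      Set.infinite_univ (fun ζ _ => ?_) j hj
    have h1 := hh ζ
    rw [Polynomial.eval_eq_sum_range] at h1
    have h2 : ∑ l ∈ Finset.range (h.natDegree + 1), ζ ^ l • h.coeff l =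
        ∑ i ∈ Finset.range (h.natDegree + 1), h.coeff i * algebraMap k Ω ζ ^ i := by
      refine Finset.sum_congr rfl fun l _ => ?_
      rw [Algebra.smul_def, map_pow, mul_comm]
    rw [h2]
    exact h1
  · rw [Polynomial.coeff_eq_zero_of_natDegree_lt (by omega)]
    exact RVal.Ge.zero

/-! ### The restriction to the second axis -/

/-- `f(0, X)`. -/
noncomputable def ax (f : MvPolynomial (Fin 2) Ω) : Polynomial Ω :=
  aeval (fun i : Fin 2 => if i = 0 then 0 else Polynomial.X) f

theorem ax_monomial (g : Ex) (c : Ω) :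
    ax (monomial g c) = if g 0 = 0 then Polynomial.monomial (g 1) c else 0 := by
  unfold ax
  rw [aeval_monomial, Finsupp.prod_fintype _ _ (fun i => pow_zero _), Fin.prod_univ_two]
  by_cases h0 : g 0 = 0
  · simp [h0, Polynomial.C_mul_X_pow_eq_monomial]
  · simp [h0]

theorem ax_coeff (f : MvPolynomial (Fin 2) Ω) (j : ℕ) :
    (ax f).coeff j = coeff (Finsupp.single (1 : Fin 2) j) f := by
  classical
  induction f using MvPolynomial.induction_on' with
  | monomial g c =>
    rw [ax_monomial, coeff_monomial]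
    by_cases h : g = Finsupp.single (1 : Fin 2) j
    · subst h
      simp
    · rw [if_neg h]
      by_cases h0 : g 0 = 0
      · rw [if_pos h0, Polynomial.coeff_monomial, if_neg]
        intro h1
        refine h (ex_ext ?_ ?_)
        · rw [h0]
          simp
        · rw [h1]
          simp
      · rw [if_neg h0, Polynomial.coeff_zero]
  | add P Q hP hQ =>
    have : ax (P + Q) = ax P + ax Q := by
      unfold ax
      rw [map_add]
    rw [this, Polynomial.coeff_add, hP, hQ, coeff_add]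

theorem ax_eval (f : MvPolynomial (Fin 2) Ω) (γ : k) :
    (ax f).eval (algebraMap k Ω γ) = eval (pt (Ω := Ω) ![0, γ]) f := by
  have h1 : ((Polynomial.evalRingHom (algebraMap k Ω γ)).comp
      ((aeval (fun i : Fin 2 => if i = 0 then (0 : Polynomial Ω) else Polynomial.X) :
        MvPolynomial (Fin 2) Ω →ₐ[Ω] Polynomial Ω) : MvPolynomial (Fin 2) Ω →+* Polynomial Ω)) =
      eval (pt (Ω := Ω) ![0, γ]) := by
    refine MvPolynomial.ringHom_ext (fun c => ?_) fun i => ?_
    · simp
    · fin_cases i <;> simp [pt]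
  exact congrArg (fun g : MvPolynomial (Fin 2) Ω →+* Ω => g f) h1

/-! ### The jets of the approximants -/

theorem evJ_pt_map (c : Fin 2 → k) (N : MvPolynomial (Fin 2) k) :
    eval (pt (Ω := Ω) c) (MvPolynomial.map (algebraMap k Ω) N) = algebraMap k Ω (eval c N) := by
  have h1 := eval₂_comp_left (algebraMap k Ω) (RingHom.id k) c N
  rw [RingHom.comp_id, eval₂_id] at h1
  rw [MvPolynomial.eval_map, h1]
  rfl

theorem eval_noise {N : MvPolynomial (Fin 2) k} (h0 : constantCoeff N = 0)
    (hN : ∀ m ∈ N.support, m 1 = 0) (γ : k) : eval (![0, γ] : Fin 2 → k) N = 0 := by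
  rw [eval_eq']
  refine Finset.sum_eq_zero fun m hm => ?_
  have h1 := hN m hm
  have h2 : m 0 ≠ 0 := by
    intro h3
    have h4 : m = 0 := ex_ext h3 h1
    rw [h4, mem_support_iff] at hm
    exact hm h0
  rw [Fin.prod_univ_two]
  simp [h2]

/-- **J1.6.2.** -/
theorem rowJL [IsAlgClosed k] [IsAlgClosed Ω] : RowJL (k := k) p v := by
  classical
  intro L W F K w x z a R h hNF φ d hφ J
  have hinf : Infinite k := IsAlgClosed.instInfinite
  refine ⟨hφ.mem, hφ.deg, fun he j hj => hφ.X (fun h0 => he (by rw [h0, map_zero])) j hj, 1,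
    one_pos, ?_⟩
  intro ε θ hε _ hθ _ _ hz j hj
  -- the polynomial
  set H : Polynomial Ω := Polynomial.taylor (w 1) θ - Polynomial.C (θ.eval (w 1)) - ax R.f with hH
  have h1 : ∀ γ : k, v.Ge (-ε) (H.eval (algebraMap k Ω γ)) := by
    intro γ
    set c : Fin 2 → k := ![0, γ] with hc
    have hiso := h.trn.iso c
    have hfix : ∀ y ∈ cadj v W (w 0), R.T c y = y := by
      refine TWCT.fix_clI hiso (fun y hy => ?_)
      have h2 : adj W (w 0) ≤ TWCT.fixF (R.T c) := by
        refine D2P.adj_le (fun b hb => h.trn.fix c b hb) ?_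
        rw [TWCT.mem_fixF, h.trn.wT]
        simp [hc]
      exact h2 hy
    have hTθ : R.T c (θ.eval (w 1)) = (Polynomial.taylor (w 1) θ).eval (algebraMap k Ω γ) := by
      rw [Polynomial.taylor_eval, add_comm, Polynomial.eval_eq_sum_range,
        Polynomial.eval_eq_sum_range, map_sum]
      refine Finset.sum_congr rfl fun i _ => ?_
      rw [map_mul, map_pow, hfix _ (hθ i), h.trn.wT]
      simp [hc]
    have h3 := h.shp.jet c
    have h4 : v.Ge (-ε) (z - θ.eval (w 1)) := hz.mono (by simp)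
    have h5 : v.Ge (-ε) (R.T c (z - θ.eval (w 1))) := hiso.ge_iff.2 h4
    have h6 : eval (pt c) (uu R.n R.N R.f) = (ax R.f).eval (algebraMap k Ω γ) := by
      unfold uu
      rw [map_add, map_sum, ax_eval, Finset.sum_eq_zero, zero_add]
      intro i _
      rw [map_mul, eval_C]
      rw [evJ_pt_map, eval_noise (h.shp.N0 i) (hNF _ (Submodule.subset_span (Or.inl ⟨i, rfl⟩))), map_zero,
        mul_zero]
    have h8 : H.eval (algebraMap k Ω γ) = (R.T c z - z - eval (pt c) (uu R.n R.N R.f)) -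
        (R.T c (z - θ.eval (w 1)) - (z - θ.eval (w 1))) := by
      rw [h6, hH, Polynomial.eval_sub, Polynomial.eval_sub, Polynomial.eval_C, map_sub, hTθ]
      ring
    rw [h8]
    exact (h3.mono (by linarith)).sub (h5.sub h4)
  have h2 := ge_coeff_of_evals h.c0 h1 j
  have h3 : H.coeff j = (Polynomial.hasseDeriv j θ).eval (w 1) -
      coeff (Finsupp.single (1 : Fin 2) j) R.f := by
    rw [hH, Polynomial.coeff_sub, Polynomial.coeff_sub, Polynomial.coeff_C, if_neg hj, ax_coeff,
      Polynomial.taylor_coeff, sub_zero]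
  have h4 := hφ.near j hj
  have h5 : (Polynomial.hasseDeriv j θ).eval (w 1) - (φ j).eval (w 1) = H.coeff j -
      ((φ j).eval (w 1) - coeff (Finsupp.single (1 : Fin 2) j) R.f) := by
    rw [h3]
    ring
  rw [h5]
  refine (h2.sub (h4.mono (by linarith))).mono (by simp)

/-! ### The end -/

theorem ejBp_eval (w : Fin 2 → Ω) (Pa : MvPolynomial (Fin 2) Ω) :
    (Bp w Pa).eval (w 1) = eval w Pa := by
  have h1 : ((Polynomial.evalRingHom (w 1)).comp
      ((aeval (fun i : Fin 2 => if i = 0 then Polynomial.C (w 0) else Polynomial.X) :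
        MvPolynomial (Fin 2) Ω →ₐ[Ω] Polynomial Ω) : MvPolynomial (Fin 2) Ω →+* Polynomial Ω)) =
      eval w := by
    refine MvPolynomial.ringHom_ext (fun c => ?_) fun i => ?_
    · simp
    · fin_cases i <;> simp
  exact congrArg (fun g : MvPolynomial (Fin 2) Ω →+* Ω => g Pa) h1

theorem ejBp_sum (w : Fin 2 → Ω) (Pa : MvPolynomial (Fin 2) Ω) :
    Bp w Pa = ∑ g ∈ Pa.support, Polynomial.C (coeff g Pa * w 0 ^ g 0) * Polynomial.X ^ g 1 := by
  unfold Bp
  rw [aeval_def, eval₂_eq']
  refine Finset.sum_congr rfl fun g _ => ?_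
  rw [Fin.prod_univ_two, Polynomial.algebraMap_eq, Polynomial.C_mul, Polynomial.C_pow]
  simp [mul_assoc]

theorem ejBp_hasse [hp : Fact p.Prime] [CharP Ω p] {w : Fin 2 → Ω} {Pa : MvPolynomial (Fin 2) Ω}
    {l : MvPolynomial (Fin 2) k} (hl : ∀ g, coeff g l ≠ 0 → ∃ i, g = Finsupp.single i 1)
    (hP : ∀ g, ¬ DvE p g → coeff g Pa = algebraMap k Ω (coeff g l)) :
    Polynomial.hasseDeriv 1 (Bp w Pa) =
      Polynomial.C (coeff (Finsupp.single (1 : Fin 2) 1) Pa) := by
  classical
  rw [Polynomial.hasseDeriv_one', ejBp_sum, Polynomial.derivative_sum]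
  have h1 : ∀ g ∈ Pa.support, Polynomial.derivative
      (Polynomial.C (coeff g Pa * w 0 ^ g 0) * Polynomial.X ^ g 1) =
      if g = Finsupp.single (1 : Fin 2) 1 then Polynomial.C (coeff g Pa) else 0 := by
    intro g hg
    rw [Polynomial.derivative_C_mul_X_pow]
    by_cases h : g = Finsupp.single (1 : Fin 2) 1
    · rw [if_pos h, h]
      simp
    · rw [if_neg h]
      by_cases hd : DvE p g
      · have h2 : ((g 1 : ℕ) : Ω) = 0 := (CharP.cast_eq_zero_iff Ω p _).2 (hd 1)
        rw [h2, mul_zero, Polynomial.C_0, zero_mul]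
      · have h3 := mem_support_iff.1 hg
        rw [hP g hd] at h3
        obtain ⟨i, hi⟩ := hl g fun h0 => h3 (by rw [h0, map_zero])
        have h4 : i = 0 := by
          fin_cases i
          · rfl
          · exact absurd hi h
        rw [hi, h4]
        simp
  rw [Finset.sum_congr rfl h1, Finset.sum_ite_eq']
  split_ifs with h2
  · rfl
  · rw [notMem_support_iff.1 h2, Polynomial.C_0]

theorem ejAp_sum (R : Rec k Ω) (x z : Ω) :
    ∑ i ∈ Finset.Icc 1 (R.t + 1), Ap R x i * z ^ p ^ i = x * PP p R.κ R.t z := by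
  unfold PP Ap
  rw [Finset.mul_sum]
  refine Finset.sum_nbij' (fun i => i - 1) (fun i => i + 1) (fun i hi => ?_) (fun i hi => ?_)
    (fun i hi => ?_) (fun i _ => ?_) fun i hi => ?_
  · rw [Finset.mem_Icc] at hi
    rw [Finset.mem_range]
    omega
  · rw [Finset.mem_range] at hi
    rw [Finset.mem_Icc]
    omega
  · rw [Finset.mem_Icc] at hi
    change i - 1 + 1 = i
    omega
  · change i + 1 - 1 = i
    omega
  · rw [Finset.mem_Icc] at hi
    change _ = x * (algebraMap k Ω (R.κ (i - 1)) * z ^ p ^ (i - 1 + 1))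
    rw [Nat.sub_add_cancel hi.1]
    ring

/-- **The end** (glue). -/
theorem rowEnd [hp : Fact p.Prime] [CharP Ω p] [IsAlgClosed k] [IsAlgClosed Ω]
    (h1 : RowNrm (k := k) p v) (h2 : RowCls (k := k) p v) :
    RowEnd (k := k) p v := by
  intro L W F K w x z a R h hNF
  obtain ⟨⟨φ, d, hφ⟩, hgp⟩ := rowPh L W F K w x z a R h
  obtain ⟨J, hJ⟩ := h1 L W F K w x z a R h hNF
  refine ⟨algebraMap k Ω R.e, Ap R x, R.t + 1, Bp w R.Pa, J, φ, d,
    coeff (Finsupp.single (1 : Fin 2) 1) R.Pa, hgp, hJ, rowJL L W F K w x z a R h hNF φ d hφ J,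
    fun i _ => ?_, h2 L W F K w x z a R h hNF φ d hφ, ejBp_hasse h.lin h.PaD, ?_⟩
  · obtain ⟨c, hc⟩ := IsAlgClosed.exists_pow_nat_eq (R.κ (i - 1)) hp.out.pos
    refine ⟨algebraMap k Ω c, (cadj v W (w 0)).algebraMap_mem c, ?_⟩
    have e : Ap R x i - algebraMap k Ω c ^ p * x = 0 := by
      rw [← map_pow, hc]
      unfold Ap
      ring
    rw [e]
    exact TWII.PG.of_gt Gt.zero
  · rw [ejAp_sum, ejBp_eval]
    exact h.rel

end Pool.Agent.TWCY
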