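import Pool.Agent.Lib.TWCY.Rs

/-!
# Values of derivations at limits

* `Drv.*`: API of derivations of norm `≤ 0` on `F`;
* `exists_natV`, `NatV.unique`, `natV_self`;
* `nat_rel`: the commutator of `D` and `T` at the limits.
-/

set_option autoImplicit false

open MvPolynomial

namespace Pool.Agent.TWCY

open Pool.Agent.H15JM (RVal)
open Pool.Agent.LU1 (VPos)
open Pool.Agent.D2 (Ctx0)
open Pool.Agent.TWM
open Pool.Agent.TWS (IsoE SphC)
open Pool.Agent.TWLY

universe u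

variable {k Ω : Type u} [Field k] [Field Ω] [Algebra k Ω] {v : RVal Ω}
  {F : IntermediateField k Ω} {D : Ω → Ω}

theorem ge_zero_of_eps {x : Ω} (h : ∀ ε : ℝ, 0 < ε → v.Ge (-ε) x) : v.Ge 0 x := by
  intro h0
  by_contra h1
  push Not at h1
  have h2 := h (-(v x) / 2) (by linarith) h0
  linarith

theorem lim_self {f : Ω} (hf : f ∈ F) : Lim v F 0 f :=
  fun ε _ => ⟨f, hf, by rw [sub_self]; exact RVal.Ge.zero⟩

theorem Lim.neg_eps {y : Ω} (hy : Lim v F 0 y) {ε : ℝ} (hε : 0 < ε) :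
    ∃ f ∈ F, v.Ge (-ε) (y - f) := by
  obtain ⟨f, hf, h⟩ := hy ε hε
  exact ⟨f, hf, by rwa [zero_sub] at h⟩

namespace Drv

theorem map_zero (h : Drv v F D) : D 0 = 0 := by
  have := h.alg 0
  rwa [_root_.map_zero] at this

theorem map_neg (h : Drv v F D) {f : Ω} (hf : f ∈ F) : D (-f) = -D f := by
  have h1 := h.add f hf (-f) (neg_mem hf)
  rw [add_neg_cancel, h.map_zero] at h1
  exact (neg_eq_of_add_eq_zero_right h1.symm).symm

theorem map_sub (h : Drv v F D) {f g : Ω} (hf : f ∈ F) (hg : g ∈ F) : D (f - g) = D f - D g := by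
  rw [sub_eq_add_neg, h.add f hf _ (neg_mem hg), h.map_neg hg, ← sub_eq_add_neg]

theorem map_smul (h : Drv v F D) (c : k) {f : Ω} (hf : f ∈ F) :
    D (algebraMap k Ω c * f) = algebraMap k Ω c * D f := by
  rw [h.mul _ (F.algebraMap_mem c) f hf, h.alg, mul_zero, add_zero]

theorem map_sum (h : Drv v F D) {ι : Type*} (S : Finset ι) {f : ι → Ω} (hf : ∀ i ∈ S, f i ∈ F) :
    D (∑ i ∈ S, f i) = ∑ i ∈ S, D (f i) := by
  classical
  induction S using Finset.induction_on with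
  | empty => rw [Finset.sum_empty, Finset.sum_empty]; exact h.map_zero
  | insert i S hi ih =>
    rw [Finset.sum_insert hi, Finset.sum_insert hi,
      h.add _ (hf i (Finset.mem_insert_self i S)) _
        (sum_mem fun j hj => hf j (Finset.mem_insert_of_mem hj)),
      ih fun j hj => hf j (Finset.mem_insert_of_mem hj)]

theorem map_pow_char (h : Drv v F D) {p : ℕ} [CharP Ω p] {f : Ω} (hf : f ∈ F) :
    D (f ^ p) = 0 := by
  have key : ∀ n : ℕ, D (f ^ n) = n * f ^ (n - 1) * D f := by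
    intro n
    induction n with
    | zero =>
      have := h.alg 1
      rw [_root_.map_one] at this
      rw [pow_zero, this]
      simp
    | succ n ih =>
      rw [pow_succ, h.mul _ (pow_mem hf n) f hf, ih]
      rcases Nat.eq_zero_or_pos n with rfl | hn
      · simp
      · obtain ⟨m, rfl⟩ : ∃ m, n = m + 1 := ⟨n - 1, by omega⟩
        simp only [Nat.add_sub_cancel, pow_succ]
        push_cast
        ring
  rw [key, CharP.cast_eq_zero, zero_mul, zero_mul]

theorem vpos (h : Drv v F D) {f : Ω} (hf : f ∈ F) (h0 : VPos v f) : VPos v (D f) := by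
  obtain ⟨r, hr, h1⟩ := VPos.ge_iff h0
  exact vpos_of_ge hr (h.norm f hf r h1)

/-- `D` is strict on integral elements. -/
theorem vpos_of_ge (h : Drv v F D) (hk : Ctx0 k v) {f : Ω} (hf : f ∈ F) (h0 : v.Ge 0 f) :
    VPos v (D f) := by
  obtain ⟨a, ha⟩ := exists_rs0 hk h0
  have h1 := h.vpos (sub_mem hf (F.algebraMap_mem a)) ha
  rwa [h.map_sub hf (F.algebraMap_mem a), h.alg, sub_zero] at h1

end Drv

theorem natV_self (h : Drv v F D) {f : Ω} (hf : f ∈ F) : NatV v F D f (D f) := by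
  intro ε _ g hg h1
  rw [← h.map_sub hf hg]
  exact h.norm _ (sub_mem hf hg) _ h1

theorem exists_natV (h : Drv v F D) (hsp : SphC v) {y : Ω} (hy : Lim v F 0 y) :
    ∃ y', NatV v F D y y' := by
  choose f hf hfy using fun n : ℕ => Lim.neg_eps hy (ε := 1 / ((n : ℝ) + 1)) (by positivity)
  have hmono : ∀ n m : ℕ, n ≤ m → -(1 / ((n : ℝ) + 1)) ≤ -(1 / ((m : ℝ) + 1)) := by
    intro n m hnm
    have : (n : ℝ) ≤ m := by exact_mod_cast hnm
    have : 1 / ((m : ℝ) + 1) ≤ 1 / ((n : ℝ) + 1) :=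
      one_div_le_one_div_of_le (by positivity) (by linarith)
    linarith
  obtain ⟨y', hy'⟩ := hsp (fun n => D (f n)) (fun n => -(1 / ((n : ℝ) + 1))) fun n m hnm => by
    rw [← h.map_sub (hf m) (hf n)]
    refine h.norm _ (sub_mem (hf m) (hf n)) _ ?_
    have e : f m - f n = (y - f n) - (y - f m) := by ring
    rw [e]
    exact (hfy n).sub ((hfy m).mono (hmono n m hnm))
  refine ⟨y', fun ε hε g hg hgy => ?_⟩
  obtain ⟨n, hn⟩ := exists_nat_one_div_lt hε
  have h1 : v.Ge (-ε) (y' - D (f n)) := (hy' n).mono (by linarith)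
  have h2 : v.Ge (-ε) (D (f n - g)) := by
    refine h.norm _ (sub_mem (hf n) hg) _ ?_
    have e : f n - g = (y - g) - (y - f n) := by ring
    rw [e]
    exact hgy.sub ((hfy n).mono (by linarith))
  have := h1.add h2
  rw [h.map_sub (hf n) hg] at this
  convert this using 1
  ring

theorem NatV.unique {y y₁ y₂ : Ω} (hy : Lim v F 0 y) (h1 : NatV v F D y y₁)
    (h2 : NatV v F D y y₂) : v.Ge 0 (y₁ - y₂) := by
  refine ge_zero_of_eps fun ε hε => ?_
  obtain ⟨f, hf, h3⟩ := Lim.neg_eps hy hε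
  have := (h1 ε hε f hf h3).sub (h2 ε hε f hf h3)
  convert this using 1
  ring

theorem IsoE.ge' {T : Ω →ₐ[k] Ω} (hT : IsoE v v T) {r : ℝ} {x : Ω} (hx : v.Ge r x) :
    v.Ge r (T x) := hT.ge_iff.2 hx

section rel

variable {ι : Type*} [Fintype ι]

theorem ge_sum_smul (hk : Ctx0 k v) {r : ℝ} {y : ι → Ω} (M : ι → k) (h : ∀ j, v.Ge r (y j)) :
    v.Ge r (∑ j, algebraMap k Ω (M j) * y j) := by
  refine RVal.Ge.sum _ _ fun j _ => ?_
  have := (hk.ge (M j)).mul (h j)
  rwa [zero_add] at this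

/-- The commutator of `D` and `T` at the limits. -/
theorem nat_rel (hk : Ctx0 k v) (hD : Drv v F D) {dd : Fin 2 → Ω → Ω} {T : Ω →ₐ[k] Ω}
    (hT : IsoE v v T) (hTF : ∀ f ∈ F, T f ∈ F) {δ : Fin 2 → Ω} (hδ : ∀ i, v.Ge 0 (δ i))
    (hDT : ∀ f ∈ F, D (T f) = T (D f) - ∑ i, δ i * T (dd i f)) {y y' : Ω} {y'' : Fin 2 → Ω}
    {n n' : ι → Ω} {M : ι → k} {ψ : Ω} (hy : Lim v F 0 y) (hn : ∀ j, Lim v F 0 (n j))
    (hy' : NatV v F D y y') (hy'' : ∀ i, NatV v F (dd i) y (y'' i))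
    (hn' : ∀ j, NatV v F D (n j) (n' j)) (hψ : ψ ∈ F)
    (hm : v.Ge 0 (T y - ∑ j, algebraMap k Ω (M j) * n j - ψ)) :
    v.Ge 0 (∑ j, algebraMap k Ω (M j) * n' j + D ψ - T y' + ∑ i, δ i * T (y'' i)) := by
  refine ge_zero_of_eps fun ε hε => ?_
  obtain ⟨g, hg, hgy⟩ := Lim.neg_eps hy hε
  choose f hf hfn using fun j => Lim.neg_eps (hn j) hε
  set R := T g - ∑ j, algebraMap k Ω (M j) * f j - ψ with hR
  have hsF : ∀ j ∈ (Finset.univ : Finset ι), algebraMap k Ω (M j) * f j ∈ F :=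
    fun j _ => mul_mem (F.algebraMap_mem _) (hf j)
  have hsum : ∑ j, algebraMap k Ω (M j) * f j ∈ F := sum_mem hsF
  have hRF : R ∈ F := sub_mem (sub_mem (hTF g hg) hsum) hψ
  have hRge : v.Ge (-ε) R := by
    have e : R = (T y - ∑ j, algebraMap k Ω (M j) * n j - ψ) - T (y - g) +
        ∑ j, algebraMap k Ω (M j) * (n j - f j) := by
      simp only [mul_sub, Finset.sum_sub_distrib, map_sub, hR]
      ring
    rw [e]
    exact ((hm.mono (by linarith)).sub (IsoE.ge' hT hgy)).add (ge_sum_smul hk M hfn)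
  have hDR := hD.norm R hRF _ hRge
  have e1 : D R = T (D g) - ∑ i, δ i * T (dd i g) - ∑ j, algebraMap k Ω (M j) * D (f j) - D ψ := by
    rw [hR, hD.map_sub (sub_mem (hTF g hg) hsum) hψ, hD.map_sub (hTF g hg) hsum, hDT g hg,
      hD.map_sum _ hsF]
    congr 2
    exact Finset.sum_congr rfl fun j _ => hD.map_smul _ (hf j)
  have e2 : ∑ j, algebraMap k Ω (M j) * n' j + D ψ - T y' + ∑ i, δ i * T (y'' i) =
      -(D R) + ∑ j, algebraMap k Ω (M j) * (n' j - D (f j)) - T (y' - D g) +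
        ∑ i, δ i * T (y'' i - dd i g) := by
    rw [e1]
    simp only [mul_sub, Finset.sum_sub_distrib, map_sub]
    ring
  rw [e2]
  refine ((hDR.neg.add (ge_sum_smul hk M fun j => hn' j ε hε _ (hf j) (hfn j))).sub
    (IsoE.ge' hT (hy' ε hε g hg hgy))).add (RVal.Ge.sum _ _ fun i _ => ?_)
  have := (hδ i).mul (IsoE.ge' hT (hy'' i ε hε g hg hgy))
  rwa [zero_add] at this

end rel

end Pool.Agent.TWCY
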