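import Pool.Agent.Lib.TWCY.Core
import Pool.Agent.Lib.TWCY.Nat
import Pool.Agent.Lib.TWN1.Nf

/-!
# CT, j = 1, J1.6.3: the normal form `Nrm` of `z` along `w 1`

* `Bp_mem`, `evalN_Bp`, `NF.derivative_Bp`, `NF.hasse_Bp`: the polynomial `B(X) = Pa(w 0, X)`;
* `CD.dat`: the data `Dat` of N1 over `F = cl W(w 0)(w 1)`;
* `rowNrm : RowNrm p v` (`Dat.nrm`: approximants of bounded degree);
* for `RowEnd`: `CD.rel_Bp` and `NF.hasse_one_Bp`.
-/

set_option autoImplicit false

open MvPolynomial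

namespace Pool.Agent.TWCY

open Pool.Agent.H15JM (RVal)
open Pool.Agent.LU1 (VPos)
open Pool.Agent.D2 (Ctx0)
open Pool.Agent.TWM
open Pool.Agent.TWII (PG LP)
open Pool.Agent.TWN1 (Par Nrm PC Dat ff)
open Pool.Agent.TWLY

universe u

variable {k Ω : Type u} [Field k] [Field Ω] [Algebra k Ω] {p : ℕ} {v : RVal Ω}
  {L : ℕ → IntermediateField k Ω} {W F K : IntermediateField k Ω} {w : Fin 2 → Ω} {x z a : Ω}
  {R : Rec k Ω}

/-! ### Constants -/

/-- The constants are `p`-th powers of constants. -/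
theorem exists_pow_const [hp : Fact p.Prime] [CharP Ω p] [IsAlgClosed Ω] (hk : Ctx0 k v) (c : k) :
    ∃ d : k, d ^ p = c := by
  by_cases hc : c = 0
  · exact ⟨0, by rw [hc, zero_pow hp.out.ne_zero]⟩
  obtain ⟨y, hy⟩ := IsAlgClosed.exists_pow_nat_eq (algebraMap k Ω c) hp.out.pos
  have hc' : algebraMap k Ω c ≠ 0 := by
    rw [Ne, map_eq_zero]
    exact hc
  have hy0 : y ≠ 0 := by
    rintro rfl
    rw [zero_pow hp.out.ne_zero] at hy
    exact hc' hy.symm
  have hvy : v y = 0 := by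
    have h1 : v (y ^ p) = 0 := by rw [hy]; exact hk.triv c hc
    rw [v.map_pow hy0] at h1
    have h2 : (p : ℝ) ≠ 0 := by exact_mod_cast hp.out.ne_zero
    exact (mul_eq_zero.1 h1).resolve_left h2
  obtain ⟨d, -, hd⟩ := hk.res y hy0 hvy
  refine ⟨d, ?_⟩
  have h1 : VPos v (algebraMap k Ω (c - d ^ p)) := by
    rw [map_sub, map_pow, ← hy, ← sub_pow_char]
    intro h2
    have h3 : y - algebraMap k Ω d ≠ 0 := by
      intro h4
      rw [h4, zero_pow hp.out.ne_zero] at h2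
      exact h2 rfl
    rw [v.map_pow h3]
    have h4 := hd h3
    have h5 : (0 : ℝ) < p := by exact_mod_cast hp.out.pos
    positivity
  have h2 := hk.const_eq_zero h1
  rw [sub_eq_zero] at h2
  exact h2.symm

/-! ### The polynomial `B` -/

theorem Bp_eq (w : Fin 2 → Ω) (Pa : MvPolynomial (Fin 2) Ω) :
    Bp w Pa = ∑ g ∈ Pa.support, Polynomial.C (coeff g Pa) *
      (Polynomial.C (w 0) ^ g 0 * Polynomial.X ^ g 1) := by
  rw [Bp, aeval_def, eval₂_eq']
  refine Finset.sum_congr rfl fun g _ => ?_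
  rw [Fin.prod_univ_two]
  simp

theorem Bp_mem {C : IntermediateField k Ω} {Pa : MvPolynomial (Fin 2) Ω} (h0 : w 0 ∈ C)
    (hP : ∀ g, coeff g Pa ∈ C) : Bp w Pa ∈ PI C := by
  rw [Bp_eq]
  exact sum_mem fun g _ => mul_mem (C_mem_PI (hP g))
    (mul_mem (pow_mem (C_mem_PI h0) _) (pow_mem X_mem_PI _))

theorem evalN_Bp (Pa : MvPolynomial (Fin 2) Ω) : (Bp w Pa).eval (w 1) = eval w Pa := by
  rw [Bp_eq, Polynomial.eval_finsetSum, eval_eq']
  refine Finset.sum_congr rfl fun g _ => ?_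
  rw [Fin.prod_univ_two]
  simp

/-- The linear coefficient. -/
theorem NF.derivative_Bp [hp : Fact p.Prime] [CharP Ω p] (h : NF p v W F K w x z a R) :
    Polynomial.derivative (Bp w R.Pa) =
      Polynomial.C (algebraMap k Ω (coeff (Finsupp.single 1 1) R.l)) := by
  classical
  have h1 : ∀ g : Ex, Polynomial.derivative (Polynomial.C (coeff g R.Pa) *
      (Polynomial.C (w 0) ^ g 0 * Polynomial.X ^ g 1)) =
      if g = Finsupp.single 1 1 then
        Polynomial.C (algebraMap k Ω (coeff (Finsupp.single 1 1) R.l)) else 0 := by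
    intro g
    have e1 : Polynomial.derivative (Polynomial.C (coeff g R.Pa) *
        (Polynomial.C (w 0) ^ g 0 * Polynomial.X ^ g 1)) =
        Polynomial.C (coeff g R.Pa * w 0 ^ g 0) *
          (Polynomial.C ((g 1 : ℕ) : Ω) * Polynomial.X ^ (g 1 - 1)) := by
      rw [← Polynomial.C_pow, ← mul_assoc, ← Polynomial.C_mul, Polynomial.derivative_C_mul,
        Polynomial.derivative_X_pow]
    rw [e1]
    by_cases hg : DvE p g
    · have h2 : g ≠ Finsupp.single 1 1 := by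
        rintro rfl
        have h3 := hg 1
        rw [Finsupp.single_eq_same] at h3
        exact hp.out.one_lt.ne' (Nat.dvd_one.1 h3)
      rw [if_neg h2, (CharP.cast_eq_zero_iff Ω p _).2 (hg 1), Polynomial.C_0, zero_mul, mul_zero]
    · rw [h.PaD g hg]
      by_cases hl : coeff g R.l = 0
      · have h2 : (if g = Finsupp.single 1 1 then
            Polynomial.C (algebraMap k Ω (coeff (Finsupp.single 1 1) R.l)) else 0) =
            (0 : Polynomial Ω) := by
          split_ifs with h3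
          · rw [← h3, hl, map_zero, Polynomial.C_0]
          · rfl
        rw [h2, hl, map_zero, zero_mul, Polynomial.C_0, zero_mul]
      · obtain ⟨i, rfl⟩ := h.lin g hl
        have hi : i = 0 ∨ i = 1 := by
          fin_cases i
          · exact Or.inl rfl
          · exact Or.inr rfl
        rcases hi with rfl | rfl
        · have h2 : (Finsupp.single 0 1 : Ex) ≠ Finsupp.single 1 1 := by
            intro h3
            have h4 := DFunLike.congr_fun h3 0
            simp at h4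
          rw [if_neg h2]
          have h3 : (Finsupp.single 0 1 : Ex) 1 = 0 := by simp
          rw [h3, Nat.cast_zero, Polynomial.C_0, zero_mul, mul_zero]
        · rw [if_pos rfl]
          have h3 : (Finsupp.single 1 1 : Ex) 0 = 0 := by simp
          have h4 : (Finsupp.single 1 1 : Ex) 1 = 1 := by simp
          rw [h3, h4]
          simp
  rw [Bp_eq, Polynomial.derivative_sum, Finset.sum_congr rfl fun g _ => h1 g, Finset.sum_ite_eq']
  split_ifs with h2
  · rfl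
  · have h3 : ¬ DvE p (Finsupp.single 1 1 : Ex) := fun hg => by
      have h3 := hg 1
      rw [Finsupp.single_eq_same] at h3
      exact hp.out.one_lt.ne' (Nat.dvd_one.1 h3)
    rw [← h.PaD _ h3, notMem_support_iff.1 h2, Polynomial.C_0]

theorem NF.hasse_one_Bp [hp : Fact p.Prime] [CharP Ω p] (h : NF p v W F K w x z a R) :
    Polynomial.hasseDeriv 1 (Bp w R.Pa) =
      Polynomial.C (algebraMap k Ω (coeff (Finsupp.single 1 1) R.l)) := by
  rw [Polynomial.hasseDeriv_one', h.derivative_Bp]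

theorem NF.hasse_Bp [hp : Fact p.Prime] [CharP Ω p] (h : NF p v W F K w x z a R) (l : ℕ)
    (hl : 2 ≤ l) (hpl : ¬ p ∣ l) : Polynomial.hasseDeriv l (Bp w R.Pa) = 0 := by
  set e₂ := algebraMap k Ω (coeff (Finsupp.single 1 1) R.l)
  have h4 : Polynomial.derivative (Bp w R.Pa - Polynomial.C e₂ * Polynomial.X) = 0 := by
    rw [Polynomial.derivative_sub, h.derivative_Bp, Polynomial.derivative_C_mul,
      Polynomial.derivative_X, mul_one, sub_self]
  have h5 := TWN1.hasse_zero_of_derivative p h4 hpl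
  rw [map_sub, sub_eq_zero] at h5
  rw [h5]
  refine Polynomial.hasseDeriv_eq_zero_of_lt_natDegree _ _ ?_
  exact ((Polynomial.natDegree_C_mul_le e₂ Polynomial.X).trans
    Polynomial.natDegree_X_le).trans_lt (by omega)

/-! ### The data -/

theorem sum_Ap (R : Rec k Ω) (x y : Ω) :
    ∑ i ∈ Finset.Icc 1 (R.t + 1), Ap R x i * y ^ p ^ i = x * PP p R.κ R.t y := by
  rw [PP, Finset.mul_sum]
  refine Finset.sum_nbij' (fun i => i - 1) (fun i => i + 1) ?_ ?_ ?_ ?_ ?_
  · intro i hi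
    obtain ⟨h1, h2⟩ := Finset.mem_Icc.1 hi
    exact Finset.mem_range.2 (by omega)
  · intro i hi
    have := Finset.mem_range.1 hi
    exact Finset.mem_Icc.2 ⟨by omega, by omega⟩
  · intro i hi
    obtain ⟨h1, h2⟩ := Finset.mem_Icc.1 hi
    exact Nat.sub_add_cancel h1
  · intro i _
    exact Nat.add_sub_cancel i 1
  · intro i hi
    obtain ⟨h1, h2⟩ := Finset.mem_Icc.1 hi
    simp only [Ap]
    rw [Nat.sub_add_cancel h1]
    ring

theorem ff_Ap (R : Rec k Ω) (x b y : Ω) : ff p (algebraMap k Ω R.e) (Ap R x) (R.t + 1) b y =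
    algebraMap k Ω R.e * y + x * PP p R.κ R.t y + b := by
  rw [ff, sum_Ap]

/-- The tie at one sequence of approximants implies the tie at all of them. -/
theorem st_of_tie [hp : Fact p.Prime] [CharP Ω p] {e b : Ω} {A : ℕ → Ω} {N : ℕ}
    (he : v.Ge 0 e) (hA : ∀ i ∈ Finset.Icc 1 N, LP p v F 0 (A i))
    (h : ∀ ε : ℝ, 0 < ε → ∃ θ ∈ F, v.Ge (-ε) (z - θ) ∧ PC p v F (-ε) (ff p e A N b θ))
    {ε : ℝ} (hε : 0 < ε) :
    ∃ δ : ℝ, 0 < δ ∧ ∀ θ ∈ F, v.Ge (0 - δ) (z - θ) → PC p v F (0 - ε) (ff p e A N b θ) := by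
  have hp1 : (1 : ℝ) ≤ p := by exact_mod_cast hp.out.one_lt.le
  have hQ : (1 : ℝ) ≤ (p : ℝ) ^ N := one_le_pow₀ hp1
  set δ : ℝ := ε / (2 * p ^ N) with hδ
  have hδ0 : 0 < δ := by positivity
  have hδε : δ ≤ ε / 2 := by
    rw [hδ]
    exact div_le_div_of_nonneg_left hε.le (by norm_num) (by linarith)
  have hδQ : (p : ℝ) ^ N * δ = ε / 2 := by
    rw [hδ]
    field_simp
  obtain ⟨θ₀, hθ₀, h1, h2⟩ := h δ hδ0
  refine ⟨δ, hδ0, fun θ hθ h3 => ?_⟩
  rw [zero_sub] at h3 ⊢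
  have hd : v.Ge (-δ) (θ - θ₀) := by
    rw [show θ - θ₀ = (z - θ₀) - (z - θ) by ring]
    exact h1.sub h3
  have e1 : ff p e A N b θ = (e * (θ - θ₀) + ∑ i ∈ Finset.Icc 1 N, A i * (θ - θ₀) ^ p ^ i) +
      ff p e A N b θ₀ := by
    have h4 := TWN1.ff_add (p := p) e A N b (θ - θ₀) θ₀
    rw [sub_add_cancel] at h4
    rw [h4]
    rfl
  rw [e1]
  refine PC.add (PC.add (PC.of_ge ?_) (PC.sum _ _ fun i hi => ?_)) (h2.mono (by linarith))
  · exact (he.mul hd).mono (by linarith)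
  · obtain ⟨hi1, hi2⟩ := Finset.mem_Icc.1 hi
    obtain ⟨j, rfl⟩ : ∃ j, i = j + 1 := ⟨i - 1, by omega⟩
    have e2 : (θ - θ₀) ^ p ^ (j + 1) = ((θ - θ₀) ^ p ^ j) ^ p := by rw [← pow_mul, ← pow_succ]
    have h4 : v.Ge (-(ε / 2)) (((θ - θ₀) ^ p ^ j) ^ p) := by
      rw [← e2]
      refine (ge_pow hd (p ^ (j + 1))).mono ?_
      push_cast
      have h5 : (p : ℝ) ^ (j + 1) ≤ (p : ℝ) ^ N := pow_le_pow_right₀ hp1 hi2
      nlinarith
    rw [e2]
    exact (PC.mul_pow ((hA _ hi).pc (c' := -(ε / 2)) (by linarith))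
      (pow_mem (sub_mem hθ hθ₀) _) h4).mono (by linarith)

section dat

variable [hp : Fact p.Prime] [CharP Ω p] [IsAlgClosed Ω]

/-- The class of `κ x`. -/
theorem lp_smulN (hk : Ctx0 k v) {F : IntermediateField k Ω} {x : Ω} (hx : LP p v F 0 x) (c : k) :
    LP p v F 0 (algebraMap k Ω c * x) := by
  obtain ⟨d, rfl⟩ := exists_pow_const hk (p := p) c
  have h1 := TWII.LP.mul_pow hx (F.algebraMap_mem d) (b := 0) (by
    rw [← map_pow]
    exact hk.ge _)
  rwa [add_zero, ← map_pow, mul_comm] at h1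

omit hp [CharP Ω p] [IsAlgClosed Ω] in
theorem CD.lp_x (h : CD p v L W F K w x z a R) : LP p v F 0 x := fun ε hε => by
  obtain ⟨g, hg, h1⟩ := h.base.lp ε hε
  exact ⟨g, h.trn.le hg, h1⟩

theorem CD.lp_Ap (h : CD p v L W F K w x z a R) (i : ℕ) : LP p v F 0 (Ap R x i) :=
  lp_smulN h.c0 h.lp_x _

omit hp [IsAlgClosed Ω] in
/-- `κ x`, `κ ≠ 0`, is not a `p`-th power modulo strictly positive values. -/
theorem CD.top (h : CD p v L W F K w x z a R) {c : k} (hc : c ≠ 0) :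
    ¬ PG p v F 0 (algebraMap k Ω c * x) := by
  rintro ⟨g, hg, h1⟩
  have hD := h.drt.drv
  have hxF : x ∈ F := h.trn.le h.xW
  have h2 : VPos v (R.D (algebraMap k Ω c * x - g ^ p)) :=
    hD.vpos (sub_mem (mul_mem (F.algebraMap_mem c) hxF) (pow_mem hg p)) h1
  rw [hD.map_sub (mul_mem (F.algebraMap_mem c) hxF) (pow_mem hg p), hD.map_pow_char hg, sub_zero,
    hD.map_smul c hxF] at h2
  have h3 : Rs v (algebraMap k Ω c * R.D x) (c * 1) := by
    rw [h.base.Dx]
    exact (Rs.const c).mul h.c0 Rs.one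
  have h4 := h3.unique h.c0 (rs_zero_iff.2 h2)
  rw [mul_one] at h4
  exact hc h4

/-- The data of N1. -/
theorem CD.dat (h : CD p v L W F K w x z a R) :
    Dat p v F K z 0 0 a (R.t + 1) (algebraMap k Ω R.e) (Ap R x) (eval w R.Pa) where
  N1 := by omega
  ef := F.algebraMap_mem _
  eg := by
    rw [sub_zero]
    exact h.c0.ge _
  Af := fun i _ => mul_mem (F.algebraMap_mem _) (h.trn.le h.xW)
  Al := fun i _ => by
    rw [mul_zero, sub_zero]
    exact h.lp_Ap i
  top := by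
    rw [mul_zero, sub_zero]
    exact h.top h.kap
  bf := h.tie.aF
  st := fun ε hε => st_of_tie (h.c0.ge _) (fun i _ => h.lp_Ap i) (fun ε hε => by
    obtain ⟨θ, hθ, h1, g, hg, h2⟩ := h.tie.tie ε hε
    refine ⟨θ, hθ, h1, g, hg, ?_⟩
    rwa [ff_Ap]) hε
  rel := by
    rw [ff_Ap]
    exact h.rel

omit hp [CharP Ω p] [IsAlgClosed Ω] in
/-- For `RowEnd`. -/
theorem CD.rel_Bp (h : CD p v L W F K w x z a R) :
    PG p v K 0 (a - (algebraMap k Ω R.e * z + ∑ i ∈ Finset.Icc 1 (R.t + 1), Ap R x i * z ^ p ^ i +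
      (Bp w R.Pa).eval (w 1))) := by
  rw [sum_Ap, evalN_Bp]
  exact h.rel

omit hp [CharP Ω p] [IsAlgClosed Ω] in
theorem CD.Bp_mem (h : CD p v L W F K w x z a R) : Bp w R.Pa ∈ PI (cadj v W (w 0)) :=
  TWCY.Bp_mem (self_mem_cadj v W (w 0)) fun g => le_cadj v W (w 0) (h.PaW g)

/-- **J1.6.3**, from `CD` alone. -/
theorem CD.nrm (h : CD p v L W F K w x z a R) : ∃ J : ℕ,
    Nrm p v (cadj v W (w 0)) (w 1) z 0 0 0 (algebraMap k Ω R.e) (Ap R x) (R.t + 1) (Bp w R.Pa) J
      0 := by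
  have hF := h.par.eq1
  have hD := h.dat
  rw [hF, ← evalN_Bp] at hD
  have hz : TL v (cadj v (cadj v W (w 0)) (w 1)) z 0 := by
    rw [← hF]
    exact h.zt
  refine ⟨_, Dat.nrm h.par.t21 hz h.Bp_mem hD ((cadj v W (w 0)).algebraMap_mem _) ?_ ?_
    (e₂ := algebraMap k Ω (coeff (Finsupp.single 1 1) R.l)) h.toNF.derivative_Bp ?_ ?_
    h.toNF.hasse_Bp⟩
  · intro he
    rw [sub_zero]
    exact h.c0.triv _ fun h0 => he (by rw [h0, map_zero])
  · exact fun i _ => mul_mem ((cadj v W (w 0)).algebraMap_mem _) (le_cadj v W (w 0) h.xW)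
  · rcases h.cas with h1 | h1
    · left
      rw [h1, map_zero]
    · right
      rw [h1, coeff_zero, map_zero]
  · intro he
    rw [sub_zero]
    exact h.c0.triv _ fun h0 => he (by rw [h0, map_zero])

end dat

/-- **J1.6.3.** -/
theorem rowNrm (p : ℕ) [Fact p.Prime] [CharP Ω p] [IsAlgClosed Ω] (v : RVal Ω) : RowNrm (k := k) p v :=
  fun _ _ _ _ _ _ _ _ _ h _ => h.toCD.nrm

end Pool.Agent.TWCY
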