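import Pool.Agent.Lib.TWCY.Sb

/-!
# The translates of `Z'`

`Z' = Za - u(X)`. With `Sml`: the finite data (exponents `H`, points `S`, margin `η`) such that
* `br_gt`: the brackets `N_l(X + c) - N_l(c) - N_l(X)` are small if `(T_c - 1) Z'` is;
* `fun_ge`: `Σ a_c (T_c - 1) Z' + Σ_j (Σ a_c φ_j(c)) N_j(X)` is integral, if `a` kills the monomials
  of `H`.
-/

set_option autoImplicit false

open MvPolynomial

namespace Pool.Agent.TWCY

open Pool.Agent.H15JM (RVal)
open Pool.Agent.LU1 (VPos)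
open Pool.Agent.D2 (Ctx0)
open Pool.Agent.TWM
open Pool.Agent.TWS (IsoE SphC)
open Pool.Agent.TWLY
open TWIV.JW (BB sh cz)

universe u

variable {k Ω : Type u} [Field k] [Field Ω] [Algebra k Ω] {v : RVal Ω}
  {W F : IntermediateField k Ω} {w : Fin 2 → Ω} {T : (Fin 2 → k) → Ω →ₐ[k] Ω}

/-- The monomial functions. -/
def mn (h : Ex) (c : Fin 2 → k) : k := ∏ i, c i ^ h i

theorem mn_zero (c : Fin 2 → k) : mn 0 c = 1 := by
  unfold mn
  simp

theorem eval_mn (c : Fin 2 → k) (P : MvPolynomial (Fin 2) k) :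
    eval c P = ∑ m ∈ P.support, coeff m P * mn m c := by
  rw [eval_eq']
  rfl

theorem eval_pt_mn (c : Fin 2 → k) (P : MvPolynomial (Fin 2) Ω) :
    eval (pt c) P = ∑ m ∈ P.support, coeff m P * algebraMap k Ω (mn m c) := by
  rw [eval_eq']
  refine Finset.sum_congr rfl fun m _ => ?_
  unfold mn
  rw [map_prod]
  congr 1
  refine Finset.prod_congr rfl fun i _ => ?_
  rw [map_pow]
  rfl

/-- `Σ a_c y(c)`. -/
noncomputable def AA' (a : (Fin 2 → k) →₀ k) (y : (Fin 2 → k) → Ω) : Ω :=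
  ∑ c ∈ a.support, algebraMap k Ω (a c) * y c

theorem AA'_add (a : (Fin 2 → k) →₀ k) (y y' : (Fin 2 → k) → Ω) :
    AA' a (fun c => y c + y' c) = AA' a y + AA' a y' := by
  unfold AA'
  rw [← Finset.sum_add_distrib]
  exact Finset.sum_congr rfl fun c _ => mul_add _ _ _

theorem AA'_sub (a : (Fin 2 → k) →₀ k) (y y' : (Fin 2 → k) → Ω) :
    AA' a (fun c => y c - y' c) = AA' a y - AA' a y' := by
  unfold AA'
  rw [← Finset.sum_sub_distrib]
  exact Finset.sum_congr rfl fun c _ => mul_sub _ _ _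

theorem AA'_mul (a : (Fin 2 → k) →₀ k) (x : Ω) (y : (Fin 2 → k) → Ω) :
    AA' a (fun c => x * y c) = x * AA' a y := by
  unfold AA'
  rw [Finset.mul_sum]
  refine Finset.sum_congr rfl fun c _ => ?_
  ring

theorem AA'_sum {ι : Type*} (a : (Fin 2 → k) →₀ k) (S : Finset ι)
    (y : ι → (Fin 2 → k) → Ω) :
    AA' a (fun c => ∑ i ∈ S, y i c) = ∑ i ∈ S, AA' a (y i) := by
  unfold AA'
  rw [Finset.sum_comm]
  exact Finset.sum_congr rfl fun c _ => Finset.mul_sum _ _ _

theorem AA'_alg (a : (Fin 2 → k) →₀ k) (φ : (Fin 2 → k) → k) :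
    AA' a (fun c => algebraMap k Ω (φ c)) = algebraMap k Ω (pr a φ) := by
  unfold AA'
  rw [pr_apply, map_sum]
  exact Finset.sum_congr rfl fun c _ => by rw [map_mul]

theorem AA'_ge (hk : Ctx0 k v) (a : (Fin 2 → k) →₀ k) {y : (Fin 2 → k) → Ω} {r : ℝ}
    (h : ∀ c ∈ a.support, v.Ge r (y c)) : v.Ge r (AA' a y) := by
  unfold AA'
  refine RVal.Ge.sum _ _ fun c hc => ?_
  have := (hk.ge (a c)).mul (h c hc)
  rwa [zero_add] at this

/-- `a` kills the monomials of `H`. -/
def Kil (a : (Fin 2 → k) →₀ k) (H : Finset Ex) : Prop := ∀ h ∈ H, pr a (mn h) = 0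

/-- `a` evaluates the monomials of `H` at `c₀`. -/
def Evl (a : (Fin 2 → k) →₀ k) (H : Finset Ex) (c₀ : Fin 2 → k) : Prop :=
  ∀ h ∈ H, pr a (mn h) = mn h c₀

theorem Kil.eval_eq {a : (Fin 2 → k) →₀ k} {H : Finset Ex} (ha : Kil a H)
    {P : MvPolynomial (Fin 2) Ω} (hP : P.support ⊆ H) : AA' a (fun c => eval (pt c) P) = 0 := by
  have h1 : AA' a (fun c => eval (pt c) P) =
      AA' a (fun c => ∑ m ∈ P.support, coeff m P * algebraMap k Ω (mn m c)) := by
    congr 1
    funext c
    exact eval_pt_mn c P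
  rw [h1, AA'_sum]
  refine Finset.sum_eq_zero fun m hm => ?_
  rw [AA'_mul, AA'_alg, ha m (hP hm), map_zero, mul_zero]

theorem Kil.pr_eq {a : (Fin 2 → k) →₀ k} {H : Finset Ex} (ha : Kil a H)
    {P : MvPolynomial (Fin 2) k} (hP : P.support ⊆ H) : pr a (fun c => eval c P) = 0 := by
  have h1 : (fun c => eval c P) = ∑ m ∈ P.support, coeff m P • mn m := by
    funext c
    rw [eval_mn, Finset.sum_apply]
    rfl
  rw [h1, map_sum]
  refine Finset.sum_eq_zero fun m hm => ?_
  rw [map_smul, ha m (hP hm), smul_zero]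

theorem Evl.pr_eq {a : (Fin 2 → k) →₀ k} {H : Finset Ex} {c₀ : Fin 2 → k} (ha : Evl a H c₀)
    {P : MvPolynomial (Fin 2) k} (hP : P.support ⊆ H) :
    pr a (fun c => eval c P) = eval c₀ P := by
  have h1 : (fun c => eval c P) = ∑ m ∈ P.support, coeff m P • mn m := by
    funext c
    rw [eval_mn, Finset.sum_apply]
    rfl
  rw [h1, map_sum, eval_mn]
  refine Finset.sum_congr rfl fun m hm => ?_
  rw [map_smul, ha m (hP hm), smul_eq_mul]

section main

variable {ι : Type} [Fintype ι] {z : Ω} {n : ι → Ω} {N : ι → MvPolynomial (Fin 2) k}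
  {f : MvPolynomial (Fin 2) Ω} {b : ι → Ex} {q : Ex → MvPolynomial (Fin 2) Ω}
  {φ : (Fin 2 → k) → ι → k}

/-- `m_l(c)`, the defect of `T_c n_l`. -/
noncomputable def mm (T : (Fin 2 → k) → Ω →ₐ[k] Ω) (n : ι → Ω)
    (N : ι → MvPolynomial (Fin 2) k) (f : MvPolynomial (Fin 2) Ω) (b : ι → Ex)
    (c : Fin 2 → k) (l : ι) : Ω :=
  T c (n l) - ∑ j, algebraMap k Ω (MM N b c l j) * n j - psi f b c l

/-- The bracket `N_l(X + c) - N_l(c) - N_l(X)`. -/
noncomputable def br (N : ι → MvPolynomial (Fin 2) k) (b : ι → Ex) (X : Fin 2 → Ω)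
    (c : Fin 2 → k) (l : ι) : Ω :=
  ∑ j, aeval X (N j) * algebraMap k Ω (MM N b c j l) - aeval X (N l)

/-- The finite data. -/
structure Sml (v : RVal Ω) (w : Fin 2 → Ω) (T : (Fin 2 → k) → Ω →ₐ[k] Ω) (n : ι → Ω)
    (N : ι → MvPolynomial (Fin 2) k) (f : MvPolynomial (Fin 2) Ω) (b : ι → Ex)
    (q : Ex → MvPolynomial (Fin 2) Ω) (φ : (Fin 2 → k) → ι → k) (H : Finset Ex)
    (S : Finset (Fin 2 → k)) (η : ℝ) : Prop where
  H0 : (0 : Ex) ∈ H
  HM : ∀ j l, (coeff (b j) (sh k (N l))).support ⊆ H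
  Hψ : ∀ j, (coeff (b j) (sh Ω f)).support ⊆ H
  Hq : ∀ g ∈ f.support, (TWLY.tr w (q g)).support ⊆ H
  err : ∀ c ∈ S, ∀ j, v.Ge η (mm T n N f b c j - algebraMap k Ω (φ c j))
  sml : ∀ g ∈ f.support, v.Ge η (coeff g f - eval w (q g))

variable {X : Fin 2 → Ω} {Za : Ω} {H : Finset Ex} {S : Finset (Fin 2 → k)} {η : ℝ}

theorem T_mo (hT : Trn v W F w T) (hX : ∀ i, X i ∈ W) (c : Fin 2 → k) (g : Ex) :
    T c (mo X g) = mo X g := hT.fix c _ (mo_mem hX g)

/-- The difference `(T_c - 1) Z'`. -/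
theorem T_Z (hT : Trn v W F w T) (hX : ∀ i, X i ∈ W) (c : Fin 2 → k) :
    T c (Za - eval X (uu n N f)) - (Za - eval X (uu n N f)) = (T c Za - Za) -
      ∑ j, aeval X (N j) * (T c (n j) - n j) -
      ∑ g ∈ f.support, mo X g * (T c (coeff g f) - coeff g f) := by
  have h1 : ∀ j, T c (aeval X (N j)) = aeval X (N j) := fun j =>
    hT.fix c _ (TWCT.aeval_mem hX (N j))
  rw [eval_uuX, eval_sum_mo, map_sub, map_add, map_sum, map_sum]
  have h2 : ∑ j, T c (aeval X (N j) * n j) = ∑ j, aeval X (N j) * T c (n j) :=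
    Finset.sum_congr rfl fun j _ => by rw [map_mul, h1]
  have h3 : ∑ g ∈ f.support, T c (coeff g f * mo X g) =
      ∑ g ∈ f.support, mo X g * T c (coeff g f) :=
    Finset.sum_congr rfl fun g _ => by rw [map_mul, T_mo hT hX, mul_comm]
  rw [h2, h3]
  simp only [mul_sub, Finset.sum_sub_distrib]
  have h4 : ∑ g ∈ f.support, coeff g f * mo X g = ∑ g ∈ f.support, mo X g * coeff g f :=
    Finset.sum_congr rfl fun g _ => mul_comm _ _
  rw [h4]
  ring

theorem sum_T_n (c : Fin 2 → k) :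
    ∑ j, aeval X (N j) * (T c (n j) - n j) = ∑ l, br N b X c l * n l +
      ∑ j, aeval X (N j) * (psi f b c j + mm T n N f b c j) := by
  have h1 : ∀ j, T c (n j) = ∑ l, algebraMap k Ω (MM N b c j l) * n l + psi f b c j +
      mm T n N f b c j := by
    intro j
    unfold mm
    ring
  have h2 : ∑ l, br N b X c l * n l = ∑ j, aeval X (N j) *
      ∑ l, algebraMap k Ω (MM N b c j l) * n l - ∑ l, aeval X (N l) * n l := by
    have h3 : ∑ j, aeval X (N j) * ∑ l, algebraMap k Ω (MM N b c j l) * n l =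
        ∑ l, ∑ j, aeval X (N j) * (algebraMap k Ω (MM N b c j l) * n l) := by
      rw [Finset.sum_comm]
      exact Finset.sum_congr rfl fun j _ => Finset.mul_sum _ _ _
    rw [h3, ← Finset.sum_sub_distrib]
    refine Finset.sum_congr rfl fun l _ => ?_
    unfold br
    rw [sub_mul, Finset.sum_mul]
    congr 1
    refine Finset.sum_congr rfl fun j _ => ?_
    ring
  rw [h2, ← sub_eq_zero]
  have h4 : ∑ j, aeval X (N j) * (T c (n j) - n j) =
      ∑ j, (aeval X (N j) * ∑ l, algebraMap k Ω (MM N b c j l) * n l +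
        aeval X (N j) * (psi f b c j + mm T n N f b c j) - aeval X (N j) * n j) := by
    refine Finset.sum_congr rfl fun j _ => ?_
    rw [h1 j]
    ring
  rw [h4, Finset.sum_sub_distrib, Finset.sum_add_distrib]
  ring

/-- **The brackets are small.** -/
theorem br_gt [DecidableEq ι] (hk : Ctx0 k v) (hT : Trn v W F w T) (h : Shp v F T z n N f b)
    (hs : Sml v w T n N f b q φ H S η) (hX : ∀ i, X i ∈ W) (hZa : Za ∈ F)
    (hN : ∀ j, v.Ge (-η) (aeval X (N j))) {c : Fin 2 → k} (hc : c ∈ S) {r : ℝ} (hr : r ≤ 0)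
    (hZ : v.Ge r (T c (Za - eval X (uu n N f)) - (Za - eval X (uu n N f)))) (l : ι) :
    Gt v r (br N b X c l) := by
  have hXF : ∀ i, X i ∈ F := fun i => hT.le (hX i)
  have hNF : ∀ j, aeval X (N j) ∈ F := fun j => TWCT.aeval_mem hXF (N j)
  have hbrF : ∀ l, br N b X c l ∈ F := fun l =>
    sub_mem (sum_mem fun j _ => mul_mem (hNF j) (F.algebraMap_mem _)) (hNF l)
  refine TWCT.noise_gt (F := F) (s := 0) (g := fun l => br N b X c l) hk Finset.univ
    (fun j _ => h.lim j) ?_ (fun j _ => hbrF j) ?_ l (Finset.mem_univ l)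
  · rintro c' ⟨j, _, hj⟩ h1
    exact hj (h.ind c' h1 j)
  · rw [add_zero]
    refine ⟨(T c Za - Za) - ∑ j, aeval X (N j) * (psi f b c j + algebraMap k Ω (φ c j)) -
      ∑ g ∈ f.support, mo X g * (T c (coeff g f) - coeff g f), ?_, ?_⟩
    · refine sub_mem (sub_mem (sub_mem (hT.mem c _ hZa) hZa) (sum_mem fun j _ => ?_))
        (sum_mem fun g _ => ?_)
      · exact mul_mem (hNF j) (add_mem (coeff_tr_mem c h.fF _) (F.algebraMap_mem _))
      · exact mul_mem (mo_mem hXF g) (sub_mem (hT.mem c _ (h.fF g)) (h.fF g))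
    · rw [T_Z hT hX, sum_T_n (b := b) (f := f)] at hZ
      have h2 : v.Ge r (∑ j, aeval X (N j) * (mm T n N f b c j - algebraMap k Ω (φ c j))) := by
        refine RVal.Ge.sum _ _ fun j _ => ?_
        refine ((hN j).mul (hs.err c hc j)).mono ?_
        linarith
      have h3 := (hZ.add h2).neg
      convert h3 using 1
      simp only [mul_sub, mul_add, Finset.sum_sub_distrib, Finset.sum_add_distrib]
      ring

/-- **The functionals.** -/
theorem fun_ge (hk : Ctx0 k v) (hT : Trn v W F w T)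
    (hs : Sml v w T n N f b q φ H S η) (hq : ∀ g h, coeff h (q g) ∈ W) (hX : ∀ i, X i ∈ W)
    (hN : ∀ j, v.Ge (-η) (aeval X (N j))) (hm : ∀ g ∈ f.support, v.Ge (-η) (mo X g))
    {B : MvPolynomial (Fin 2) Ω} (hB : B.support ⊆ H)
    (hZb : ∀ c : Fin 2 → k, VPos v (T c Za - Za - eval (pt c) B)) {a : (Fin 2 → k) →₀ k}
    (ha : Kil a H) (haS : a.support ⊆ S) :
    v.Ge 0 (AA' a (fun c => T c (Za - eval X (uu n N f)) - (Za - eval X (uu n N f))) +
      ∑ j, algebraMap k Ω (pr a (fun c => φ c j)) * aeval X (N j)) := by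
  have h1 : AA' a (fun _ => (1 : Ω)) = 0 := by
    have := ha.eval_eq (P := (C (1 : Ω))) (by
      refine (support_monomial_subset).trans ?_
      simpa using hs.H0)
    simpa using this
  have hconst : ∀ y : Ω, AA' a (fun _ => y) = 0 := by
    intro y
    have := AA'_mul a y (fun _ => (1 : Ω))
    rw [h1, mul_zero] at this
    simpa using this
  -- the displacement of `Za`
  have e1 : AA' a (fun c => T c Za - Za) = AA' a (fun c => T c Za - Za - eval (pt c) B) := by
    rw [AA'_sub a (fun c => T c Za - Za) (fun c => eval (pt c) B), ha.eval_eq hB, sub_zero]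
  -- the noises
  have e2 : ∀ j, AA' a (fun c => T c (n j) - n j) = algebraMap k Ω (pr a (fun c => φ c j)) +
      AA' a (fun c => mm T n N f b c j - algebraMap k Ω (φ c j)) := by
    intro j
    have h2 : (fun c => T c (n j) - n j) = fun c =>
        ((∑ l, n l * algebraMap k Ω (eval c (coeff (b j) (sh k (N l)))) +
          eval (pt c) (coeff (b j) (sh Ω f)) + mm T n N f b c j) - n j) := by
      funext c
      unfold mm psi MM
      rw [coeff_tr_eq]
      have : ∑ l, n l * algebraMap k Ω (eval c (coeff (b j) (sh k (N l)))) =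
          ∑ l, algebraMap k Ω (coeff (b j) (TWLY.tr c (N l))) * n l :=
        Finset.sum_congr rfl fun l _ => by rw [coeff_tr_eq, mul_comm]
      rw [this]
      ring
    have h3 : AA' a (fun c => ∑ l, n l * algebraMap k Ω (eval c (coeff (b j) (sh k (N l))))) =
        0 := by
      rw [AA'_sum]
      refine Finset.sum_eq_zero fun l _ => ?_
      rw [AA'_mul, AA'_alg a (fun c => eval c (coeff (b j) (sh k (N l)))),
        ha.pr_eq (hs.HM j l), map_zero, mul_zero]
    rw [h2, AA'_sub a (fun c => ∑ l, n l * algebraMap k Ω (eval c (coeff (b j) (sh k (N l)))) +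
          eval (pt c) (coeff (b j) (sh Ω f)) + mm T n N f b c j) (fun _ => n j), hconst, sub_zero,
      AA'_add a (fun c => ∑ l, n l * algebraMap k Ω (eval c (coeff (b j) (sh k (N l)))) +
          eval (pt c) (coeff (b j) (sh Ω f))) (fun c => mm T n N f b c j),
      AA'_add a (fun c => ∑ l, n l * algebraMap k Ω (eval c (coeff (b j) (sh k (N l)))))
          (fun c => eval (pt c) (coeff (b j) (sh Ω f))), h3, ha.eval_eq (hs.Hψ j),
      AA'_sub a (fun c => mm T n N f b c j) (fun c => algebraMap k Ω (φ c j)),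
      AA'_alg a (fun c => φ c j)]
    ring
  have e3 : ∀ g ∈ f.support, AA' a (fun c => T c (coeff g f) - coeff g f) =
      AA' a (fun c => T c (coeff g f - eval w (q g))) := by
    intro g hg
    have h2 : (fun c => T c (coeff g f) - coeff g f) = fun c =>
        ((T c (coeff g f - eval w (q g)) + eval (pt c) (TWLY.tr w (q g))) - coeff g f) := by
      funext c
      rw [map_sub, hT.T_eval c (hq g)]
      ring
    rw [h2, AA'_sub a (fun c => T c (coeff g f - eval w (q g)) + eval (pt c) (TWLY.tr w (q g)))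
      (fun _ => coeff g f), hconst, sub_zero,
      AA'_add a (fun c => T c (coeff g f - eval w (q g)))
        (fun c => eval (pt c) (TWLY.tr w (q g))), ha.eval_eq (hs.Hq g hg), add_zero]
  have e4 : AA' a (fun c => T c (Za - eval X (uu n N f)) - (Za - eval X (uu n N f))) =
      AA' a (fun c => T c Za - Za - eval (pt c) B) -
      ∑ j, aeval X (N j) * (algebraMap k Ω (pr a (fun c => φ c j)) +
        AA' a (fun c => mm T n N f b c j - algebraMap k Ω (φ c j))) -
      ∑ g ∈ f.support, mo X g * AA' a (fun c => T c (coeff g f - eval w (q g))) := by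
    have h2 : (fun c => T c (Za - eval X (uu n N f)) - (Za - eval X (uu n N f))) = fun c =>
        (((T c Za - Za) - ∑ j, aeval X (N j) * (T c (n j) - n j)) -
        ∑ g ∈ f.support, mo X g * (T c (coeff g f) - coeff g f)) :=
      funext fun c => T_Z hT hX c
    rw [h2, AA'_sub a (fun c => (T c Za - Za) - ∑ j, aeval X (N j) * (T c (n j) - n j))
      (fun c => ∑ g ∈ f.support, mo X g * (T c (coeff g f) - coeff g f)),
      AA'_sub a (fun c => T c Za - Za) (fun c => ∑ j, aeval X (N j) * (T c (n j) - n j)),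
      AA'_sum, AA'_sum, e1]
    congr 1
    · congr 1
      exact Finset.sum_congr rfl fun j _ => by rw [AA'_mul, e2 j]
    · exact Finset.sum_congr rfl fun g hg => by rw [AA'_mul, e3 g hg]
  rw [e4]
  have h5 : v.Ge 0 (AA' a (fun c => T c Za - Za - eval (pt c) B)) :=
    AA'_ge hk a fun c _ => (hZb c).ge
  have h6 : v.Ge 0 (∑ j, aeval X (N j) *
      AA' a (fun c => mm T n N f b c j - algebraMap k Ω (φ c j))) := by
    refine RVal.Ge.sum _ _ fun j _ => ?_
    have := (hN j).mul (AA'_ge hk a fun c hc => hs.err c (haS hc) j)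
    rwa [neg_add_cancel] at this
  have h7 : v.Ge 0 (∑ g ∈ f.support, mo X g *
      AA' a (fun c => T c (coeff g f - eval w (q g)))) := by
    refine RVal.Ge.sum _ _ fun g hg => ?_
    have := (hm g hg).mul (AA'_ge hk a fun c _ => IsoE.ge' (hT.iso c) (hs.sml g hg))
    rwa [neg_add_cancel] at this
  have h8 := (h5.sub h6).sub h7
  convert h8 using 1
  simp only [mul_add, Finset.sum_add_distrib]
  have : ∑ j, algebraMap k Ω (pr a (fun c => φ c j)) * aeval X (N j) =
      ∑ j, aeval X (N j) * algebraMap k Ω (pr a (fun c => φ c j)) :=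
    Finset.sum_congr rfl fun j _ => mul_comm _ _
  rw [this]
  ring

end main

end Pool.Agent.TWCY
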