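import Mathlib

/-!
# Linear algebra on function spaces

`C` is a set of points; `pr a φ = Σ a_c φ(c)` for `a : C →₀ k`.

* `exists_fun`: if `φ` is not in the span of finitely many functions, some `a` separates them;
* `exists_dual`: a finite family `φ_j` is, modulo the span `V₀` of the `g_h`, a combination
  `φ_j = (V₀) + Σ_i ℓ_i(φ_j) E_i` with `ℓ_i` (finite combinations of points) killing `V₀`;
* `exists_interp`: the values of the `g_h` at any point are combinations of the values at a finite set.
-/

set_option autoImplicit false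

namespace Pool.Agent.TWCY

section la

variable {k C : Type*} [Field k]

/-- The pairing. -/
noncomputable def pr (a : C →₀ k) : (C → k) →ₗ[k] k := a.sum fun c x => x • LinearMap.proj c

theorem pr_apply (a : C →₀ k) (φ : C → k) : pr a φ = ∑ c ∈ a.support, a c * φ c := by
  unfold pr
  rw [Finsupp.sum, LinearMap.sum_apply]
  rfl

theorem pr_apply_of_subset (a : C →₀ k) (φ : C → k) {S : Finset C} (hS : a.support ⊆ S) :
    pr a φ = ∑ c ∈ S, a c * φ c := by
  rw [pr_apply]
  refine Finset.sum_subset hS fun c _ hc => ?_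
  rw [Finsupp.notMem_support_iff.1 hc, zero_mul]

theorem pr_single (c : C) (x : k) (φ : C → k) : pr (Finsupp.single c x) φ = x * φ c := by
  classical
  rw [pr_apply_of_subset _ _ Finsupp.support_single_subset, Finset.sum_singleton,
    Finsupp.single_eq_same]

theorem pr_add (a b : C →₀ k) (φ : C → k) : pr (a + b) φ = pr a φ + pr b φ := by
  classical
  rw [pr_apply_of_subset _ _ (Finset.subset_union_left (s₁ := a.support) (s₂ := b.support)),
    pr_apply_of_subset b _ (Finset.subset_union_right (s₁ := a.support) (s₂ := b.support)),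
    pr_apply_of_subset (a + b) _ Finsupp.support_add, ← Finset.sum_add_distrib]
  refine Finset.sum_congr rfl fun c _ => ?_
  rw [Finsupp.add_apply, add_mul]

theorem pr_smul (x : k) (a : C →₀ k) (φ : C → k) : pr (x • a) φ = x * pr a φ := by
  classical
  rw [pr_apply_of_subset (x • a) φ Finsupp.support_smul, pr_apply, Finset.mul_sum]
  refine Finset.sum_congr rfl fun c _ => ?_
  rw [Finsupp.smul_apply, smul_eq_mul, mul_assoc]

theorem pr_sub (a b : C →₀ k) (φ : C → k) : pr (a - b) φ = pr a φ - pr b φ := by
  have : a - b = a + (-1 : k) • b := by simp [sub_eq_add_neg]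
  rw [this, pr_add, pr_smul]
  ring

/-- **Separation.** -/
theorem exists_fun {η : Type*} (s : Finset η) (g : η → C → k) :
    ∀ φ : C → k, φ ∉ Submodule.span k (g '' s) →
      ∃ a : C →₀ k, (∀ h ∈ s, pr a (g h) = 0) ∧ pr a φ = 1 := by
  classical
  induction s using Finset.induction_on with
  | empty =>
    intro φ hφ
    have h0 : φ ≠ 0 := by
      rintro rfl
      exact hφ (zero_mem _)
    obtain ⟨c, hc⟩ := Function.ne_iff.1 h0
    refine ⟨Finsupp.single c (φ c)⁻¹, fun h hh => absurd hh (Finset.notMem_empty h), ?_⟩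
    rw [pr_single]
    exact inv_mul_cancel₀ hc
  | insert i s _ ih =>
    intro φ hφ
    have him : g '' ((insert i s : Finset η) : Set η) = insert (g i) (g '' s) := by
      rw [Finset.coe_insert, Set.image_insert_eq]
    rw [him] at hφ
    by_cases hg : g i ∈ Submodule.span k (g '' s)
    · rw [Submodule.span_insert_eq_span hg] at hφ
      obtain ⟨a, h1, h2⟩ := ih φ hφ
      refine ⟨a, fun h hh => ?_, h2⟩
      rcases Finset.mem_insert.1 hh with rfl | hh
      · have hker : Submodule.span k (g '' s) ≤ LinearMap.ker (pr a) := by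
          rw [Submodule.span_le]
          rintro _ ⟨h', hh', rfl⟩
          exact h1 h' hh'
        exact hker hg
      · exact h1 h hh
    · obtain ⟨b, hb1, hb2⟩ := ih (g i) hg
      have hφ' : φ - pr b φ • g i ∉ Submodule.span k (g '' s) := by
        intro h
        apply hφ
        rw [Submodule.mem_span_insert]
        exact ⟨pr b φ, _, h, by abel⟩
      obtain ⟨a, ha1, ha2⟩ := ih _ hφ'
      refine ⟨a - pr a (g i) • b, fun h hh => ?_, ?_⟩
      · rw [pr_sub, pr_smul]
        rcases Finset.mem_insert.1 hh with rfl | hh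
        · rw [hb2, mul_one, sub_self]
        · rw [ha1 h hh, hb1 h hh, mul_zero, sub_zero]
      · rw [pr_sub, pr_smul]
        rw [map_sub, map_smul, smul_eq_mul] at ha2
        rw [← ha2]
        ring

/-- The vector of the values of a functional on a family. -/
noncomputable def prv {ι : Type*} (φ : ι → C → k) (a : C →₀ k) : ι → k := fun j => pr a (φ j)

theorem map_prv {ι : Type*} [Fintype ι] (φ : ι → C → k) (a : C →₀ k) (r : (ι → k) →ₗ[k] (ι → k))
    (j : ι) : pr a (fun c => r (fun i => φ i c) j) = r (prv φ a) j := by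
  have h1 : prv φ a = ∑ c ∈ a.support, a c • fun i => φ i c := by
    funext i
    rw [Finset.sum_apply]
    exact pr_apply a (φ i)
  rw [h1, map_sum, Finset.sum_apply, pr_apply]
  refine Finset.sum_congr rfl fun c _ => ?_
  rw [map_smul, Pi.smul_apply, smul_eq_mul]

/-- **The dual family.** Modulo the span of the `g_h`, the vector `(φ_j(c))_j` is a combination of
finitely many vectors `(ℓ(φ_j))_j`, `ℓ` killing the `g_h`. -/
theorem exists_dual {η ι : Type*} [Fintype η] [Fintype ι] (g : η → C → k) (φ : ι → C → k) :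
    ∃ (Λ : Finset (C →₀ k)) (π : ι → η → k), (∀ a ∈ Λ, ∀ h, pr a (g h) = 0) ∧
      ∀ c, (fun j => φ j c - ∑ h, π j h * g h c) ∈
        Submodule.span k (prv φ '' (Λ : Set (C →₀ k))) := by
  classical
  set S : Set (ι → k) := prv φ '' {a | ∀ h, pr a (g h) = 0} with hS
  obtain ⟨s', hs', hspan⟩ := (Submodule.fg_span_iff_fg_span_finset_subset S).1
    (IsNoetherian.noetherian (Submodule.span k S))
  have hpre : ∀ y : ι → k, ∃ a : C →₀ k, y ∈ s' → (∀ h, pr a (g h) = 0) ∧ prv φ a = y := by
    intro y
    by_cases hy : y ∈ s'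
    · obtain ⟨a, ha, hay⟩ := hs' hy
      exact ⟨a, fun _ => ⟨ha, hay⟩⟩
    · exact ⟨0, fun h => absurd h hy⟩
  choose a ha using hpre
  have hΛ : Submodule.span k (prv φ '' ((s'.image a : Finset (C →₀ k)) : Set (C →₀ k))) =
      Submodule.span k S := by
    rw [hspan, Finset.coe_image, ← Set.image_comp]
    congr 1
    ext y
    constructor
    · rintro ⟨y', hy', rfl⟩
      simpa [(ha y' hy').2] using hy'
    · intro hy
      exact ⟨y, hy, (ha y hy).2⟩
  set P := Submodule.span k S with hP
  obtain ⟨q, hq⟩ := LinearMap.exists_leftInverse_of_injective P.subtype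
    (Submodule.ker_subtype P)
  set r : (ι → k) →ₗ[k] (ι → k) := LinearMap.id - P.subtype ∘ₗ q with hr
  have hrP : ∀ y ∈ P, r y = 0 := by
    intro y hy
    have := LinearMap.congr_fun hq ⟨y, hy⟩
    rw [LinearMap.comp_apply, LinearMap.id_apply, Submodule.subtype_apply] at this
    rw [hr, LinearMap.sub_apply, LinearMap.comp_apply, LinearMap.id_apply, this,
      Submodule.subtype_apply, sub_self]
  have hrm : ∀ y, y - r y ∈ P := by
    intro y
    rw [hr, LinearMap.sub_apply, LinearMap.comp_apply, LinearMap.id_apply, sub_sub_cancel]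
    exact (q y).2
  have h1 : ∀ j, (fun c => r (fun i => φ i c) j) ∈
      Submodule.span k (g '' ((Finset.univ : Finset η) : Set η)) := by
    intro j
    by_contra hcon
    obtain ⟨b, hb1, hb2⟩ := exists_fun Finset.univ g _ hcon
    rw [map_prv, hrP] at hb2
    · exact zero_ne_one hb2
    · exact Submodule.subset_span ⟨b, fun h => hb1 h (Finset.mem_univ h), rfl⟩
  have h2 : ∀ j, ∃ π : η → k, ∀ c, r (fun i => φ i c) j = ∑ h, π h * g h c := by
    intro j
    have h3 := h1 j
    rw [Finset.coe_univ, Set.image_univ, Submodule.mem_span_range_iff_exists_fun] at h3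
    obtain ⟨π, hπ⟩ := h3
    refine ⟨π, fun c => ?_⟩
    have := congrFun hπ c
    rw [Finset.sum_apply] at this
    rw [← this]
    rfl
  choose π hπ using h2
  refine ⟨s'.image a, π, ?_, fun c => ?_⟩
  · intro b hb h
    obtain ⟨y, hy, rfl⟩ := Finset.mem_image.1 hb
    exact (ha y hy).1 h
  · rw [hΛ]
    have := hrm fun i => φ i c
    convert this using 1
    funext j
    rw [Pi.sub_apply, hπ]

/-- **Interpolation.** -/
theorem exists_interp {η : Type*} [Fintype η] (g : η → C → k) :
    ∃ S : Finset C, ∀ c, ∃ a : C →₀ k, a.support ⊆ S ∧ ∀ h, pr a (g h) = g h c := by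
  classical
  set V : C → (η → k) := fun c h => g h c with hV
  obtain ⟨s', hs', hspan⟩ := (Submodule.fg_span_iff_fg_span_finset_subset (Set.range V)).1
    (IsNoetherian.noetherian (Submodule.span k (Set.range V)))
  have h0 : ∃ S : Finset C, Submodule.span k (V '' (S : Set C)) =
      Submodule.span k (Set.range V) := by
    have : ∃ S : Finset C, (V '' (S : Set C)) = s' := by
      have hfin : (s' : Set (η → k)) ⊆ V '' Set.univ := by rwa [Set.image_univ]
      obtain ⟨S, _, hS2⟩ := Finset.subset_set_image_iff.1 hfin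
      exact ⟨S, by rw [← hS2, Finset.coe_image]⟩
    obtain ⟨S, hS⟩ := this
    exact ⟨S, by rw [hS, hspan]⟩
  obtain ⟨S, hS⟩ := h0
  refine ⟨S, fun c => ?_⟩
  have h1 : V c ∈ Submodule.span k (V '' (S : Set C)) := by
    rw [hS]
    exact Submodule.subset_span ⟨c, rfl⟩
  rw [Finsupp.mem_span_image_iff_linearCombination] at h1
  obtain ⟨a, ha, hac⟩ := h1
  refine ⟨a, (Finsupp.mem_supported _ _).1 ha, fun h => ?_⟩
  have h2 := congrFun hac h
  rw [Finsupp.linearCombination_apply, Finsupp.sum, Finset.sum_apply] at h2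
  rw [pr_apply]
  exact h2

end la

end Pool.Agent.TWCY
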