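import Pool.Agent.Lib.TWCY.Coc2

/-!
# The polynomial `λ(s, c)`

`exists_lam`: there is `lam : BB` with `res (Lc c) = evc c lam` for all `c`;
`(S1)`, `(S2)` when all exponents of the shape are divisible by `p`.
-/

set_option autoImplicit false

open MvPolynomial

namespace Pool.Agent.TWCY

open Pool.Agent.H15JM (RVal)
open Pool.Agent.LU1 (VPos)
open Pool.Agent.D2 (Ctx0)
open Pool.Agent.TWM
open Pool.Agent.TWS (IsoE SphC)
open Pool.Agent.TWLY
open TWIV.JW (BB sh cz)

universe u

variable {k Ω : Type u} [Field k] [Field Ω] [Algebra k Ω] {v : RVal Ω}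
  {W F : IntermediateField k Ω} {w : Fin 2 → Ω} {T : (Fin 2 → k) → Ω →ₐ[k] Ω} {D : Ω → Ω}
  {dd : Fin 2 → Ω → Ω}

section general

variable {K : Type*} [Field K]

theorem coeff_tr_eq (c : Fin 2 → K) (f : MvPolynomial (Fin 2) K) (g : Ex) :
    coeff g (TWLY.tr c f) = eval c (coeff g (sh K f)) := by
  classical
  induction f using MvPolynomial.induction_on generalizing g with
  | C a =>
    have h1 : TWLY.tr c (C a : MvPolynomial (Fin 2) K) = C a := by
      rw [← algebraMap_eq, AlgHom.commutes]
    have h2 : sh K (C a : MvPolynomial (Fin 2) K) = C (C a) := by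
      rw [← algebraMap_eq, AlgHom.commutes]
      rfl
    rw [h1, h2, coeff_C, coeff_C]
    split_ifs
    · rw [eval_C]
    · rw [map_zero]
  | add P Q hP hQ => rw [map_add, map_add, coeff_add, coeff_add, map_add, hP, hQ]
  | mul_X P i hP =>
    have h1 : TWLY.tr c (X i : MvPolynomial (Fin 2) K) = X i + C (c i) := by
      unfold TWLY.tr
      rw [aeval_X]
    have h2 : sh K (X i : MvPolynomial (Fin 2) K) = C (X i) + X i := by
      unfold sh
      rw [aeval_X]
    rw [map_mul, map_mul, h1, h2, mul_add, mul_add, coeff_add, coeff_add, coeff_mul_X',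
      coeff_mul_X', mul_comm _ (C (c i)), coeff_C_mul, mul_comm _ (C (X i : MvPolynomial (Fin 2) K)),
      coeff_C_mul, map_add, map_mul, eval_X, ← hP g]
    have e1 : (if i ∈ g.support then coeff (g - Finsupp.single i 1) (TWLY.tr c P) else 0) =
        eval c (if i ∈ g.support then coeff (g - Finsupp.single i 1) (sh K P) else 0) := by
      split_ifs
      · exact hP _
      · rw [map_zero]
    rw [e1]
    ring

theorem coeff_sh' (f : MvPolynomial (Fin 2) K) (g h : Ex) :
    coeff h (coeff g (sh K f)) = (bn g h : K) * coeff (g + h) f := coeff_sh f g h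

theorem coeff_zero_tr (c : Fin 2 → K) (f : MvPolynomial (Fin 2) K) :
    coeff 0 (TWLY.tr c f) = eval c f := by
  have := eval_tr c 0 f
  rw [zero_add] at this
  rw [← this, MvPolynomial.eval_zero, constantCoeff_eq]

/-- coefficients of degree one of a product -/
theorem coeff_single_mul (P Q : MvPolynomial (Fin 2) K) (i : Fin 2) :
    coeff (Finsupp.single i 1) (P * Q) =
      coeff 0 P * coeff (Finsupp.single i 1) Q + coeff (Finsupp.single i 1) P * coeff 0 Q := by
  classical
  rw [coeff_mul]
  have h1 : Finset.HasAntidiagonal.antidiagonal (Finsupp.single i 1 : Ex) =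
      {((0 : Ex), Finsupp.single i 1), (Finsupp.single i 1, 0)} := by
    ext ⟨a, b⟩
    rw [Finset.HasAntidiagonal.mem_antidiagonal, Finset.mem_insert, Finset.mem_singleton, Prod.mk.injEq,
      Prod.mk.injEq]
    constructor
    · intro h
      replace h : a + b = Finsupp.single i 1 := h
      have hz : ∀ j, j ≠ i → a j = 0 ∧ b j = 0 := by
        intro j hj
        have := DFunLike.congr_fun h j
        rw [Finsupp.add_apply, Finsupp.single_apply, if_neg (fun h0 => hj h0.symm)] at this
        exact ⟨by omega, by omega⟩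
      have hi := DFunLike.congr_fun h i
      rw [Finsupp.add_apply, Finsupp.single_apply, if_pos rfl] at hi
      rcases Nat.eq_zero_or_pos (a i) with h0 | h0
      · left
        refine ⟨?_, ?_⟩
        · ext j
          by_cases hj : j = i
          · subst hj
            exact h0
          · exact (hz j hj).1
        · ext j
          by_cases hj : j = i
          · subst hj
            rw [Finsupp.single_apply, if_pos rfl]
            omega
          · rw [Finsupp.single_apply, if_neg (fun h0 => hj h0.symm)]
            exact (hz j hj).2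
      · right
        refine ⟨?_, ?_⟩
        · ext j
          by_cases hj : j = i
          · subst hj
            rw [Finsupp.single_apply, if_pos rfl]
            omega
          · rw [Finsupp.single_apply, if_neg (fun h0 => hj h0.symm)]
            exact (hz j hj).1
        · ext j
          by_cases hj : j = i
          · subst hj
            change b j = 0
            omega
          · exact (hz j hj).2
    · rintro (⟨rfl, rfl⟩ | ⟨rfl, rfl⟩)
      · exact zero_add _
      · exact add_zero _
  rw [h1, Finset.sum_insert, Finset.sum_singleton]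
  rw [Finset.mem_singleton, Prod.mk.injEq]
  rintro ⟨h2, -⟩
  have := DFunLike.congr_fun h2 i
  rw [Finsupp.single_apply, if_pos rfl] at this
  exact zero_ne_one this

end general

section wpoly

/-- Induction on the polynomials over `W`. -/
theorem W_induction {P : MvPolynomial (Fin 2) Ω → Prop} (hC : ∀ a ∈ W, P (C a))
    (hadd : ∀ f g, (∀ m, coeff m f ∈ W) → (∀ m, coeff m g ∈ W) → P f → P g → P (f + g))
    (hX : ∀ f i, (∀ m, coeff m f ∈ W) → P f → P (f * X i)) {q : MvPolynomial (Fin 2) Ω}
    (hq : ∀ g, coeff g q ∈ W) : P q := by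
  set q' : MvPolynomial (Fin 2) W := ∑ m ∈ q.support, monomial m ⟨coeff m q, hq m⟩ with hq'
  have h1 : MvPolynomial.map (algebraMap W Ω) q' = q := by
    rw [hq', map_sum]
    conv_rhs => rw [q.as_sum]
    refine Finset.sum_congr rfl fun m _ => ?_
    rw [map_monomial]
    rfl
  have hmem : ∀ (q : MvPolynomial (Fin 2) W) (m : Ex),
      coeff m (MvPolynomial.map (algebraMap W Ω) q) ∈ W := by
    intro q m
    rw [coeff_map]
    exact (coeff m q).2
  rw [← h1]
  clear h1
  clear_value q'
  clear hq'
  induction q' using MvPolynomial.induction_on with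
  | C a =>
    rw [map_C]
    exact hC _ a.2
  | add f g hf hg =>
    rw [map_add]
    exact hadd _ _ (hmem f) (hmem g) hf hg
  | mul_X f i hf =>
    rw [map_mul, map_X]
    exact hX _ i (hmem f) hf

theorem Trn.eval_mem (hT : Trn v W F w T) {q : MvPolynomial (Fin 2) Ω}
    (hq : ∀ g, coeff g q ∈ W) : eval w q ∈ F := eval_mem' (fun g => hT.le (hq g)) hT.wF

theorem Trn.T_eval (hT : Trn v W F w T) (c : Fin 2 → k) {q : MvPolynomial (Fin 2) Ω}
    (hq : ∀ g, coeff g q ∈ W) : T c (eval w q) = eval (pt c) (TWLY.tr w q) := by
  rw [eval_tr]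
  refine W_induction (W := W) (P := fun q => T c (eval w q) = eval (pt c + w) q) ?_ ?_ ?_ hq
  · intro a ha
    rw [eval_C, eval_C, hT.fix c a ha]
  · intro f g _ _ hf hg
    rw [map_add, map_add, map_add, hf, hg]
  · intro f i _ hf
    rw [map_mul, map_mul, map_mul, hf, eval_X, eval_X, hT.wT]
    congr 1
    rw [add_comm]
    rfl

/-- `∂_i` on the polynomials in `w`. -/
theorem dd_eval (hT : Trn v W F w T) (hdd : DDi v W F w dd) (i : Fin 2)
    {q : MvPolynomial (Fin 2) Ω} (hq : ∀ g, coeff g q ∈ W) :
    dd i (eval w q) = coeff (Finsupp.single i 1) (TWLY.tr w q) := by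
  have hi : (Finsupp.single i 1 : Ex) ≠ 0 := by
    intro h
    have := DFunLike.congr_fun h i
    rw [Finsupp.single_apply, if_pos rfl] at this
    exact one_ne_zero this
  refine W_induction (W := W)
    (P := fun q => dd i (eval w q) = coeff (Finsupp.single i 1) (TWLY.tr w q)) ?_ ?_ ?_ hq
  · intro a ha
    have h1 : TWLY.tr w (C a : MvPolynomial (Fin 2) Ω) = C a := by
      rw [← algebraMap_eq, AlgHom.commutes]
    rw [eval_C, hdd.dW i a ha, h1, coeff_C, if_neg (fun h => hi h.symm)]
  · intro f g hf0 hg0 hf hg
    rw [map_add, map_add, coeff_add, (hdd.drv i).add _ (hT.eval_mem hf0) _ (hT.eval_mem hg0),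
      hf, hg]
  · intro f j hf0 hf
    have h1 : TWLY.tr w (X j : MvPolynomial (Fin 2) Ω) = X j + C (w j) := by
      unfold TWLY.tr
      rw [aeval_X]
    rw [map_mul, map_mul, eval_X, (hdd.drv i).mul _ (hT.eval_mem hf0) _ (hT.wF j), hf,
      coeff_single_mul, coeff_zero_tr, h1, coeff_add, coeff_add, hdd.dw]
    have h2 : coeff (Finsupp.single i 1) (X j : MvPolynomial (Fin 2) Ω) =
        if i = j then 1 else 0 := by
      classical
      rw [coeff_X]
      by_cases hij : i = j
      · subst hij
        rw [if_pos rfl, if_pos rfl]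
      · rw [if_neg hij, if_neg]
        intro h0
        have := DFunLike.congr_fun h0 i
        rw [Finsupp.single_apply, Finsupp.single_apply, if_pos rfl, if_neg (fun h => hij h.symm)]
          at this
        exact zero_ne_one this
    have h3 : coeff 0 (X j : MvPolynomial (Fin 2) Ω) = 0 := by
      rw [← constantCoeff_eq]
      exact constantCoeff_X _ j
    have h4 : coeff (Finsupp.single i 1) (C (w j) : MvPolynomial (Fin 2) Ω) = 0 := by
      rw [coeff_C, if_neg (fun h => hi h.symm)]
    rw [h2, h3, h4, coeff_C, if_pos rfl]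
    ring

end wpoly

end Pool.Agent.TWCY
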