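import Pool.Agent.Lib.TWCY.Lam

/-!
# The polynomial `λ(s, c)`, II

* `Lg`: the coefficient `g` of `Lc c` as a polynomial in `c` (modulo small elements);
* `exists_lam`: `lam : BB` with `res (Lc c) = evc c lam` for all `c`, and (S1), (S2).
-/

set_option autoImplicit false

open MvPolynomial

namespace Pool.Agent.TWCY

open Pool.Agent.H15JM (RVal)
open Pool.Agent.LU1 (VPos)
open Pool.Agent.D2 (Ctx0)
open Pool.Agent.TWM
open Pool.Agent.TWS (IsoE SphC)
open Pool.Agent.TWLY
open TWIV.JW (BB sh cz)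

universe u

variable {k Ω : Type u} [Field k] [Field Ω] [Algebra k Ω] {v : RVal Ω}
  {W F : IntermediateField k Ω} {w : Fin 2 → Ω} {T : (Fin 2 → k) → Ω →ₐ[k] Ω} {D : Ω → Ω}
  {dd : Fin 2 → Ω → Ω}

section lam

variable {ι : Type} [Fintype ι] {z : Ω} {n : ι → Ω} {N : ι → MvPolynomial (Fin 2) k}
  {f : MvPolynomial (Fin 2) Ω} {b : ι → Ex}

theorem VPos.map' {T : Ω →ₐ[k] Ω} (hT : IsoE v v T) {x : Ω} (hx : VPos v x) : VPos v (T x) := by
  rw [← rs_zero_iff (k := k)] at hx ⊢
  exact hx.map hT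

/-- Polynomials over `W` near the coefficients of `f`. -/
theorem Trn.exists_q (hT : Trn v W F w T) (hf : ∀ g, coeff g f ∈ F) :
    ∃ q : Ex → MvPolynomial (Fin 2) Ω, (∀ g h, coeff h (q g) ∈ W) ∧
      (∀ g, VPos v (coeff g f - eval w (q g))) ∧ ∀ g, coeff g f = 0 → q g = 0 := by
  classical
  have h1 : ∀ g, ∃ q : MvPolynomial (Fin 2) Ω, (∀ h, coeff h q ∈ W) ∧
      VPos v (coeff g f - eval w q) ∧ (coeff g f = 0 → q = 0) := by
    intro g
    by_cases h0 : coeff g f = 0
    · refine ⟨0, fun h => by rw [coeff_zero]; exact zero_mem _, ?_, fun _ => rfl⟩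
      rw [h0, map_zero, sub_zero]
      exact VPos.zero
    · obtain ⟨q, hq, h2⟩ := hT.dns _ (hf g) 1
      exact ⟨q, hq, vpos_of_ge one_pos h2, fun h => absurd h h0⟩
  choose q h2 h3 h4 using h1
  exact ⟨q, h2, h3, h4⟩

/-- The coefficient `g` of `Lc c`, as a polynomial in `c`. -/
noncomputable def Lg (w : Fin 2 → Ω) (q : Ex → MvPolynomial (Fin 2) Ω)
    (N : ι → MvPolynomial (Fin 2) k) (f : MvPolynomial (Fin 2) Ω) (b : ι → Ex) (g : Ex) :
    MvPolynomial (Fin 2) Ω :=
  TWLY.tr w (q g) + ∑ l, C (algebraMap k Ω (coeff g (N l))) * coeff (b l) (sh Ω f) +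
    (if g = 0 then f else 0) - coeff g (sh Ω f)

theorem coeff_Lc (c : Fin 2 → k) (g : Ex) : coeff g (Lc T N f b c) =
    T c (coeff g f) + ∑ l, algebraMap k Ω (coeff g (N l)) * psi f b c l +
      (if g = 0 then eval (pt c) f else 0) - coeff g (TWLY.tr (pt c) f) := by
  unfold Lc
  rw [coeff_sub, coeff_add, coeff_add, coeff_map, coeff_sum, coeff_C]
  congr 2
  · congr 1
    refine Finset.sum_congr rfl fun l _ => ?_
    rw [coeff_C_mul, coeff_map, mul_comm]
  · by_cases hg : g = 0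
    · rw [if_pos hg, if_pos hg.symm]
    · rw [if_neg hg, if_neg fun h => hg h.symm]

theorem eval_Lg (hT : Trn v W F w T) {q : Ex → MvPolynomial (Fin 2) Ω}
    (hq : ∀ g h, coeff h (q g) ∈ W) (c : Fin 2 → k) (g : Ex) :
    eval (pt c) (Lg w q N f b g) = coeff g (Lc T N f b c) - T c (coeff g f - eval w (q g)) := by
  rw [coeff_Lc, map_sub, hT.T_eval c (hq g)]
  unfold Lg
  rw [map_sub, map_add, map_add, map_sum, ← coeff_tr_eq]
  have h1 : ∑ l, eval (pt c) (C (algebraMap k Ω (coeff g (N l))) * coeff (b l) (sh Ω f)) =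
      ∑ l, algebraMap k Ω (coeff g (N l)) * psi f b c l := by
    refine Finset.sum_congr rfl fun l _ => ?_
    rw [map_mul, eval_C, ← coeff_tr_eq]
    rfl
  have h2 : eval (pt c) (if g = 0 then f else 0) = if g = 0 then eval (pt c) f else 0 := by
    split_ifs
    · rfl
    · rw [map_zero]
  rw [h1, h2]
  ring

theorem Lg_eq_zero {q : Ex → MvPolynomial (Fin 2) Ω} (hq0 : ∀ g, coeff g f = 0 → q g = 0)
    {S : Finset Ex} (hS0 : 0 ∈ S) (hSf : ∀ g ∉ S, coeff g f = 0) (hSN : ∀ g ∉ S, ∀ l, coeff g (N l) = 0)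
    (hSs : ∀ g ∉ S, coeff g (sh Ω f) = 0) {g : Ex} (hg : g ∉ S) : Lg w q N f b g = 0 := by
  unfold Lg
  rw [hq0 g (hSf g hg), hSs g hg, map_zero, if_neg, Finset.sum_eq_zero]
  · simp
  · intro l _
    rw [hSN g hg l, map_zero, C_0, zero_mul]
  · rintro rfl
    exact hg hS0

theorem exists_S (N : ι → MvPolynomial (Fin 2) k) (f : MvPolynomial (Fin 2) Ω) :
    ∃ S : Finset Ex, 0 ∈ S ∧ (∀ g ∉ S, coeff g f = 0) ∧ (∀ g ∉ S, ∀ l, coeff g (N l) = 0) ∧
      ∀ g ∉ S, coeff g (sh Ω f) = 0 := by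
  classical
  refine ⟨{0} ∪ f.support ∪ (Finset.univ.biUnion fun l => (N l).support) ∪ (sh Ω f).support,
    ?_, ?_, ?_, ?_⟩
  · simp
  · intro g hg
    rw [← notMem_support_iff]
    intro h
    exact hg (by simp only [Finset.mem_union]; tauto)
  · intro g hg l
    rw [← notMem_support_iff]
    intro h
    refine hg ?_
    simp only [Finset.mem_union, Finset.mem_biUnion, Finset.mem_univ, true_and]
    exact Or.inl (Or.inr ⟨l, h⟩)
  · intro g hg
    rw [← notMem_support_iff]
    intro h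
    exact hg (by simp only [Finset.mem_union]; tauto)

variable [DecidableEq ι] [Infinite k]

theorem Shp.ge_Lg (hk : Ctx0 k v) (hT : Trn v W F w T) (h : Shp v F T z n N f b)
    {q : Ex → MvPolynomial (Fin 2) Ω} (hq : ∀ g h, coeff h (q g) ∈ W)
    (hq1 : ∀ g, VPos v (coeff g f - eval w (q g))) (g m : Ex) :
    v.Ge 0 (coeff m (Lg w q N f b g)) := by
  refine ge_coeff hk (fun c => ?_) m
  rw [eval_Lg hT hq]
  exact (h.ge_Lc hk hT c g).sub (VPos.map' (hT.iso c) (hq1 g)).ge

/-- **The polynomial `λ`.** -/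
theorem Shp.exists_lam (hk : Ctx0 k v) (hT : Trn v W F w T) (h : Shp v F T z n N f b) :
    ∃ (lam : BB (Fin 2) k) (q : Ex → MvPolynomial (Fin 2) Ω),
      (∀ g h, coeff h (q g) ∈ W) ∧ (∀ g, VPos v (coeff g f - eval w (q g))) ∧
      (∀ c g, Rs v (coeff g (Lc T N f b c)) (coeff g (evc c lam))) ∧
      ∀ g m, Rs v (coeff m (Lg w q N f b g)) (coeff g (coeff m lam)) := by
  classical
  obtain ⟨q, hq, hq1, hq0⟩ := hT.exists_q h.fF
  obtain ⟨S, hS0, hSf, hSN, hSs⟩ := exists_S (Ω := Ω) N f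
  choose μ hμ using fun g => exists_rs hk (h.ge_Lg hk hT hq hq1 g)
  have hμ0 : ∀ g ∉ S, μ g = 0 := by
    intro g hg
    ext m
    have h1 := hμ g m
    rw [Lg_eq_zero hq0 hS0 hSf hSN hSs hg, coeff_zero] at h1
    rw [coeff_zero]
    exact Rs.unique hk h1 Rs.zero
  have hcz : ∀ (P : MvPolynomial (Fin 2) k) (m : Ex),
      coeff m (cz k P) = C (coeff m P) := fun P m => coeff_cz m P
  refine ⟨∑ g ∈ S, cz k (μ g) * C (monomial g 1), q, hq, hq1, fun c g => ?_, fun g m => ?_⟩
  · have h1 : coeff g (evc c (∑ g ∈ S, cz k (μ g) * C (monomial g 1))) = eval c (μ g) := by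
      rw [map_sum, coeff_sum]
      have h2 : ∀ g', coeff g (evc c (cz k (μ g') * C (monomial g' 1))) =
          if g' = g then eval c (μ g') else 0 := by
        intro g'
        rw [map_mul, evc_cz, evc_C, coeff_C_mul, coeff_monomial]
        split_ifs
        · rw [mul_one]
        · rw [mul_zero]
      simp_rw [h2]
      by_cases hg : g ∈ S
      · rw [Finset.sum_eq_single_of_mem g hg, if_pos rfl]
        intro g' _ hg'
        rw [if_neg hg']
      · rw [Finset.sum_eq_zero, hμ0 g hg, map_zero]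
        intro g' hg'
        rw [if_neg]
        rintro rfl
        exact hg hg'
    rw [h1]
    have h3 := rs_eval hk (hμ g) c
    rw [eval_Lg hT hq] at h3
    refine h3.congr ?_
    rw [sub_sub_cancel]
    exact VPos.map' (hT.iso c) (hq1 g)
  · have h1 : coeff g (coeff m (∑ g ∈ S, cz k (μ g) * C (monomial g 1))) = coeff m (μ g) := by
      rw [coeff_sum, coeff_sum]
      have h2 : ∀ g', coeff g (coeff m (cz k (μ g') * C (monomial g' 1))) =
          if g' = g then coeff m (μ g') else 0 := by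
        intro g'
        rw [mul_comm, coeff_C_mul, hcz, mul_comm, coeff_C_mul, coeff_monomial]
        split_ifs
        · rw [mul_one]
        · rw [mul_zero]
      simp_rw [h2]
      by_cases hg : g ∈ S
      · rw [Finset.sum_eq_single_of_mem g hg, if_pos rfl]
        intro g' _ hg'
        rw [if_neg hg']
      · rw [Finset.sum_eq_zero, hμ0 g hg, coeff_zero]
        intro g' hg'
        rw [if_neg]
        rintro rfl
        exact hg hg'
    rw [h1]
    exact hμ g m

end lam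

end Pool.Agent.TWCY
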