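import Pool.Agent.Lib.TWCY.Core

/-!
# CT, j = 1, abelian case: motions of `F`

* `pw`: a motion is small at a fixed element of `W`; `MI`, `dns`: the polynomials in `w` are dense;
* `coeff_of_pt`: Vandermonde in two variables;
* `Mot.exists_za`, `rowTie`, `rowSm`, `rowZb`.
-/

set_option autoImplicit false

open MvPolynomial

namespace Pool.Agent.TWCY

open Pool.Agent.H15JM (RVal)
open Pool.Agent.LU1 (VPos)
open Pool.Agent.D2 (Ctx0)
open Pool.Agent.D2P (clI mem_clI)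
open Pool.Agent.TWM
open Pool.Agent.TWS (IsoE SphC)
open Pool.Agent.TWII (PG LP)
open Pool.Agent.TWN1 (Par Unh Nrm)
open Pool.Agent.TWCT (SMo)
open Pool.Agent.TWLY

universe u

variable {k Ω : Type u} [Field k] [Field Ω] [Algebra k Ω] {v : RVal Ω}
  {L : ℕ → IntermediateField k Ω} {A W F K : IntermediateField k Ω}

/-! ### Polynomials over `W` -/

/-- The polynomials over `W`. -/
def MI (W : IntermediateField k Ω) : Subring (MvPolynomial (Fin 2) Ω) where
  carrier := {q | ∀ g, coeff g q ∈ W}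
  mul_mem' := by
    classical
    intro a b ha hb g
    rw [coeff_mul]
    exact sum_mem fun x _ => mul_mem (ha _) (hb _)
  one_mem' := by
    classical
    intro g
    rw [coeff_one]
    split_ifs
    · exact one_mem _
    · exact zero_mem _
  add_mem' := fun ha hb g => by
    rw [coeff_add]
    exact add_mem (ha g) (hb g)
  zero_mem' := fun g => by
    rw [coeff_zero]
    exact zero_mem _
  neg_mem' := fun ha g => by
    rw [coeff_neg]
    exact neg_mem (ha g)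

theorem mem_MI {q : MvPolynomial (Fin 2) Ω} : q ∈ MI W ↔ ∀ g, coeff g q ∈ W := Iff.rfl

theorem C_mem_MI {a : Ω} (ha : a ∈ W) : (C a : MvPolynomial (Fin 2) Ω) ∈ MI W := by
  classical
  intro g
  rw [coeff_C]
  split_ifs
  · exact ha
  · exact zero_mem _

theorem X_mem_MI (i : Fin 2) : (X i : MvPolynomial (Fin 2) Ω) ∈ MI W := by
  classical
  intro g
  rw [coeff_X]
  split_ifs
  · exact one_mem _
  · exact zero_mem _

theorem eval_mem_MI {q : MvPolynomial (Fin 2) Ω} (hq : q ∈ MI W) {x : Fin 2 → Ω}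
    (hx : ∀ i, x i ∈ W) : eval x q ∈ W := by
  rw [eval_eq]
  exact sum_mem fun g _ => mul_mem (hq g) (prod_mem fun i _ => pow_mem (hx i) _)

/-- A polynomial in one variable, as a polynomial in `X i`. -/
theorem exists_mv_of_PI {g : Polynomial Ω} (hg : g ∈ PI W) (i : Fin 2) :
    ∃ q ∈ MI W, ∀ x : Fin 2 → Ω, eval x q = g.eval (x i) := by
  refine ⟨g.sum fun n a => C a * X i ^ n, ?_, fun x => ?_⟩
  · rw [Polynomial.sum_def]
    exact sum_mem fun n _ => mul_mem (C_mem_MI (hg n)) (pow_mem (X_mem_MI i) _)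
  · rw [Polynomial.sum_def, map_sum, Polynomial.eval_eq_sum, Polynomial.sum_def]
    exact Finset.sum_congr rfl fun n _ => by rw [map_mul, map_pow, eval_C, eval_X]

/-- **The polynomials in `w` are dense in `F`.** -/
theorem dns [IsAlgClosed Ω] {w : Fin 2 → Ω} {r₀ r₁ : ℝ} (h : Par v W F (w 0) r₀ (w 1) r₁) {y : Ω} (hy : y ∈ F) (r : ℝ) :
    ∃ q ∈ MI W, v.Ge r (y - eval w q) := by
  classical
  rw [h.eq1] at hy
  obtain ⟨f, hf, h1⟩ := h.t21.dense hy r
  obtain ⟨m, hm⟩ : ∃ m : ℝ, v.Ge m (w 1) := ⟨v (w 1), fun _ => le_rfl⟩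
  have h2 : ∀ i : ℕ, ∃ g ∈ PI W, v.Ge (r - i * m) (f.coeff i - g.eval (w 0)) := fun i =>
    h.t1.dense (hf i) _
  choose g hg h3 using h2
  choose q hq h4 using fun i => exists_mv_of_PI (hg i) 0
  refine ⟨∑ i ∈ f.support, q i * X 1 ^ i, sum_mem fun i _ => mul_mem (hq i)
    (pow_mem (X_mem_MI 1) _), ?_⟩
  have e : y - eval w (∑ i ∈ f.support, q i * X 1 ^ i) = (y - f.eval (w 1)) +
      ∑ i ∈ f.support, (f.coeff i - (g i).eval (w 0)) * w 1 ^ i := by
    rw [map_sum, Polynomial.eval_eq_sum, Polynomial.sum_def]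
    have e1 : ∑ i ∈ f.support, (f.coeff i - (g i).eval (w 0)) * w 1 ^ i =
        ∑ i ∈ f.support, f.coeff i * w 1 ^ i - ∑ i ∈ f.support, eval w (q i * X 1 ^ i) := by
      rw [← Finset.sum_sub_distrib]
      refine Finset.sum_congr rfl fun i _ => ?_
      rw [map_mul, map_pow, eval_X, h4]
      ring
    rw [e1]
    ring
  rw [e]
  refine h1.add (RVal.Ge.sum _ _ fun i _ => ?_)
  refine ((h3 i).mul (ge_pow hm i)).mono ?_
  linarith

/-! ### Small motions -/

/-- **A motion is small at a fixed element.** -/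
theorem pw (hL : Monotone L) (hd : W ≤ clI v (⨆ J, L J)) {y : Ω} (hy : y ∈ W) (B : ℝ) :
    ∃ J₀ : ℕ, ∀ J ≥ J₀, ∀ (Φ : Ω →ₐ[k] Ω) (η : ℝ), SMo v (L J) W Φ η → v.Ge B (Φ y - y) := by
  obtain ⟨c, h2, h3⟩ := (mem_clI.1 (hd hy)) B
  have h2' : c ∈ ((⨆ n, L n : IntermediateField k Ω) : Set Ω) := h2
  rw [IntermediateField.coe_iSup_of_directed hL.directed_le, Set.mem_iUnion] at h2'
  obtain ⟨J₀, h4⟩ := h2'
  refine ⟨J₀, fun J hJ Φ η hΦ => ?_⟩
  have h5 : v.Ge B (y - c) := h3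
  have e : Φ y - y = Φ (y - c) - (y - c) := by
    rw [map_sub, hΦ.fix c (hL hJ h4)]
    ring
  rw [e]
  exact (hΦ.iso.ge_iff.2 h5).sub h5

/-- The same for finitely many elements. -/
theorem pw_fin (hL : Monotone L) (hd : W ≤ clI v (⨆ J, L J)) (S : Finset Ω) (hS : ∀ y ∈ S, y ∈ W)
    (B : ℝ) : ∃ J₀ : ℕ, ∀ J ≥ J₀, ∀ (Φ : Ω →ₐ[k] Ω) (η : ℝ), SMo v (L J) W Φ η →
      ∀ y ∈ S, v.Ge B (Φ y - y) := by
  classical
  induction S using Finset.induction_on with
  | empty => exact ⟨0, fun _ _ _ _ _ y hy => absurd hy (Finset.notMem_empty y)⟩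
  | insert a S _ ih =>
    obtain ⟨J₁, h1⟩ := ih fun y hy => hS y (Finset.mem_insert_of_mem hy)
    obtain ⟨J₂, h2⟩ := pw hL hd (hS a (Finset.mem_insert_self a S)) B
    refine ⟨max J₁ J₂, fun J hJ Φ η hΦ y hy => ?_⟩
    rcases Finset.mem_insert.1 hy with rfl | hy
    · exact h2 J ((le_max_right _ _).trans hJ) Φ η hΦ
    · exact h1 J ((le_max_left _ _).trans hJ) Φ η hΦ y hy

/-- The displacements of `w` are small. -/
theorem Mot.small {w : Fin 2 → Ω} (hL : Monotone L) (hd : W ≤ clI v (⨆ J, L J))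
    (hw : ∀ i, Lim v W 0 (w i)) {ε : ℝ} (hε : 0 < ε) : ∃ J₀ : ℕ, ∀ J ≥ J₀, ∀ (X : Fin 2 → Ω)
      (Φ : Ω →ₐ[k] Ω) (η : ℝ), Mot v (L J) W F w X Φ η → ∀ i, v.Ge (-ε) (X i) := by
  choose c hc h1 using fun i => hw i ε hε
  choose J h2 using fun i => pw hL hd (hc i) (0 : ℝ)
  refine ⟨max (J 0) (J 1), fun J' hJ' X Φ η h i => ?_⟩
  have hJi : J i ≤ J' := by
    refine le_trans ?_ hJ'
    fin_cases i
    · exact le_max_left _ _
    · exact le_max_right _ _
  have h3 := h2 i J' hJi Φ η h.mW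
  have e : X i = (Φ (w i - c i) - (w i - c i)) + (Φ (c i) - c i) := by
    rw [map_sub, h.mov]
    ring
  rw [e]
  have h4 : v.Ge (-ε) (w i - c i) := (h1 i).mono (by linarith)
  exact ((h.mW.iso.ge_iff.2 h4).sub h4).add (h3.mono (by linarith))

/-- The displacement of `z` exists. -/
theorem Mot.exists_za {w X : Fin 2 → Ω} {Φ : Ω →ₐ[k] Ω} {η : ℝ} (h : Mot v A W F w X Φ η) {z : Ω}
    (hz : Lim v F 0 z) : ∃ Za, ZaD v F Φ η z Za := by
  have hη := h.mF.pos
  obtain ⟨θ₀, hθ₀, h1⟩ := hz (η / 2) (by linarith)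
  rw [zero_sub] at h1
  refine ⟨Φ θ₀ - θ₀, sub_mem (h.mF.mem hθ₀) hθ₀, fun θ hθ h2 => ?_⟩
  have e : Φ θ - θ - (Φ θ₀ - θ₀) = Φ (θ - θ₀) - (θ - θ₀) := by
    rw [map_sub]
    ring
  rw [e]
  have h3 : v.Ge (-(η / 2)) (θ - θ₀) := by
    have e2 : θ - θ₀ = (z - θ₀) - (z - θ) := by ring
    rw [e2]
    exact h1.sub h2
  exact Gt.of_ge (h.mF.str _ (sub_mem hθ hθ₀) _ h3) (by linarith)

/-! ### Vandermonde -/

/-- **Vandermonde in two variables.** -/
theorem coeff_mem_of_pt [Infinite k] (V : Submodule k Ω) (q : MvPolynomial (Fin 2) Ω)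
    (h : ∀ c : Fin 2 → k, eval (pt c) q ∈ V) (m : Ex) : coeff m q ∈ V := by
  classical
  by_contra hm
  obtain ⟨φ, hφ, hV⟩ := Submodule.exists_le_ker_of_notMem hm
  set G : MvPolynomial (Fin 2) k := ∑ n ∈ q.support, monomial n (φ (coeff n q)) with hG
  have h0 : G = 0 := by
    refine MvPolynomial.funext fun c => ?_
    have h1 : eval (pt c) q = ∑ n ∈ q.support, (∏ i, c i ^ n i) • coeff n q := by
      rw [eval_eq']
      refine Finset.sum_congr rfl fun n _ => ?_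
      rw [Algebra.smul_def, mul_comm, map_prod]
      congr 1
      refine Finset.prod_congr rfl fun i _ => ?_
      rw [map_pow, pt]
    have h2 : φ (eval (pt c) q) = 0 := hV (h c)
    rw [h1, map_sum] at h2
    rw [map_zero, ← h2, hG, map_sum]
    refine Finset.sum_congr rfl fun n _ => ?_
    rw [map_smul, eval_monomial, smul_eq_mul, mul_comm, Finsupp.prod_fintype _ _ (by simp)]
  have h3 : coeff m G = φ (coeff m q) := by
    rw [hG, coeff_sum]
    simp_rw [coeff_monomial]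
    rw [Finset.sum_ite_eq']
    split_ifs with h4
    · rfl
    · rw [notMem_support_iff.mp h4, map_zero]
  rw [h0, coeff_zero] at h3
  exact hφ h3.symm

/-- The elements of value `≥ r`. -/
def sz (hk : Ctx0 k v) (r : ℝ) : Submodule k Ω where
  carrier := {y | v.Ge r y}
  add_mem' := fun ha hb => ha.add hb
  zero_mem' := RVal.Ge.zero
  smul_mem' := fun c y hy => by
    show v.Ge r (c • y)
    rw [Algebra.smul_def]
    have := (hk.ge c).mul hy
    rwa [zero_add] at this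

theorem ge_coeff_of_pt [Infinite k] (hk : Ctx0 k v) {r : ℝ} {q : MvPolynomial (Fin 2) Ω}
    (h : ∀ c : Fin 2 → k, v.Ge r (eval (pt c) q)) (m : Ex) : v.Ge r (coeff m q) :=
  coeff_mem_of_pt (sz hk r) q h m

/-! ### Evaluation at `w + s` -/

theorem eval_shA (w : Fin 2 → Ω) (q : MvPolynomial (Fin 2) Ω) (s : Fin 2 → Ω) :
    eval s (shA w q) = eval (w + s) q - eval w q := by
  rw [shA, map_sub, eval_C]
  congr 1
  have h : ((eval s).comp (bind₁ fun i => (C (w i) + X i : MvPolynomial (Fin 2) Ω)).toRingHom) =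
      eval (w + s) := by
    apply MvPolynomial.ringHom_ext
    · intro a
      simp
    · intro i
      simp
  exact RingHom.congr_fun h q

/-- A homomorphism at the value of a polynomial. -/
theorem map_eval_eq (Φ : Ω →ₐ[k] Ω) (q : MvPolynomial (Fin 2) Ω) (x : Fin 2 → Ω) :
    Φ (eval x q) = eval (fun i => Φ (x i)) (MvPolynomial.map (Φ : Ω →+* Ω) q) := by
  rw [MvPolynomial.eval_map, eval₂_eq', eval_eq', map_sum]
  refine Finset.sum_congr rfl fun g _ => ?_
  rw [map_mul, map_prod]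
  congr 1
  exact Finset.prod_congr rfl fun i _ => map_pow _ _ _

theorem map_eq_of_fix {Φ : Ω →ₐ[k] Ω} {q : MvPolynomial (Fin 2) Ω} (hq : q ∈ MI W)
    (h : ∀ y ∈ W, Φ y = y) : MvPolynomial.map (Φ : Ω →+* Ω) q = q := by
  ext g
  rw [coeff_map]
  exact h _ (hq g)

theorem map_mem_MI {Φ : Ω →ₐ[k] Ω} {q : MvPolynomial (Fin 2) Ω} (hq : q ∈ MI W)
    (h : ∀ y ∈ W, Φ y ∈ W) : MvPolynomial.map (Φ : Ω →+* Ω) q ∈ MI W := fun g => by
  rw [coeff_map]
  exact h _ (hq g)

theorem mem_MI_mono (h : W ≤ F) {q : MvPolynomial (Fin 2) Ω} (hq : q ∈ MI W) : q ∈ MI F :=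
  fun g => h (hq g)

section Trn

variable {w X : Fin 2 → Ω} {T : (Fin 2 → k) → Ω →ₐ[k] Ω} {Φ : Ω →ₐ[k] Ω} {η : ℝ}

theorem Trn.eval (hT : Trn v W F w T) {q : MvPolynomial (Fin 2) Ω} (hq : q ∈ MI W)
    (c : Fin 2 → k) (s : Fin 2 → Ω) (hs : ∀ i, s i ∈ W) :
    T c (MvPolynomial.eval (w + s) q) = MvPolynomial.eval (w + s + pt c) q := by
  rw [map_eval_eq, map_eq_of_fix hq (hT.fix c)]
  congr 1
  congr 1
  funext i
  simp only [Pi.add_apply]
  rw [map_add, hT.wT, hT.fix c _ (hs i)]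
  show w i + algebraMap k Ω (c i) + s i = w i + s i + algebraMap k Ω (c i)
  ring

theorem Mot.eval (h : Mot v A W F w X Φ η) (q : MvPolynomial (Fin 2) Ω) (c : Fin 2 → k) :
    Φ (MvPolynomial.eval (w + pt c) q) =
      MvPolynomial.eval (w + X + pt c) (MvPolynomial.map (Φ : Ω →+* Ω) q) := by
  rw [map_eval_eq]
  congr 1
  congr 1
  funext i
  simp only [Pi.add_apply]
  rw [map_add, h.mov]
  show w i + X i + Φ (algebraMap k Ω (c i)) = w i + X i + algebraMap k Ω (c i)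
  rw [AlgHom.commutes]

/-- The translations commute with the motions on `F`. -/
theorem Mot.comm [IsAlgClosed Ω] (h : Mot v A W F w X Φ η) (hT : Trn v W F w T)
    {r₀ r₁ : ℝ} (hP : Par v W F (w 0) r₀ (w 1) r₁) (c : Fin 2 → k) {y : Ω} (hy : y ∈ F) :
    T c (Φ y) = Φ (T c y) := by
  refine sub_eq_zero.1 (TWLM.eq_zero_of_ge (v := v) fun r => ?_)
  obtain ⟨q, hq, h1⟩ := dns hP hy r
  have h2 : T c (Φ (MvPolynomial.eval w q)) = Φ (T c (MvPolynomial.eval w q)) := by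
    have e0 : MvPolynomial.eval w q = MvPolynomial.eval (w + pt (0 : Fin 2 → k)) q := by
      congr 2
      funext i
      simp [pt]
    have e1 : MvPolynomial.eval w q = MvPolynomial.eval (w + 0) q := by rw [add_zero]
    have e2 : T c (MvPolynomial.eval w q) = MvPolynomial.eval (w + pt c) q := by
      rw [e1, hT.eval hq c 0 fun _ => zero_mem _, add_zero]
    rw [e2, h.eval, e0, h.eval]
    have e3 : w + X + pt (0 : Fin 2 → k) = w + X := by
      funext i
      simp [pt]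
    rw [e3, hT.eval (map_mem_MI hq fun y hy => h.mW.mem hy) c X h.XW]
  have e : T c (Φ y) - Φ (T c y) = T c (Φ (y - MvPolynomial.eval w q)) -
      Φ (T c (y - MvPolynomial.eval w q)) := by
    rw [map_sub, map_sub, map_sub, map_sub, h2]
    ring
  rw [e]
  exact ((hT.iso c).ge_iff.2 (h.mW.iso.ge_iff.2 h1)).sub (h.mW.iso.ge_iff.2 ((hT.iso c).ge_iff.2 h1))

end Trn

end Pool.Agent.TWCY
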