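import Pool.Agent.Lib.TWCY.Mot
import Pool.Agent.Lib.TWCY.Der

/-!
# CT, j = 1, abelian case: the rows (T), small, Zb

* `rowZb`, `rowSm`, `rowTie`.
-/

set_option autoImplicit false

open MvPolynomial

namespace Pool.Agent.TWCY

open Pool.Agent.H15JM (RVal)
open Pool.Agent.LU1 (VPos)
open Pool.Agent.D2 (Ctx0)
open Pool.Agent.D2P (clI mem_clI)
open Pool.Agent.TWM
open Pool.Agent.TWS (IsoE SphC)
open Pool.Agent.TWII (PG LP)
open Pool.Agent.TWN1 (Par Unh Nrm)
open Pool.Agent.TWCT (SMo)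
open Pool.Agent.TWLY

universe u

variable {k Ω : Type u} [Field k] [Field Ω] [Algebra k Ω] {v : RVal Ω}
  {L : ℕ → IntermediateField k Ω} {A W F K : IntermediateField k Ω} {w X : Fin 2 → Ω}
  {x z a : Ω} {R : Rec k Ω} {Φ : Ω →ₐ[k] Ω} {η : ℝ} {Za : Ω} {p : ℕ}

/-! ### The shape over `F` -/

/-- Approximation of the shape by a polynomial over `F`. -/
theorem exists_yy (hk : Ctx0 k v) {T : (Fin 2 → k) → Ω →ₐ[k] Ω} {m : ℕ} {n : Fin m → Ω}
    {N : Fin m → MvPolynomial (Fin 2) k} {f : MvPolynomial (Fin 2) Ω} {b : Fin m → Ex}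
    (h : Shp v F T z n N f b) {ε : ℝ} (hε : 0 < ε) : ∃ yy ∈ MI F,
      (∀ g, coeff g yy ≠ 0 → coeff g f ≠ 0 ∨ ∃ j, coeff g (N j) ≠ 0) ∧
      ∀ c : Fin 2 → k, v.Ge (-ε) (eval (pt c) (uu n N f) - eval (pt c) yy) := by
  classical
  choose θ hθ h1 using fun j => h.lim j ε hε
  have hc : ∀ (n : Fin m → Ω) g, coeff g (uu n N f) =
      ∑ j, n j * algebraMap k Ω (coeff g (N j)) + coeff g f := fun n g => by
    rw [uu, coeff_add, coeff_sum]
    congr 1
    exact Finset.sum_congr rfl fun j _ => by rw [coeff_C_mul, coeff_map]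
  refine ⟨uu θ N f, fun g => ?_, fun g hg => ?_, fun c => ?_⟩
  · rw [hc]
    exact add_mem (sum_mem fun j _ => mul_mem (hθ j) (F.algebraMap_mem _)) (h.fF g)
  · by_contra hcon
    push Not at hcon
    apply hg
    rw [hc, hcon.1, add_zero]
    exact Finset.sum_eq_zero fun j _ => by rw [hcon.2 j, map_zero, mul_zero]
  · have e : eval (pt c) (uu n N f) - eval (pt c) (uu θ N f) =
        ∑ j, (n j - θ j) * algebraMap k Ω (eval c (N j)) := by
      rw [uu, uu, map_add, map_add, map_sum, map_sum, add_sub_add_right_eq_sub,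
        ← Finset.sum_sub_distrib]
      refine Finset.sum_congr rfl fun j _ => ?_
      rw [map_mul, map_mul, eval_C, eval_C, eval_pt_map]
      ring
    rw [e]
    refine RVal.Ge.sum _ _ fun j _ => ?_
    have h2 := (h1 j).mul (hk.ge (eval c (N j)))
    refine h2.mono ?_
    linarith

/-- **Row Zb.** -/
theorem rowZb [IsAlgClosed Ω] : RowZb (k := k) p v := by
  intro L W F K w x z a R h A Φ η X Za hM hZ
  have hη := hM.mF.pos
  obtain ⟨yy, hyy, hsup, hap⟩ := exists_yy h.c0 h.shp (ε := η / 2) (by linarith)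
  obtain ⟨θ, hθ, h1⟩ := h.zt.lim (η / 2) (by linarith)
  rw [zero_sub] at h1
  refine ⟨MvPolynomial.map (Φ : Ω →+* Ω) yy - yy, fun g => ?_, fun g hg => ?_, fun c => ?_⟩
  · rw [coeff_sub, coeff_map]
    exact sub_mem (hM.mF.mem (hyy g)) (hyy g)
  · refine hsup g fun h0 => hg ?_
    rw [coeff_sub, coeff_map, h0, map_zero, sub_zero]
  · set δ := Φ θ - θ - Za with hδ
    have h2 : Gt v 0 δ := hZ.za θ hθ h1
    set r := R.T c θ - θ - eval (pt c) yy with hr
    have hrF : r ∈ F := sub_mem (sub_mem (h.trn.mem c θ hθ) hθ) (eval_mem_MI hyy fun i => pt_mem F c i)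
    have h3 : v.Ge (-(η / 2)) r := by
      have e : r = (R.T c z - z - eval (pt c) (uu R.n R.N R.f)) +
          (eval (pt c) (uu R.n R.N R.f) - eval (pt c) yy) - (R.T c (z - θ) - (z - θ)) := by
        rw [hr, map_sub]
        ring
      rw [e]
      exact (((h.shp.jet c).mono (by linarith)).add (hap c)).sub
        (((h.trn.iso c).ge_iff.2 h1).sub h1)
    have h4 := hM.mF.str r hrF _ h3
    have e : R.T c Za - Za - eval (pt c) (MvPolynomial.map (Φ : Ω →+* Ω) yy - yy) =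
        (Φ r - r) - (R.T c δ - δ) := by
      have e1 : Φ (eval (pt c) yy) = eval (pt c) (MvPolynomial.map (Φ : Ω →+* Ω) yy) := by
        rw [map_eval_eq]
        congr 2
        funext i
        exact Φ.commutes _
      rw [hr, hδ]
      simp only [map_sub]
      rw [e1, ← hM.comm h.trn h.par c hθ]
      ring
    rw [e]
    have h5 : Gt v 0 (Φ r - r) := Gt.of_ge h4 (by linarith)
    exact h5.sub (((h.trn.iso c).gt_iff.2 h2).sub h2)

/-! ### Sizes of values -/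

theorem ge_eval_bd {q : MvPolynomial (Fin 2) Ω} {y : Fin 2 → Ω} {m B : ℝ} (hm : m ≤ 0)
    (hy : ∀ i, v.Ge m (y i)) {D : ℕ} (hD : ∀ g ∈ q.support, dg g ≤ D)
    (hB : ∀ g ∈ q.support, v.Ge B (coeff g q)) : v.Ge (B + D * m) (eval y q) := by
  rw [eval_eq']
  refine RVal.Ge.sum _ _ fun g hg => ?_
  rw [Fin.prod_univ_two]
  refine ((hB g hg).mul ((ge_pow (hy 0) (g 0)).mul (ge_pow (hy 1) (g 1)))).mono ?_
  have h1 : (dg g : ℝ) ≤ D := by exact_mod_cast hD g hg
  have h2 : (dg g : ℝ) = g 0 + g 1 := by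
    unfold dg
    push_cast
    ring
  rw [h2] at h1
  nlinarith

theorem exists_dg (q : MvPolynomial (Fin 2) Ω) : ∃ D : ℕ, ∀ g ∈ q.support, dg g ≤ D :=
  ⟨q.support.sup dg, fun _ hg => Finset.le_sup (f := dg) hg⟩

/-- At small points the value is not much larger than the coefficients. -/
theorem exists_eta {q : MvPolynomial (Fin 2) Ω} {r r' : ℝ} (hr : r' < r)
    (hq : ∀ g, v.Ge r (coeff g q)) : ∃ η : ℝ, 0 < η ∧ ∀ X : Fin 2 → Ω,
      (∀ i, v.Ge (-η) (X i)) → v.Ge r' (eval X q) := by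
  obtain ⟨D, hD⟩ := exists_dg q
  refine ⟨(r - r') / (D + 1), div_pos (by linarith) (by positivity), fun X hX => ?_⟩
  have h0 : 0 < (r - r') / (D + 1) := div_pos (by linarith) (by positivity)
  refine (ge_eval_bd (by linarith) hX hD fun g _ => hq g).mono ?_
  have h1 : (D : ℝ) * ((r - r') / (D + 1)) ≤ r - r' := by
    rw [← mul_div_assoc, div_le_iff₀ (by positivity)]
    nlinarith
  nlinarith

/-- A lower bound for `w`. -/
theorem exists_bd (v : RVal Ω) (w : Fin 2 → Ω) : ∃ m : ℝ, m ≤ 0 ∧ ∀ i, v.Ge m (w i) := by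
  refine ⟨min 0 (min (v (w 0)) (v (w 1))), min_le_left _ _, fun i _ => ?_⟩
  refine (min_le_right _ _).trans ?_
  fin_cases i
  · exact min_le_left _ _
  · exact min_le_right _ _

/-- The displacement of a polynomial in `w`. -/
theorem Mot.disp (hM : Mot v A W F w X Φ η) (q : MvPolynomial (Fin 2) Ω) :
    Φ (MvPolynomial.eval w q) - MvPolynomial.eval w q =
      MvPolynomial.eval (w + X) (MvPolynomial.map (Φ : Ω →+* Ω) q - q) +
        MvPolynomial.eval X (shA w q) := by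
  have h1 : Φ (MvPolynomial.eval w q) =
      MvPolynomial.eval (w + X) (MvPolynomial.map (Φ : Ω →+* Ω) q) := by
    rw [map_eval_eq]
    congr 2
    funext i
    exact hM.mov i
  rw [h1, eval_shA, map_sub]
  ring

/-- The first term is small. -/
theorem exists_disp (hL : Monotone L) (hd : W ≤ clI v (⨆ J, L J)) {q : MvPolynomial (Fin 2) Ω}
    (hq : q ∈ MI W) (w : Fin 2 → Ω) (B : ℝ) : ∃ J₀ : ℕ, ∀ J ≥ J₀, ∀ (Φ : Ω →ₐ[k] Ω) (η : ℝ)
      (X : Fin 2 → Ω), Mot v (L J) W F w X Φ η →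
      v.Ge B (MvPolynomial.eval (w + X) (MvPolynomial.map (Φ : Ω →+* Ω) q - q)) := by
  classical
  obtain ⟨D, hD⟩ := exists_dg q
  obtain ⟨m, hm, hw⟩ := exists_bd v w
  obtain ⟨J₀, h1⟩ := pw_fin hL hd (q.support.image fun g => coeff g q) (fun y hy => by
    obtain ⟨g, -, rfl⟩ := Finset.mem_image.1 hy
    exact hq g) (B - D * m)
  refine ⟨J₀, fun J hJ Φ η X hM => ?_⟩
  have hsup : ∀ g ∈ (MvPolynomial.map (Φ : Ω →+* Ω) q - q).support, g ∈ q.support := by
    intro g hg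
    rw [mem_support_iff, coeff_sub, coeff_map] at hg
    rw [mem_support_iff]
    intro h0
    apply hg
    rw [h0, map_zero, sub_zero]
  refine (ge_eval_bd (B := B - D * m) hm (fun i => ?_) (fun g hg => hD g (hsup g hg))
    fun g hg => ?_).mono (by linarith)
  · rw [Pi.add_apply, ← hM.mov i]
    exact hM.mW.iso.ge_iff.2 (hw i)
  · rw [coeff_sub, coeff_map]
    exact h1 J hJ Φ η hM.mW _ (Finset.mem_image_of_mem _ (hsup g hg))

/-- **Row Sm.** -/
theorem rowSm [IsAlgClosed k] [IsAlgClosed Ω] : RowSm (k := k) p v := by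
  intro L W F K w x z a R h ε hε
  have : Infinite k := IsAlgClosed.instInfinite
  obtain ⟨θ₀, hθ₀, h1⟩ := h.zt.lim (ε / 2) (by linarith)
  obtain ⟨q, hq, h2⟩ := dns h.par hθ₀ 0
  have hwF : ∀ i, w i ∈ F := h.trn.wF
  set θ₁ := MvPolynomial.eval w q with hθ₁
  have hθF : θ₁ ∈ F := eval_mem_MI (mem_MI_mono h.trn.le hq) hwF
  have h3 : v.Ge (-(ε / 2)) (z - θ₁) := by
    have e : z - θ₁ = (z - θ₀) + (θ₀ - θ₁) := by ring
    rw [e]
    exact (h1.mono (by linarith)).add (h2.mono (by linarith))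
  have hQ : ∀ g, v.Ge (-(ε / 2)) (coeff g (shA w q - R.u)) := by
    refine ge_coeff_of_pt h.c0 fun c => ?_
    have e1 : MvPolynomial.eval (pt c) (shA w q) = R.T c θ₁ - θ₁ := by
      rw [eval_shA, hθ₁]
      have := h.trn.eval hq c 0 fun _ => zero_mem _
      rw [add_zero] at this
      rw [this]
    have e : MvPolynomial.eval (pt c) (shA w q - R.u) =
        (R.T c z - z - MvPolynomial.eval (pt c) (uu R.n R.N R.f)) -
          (R.T c (z - θ₁) - (z - θ₁)) := by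
      rw [map_sub, e1, map_sub (R.T c), Rec.u]
      ring
    rw [e]
    exact ((h.shp.jet c).mono (by linarith)).sub (((h.trn.iso c).ge_iff.2 h3).sub h3)
  obtain ⟨η₀, hη₀, h4⟩ := exists_eta (r' := -ε) (by linarith) hQ
  obtain ⟨J₁, h5⟩ := Mot.small (F := F) h.mono h.dense (w := w) (fun i => by
    fin_cases i
    · exact h.par.t1.lim
    · exact h.par.t2.lim) (ε := min ε η₀) (lt_min hε hη₀)
  obtain ⟨J₂, h6⟩ := exists_disp (F := F) h.mono h.dense hq w 0
  refine ⟨max J₁ J₂, fun J hJ Φ η X Za hM hZ => ?_⟩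
  have h7 := h5 J ((le_max_left _ _).trans hJ) X Φ η hM
  refine ⟨fun i => (h7 i).mono (neg_le_neg (min_le_left _ _)), ?_⟩
  have hη := hM.mF.pos
  obtain ⟨θ, hθ, h8⟩ := h.zt.lim (min (η / 2) ε) (lt_min (by linarith) hε)
  rw [zero_sub] at h8
  have h9 := hZ.za θ hθ (h8.mono (neg_le_neg (min_le_left _ _)))
  have h10 : v.Ge (-ε) (θ - θ₁) := by
    have e : θ - θ₁ = (z - θ₁) - (z - θ) := by ring
    rw [e]
    exact (h3.mono (by linarith)).sub (h8.mono (neg_le_neg (min_le_right _ _)))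
  have h11 : v.Ge (-ε) (Φ (θ - θ₁) - (θ - θ₁)) := (hM.mW.iso.ge_iff.2 h10).sub h10
  have e : R.Zp X Za = -(Φ θ - θ - Za) + (Φ (θ - θ₁) - (θ - θ₁)) +
      (MvPolynomial.eval (w + X) (MvPolynomial.map (Φ : Ω →+* Ω) q - q) +
        MvPolynomial.eval X (shA w q - R.u)) := by
    have e1 := hM.disp q
    rw [map_sub (MvPolynomial.eval X)]
    rw [Rec.Zp, map_sub Φ θ θ₁, hθ₁]
    linear_combination e1
  rw [e]
  refine ((h9.ge.neg.mono (by linarith)).add h11).add (((h6 J ((le_max_right _ _).trans hJ) Φ η X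
    hM).mono (by linarith)).add (h4 X fun i => (h7 i).mono (neg_le_neg (min_le_right _ _))))

/-! ### The tie of the displacement -/

section tie

variable [hp : Fact p.Prime] [CharP Ω p] {κ : ℕ → k} {t : ℕ}

omit [CharP Ω p] in
theorem ge_PP_neg (hk : Ctx0 k v) {m : ℝ} (hm : m ≤ 0) {y : Ω} (hy : v.Ge m y) :
    v.Ge ((p : ℝ) ^ (t + 1) * m) (PP p κ t y) := by
  unfold PP
  refine RVal.Ge.sum _ _ fun i hi => ?_
  rw [Finset.mem_range] at hi
  refine ((hk.ge (κ i)).mul (ge_pow hy _)).mono ?_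
  have h1 : ((p ^ (i + 1) : ℕ) : ℝ) ≤ (p : ℝ) ^ (t + 1) := by
    push_cast
    exact pow_le_pow_right₀ (by exact_mod_cast hp.out.one_lt.le) (by omega)
  nlinarith

omit [CharP Ω p] in
theorem ge_PP_pos (hk : Ctx0 k v) {m : ℝ} (hm : 0 ≤ m) {y : Ω} (hy : v.Ge m y) :
    v.Ge (p * m) (PP p κ t y) := by
  unfold PP
  refine RVal.Ge.sum _ _ fun i _ => ?_
  refine ((hk.ge (κ i)).mul (ge_pow hy _)).mono ?_
  have h1 : (p : ℝ) ≤ ((p ^ (i + 1) : ℕ) : ℝ) := by
    push_cast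
    calc (p : ℝ) = (p : ℝ) ^ 1 := (pow_one _).symm
      _ ≤ (p : ℝ) ^ (i + 1) := pow_le_pow_right₀ (by exact_mod_cast hp.out.one_lt.le) (by omega)
  nlinarith

/-- `x P(δ)` is null for `δ` of positive value. -/
theorem exists_root_PP [IsAlgClosed k] (hk : Ctx0 k v) (hlp : LP p v W 0 x) (hWF : W ≤ F) {δ : Ω}
    (hδF : δ ∈ F) (hδ : VPos v δ) : ∃ h ∈ F, VPos v (x * PP p κ t δ - h ^ p) := by
  obtain ⟨μ, hμ, h1⟩ := VPos.ge_iff hδ
  have hp0 : (0 : ℝ) < p := by exact_mod_cast hp.out.pos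
  obtain ⟨g, hg, h2⟩ := hlp (p * μ / 2) (by positivity)
  choose κ' hκ' using fun i => IsAlgClosed.exists_pow_nat_eq (κ i) hp.out.pos
  refine ⟨g * ∑ i ∈ Finset.range (t + 1), algebraMap k Ω (κ' i) * δ ^ p ^ i,
    mul_mem (hWF hg) (sum_mem fun i _ => mul_mem (F.algebraMap_mem _) (pow_mem hδF _)), ?_⟩
  have e1 : (∑ i ∈ Finset.range (t + 1), algebraMap k Ω (κ' i) * δ ^ p ^ i) ^ p =
      PP p κ t δ := by
    rw [sum_pow_char, PP]
    refine Finset.sum_congr rfl fun i _ => ?_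
    rw [mul_pow, ← map_pow, hκ', ← pow_mul, ← pow_succ]
  rw [mul_pow, e1, ← sub_mul]
  refine vpos_of_ge (r := p * μ / 2) (by positivity) (((h2.mul (ge_PP_pos hk hμ.le h1))).mono ?_)
  linarith

end tie

/-- **Row (T).** -/
theorem rowTie [hp : Fact p.Prime] [CharP Ω p] [IsAlgClosed k] [IsAlgClosed Ω] :
    RowTie (k := k) p v := by
  intro L W F K w x z a R h
  obtain ⟨m, hm, hz⟩ : ∃ m : ℝ, m ≤ -1 ∧ v.Ge m z :=
    ⟨min (-1) (v z), min_le_left _ _, fun _ => min_le_right _ _⟩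
  obtain ⟨J₁, h1⟩ := pw h.mono h.dense h.xW (1 - (p : ℝ) ^ (R.t + 1) * m)
  obtain ⟨J₂, h2⟩ := exists_disp (F := F) h.mono h.dense (q := R.Pa) h.PaW w 1
  refine ⟨max J₁ J₂, fun J hJ Φ η X Za hM hZ => ?_⟩
  have hη := hM.mF.pos
  obtain ⟨θ, hθ, h3, h₁, hh₁, h4⟩ := h.tie.tie (min (η / 2) 1) (lt_min (by linarith) one_pos)
  have h3' : v.Ge (-(η / 2)) (z - θ) := h3.mono (neg_le_neg (min_le_left _ _))
  set δ := Φ θ - θ - Za with hδ
  have h5 : VPos v δ := hZ.za θ hθ h3'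
  have hδF : δ ∈ F := sub_mem (sub_mem (hM.mF.mem hθ) hθ) hZ.mem
  obtain ⟨h₂, hh₂, h6⟩ := exists_root_PP (κ := R.κ) (t := R.t) h.c0 h.base.lp h.trn.le hδF h5
  refine ⟨Φ h₁ - h₁ - h₂, sub_mem (sub_mem (hM.mF.mem hh₁) hh₁) hh₂, ?_⟩
  set r := algebraMap k Ω R.e * θ + x * PP p R.κ R.t θ + eval w R.Pa - h₁ ^ p with hr
  have hrF : r ∈ F := by
    refine sub_mem (add_mem (add_mem (mul_mem (F.algebraMap_mem _) hθ)
      (mul_mem (h.trn.le h.xW) (PP_mem hθ))) ?_) (pow_mem hh₁ _)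
    exact eval_mem_MI (mem_MI_mono h.trn.le h.PaW) h.trn.wF
  have h7 : VPos v (Φ r - r) := by
    have h8 : v.Ge (-(η / 2)) r := h4.mono (neg_le_neg (min_le_left _ _))
    exact Gt.of_ge (hM.mF.str r hrF _ h8) (by linarith)
  have h9 : v.Ge m θ := by
    have e : θ = z - (z - θ) := by ring
    rw [e]
    refine hz.sub (h3.mono ?_)
    have := min_le_right (η / 2) 1
    linarith
  have h10 : v.Ge 1 ((Φ x - x) * PP p R.κ R.t (Φ θ)) := by
    have h11 : v.Ge ((p : ℝ) ^ (R.t + 1) * m) (PP p R.κ R.t (Φ θ)) :=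
      ge_PP_neg h.c0 (by linarith) (hM.mF.iso.ge_iff.2 h9)
    refine ((h1 J ((le_max_left _ _).trans hJ) Φ η hM.mW).mul h11).mono ?_
    linarith
  have h12 := h2 J ((le_max_right _ _).trans hJ) Φ η X hM
  have h13 := hM.disp R.Pa
  have e1 : Φ (PP p R.κ R.t θ) = PP p R.κ R.t (Φ θ) := by
    unfold PP
    rw [map_sum]
    exact Finset.sum_congr rfl fun i _ => by rw [map_mul, AlgHom.commutes, map_pow]
  have e2 : PP p R.κ R.t (Φ θ) = PP p R.κ R.t Za + PP p R.κ R.t δ + PP p R.κ R.t θ := by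
    rw [← PP_add, ← PP_add]
    congr 1
    rw [hδ]
    ring
  have e3 : (Φ h₁ - h₁ - h₂) ^ p = Φ h₁ ^ p - h₁ ^ p - h₂ ^ p := by
    rw [sub_pow_char, sub_pow_char]
  have e : algebraMap k Ω R.e * Za + x * PP p R.κ R.t Za + eval X (shA w R.Pa) -
      (Φ h₁ - h₁ - h₂) ^ p = (Φ r - r) - algebraMap k Ω R.e * δ -
      (x * PP p R.κ R.t δ - h₂ ^ p) - (Φ x - x) * PP p R.κ R.t (Φ θ) -
      eval (w + X) (MvPolynomial.map (Φ : Ω →+* Ω) R.Pa - R.Pa) := by
    rw [e3, hr]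
    simp only [map_sub, map_add, map_mul, map_pow, AlgHom.commutes] at h13 ⊢
    rw [e1]
    linear_combination (-1 : Ω) * h13 + (-x) * e2 - algebraMap k Ω R.e * hδ
  rw [e]
  have hPe : VPos v (algebraMap k Ω R.e * δ) := by
    have := Gt.mul_ge (v := v) (r := 0) h5 (h.c0.ge R.e)
    rw [add_zero, mul_comm] at this
    exact this
  exact (((h7.sub hPe).sub h6).sub (Gt.of_ge h10 one_pos)).sub (Gt.of_ge h12 one_pos)

end Pool.Agent.TWCY
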