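import Pool.Agent.Lib.TWCY.S12

/-!
# The space `W_1` and the cocycle relation modulo `W_1`

* `Coh`: the data `n', n'', G, G^i, λ, φ`;
* `exists_coh`: they exist;
* `Coh.tr`, `Coh.om`, `Coh.zero`, `Coh.bdd`: the fields of `Lay` for `W_1 = span (N_j, G^i)`.
-/

set_option autoImplicit false

open MvPolynomial

namespace Pool.Agent.TWCY

open Pool.Agent.H15JM (RVal)
open Pool.Agent.LU1 (VPos)
open Pool.Agent.D2 (Ctx0)
open Pool.Agent.TWM
open Pool.Agent.TWS (IsoE SphC)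
open Pool.Agent.TWLY
open TWIV.JW (BB sh cz)

universe u

variable {k Ω : Type u} [Field k] [Field Ω] [Algebra k Ω] {v : RVal Ω}
  {W F : IntermediateField k Ω} {w : Fin 2 → Ω} {T : (Fin 2 → k) → Ω →ₐ[k] Ω} {D : Ω → Ω}
  {dd : Fin 2 → Ω → Ω} {p : ℕ} {κ : ℕ → k} {t : ℕ}
  {ι : Type} [Fintype ι] {z : Ω} {n : ι → Ω} {N : ι → MvPolynomial (Fin 2) k}
  {f : MvPolynomial (Fin 2) Ω} {b : ι → Ex} {x a₀ : Ω} {e : k} {A : MvPolynomial (Fin 2) Ω}

/-- The space `W_1`. -/
noncomputable def W1 (N : ι → MvPolynomial (Fin 2) k) (Gi : Fin 2 → MvPolynomial (Fin 2) k) :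
    Submodule k (MvPolynomial (Fin 2) k) := Submodule.span k (Set.range N ∪ Set.range Gi)

/-- The data of the cocycle relation. -/
structure Coh (p : ℕ) (v : RVal Ω) (W F : IntermediateField k Ω) (w : Fin 2 → Ω)
    (T : (Fin 2 → k) → Ω →ₐ[k] Ω) (D : Ω → Ω) (dd : Fin 2 → Ω → Ω) (x : Ω) (e : k) (κ : ℕ → k)
    (t : ℕ) (n : ι → Ω) (N : ι → MvPolynomial (Fin 2) k) (f A : MvPolynomial (Fin 2) Ω)
    (b : ι → Ex) (n' : ι → Ω) (n'' : Fin 2 → ι → Ω) (G : MvPolynomial (Fin 2) k)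
    (Gi : Fin 2 → MvPolynomial (Fin 2) k) (lam : BB (Fin 2) k) (q : Ex → MvPolynomial (Fin 2) Ω)
    (φ : (Fin 2 → k) → ι → k) : Prop where
  nat : ∀ j, NatV v F D (n j) (n' j)
  nati : ∀ i j, NatV v F (dd i) (n j) (n'' i j)
  rG : ∀ g, Rs v (coeff g (dP p D (D x) e κ t n n' N f A)) (coeff g G)
  rGi : ∀ i g, Rs v (coeff g (dP p (dd i) 0 e κ t n (n'' i) N f A)) (coeff g (Gi i))
  qW : ∀ g h, coeff h (q g) ∈ W
  q1 : ∀ g, VPos v (coeff g f - eval w (q g))
  rlam : ∀ c g, Rs v (coeff g (Lc T N f b c)) (coeff g (evc c lam))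
  rlamg : ∀ g m, Rs v (coeff m (Lg w q N f b g)) (coeff g (coeff m lam))
  rφ : ∀ c l, Rs v (T c (n l) - ∑ j, algebraMap k Ω (MM N b c l j) * n j - psi f b c l) (φ c l)

variable {n' : ι → Ω} {n'' : Fin 2 → ι → Ω} {G : MvPolynomial (Fin 2) k}
    {Gi : Fin 2 → MvPolynomial (Fin 2) k} {lam : BB (Fin 2) k} {q : Ex → MvPolynomial (Fin 2) Ω}
    {φ : (Fin 2 → k) → ι → k}

variable [hp : Fact p.Prime] [CharP Ω p] [CharP k p] [Infinite k] [DecidableEq ι]

omit [CharP k p] in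
/-- The data exist. -/
theorem exists_coh (hk : Ctx0 k v) (hsp : SphC v) (hT : Trn v W F w T)
    (h : Shp v F T z n N f b) (ht : TieD p v W F T x z a₀ e κ t A)
    (hD : DD v W F w D) (hdd : DDi v W F w dd) (hx : v.Ge 0 (D x)) :
    ∃ n' n'' G Gi lam q φ, Coh p v W F w T D dd x e κ t n N f A b n' n'' G Gi lam q φ := by
  choose n' hn' using fun j => exists_natV hD.drv hsp (h.lim j)
  choose n'' hn'' using fun (i : Fin 2) (j : ι) => exists_natV (hdd.drv i) hsp (h.lim j)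
  obtain ⟨G, hG⟩ := exists_rs hk (fun g => tie_ge (κ := κ) hk hT h ht hD.drv hx hn' g)
  have hddx : ∀ i, dd i x = 0 := fun i => hdd.dW i x ht.xW
  have h1 : ∀ (i : Fin 2) (g : Ex), v.Ge 0 (coeff g (dP p (dd i) 0 e κ t n (n'' i) N f A)) := by
    intro i g
    have := tie_ge (κ := κ) hk hT h ht (hdd.drv i) (by rw [hddx]; exact RVal.Ge.zero) (hn'' i) g
    rwa [hddx] at this
  choose Gi hGi using fun i => exists_rs hk (h1 i)
  obtain ⟨lam, q, hq, hq1, hlam, hlamg⟩ := h.exists_lam hk hT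
  choose φ hφ using fun (c : Fin 2 → k) (l : ι) => exists_rs0 hk (h.ge_m hk hT c l)
  exact ⟨n', n'', G, Gi, lam, q, φ, hn', hn'', hG, hGi, hq, hq1, hlam, hlamg, hφ⟩

section fields

variable (hk : Ctx0 k v) (hT : Trn v W F w T) (h : Shp v F T z n N f b)
  (ht : TieD p v W F T x z a₀ e κ t A) (hD : DD v W F w D) (hdd : DDi v W F w dd)
  (hc : Coh p v W F w T D dd x e κ t n N f A b n' n'' G Gi lam q φ)

include hk hT h ht hdd hc

/-- The relation for the `G^i`. -/
theorem Coh.Gi_tr (i : Fin 2) (c : Fin 2 → k) : ∃ χ : ι → k,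
    TWLY.tr c (Gi i) - Gi i - C (eval c (Gi i)) = ∑ l, C (e * χ l) * N l := by
  have hddx : dd i x = 0 := hdd.dW i x ht.xW
  have h0 : Rs v (dd i x) (0 : k) := by rw [hddx]; exact Rs.zero
  have hGi : ∀ g, Rs v (coeff g (dP p (dd i) (dd i x) e κ t n (n'' i) N f A)) (coeff g (Gi i)) := by
    rw [hddx]
    exact hc.rGi i
  have hδ : ∀ j, Rs v (T c (dd i (w j)) - dd i (w j)) ((0 : Fin 2 → k) j) := by
    intro j
    have : T c (dd i (w j)) - dd i (w j) = 0 := by
      rw [hdd.dw]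
      split_ifs
      · rw [map_one, sub_self]
      · rw [map_zero, sub_self]
    rw [this]
    exact Rs.zero
  obtain ⟨χ, hχ⟩ := coc hk hT h ht (hdd.toDD i) hdd h0 (hc.nati i) hc.nati hGi hc.rGi (hc.rlam c)
    (hc.rφ c) hδ
  refine ⟨χ, ?_⟩
  rw [C_0, zero_mul, add_zero] at hχ
  rw [hχ]
  simp

/-- `W_1` is stable under translations, up to constants. -/
theorem Coh.tr (c : Fin 2 → k) {M : MvPolynomial (Fin 2) k} (hM : M ∈ W1 N Gi) :
    TWLY.tr c M - C (eval c M) ∈ W1 N Gi := by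
  have hN : ∀ l, N l ∈ W1 N Gi := fun l => Submodule.subset_span (Or.inl ⟨l, rfl⟩)
  have hG : ∀ i, Gi i ∈ W1 N Gi := fun i => Submodule.subset_span (Or.inr ⟨i, rfl⟩)
  have hCN : ∀ (a : k) l, C a * N l ∈ W1 N Gi := fun a l => by
    rw [← smul_eq_C_mul]
    exact Submodule.smul_mem _ _ (hN l)
  unfold W1 at hM
  induction hM using Submodule.span_induction with
  | mem y hy =>
    rcases hy with ⟨l, rfl⟩ | ⟨i, rfl⟩
    · rw [h.tr_N hk hT c l, add_sub_cancel_left]
      exact sum_mem fun j _ => hCN _ j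
    · obtain ⟨χ, hχ⟩ := hc.Gi_tr hk hT h ht hdd i c
      have : TWLY.tr c (Gi i) - C (eval c (Gi i)) = Gi i + ∑ l, C (e * χ l) * N l := by
        rw [← hχ]
        ring
      rw [this]
      exact add_mem (hG i) (sum_mem fun j _ => hCN _ j)
  | zero => simp
  | add y y' _ _ hy hy' =>
    have : TWLY.tr c (y + y') - C (eval c (y + y')) =
        (TWLY.tr c y - C (eval c y)) + (TWLY.tr c y' - C (eval c y')) := by
      rw [map_add, map_add, C_add]
      ring
    rw [this]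
    exact add_mem hy hy'
  | smul a y _ hy =>
    have : TWLY.tr c (a • y) - C (eval c (a • y)) = a • (TWLY.tr c y - C (eval c y)) := by
      rw [map_smul, smul_sub, smul_eval, C_mul, smul_eq_C_mul (C (eval c y)) a]
    rw [this]
    exact Submodule.smul_mem _ _ hy

include hD

/-- **The cocycle relation modulo `W_1`.** -/
theorem Coh.om (hx : Rs v (D x) (1 : k)) (c : Fin 2 → k) :
    TWLY.tr c G - G - C (eval c G) + PP p κ t (evc c lam + ∑ l, C (φ c l) * N l) ∈ W1 N Gi := by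
  choose δ hδ using fun i => exists_rs0 hk (ge_delta hT hD c i)
  obtain ⟨χ, hχ⟩ := coc hk hT h ht hD hdd hx hc.nat hc.nati hc.rG hc.rGi (hc.rlam c)
    (hc.rφ c) hδ
  rw [C_1, one_mul] at hχ
  rw [hχ]
  refine sub_mem (sum_mem fun l _ => ?_) (sum_mem fun i _ => ?_)
  · rw [← smul_eq_C_mul]
    exact Submodule.smul_mem _ _ (Submodule.subset_span (Or.inl ⟨l, rfl⟩))
  · rw [← smul_eq_C_mul]
    exact Submodule.smul_mem _ _ (Submodule.subset_span (Or.inr ⟨i, rfl⟩))

end fields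

omit hp [CharP Ω p] [CharP k p] [Infinite k] in
theorem Coh.zero [Fact p.Prime] (hk : Ctx0 k v) (h : Shp v F T z n N f b)
    (ht : TieD p v W F T x z a₀ e κ t A) (hdd : DDi v W F w dd)
    (hc : Coh p v W F w T D dd x e κ t n N f A b n' n'' G Gi lam q φ)
    {M : MvPolynomial (Fin 2) k} (hM : M ∈ W1 N Gi) : constantCoeff M = 0 := by
  unfold W1 at hM
  induction hM using Submodule.span_induction with
  | mem y hy =>
    rcases hy with ⟨l, rfl⟩ | ⟨i, rfl⟩
    · exact h.N0 l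
    · exact h.G0 hk (hdd.drv i) ht.A0 (hc.rGi i)
  | zero => exact map_zero _
  | add y y' _ _ hy hy' => rw [map_add, hy, hy', add_zero]
  | smul a y _ hy => rw [constantCoeff_smul, hy, smul_zero]

omit [Infinite k] [DecidableEq ι] in
theorem bdd_W1 (N : ι → MvPolynomial (Fin 2) k) (Gi : Fin 2 → MvPolynomial (Fin 2) k) :
    ∃ B : ℕ, ∀ M ∈ W1 N Gi, ∀ m ∈ M.support, dg m ≤ B := by
  classical
  refine ⟨((Finset.univ.biUnion fun l => (N l).support) ∪
    (Finset.univ.biUnion fun i => (Gi i).support)).sup dg, fun M hM => ?_⟩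
  unfold W1 at hM
  have hle : ∀ m ∈ (Finset.univ.biUnion fun l => (N l).support) ∪
      (Finset.univ.biUnion fun i => (Gi i).support), dg m ≤
      ((Finset.univ.biUnion fun l => (N l).support) ∪
    (Finset.univ.biUnion fun i => (Gi i).support)).sup dg := fun m hm => Finset.le_sup hm
  induction hM using Submodule.span_induction with
  | mem y hy =>
    intro m hm
    refine hle m ?_
    rcases hy with ⟨l, rfl⟩ | ⟨i, rfl⟩
    · exact Finset.mem_union_left _ (Finset.mem_biUnion.2 ⟨l, Finset.mem_univ l, hm⟩)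
    · exact Finset.mem_union_right _ (Finset.mem_biUnion.2 ⟨i, Finset.mem_univ i, hm⟩)
  | zero => simp
  | add y y' _ _ hy hy' =>
    intro m hm
    rcases Finset.mem_union.1 (support_add hm) with h1 | h1
    · exact hy m h1
    · exact hy' m h1
  | smul a y _ hy =>
    intro m hm
    exact hy m (support_smul hm)

end Pool.Agent.TWCY
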