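import Pool.Agent.Lib.TWCY.Glue
import Pool.Agent.Lib.TWCY.W1
import Pool.Agent.Lib.TWTG.D

/-!
# CT, j = 1, abelian case: the supply of motions

* `CG.tr_WN`: `W₁` is stable under translations, up to constants; `exists_adt`: a space of this kind,
  not zero, contains an additive polynomial;
* `Mvd`: motions of the pair which move a polynomial, `Mvd.step`, `Mvd.swap`;
* `exists_mot`: strict automorphisms of `W` (of `W⟨w 0⟩`) extend to motions of the pair;
* `mvd_of_mov`: polynomials in `X 0`, if `w 0` has `MovV` or `MovR`;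
* `mvd_of_rp`, `core_rp`: for real pairs (an abstract predicate), by the homogeneous Euclid.
-/

set_option autoImplicit false

open MvPolynomial

namespace Pool.Agent.TWCY

open Pool.Agent.H15JM (RVal)
open Pool.Agent.LU1 (VPos)
open Pool.Agent.D2 (Ctx0)
open Pool.Agent.D2P (clI mem_clI)
open Pool.Agent.TWM
open Pool.Agent.TWS (IsoE SphC)
open Pool.Agent.TWN1 (Par)
open Pool.Agent.TWCT (SMo MovV MovR)
open Pool.Agent.TWLY
open Pool.Agent.TWTG (AP Hm dgr cmp stp swp)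
open TWIV.JW (sh cz)

universe u

variable {k Ω : Type u} [Field k] [Field Ω] [Algebra k Ω] {v : RVal Ω} {p : ℕ}

/-! ### The space `W₁` is stable -/

section stable

variable {L : ℕ → IntermediateField k Ω} {W F K : IntermediateField k Ω} {w : Fin 2 → Ω}
  {x z a : Ω} {R : Rec k Ω}

theorem CG.exists_coh [Fact p.Prime] [CharP Ω p] [CharP k p] [Infinite k]
    (h : CG p v L W F K w x z a R) :
    ∃ lam q φ, Coh p v W F w R.T R.D R.dd x R.e R.κ R.t R.n R.N R.f (shA w R.Pa) R.b R.nD R.nd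
      R.G R.Gi lam q φ := by
  obtain ⟨lam, q, hq, hq1, hlam, hlamg⟩ := h.shp.exists_lam h.c0 h.trn
  choose φ hφ using fun (c : Fin 2 → k) (l : Fin R.m) =>
    exists_rs0 h.c0 (h.shp.ge_m h.c0 h.trn c l)
  refine ⟨lam, q, φ, h.nat, h.nati, fun g => ?_, fun i g => ?_, hq, hq1, hlam, hlamg, hφ⟩
  · rw [coeff_dP h.drt.drv]
    exact h.res g
  · rw [coeff_dP (h.drt.drvi i), zero_mul, add_zero]
    exact h.resi i g

theorem CG.tr_WN [Fact p.Prime] [CharP Ω p] [CharP k p] [Infinite k]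
    (h : CG p v L W F K w x z a R) (c : Fin 2 → k) {N : MvPolynomial (Fin 2) k} (hN : N ∈ R.WN) :
    TWLY.tr c N - C (eval c N) ∈ R.WN := by
  obtain ⟨lam, q, φ, h1⟩ := h.exists_coh
  exact h1.tr h.c0 h.trn h.shp h.tie h.drt.toDDi c hN

theorem CG.zero_WN [Fact p.Prime] [CharP Ω p] [CharP k p] [Infinite k]
    (h : CG p v L W F K w x z a R) {N : MvPolynomial (Fin 2) k} (hN : N ∈ R.WN) :
    constantCoeff N = 0 := by
  obtain ⟨lam, q, φ, h1⟩ := h.exists_coh
  exact h1.zero h.c0 h.shp h.tie h.drt.toDDi hN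

end stable

/-! ### Additive polynomials -/

theorem bn_zero_right (g : Ex) : bn g 0 = 1 := by
  simp [bn]

theorem sum_eq_dg (g : Ex) : (g.sum fun _ e => e) = dg g := by
  rw [Finsupp.sum_fintype _ _ (fun _ => rfl), Fin.sum_univ_two, dg]

/-- The terms of `f(X + c) - f(X) - f(c)` have smaller degree. -/
theorem totalDegree_tr_lt {f : MvPolynomial (Fin 2) k} (hf : constantCoeff f = 0) (c : Fin 2 → k)
    (h : TWLY.tr c f - C (eval c f) - f ≠ 0) :
    (TWLY.tr c f - C (eval c f) - f).totalDegree < f.totalDegree := by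
  classical
  have key : ∀ g ∈ (TWLY.tr c f - C (eval c f) - f).support, dg g < f.totalDegree := by
    intro g hg
    by_contra hno
    rw [mem_support_iff] at hg
    apply hg
    rw [coeff_sub, coeff_sub, coeff_C]
    by_cases hg0 : g = 0
    · subst hg0
      rw [if_pos rfl, coeff_zero_tr, ← constantCoeff_eq, hf]
      ring
    · rw [if_neg (Ne.symm hg0), sub_zero, coeff_tr_eq]
      have h1 : coeff g (sh k f) = C (coeff g f) := by
        ext h
        rw [coeff_sh', coeff_C]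
        split_ifs with h0
        · rw [← h0, bn_zero_right, Nat.cast_one, one_mul, add_zero]
        · rw [notMem_support_iff.1 (fun h2 => ?_), mul_zero]
          have h3 := le_totalDegree h2
          rw [sum_eq_dg] at h3
          have h4 : dg (g + h) = dg g + dg h := by simp [dg]; ring
          have h5 : dg h ≠ 0 := fun h6 => h0 (dg_eq_zero.1 h6).symm
          omega
      rw [h1, eval_C, sub_self]
  obtain ⟨g, hg⟩ : (TWLY.tr c f - C (eval c f) - f).support.Nonempty := support_nonempty.2 h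
  rw [totalDegree, Finset.sup_lt_iff (lt_of_le_of_lt (Nat.zero_le _) (key g hg))]
  intro g hg
  rw [sum_eq_dg]
  exact key g hg

theorem exists_adt {V : Submodule k (MvPolynomial (Fin 2) k)}
    (h0 : ∀ N ∈ V, constantCoeff N = 0)
    (htr : ∀ c, ∀ N ∈ V, TWLY.tr c N - C (eval c N) ∈ V) (hV : V ≠ ⊥) :
    ∃ f ∈ V, f ≠ 0 ∧ Adt f := by
  classical
  obtain ⟨N, hN, hN0⟩ := (Submodule.ne_bot_iff V).1 hV
  have hex : ∃ n : ℕ, ∃ f ∈ V, f ≠ 0 ∧ f.totalDegree = n := ⟨_, N, hN, hN0, rfl⟩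
  obtain ⟨f, hf, hf0, hfd⟩ := Nat.find_spec hex
  refine ⟨f, hf, hf0, fun s c => ?_⟩
  have h1 : TWLY.tr c f - C (eval c f) - f = 0 := by
    by_contra hne
    have h2 := totalDegree_tr_lt (h0 f hf) c hne
    rw [hfd] at h2
    exact Nat.find_min hex h2 ⟨_, sub_mem (htr c f hf) hf, hne, rfl⟩
  have h2 := congrArg (eval s) h1
  rw [map_sub, map_sub, eval_tr, eval_C, map_zero] at h2
  linear_combination h2

theorem ap_of_adt [Fact p.Prime] [CharP k p] [Infinite k] {f : MvPolynomial (Fin 2) k} (hf : Adt f) :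
    AP p f := by
  intro e he
  by_contra hno
  push Not at hno
  have he0 : e ≠ 0 := by
    rintro rfl
    exact mem_support_iff.1 he hf.coeff_zero
  obtain ⟨m, n, hm, hn, hmn, hb⟩ := exists_split p k he0 fun i a => hno i a
  have h1 := congrArg (fun g => coeff n (coeff m g)) hf.sh_eq
  rw [coeff_sh, coeff_add, coeff_add, coeff_C, if_neg (Ne.symm hm), coeff_zero, zero_add, coeff_cz,
    coeff_C, if_neg (Ne.symm hn), hmn] at h1
  exact mem_support_iff.1 he ((mul_eq_zero.1 h1).resolve_left hb)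

/-! ### Values -/

theorem kq_val (hk : Ctx0 k v) {t : Ω} (ht0 : t ≠ 0) (ht : v t < 0) {P : Polynomial k}
    (hP : P ≠ 0) : Polynomial.aeval t P ≠ 0 ∧ v (Polynomial.aeval t P) = P.natDegree * v t := by
  have hl : P.leadingCoeff ≠ 0 := Polynomial.leadingCoeff_ne_zero.2 hP
  have hl' : algebraMap k Ω P.leadingCoeff ≠ 0 := by
    rwa [Ne, map_eq_zero]
  have h3 : algebraMap k Ω P.leadingCoeff * t ^ P.natDegree ≠ 0 :=
    mul_ne_zero hl' (pow_ne_zero _ ht0)
  have h4 : v (algebraMap k Ω P.leadingCoeff * t ^ P.natDegree) = P.natDegree * v t := by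
    rw [v.map_mul hl' (pow_ne_zero _ ht0), hk.triv _ hl, v.map_pow ht0, zero_add]
  have h5 : Gt v (P.natDegree * v t)
      (algebraMap k Ω P.leadingCoeff * t ^ P.natDegree - Polynomial.aeval t P) := by
    rw [Polynomial.aeval_eq_sum_range, Finset.sum_range_succ, ← sub_sub, sub_right_comm]
    have h6 : P.coeff P.natDegree • t ^ P.natDegree =
        algebraMap k Ω P.leadingCoeff * t ^ P.natDegree := by
      rw [Algebra.smul_def]
      rfl
    rw [h6, sub_self, zero_sub]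
    refine (Gt.sum _ _ fun i hi => ?_).neg
    rw [Finset.mem_range] at hi
    rw [Algebra.smul_def]
    have h7 := (hk.ge (P.coeff i)).mul (TWM.ge_pow (RVal.ge_self (v := v) t) i)
    rw [zero_add] at h7
    refine Gt.of_ge h7 ?_
    have : (i : ℝ) < P.natDegree := by exact_mod_cast hi
    nlinarith
  have h6 := Gt.val_eq h3 (by rw [h4]; exact h5)
  exact ⟨h6.1, h6.2.trans h4⟩

theorem Rs.le (hk : Ctx0 k v) {x : Ω} {c : k} (h : Rs v x c) (hc : c ≠ 0) : x ≠ 0 ∧ v x ≤ 0 := by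
  have hc' : algebraMap k Ω c ≠ 0 := by rwa [Ne, map_eq_zero]
  have h1 : ¬ VPos v (algebraMap k Ω c) := fun h2 => by
    have h3 := h2 hc'
    rw [hk.triv _ hc] at h3
    exact lt_irrefl _ h3
  by_contra hno
  apply h1
  have h2 : VPos v x := fun hx0 => by
    by_contra h3
    exact hno ⟨hx0, not_lt.1 h3⟩
  have h3 := h2.sub h
  rwa [sub_sub_cancel] at h3

theorem Rs.paeval (hk : Ctx0 k v) {x : Ω} {a : k} (hx : Rs v x a) (n : Polynomial k) :
    Rs v (Polynomial.aeval x n) (n.eval a) := by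
  induction n using Polynomial.induction_on' with
  | add P Q hP hQ =>
    rw [map_add, Polynomial.eval_add]
    exact hP.add hQ
  | monomial i c =>
    rw [Polynomial.aeval_monomial, Polynomial.eval_monomial]
    exact (Rs.const c).mul hk (hx.pow hk i)

/-! ### Motions of pairs -/

/-- For all `J` there is a motion which moves `Q(w)`, visibly or by a residue. -/
def Mvd (v : RVal Ω) (L : ℕ → IntermediateField k Ω) (W F : IntermediateField k Ω) (w : Fin 2 → Ω)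
    (Q : MvPolynomial (Fin 2) k) : Prop :=
  ∀ J : ℕ, ∃ (Φ : Ω →ₐ[k] Ω) (η : ℝ) (X : Fin 2 → Ω), Mot v (L J) W F w X Φ η ∧
    aeval X Q ≠ 0 ∧ v (aeval X Q) ≤ 0

section mot

variable {A W F : IntermediateField k Ω} {w : Fin 2 → Ω} {L : ℕ → IntermediateField k Ω}

/-- The extension of a strict automorphism of `W⟨w 0⟩` to a motion of the pair. -/
theorem exists_mot [IsAlgClosed Ω] (hk : Ctx0 k v) (hsp : SphC v)
    (hval : ∀ ρ : ℝ, ∃ x : Ω, x ≠ 0 ∧ v x = ρ) (hcv : CompleteV v) (hAW : A ≤ W)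
    {r₀ r₁ : ℝ} (hp : Par v W F (w 0) r₀ (w 1) r₁) {Φ : Ω →ₐ[k] Ω} {η : ℝ} (h : SMo v A W Φ η)
    (h' : SMo v A (cadj v W (w 0)) Φ η) {X₀ : Ω} (hX : X₀ ∈ W) (h0 : Φ (w 0) = w 0 + X₀) :
    ∃ (Φ' : Ω →ₐ[k] Ω) (η' : ℝ) (X : Fin 2 → Ω), Mot v A W F w X Φ' η' ∧ X 0 = X₀ := by
  obtain ⟨c, hc, hcw⟩ := hp.t2.lim (η / 2) (half_pos h.pos)
  have hWc : W ≤ cadj v W (w 0) := le_cadj v W (w 0)
  obtain ⟨Φ', η', hη, h1, h2, h3, h4⟩ := h'.ext hk hsp hval hcv (hAW.trans hWc) hp.t21 (hWc hc) hcw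
    (sub_mem (h'.mem (hWc hc)) (hWc hc)) (by rw [sub_self]; exact Gt.zero)
  refine ⟨Φ', η', ![X₀, Φ c - c], ⟨?_, ?_, ?_, ?_⟩, rfl⟩
  · exact (h.congr hAW h1.iso fun b hb => h3 b (hWc hb)).mono le_rfl h1.pos hη
  · rw [hp.eq1]
    exact h2
  · intro i
    fin_cases i
    · exact hX
    · exact sub_mem (h.mem hc) hc
  · intro i
    fin_cases i
    · show Φ' (w 0) = w 0 + X₀
      rw [h3 _ (self_mem_cadj v W (w 0)), h0]
    · exact h4

/-- The motions of `w 0`. -/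
theorem mvd_of_mov [IsAlgClosed Ω] (hk : Ctx0 k v) (hsp : SphC v)
    (hval : ∀ ρ : ℝ, ∃ x : Ω, x ≠ 0 ∧ v x = ρ) (hcv : CompleteV v) (hLW : ∀ J, L J ≤ W)
    (hp : Par v W F (w 0) 0 (w 1) 0) (hm : MovV v L W (w 0) 0 ∨ MovR v L W (w 0) 0)
    {n : Polynomial k} (hn : n ≠ 0) : Mvd v L W F w (Polynomial.aeval (X 0) n) := by
  classical
  have hev : ∀ Y : Fin 2 → Ω, aeval Y (Polynomial.aeval (X 0 : MvPolynomial (Fin 2) k) n) =
      Polynomial.aeval (Y 0) n := fun Y => by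
    rw [← Polynomial.aeval_algHom_apply, aeval_X]
  intro J
  rcases hm with hm | hm
  · obtain ⟨Φ, η, Z, h1, h2, h3, h4, h5, h6, h7⟩ := hm J 1 one_pos
    obtain ⟨Φ', η', Y, h8, h9⟩ := exists_mot hk hsp hval hcv (hLW J) hp h1 h2 h4 h3
    refine ⟨Φ', η', Y, h8, ?_⟩
    rw [hev, h9]
    obtain ⟨h10, h11⟩ := kq_val hk h5 h7 hn
    refine ⟨h10, ?_⟩
    rw [h11]
    exact mul_nonpos_of_nonneg_of_nonpos (Nat.cast_nonneg _) h7.le
  · obtain ⟨t, ht, ht0, hvt, hm⟩ := hm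
    obtain ⟨τ, hτ⟩ := exists_rs0 hk (RVal.Ge.of_le hvt.ge)
    have hτ0 : τ ≠ 0 := by
      rintro rfl
      have := (rs_zero_iff.1 hτ) ht0
      rw [hvt] at this
      exact lt_irrefl _ this
    set q : Polynomial k := n.comp (Polynomial.C τ * Polynomial.X) with hq
    have hq0 : q ≠ 0 := by
      intro h0
      apply hn
      have h1 : q.comp (Polynomial.C τ⁻¹ * Polynomial.X) = n := by
        have h2 : (Polynomial.C τ * Polynomial.X).comp (Polynomial.C τ⁻¹ * Polynomial.X) =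
            (Polynomial.X : Polynomial k) := by
          rw [Polynomial.mul_comp, Polynomial.C_comp, Polynomial.X_comp, ← mul_assoc,
            ← Polynomial.C_mul, mul_inv_cancel₀ hτ0, Polynomial.C_1, one_mul]
        rw [hq, Polynomial.comp_assoc, h2, Polynomial.comp_X]
      rw [← h1, h0, Polynomial.zero_comp]
    obtain ⟨Φ, η, c, hc, h1, h2, h3⟩ := hm J q.roots.toFinset
    obtain ⟨Φ', η', Y, h8, h9⟩ := exists_mot hk hsp hval hcv (hLW J) hp h1 h2
      (mul_mem (W.algebraMap_mem c) ht) h3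
    refine ⟨Φ', η', Y, h8, ?_⟩
    rw [hev, h9]
    refine Rs.le hk (((Rs.const c).mul hk hτ).paeval hk n) fun h10 => hc ?_
    rw [Multiset.mem_toFinset, Polynomial.mem_roots hq0, Polynomial.IsRoot.def, hq,
      Polynomial.eval_comp, Polynomial.eval_mul, Polynomial.eval_C, Polynomial.eval_X, mul_comm]
    exact h10

theorem stp_neg (lam : k) (d : ℕ) (Q : MvPolynomial (Fin 2) k) :
    stp p (-lam) d (stp p lam d Q) = Q := by
  have h1 : (stp p (-lam) d).comp (stp p lam d) = AlgHom.id k (MvPolynomial (Fin 2) k) := by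
    ext i : 1
    rw [AlgHom.comp_apply, AlgHom.id_apply, stp, stp, aeval_X]
    fin_cases i
    · show aeval ![X 0, X 1 + C (-lam) * X 0 ^ p ^ d] (X 0 : MvPolynomial (Fin 2) k) = X 0
      rw [aeval_X]
      rfl
    · show aeval ![X 0, X 1 + C (-lam) * X 0 ^ p ^ d]
        (X 1 + C lam * X 0 ^ p ^ d : MvPolynomial (Fin 2) k) = X 1
      rw [map_add, map_mul, map_pow, aeval_X, aeval_X, ← algebraMap_eq, AlgHom.commutes,
        algebraMap_eq]
      show X 1 + C (-lam) * X 0 ^ p ^ d + C lam * X 0 ^ p ^ d = (X 1 : MvPolynomial (Fin 2) k)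
      rw [C_neg]
      ring
  exact DFunLike.congr_fun h1 Q

theorem aeval_stp (lam : k) (d : ℕ) (Y : Fin 2 → Ω) (Q : MvPolynomial (Fin 2) k) :
    aeval Y (stp p lam d Q) = aeval ![Y 0, Y 1 + algebraMap k Ω lam * Y 0 ^ p ^ d] Q := by
  have h1 : (aeval Y : MvPolynomial (Fin 2) k →ₐ[k] Ω).comp (stp p lam d) =
      aeval ![Y 0, Y 1 + algebraMap k Ω lam * Y 0 ^ p ^ d] := by
    ext i
    rw [AlgHom.comp_apply, aeval_X, stp, aeval_X]
    fin_cases i
    · show aeval Y (X 0 : MvPolynomial (Fin 2) k) = Y 0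
      rw [aeval_X]
    · show aeval Y (X 1 + C lam * X 0 ^ p ^ d : MvPolynomial (Fin 2) k) =
        Y 1 + algebraMap k Ω lam * Y 0 ^ p ^ d
      rw [map_add, map_mul, map_pow, aeval_X, aeval_X, ← algebraMap_eq, AlgHom.commutes]
  exact DFunLike.congr_fun h1 Q

theorem aeval_swp (Y : Fin 2 → Ω) (Q : MvPolynomial (Fin 2) k) :
    aeval Y (swp Q) = aeval ![Y 1, Y 0] Q := by
  have h1 : (aeval Y : MvPolynomial (Fin 2) k →ₐ[k] Ω).comp swp = aeval ![Y 1, Y 0] := by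
    ext i
    rw [AlgHom.comp_apply, aeval_X, swp, aeval_X]
    fin_cases i
    · show aeval Y (X 1 : MvPolynomial (Fin 2) k) = Y 1
      rw [aeval_X]
    · show aeval Y (X 0 : MvPolynomial (Fin 2) k) = Y 0
      rw [aeval_X]
  exact DFunLike.congr_fun h1 Q

theorem Mvd.step [hp : Fact p.Prime] [CharP Ω p] {lam : k} {d : ℕ} {Q : MvPolynomial (Fin 2) k}
    (h : Mvd v L W F ![w 0, w 1 - algebraMap k Ω lam * w 0 ^ p ^ d] (stp p lam d Q)) :
    Mvd v L W F w Q := by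
  intro J
  obtain ⟨Φ, η, Y, hM, h1, h2⟩ := h J
  rw [aeval_stp] at h1 h2
  refine ⟨Φ, η, ![Y 0, Y 1 + algebraMap k Ω lam * Y 0 ^ p ^ d], ⟨hM.mW, hM.mF, ?_, ?_⟩, h1, h2⟩
  · intro i
    fin_cases i
    · exact hM.XW 0
    · exact add_mem (hM.XW 1) (mul_mem (W.algebraMap_mem lam) (pow_mem (hM.XW 0) _))
  · have h3 : Φ (w 0) = w 0 + Y 0 := hM.mov 0
    have h4 : Φ (w 1 - algebraMap k Ω lam * w 0 ^ p ^ d) =
      w 1 - algebraMap k Ω lam * w 0 ^ p ^ d + Y 1 := hM.mov 1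
    rw [map_sub, map_mul, map_pow, AlgHom.commutes, h3, add_pow_char_pow] at h4
    intro i
    fin_cases i
    · exact h3
    · show Φ (w 1) = w 1 + (Y 1 + algebraMap k Ω lam * Y 0 ^ p ^ d)
      linear_combination h4

theorem Mvd.swap {Q : MvPolynomial (Fin 2) k} (h : Mvd v L W F ![w 1, w 0] (swp Q)) :
    Mvd v L W F w Q := by
  intro J
  obtain ⟨Φ, η, Y, hM, h1, h2⟩ := h J
  rw [aeval_swp] at h1 h2
  refine ⟨Φ, η, ![Y 1, Y 0], ⟨hM.mW, hM.mF, ?_, ?_⟩, h1, h2⟩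
  · intro i
    fin_cases i
    · exact hM.XW 1
    · exact hM.XW 0
  · intro i
    fin_cases i
    · exact hM.mov 1
    · exact hM.mov 0

/-- **The motions of additive homogeneous polynomials**, for the pairs of a class `RP` (the real
pairs, with their degrees) which is stable under the elementary steps. -/
theorem mvd_of_rp [hp : Fact p.Prime] [CharP Ω p] [CharP k p] [IsAlgClosed Ω] (hk : Ctx0 k v)
    (hsp : SphC v) (hval : ∀ ρ : ℝ, ∃ x : Ω, x ≠ 0 ∧ v x = ρ) (hcv : CompleteV v)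
    (hLW : ∀ J, L J ≤ W) {A : Type*} [AddCommGroup A] (hA : ∀ a : A, p • a = 0 → a = 0)
    (hkp : ∀ (x : k) (n : ℕ), ∃ y : k, y ^ p ^ n = x)
    {RP : (Fin 2 → A) → (Fin 2 → Ω) → Prop}
    (hst : ∀ (r : Fin 2 → A) (w : Fin 2 → Ω) (lam : k) (d : ℕ), RP r w → lam ≠ 0 →
      r 1 = p ^ d • r 0 → RP r ![w 0, w 1 - algebraMap k Ω lam * w 0 ^ p ^ d])
    (hsw : ∀ (r : Fin 2 → A) (w : Fin 2 → Ω), RP r w → RP ![r 1, r 0] ![w 1, w 0])
    (hpar : ∀ (r : Fin 2 → A) (w : Fin 2 → Ω), RP r w → Par v W F (w 0) 0 (w 1) 0)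
    (hmv : ∀ (r : Fin 2 → A) (w : Fin 2 → Ω), RP r w → MovV v L W (w 0) 0 ∨ MovR v L W (w 0) 0)
    {r : Fin 2 → A} (hR : RP r w) {f : MvPolynomial (Fin 2) k} (hf : AP p f) (hf0 : f ≠ 0) {c : A}
    (hh : Hm r c f) : Mvd v L W F w f := by
  have hinj : ∀ (lam : k) (d : ℕ) (Q : MvPolynomial (Fin 2) k), Q ≠ 0 → stp p lam d Q ≠ 0 :=
    fun lam d Q hQ h0 => hQ (by rw [← stp_neg (p := p) lam d Q, h0, map_zero])
  have hinj' : ∀ Q : MvPolynomial (Fin 2) k, Q ≠ 0 → swp Q ≠ 0 := fun Q hQ h0 => hQ (by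
    have h1 : (swp : MvPolynomial (Fin 2) k →ₐ[k] MvPolynomial (Fin 2) k).comp swp =
        AlgHom.id k (MvPolynomial (Fin 2) k) := by
      ext i : 1
      rw [AlgHom.comp_apply, AlgHom.id_apply, swp, aeval_X]
      fin_cases i
      · show aeval ![X 1, X 0] (X 1 : MvPolynomial (Fin 2) k) = X 0
        rw [aeval_X]
        rfl
      · show aeval ![X 1, X 0] (X 0 : MvPolynomial (Fin 2) k) = X 1
        rw [aeval_X]
        rfl
    have h2 := DFunLike.congr_fun h1 Q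
    rw [AlgHom.comp_apply, h0, map_zero] at h2
    exact h2.symm)
  obtain ⟨r', U', ⟨w', hR', Q, rfl, hQ0, hQ⟩, h2⟩ := TWTG.euclid (k := k) hA hkp
    (P := fun r U => ∃ w' : Fin 2 → Ω, RP r w' ∧ ∃ Q : MvPolynomial (Fin 2) k, U = {Q} ∧ Q ≠ 0 ∧
      (Mvd v L W F w' Q → Mvd v L W F w f))
    (fun r U d lam hP hlam hr => by
      obtain ⟨w', h1, Q, rfl, h3, h4⟩ := hP
      exact ⟨_, hst r w' lam d h1 hlam hr, _, Set.image_singleton, hinj lam d Q h3,
        fun h5 => h4 h5.step⟩)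
    (fun r U hP => by
      obtain ⟨w', h1, Q, rfl, h3, h4⟩ := hP
      exact ⟨_, hsw r w' h1, _, Set.image_singleton, hinj' Q h3, fun h5 => h4 h5.swap⟩)
    (r := r) (U := {f}) ⟨w, hR, f, rfl, hf0, fun h => h⟩ hf hh
    (fun Q hQ => ⟨Polynomial.X, by
      rw [Polynomial.aeval_X]
      exact hQ⟩)
  obtain ⟨n, hn⟩ := h2 Q rfl
  apply hQ
  rw [hn]
  refine mvd_of_mov hk hsp hval hcv hLW (hpar r' w' hR') (hmv r' w' hR') ?_
  rintro rfl
  exact hQ0 (by rw [hn, map_zero])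

end mot

/-- **The core, for the pairs of a class `RP`** (the real pairs), if `W₁` is graded. -/
theorem core_rp [hp : Fact p.Prime] [CharP Ω p] [CharP k p] [IsAlgClosed k] [IsAlgClosed Ω]
    (hcore : Core (k := k) (Ω := Ω) p v)
    {L : ℕ → IntermediateField k Ω} {W F K : IntermediateField k Ω} {w : Fin 2 → Ω}
    {x z a : Ω} {R : Rec k Ω} (h : CG p v L W F K w x z a R)
    {A : Type*} [AddCommGroup A] (hA : ∀ a : A, p • a = 0 → a = 0)
    {RP : (Fin 2 → A) → (Fin 2 → Ω) → Prop}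
    (hst : ∀ (r : Fin 2 → A) (w : Fin 2 → Ω) (lam : k) (d : ℕ), RP r w → lam ≠ 0 →
      r 1 = p ^ d • r 0 → RP r ![w 0, w 1 - algebraMap k Ω lam * w 0 ^ p ^ d])
    (hsw : ∀ (r : Fin 2 → A) (w : Fin 2 → Ω), RP r w → RP ![r 1, r 0] ![w 1, w 0])
    (hpar : ∀ (r : Fin 2 → A) (w : Fin 2 → Ω), RP r w → Par v W F (w 0) 0 (w 1) 0)
    (hmv : ∀ (r : Fin 2 → A) (w : Fin 2 → Ω), RP r w → MovV v L W (w 0) 0 ∨ MovR v L W (w 0) 0)
    {r : Fin 2 → A} (hR : RP r w) (hgr : ∀ N ∈ R.WN, ∀ c : A, cmp r c N ∈ R.WN) :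
    ∃ E : MvPolynomial (Fin 2) k ≃ₐ[k] MvPolynomial (Fin 2) k, AA E ∧
      ∃ b : Fin 2, ∀ N ∈ R.WN, ∀ m ∈ (E N).support, m b = 0 := by
  by_cases hV : R.WN = ⊥
  · refine ⟨AlgEquiv.refl, AA.refl, 0, fun N hN m hm => ?_⟩
    rw [hV, Submodule.mem_bot] at hN
    subst hN
    simp at hm
  · obtain ⟨f, hf, hf0, hfa⟩ := exists_adt (fun N hN => h.zero_WN hN) (fun c N hN => h.tr_WN c hN) hV
    obtain ⟨m, hm⟩ := support_nonempty.2 hf0
    have h1 : cmp r (dgr r m) f ≠ 0 := fun h0 => by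
      have h2 := congrArg (coeff m) h0
      rw [TWTG.coeff_cmp, if_pos rfl, coeff_zero] at h2
      exact mem_support_iff.1 hm h2
    have h2 : Mvd v L W F w (cmp r (dgr r m) f) := mvd_of_rp h.c0 h.sph h.hval h.cv h.le hA
      (fun x n => IsAlgClosed.exists_pow_nat_eq x (Nat.pow_pos hp.out.pos)) hst hsw hpar hmv hR
      ((ap_of_adt hfa).cmp r _) h1 (fun g hg => (TWTG.support_cmp hg).2)
    obtain ⟨J₀, h3⟩ := hcore L W F K w x z a R h
    obtain ⟨Φ, η, Y, hM, h4, h5⟩ := h2 J₀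
    exact h3 J₀ le_rfl Φ η Y hM ⟨_, hgr f hf _, h4, h5⟩

end Pool.Agent.TWCY
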