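import Pool.Agent.Lib.TWCY.S12

/-!
# The normal form of `a₀` (J1.1)

`a = e z + x P(z) + a₀` modulo null, `a` critical, `a₀ ∈ F = cl W[w 0, w 1]`.  After `z ↦ z - φ`,
`φ ∈ F`: `a₀ = Pa(w)` exactly, `Pa` over `W`, all exponents of `Pa` are divisible by `p` up to a
linear form `l` over `k`, `l = 0` if `e ≠ 0`; if `e ≠ 0` the values of the `∂_i` at `z` are integral.

* `prj`: the projection `∑_(m < p) (-1)^m/m! (X_i - α)^m ∂_i^m` to the kernel of `∂_i`;
* `nfa`: the normal form.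
-/

set_option autoImplicit false

open MvPolynomial

namespace Pool.Agent.TWCY

open Pool.Agent.H15JM (RVal)
open Pool.Agent.LU1 (VPos)
open Pool.Agent.D2 (Ctx0)
open Pool.Agent.TWM
open Pool.Agent.TWS (IsoE SphC)
open Pool.Agent.TWLY

universe u

/-! ### Polynomials -/

section poly

variable {K : Type*} [Field K]

theorem coeff_pderiv_it (i : Fin 2) (n : ℕ) : ∀ (q : MvPolynomial (Fin 2) K) (m : Ex),
    coeff m ((pderiv i)^[n] q) =
      coeff (m + Finsupp.single i n) q * (((m i + 1).ascFactorial n : ℕ) : K) := by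
  induction n with
  | zero =>
    intro q m
    simp
  | succ n ih =>
    intro q m
    rw [Function.iterate_succ_apply, ih, coeff_pderiv, add_assoc, ← Finsupp.single_add,
      Nat.ascFactorial_succ]
    simp only [Finsupp.add_apply, Finsupp.single_eq_same]
    push_cast
    ring

theorem pderiv_it_p {p : ℕ} [CharP K p] (i : Fin 2) (q : MvPolynomial (Fin 2) K) (hp : p ≠ 0) :
    (pderiv i)^[p] q = 0 := by
  ext m
  rw [coeff_pderiv_it, coeff_zero]
  have h : p ∣ (m i + 1).ascFactorial p :=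
    (Nat.dvd_factorial (Nat.pos_of_ne_zero hp) le_rfl).trans (Nat.factorial_dvd_ascFactorial _ _)
  rw [(CharP.cast_eq_zero_iff K p _).2 h, mul_zero]

theorem pderiv_comm' (i j : Fin 2) (q : MvPolynomial (Fin 2) K) :
    pderiv i (pderiv j q) = pderiv j (pderiv i q) := by
  by_cases hij : i = j
  · rw [hij]
  ext m
  rw [coeff_pderiv, coeff_pderiv, coeff_pderiv, coeff_pderiv]
  have e : m + Finsupp.single i 1 + Finsupp.single j 1 =
      m + Finsupp.single j 1 + Finsupp.single i 1 := by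
    rw [add_right_comm]
  rw [e]
  simp only [Finsupp.add_apply, Finsupp.single_apply, if_neg hij, if_neg (Ne.symm hij)]
  push_cast
  ring

theorem pderiv_it_comm (i j : Fin 2) (q : MvPolynomial (Fin 2) K) (n : ℕ) :
    pderiv j ((pderiv i)^[n] q) = (pderiv i)^[n] (pderiv j q) := by
  induction n generalizing q with
  | zero => rfl
  | succ n ih => rw [Function.iterate_succ_apply, ih, pderiv_comm', ← Function.iterate_succ_apply]

/-- `(-1)^m / m!`. -/
noncomputable def cc (K : Type*) [Field K] (m : ℕ) : K := (-1) ^ m * ((m.factorial : ℕ) : K)⁻¹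

theorem cc_zero : cc K 0 = 1 := by
  unfold cc
  simp

theorem cc_succ (m : ℕ) (h : ((m + 1 : ℕ) : K) ≠ 0) : cc K (m + 1) * ((m + 1 : ℕ) : K) = -cc K m := by
  unfold cc
  rw [Nat.factorial_succ, Nat.cast_mul, mul_inv, pow_succ]
  field_simp

/-- The projection to the kernel of `∂_i`. -/
noncomputable def prj (p : ℕ) (i : Fin 2) (α : K) (q : MvPolynomial (Fin 2) K) :
    MvPolynomial (Fin 2) K :=
  ∑ m ∈ Finset.range p, C (cc K m) * (X i - C α) ^ m * (pderiv i)^[m] q

theorem pderiv_prj {p : ℕ} [hp : Fact p.Prime] [CharP K p] (i : Fin 2) (α : K)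
    (q : MvPolynomial (Fin 2) K) : pderiv i (prj p i α q) = 0 := by
  obtain ⟨T, hT⟩ : ∃ T : ℕ → MvPolynomial (Fin 2) K,
      T = fun m => C (cc K m) * (X i - C α) ^ m * (pderiv i)^[m + 1] q := ⟨_, rfl⟩
  have hX : pderiv i (X i - C α : MvPolynomial (Fin 2) K) = 1 := by
    rw [map_sub, pderiv_C, pderiv_X_self, sub_zero]
  have key : ∀ n, n < p → ∑ m ∈ Finset.range (n + 1),
      pderiv i (C (cc K m) * (X i - C α) ^ m * (pderiv i)^[m] q) = T n := by
    intro n
    induction n with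
    | zero =>
      intro _
      rw [Finset.sum_range_one, hT]
      simp only [pow_zero, mul_one, Function.iterate_zero, id_eq, zero_add, Function.iterate_one]
      rw [pderiv_C_mul]
    | succ n ih =>
      intro hn
      rw [Finset.sum_range_succ, ih (by omega), hT]
      have h0 : ((n + 1 : ℕ) : K) ≠ 0 := by
        intro h
        rw [CharP.cast_eq_zero_iff K p] at h
        exact absurd (Nat.le_of_dvd (Nat.succ_pos n) h) (by omega)
      have h1 := cc_succ (K := K) n h0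
      have h2 : C (cc K (n + 1)) * ((n + 1 : ℕ) : MvPolynomial (Fin 2) K) = -C (cc K n) := by
        rw [← C_eq_coe_nat, ← C_mul, h1, C_neg]
      change C (cc K n) * (X i - C α) ^ n * (pderiv i)^[n + 1] q +
        pderiv i (C (cc K (n + 1)) * (X i - C α) ^ (n + 1) * (pderiv i)^[n + 1] q) =
        C (cc K (n + 1)) * (X i - C α) ^ (n + 1) * (pderiv i)^[n + 1 + 1] q
      rw [pderiv_mul, pderiv_C_mul, pderiv_pow, hX, Nat.add_sub_cancel, mul_one,
        ← Function.iterate_succ_apply' (⇑(pderiv i)), ← mul_assoc (C (cc K (n + 1))), h2]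
      ring
  unfold prj
  rw [map_sum]
  obtain ⟨n, hn⟩ : ∃ n, p = n + 1 := ⟨p - 1, by have := hp.out.pos; omega⟩
  have h1 := key n (by omega)
  rw [← hn] at h1
  rw [h1, hT]
  change C (cc K n) * (X i - C α) ^ n * (pderiv i)^[n + 1] q = 0
  rw [← hn, pderiv_it_p i q hp.out.ne_zero, mul_zero]

theorem pderiv_prj_ne {p : ℕ} {i j : Fin 2} (hij : i ≠ j) (α : K) {q : MvPolynomial (Fin 2) K}
    (hq : pderiv j q = 0) : pderiv j (prj p i α q) = 0 := by
  unfold prj
  rw [map_sum]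
  refine Finset.sum_eq_zero fun m _ => ?_
  have hX : pderiv j (X i - C α : MvPolynomial (Fin 2) K) = 0 := by
    rw [map_sub, pderiv_C, pderiv_X_of_ne hij, sub_zero]
  rw [pderiv_mul, pderiv_C_mul, pderiv_pow, hX, mul_zero, mul_zero, zero_mul, zero_add,
    pderiv_it_comm, hq]
  rw [iterate_map_zero, mul_zero]

theorem pdv_of_pderiv {p : ℕ} [CharP K p] {q : MvPolynomial (Fin 2) K}
    (h : ∀ i, pderiv i q = 0) : PDv p q := by
  intro g i hg
  have h0 : g i ≠ 0 := by
    intro h0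
    exact hg (h0 ▸ dvd_zero p)
  obtain ⟨m, hm⟩ : ∃ m : Ex, g = m + Finsupp.single i 1 :=
    ⟨g - Finsupp.single i 1, by
      rw [tsub_add_cancel_of_le]
      rw [Finsupp.single_le_iff]
      omega⟩
  have h1 := coeff_pderiv (i := i) q m
  rw [h i, coeff_zero, ← hm] at h1
  have h2 : g i = m i + 1 := by
    rw [hm, Finsupp.add_apply, Finsupp.single_eq_same]
  rcases mul_eq_zero.1 h1.symm with h3 | h3
  · exact h3
  · exfalso
    refine hg ((CharP.cast_eq_zero_iff K p _).1 ?_)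
    rw [h2]
    push_cast
    exact h3

end poly

/-! ### Values -/

variable {k Ω : Type u} [Field k] [Field Ω] [Algebra k Ω] {v : RVal Ω}
  {W F : IntermediateField k Ω} {w : Fin 2 → Ω} {T : (Fin 2 → k) → Ω →ₐ[k] Ω} {D : Ω → Ω}
  {dd : Fin 2 → Ω → Ω}

theorem aeval_mem (hT : Trn v W F w T) (q : MvPolynomial (Fin 2) W) : aeval w q ∈ F := by
  induction q using MvPolynomial.induction_on with
  | C a =>
    rw [aeval_C]
    exact hT.le a.2
  | add a b ha hb => rw [map_add]; exact add_mem ha hb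
  | mul_X a i ha => rw [map_mul, aeval_X]; exact mul_mem ha (hT.wF i)

/-- The polynomials over `W` are dense in `F`. -/
theorem Trn.dns' (hT : Trn v W F w T) {y : Ω} (hy : y ∈ F) (r : ℝ) :
    ∃ q : MvPolynomial (Fin 2) W, v.Ge r (y - aeval w q) := by
  obtain ⟨q, hq, h⟩ := hT.dns y hy r
  refine ⟨∑ g ∈ q.support, monomial g ⟨coeff g q, hq g⟩, ?_⟩
  have e : aeval w (∑ g ∈ q.support, monomial g (⟨coeff g q, hq g⟩ : W)) = eval w q := by
    rw [map_sum]
    conv_rhs => rw [q.as_sum, map_sum]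
    refine Finset.sum_congr rfl fun g _ => ?_
    rw [aeval_monomial, eval_monomial]
    rfl
  rwa [e]

theorem dd_aeval (hT : Trn v W F w T) (hD : DrvT v W F w T D dd) (i : Fin 2)
    (q : MvPolynomial (Fin 2) W) : dd i (aeval w q) = aeval w (pderiv i q) := by
  induction q using MvPolynomial.induction_on with
  | C a =>
    rw [aeval_C, pderiv_C, map_zero]
    exact hD.ddW i _ a.2
  | add a b ha hb =>
    rw [map_add, (hD.drvi i).add _ (aeval_mem hT a) _ (aeval_mem hT b), ha, hb, map_add, map_add]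
  | mul_X a j ha =>
    rw [map_mul, aeval_X, (hD.drvi i).mul _ (aeval_mem hT a) _ (hT.wF j), ha, pderiv_mul, map_add,
      map_mul, map_mul, aeval_X, hD.ddw, pderiv_X]
    by_cases hij : i = j
    · rw [if_pos hij, hij, Pi.single_eq_same, map_one]
      ring
    · rw [if_neg hij, Pi.single_eq_of_ne (Ne.symm hij), map_zero]
      ring

theorem ge_aeval_it (hT : Trn v W F w T) (hD : DrvT v W F w T D dd) (i : Fin 2) {μ : ℝ}
    {q : MvPolynomial (Fin 2) W} (h : v.Ge μ (aeval w (pderiv i q))) (m : ℕ) :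
    v.Ge μ (aeval w ((pderiv i)^[m + 1] q)) := by
  induction m with
  | zero => exact h
  | succ m ih =>
    rw [Function.iterate_succ_apply', ← dd_aeval hT hD]
    exact (hD.drvi i).norm _ (aeval_mem hT _) _ ih

theorem cc_ge (hk : Ctx0 k v) (m : ℕ) : v.Ge 0 ((cc W m : W) : Ω) := by
  have e : ((cc W m : W) : Ω) = algebraMap k Ω (cc k m) := by
    unfold cc
    push_cast
    simp
  rw [e]
  exact hk.ge _

/-- **The projection does not change much.** -/
theorem exists_prj (hk : Ctx0 k v) {p : ℕ} [hp : Fact p.Prime] (hT : Trn v W F w T)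
    (hD : DrvT v W F w T D dd) (hw : ∀ i, Lim v W 0 (w i)) (i : Fin 2) {μ : ℝ} (hμ : 0 < μ)
    {q : MvPolynomial (Fin 2) W} (h : v.Ge μ (aeval w (pderiv i q))) :
    ∃ α : W, v.Ge (μ / 2) (aeval w (prj p i α q) - aeval w q) := by
  have hp0 : (0 : ℝ) < p := by exact_mod_cast hp.out.pos
  obtain ⟨α, hα, h1⟩ := Lim.neg_eps (hw i) (ε := μ / (2 * p)) (by positivity)
  refine ⟨⟨α, hα⟩, ?_⟩
  obtain ⟨n, hn⟩ : ∃ n, p = n + 1 := ⟨p - 1, by have := hp.out.pos; omega⟩
  have e : aeval w (prj p i (⟨α, hα⟩ : W) q) - aeval w q =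
      ∑ m ∈ Finset.range n, ((cc W (m + 1) : W) : Ω) * (w i - α) ^ (m + 1) *
        aeval w ((pderiv i)^[m + 1] q) := by
    unfold prj
    rw [hn, Finset.sum_range_succ', map_add, map_sum]
    simp only [cc_zero, C_1, pow_zero, mul_one, Function.iterate_zero, id_eq, one_mul,
      add_sub_cancel_right, map_mul, map_pow, map_sub, aeval_X, aeval_C]
    rfl
  rw [e]
  refine RVal.Ge.sum _ _ fun m hm => ?_
  rw [Finset.mem_range] at hm
  have h2 := ((cc_ge hk (W := W) (m + 1)).mul (TWM.ge_pow h1 (m + 1))).mul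
    (ge_aeval_it hT hD i h m)
  refine h2.mono ?_
  have h3 : ((m + 1 : ℕ) : ℝ) ≤ p := by
    rw [hn]
    exact_mod_cast (by omega : m + 1 ≤ n + 1)
  have h4 : ((m + 1 : ℕ) : ℝ) * (μ / (2 * p)) ≤ μ / 2 := by
    have h5 : (p : ℝ) * (μ / (2 * p)) = μ / 2 := by
      field_simp
    rw [← h5]
    exact mul_le_mul_of_nonneg_right h3 (by positivity)
  have h6 : ((m + 1 : ℕ) : ℝ) * -(μ / (2 * p)) = -(((m + 1 : ℕ) : ℝ) * (μ / (2 * p))) := by ring
  rw [h6]
  linarith

variable {p : ℕ} [hp : Fact p.Prime] [CharP Ω p]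

/-- A polynomial over `W` with strict `∂_i` is near one with exponents divisible by `p`. -/
theorem exists_pdv (hk : Ctx0 k v) (hT : Trn v W F w T) (hD : DrvT v W F w T D dd)
    (hw : ∀ i, Lim v W 0 (w i)) {q : MvPolynomial (Fin 2) W}
    (h : ∀ i, VPos v (dd i (aeval w q))) :
    ∃ q' : MvPolynomial (Fin 2) W, PDv p q' ∧ VPos v (aeval w q' - aeval w q) := by
  have : CharP W p := (W.val : W →+* Ω).charP W.val.injective p
  obtain ⟨r, hr, h0⟩ := VPos.ge_iff (h 0)
  obtain ⟨r', hr', h1⟩ := VPos.ge_iff (h 1)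
  obtain ⟨μ, hμ, hμr, hμr'⟩ : ∃ μ : ℝ, 0 < μ ∧ μ ≤ r ∧ μ ≤ r' :=
    ⟨min r r', lt_min hr hr', min_le_left _ _, min_le_right _ _⟩
  rw [dd_aeval hT hD] at h0
  obtain ⟨α, h2⟩ := exists_prj hk (p := p) hT hD hw 0 hμ (h0.mono hμr)
  have h3 : v.Ge (μ / 2) (aeval w (pderiv 1 (prj p 0 α q))) := by
    rw [← dd_aeval hT hD]
    have e : dd 1 (aeval w (prj p 0 α q)) =
        dd 1 (aeval w (prj p 0 α q) - aeval w q) + dd 1 (aeval w q) := by
      rw [(hD.drvi 1).map_sub (aeval_mem hT _) (aeval_mem hT _)]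
      ring
    rw [e]
    exact ((hD.drvi 1).norm _ (sub_mem (aeval_mem hT _) (aeval_mem hT _)) _ h2).add
      (h1.mono (by linarith))
  obtain ⟨β, h4⟩ := exists_prj hk (p := p) hT hD hw 1 (half_pos hμ) h3
  refine ⟨prj p 1 β (prj p 0 α q), pdv_of_pderiv ?_, ?_⟩
  · intro i
    fin_cases i
    · exact pderiv_prj_ne (by decide) β (pderiv_prj 0 α q)
    · exact pderiv_prj 1 β _
  · have h5 := h4.add (h2.mono (by linarith : μ / 2 / 2 ≤ μ / 2))
    rw [sub_add_sub_cancel] at h5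
    exact vpos_of_ge (by linarith) h5

/-- The polynomial over `Ω`. -/
noncomputable def up (q : MvPolynomial (Fin 2) W) : MvPolynomial (Fin 2) Ω := mapAlgHom W.val q

omit hp [CharP Ω p] in
theorem coeff_up (q : MvPolynomial (Fin 2) W) (g : Ex) : coeff g (up q) = ((coeff g q : W) : Ω) := by
  unfold up
  rw [mapAlgHom_apply, coeff_map]
  rfl

theorem eval_up (q : MvPolynomial (Fin 2) W) (y : Fin 2 → Ω) : eval y (up q) = aeval y q := by
  unfold up
  rw [mapAlgHom_apply, eval_map, aeval_def]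
  rfl

/-- The polynomial `Pa(w + s) - Pa(w)` in `s`. -/
noncomputable def shf (w : Fin 2 → Ω) (Pa : MvPolynomial (Fin 2) Ω) : MvPolynomial (Fin 2) Ω :=
  bind₁ (fun i => C (w i) + X i) Pa - C (eval w Pa)

theorem eval_shf (w y : Fin 2 → Ω) (Pa : MvPolynomial (Fin 2) Ω) :
    eval y (shf w Pa) = eval (fun i => w i + y i) Pa - eval w Pa := by
  unfold shf
  rw [map_sub, eval_C]
  congr 1
  rw [← aeval_eq_eval, ← aeval_eq_eval, aeval_bind₁]
  congr 2
  ext i
  simp

theorem coeff_shf (hT : Trn v W F w T) {Pa : MvPolynomial (Fin 2) Ω} (hPa : ∀ g, coeff g Pa ∈ W)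
    (g : Ex) : coeff g (shf w Pa) ∈ F := by
  obtain ⟨S, hS⟩ : ∃ S : Subalgebra k (MvPolynomial (Fin 2) Ω), S = (mapAlgHom F.val).range :=
    ⟨_, rfl⟩
  have hC : ∀ f ∈ F, (C f : MvPolynomial (Fin 2) Ω) ∈ S := by
    intro f hf
    rw [hS]
    refine ⟨C ⟨f, hf⟩, ?_⟩
    change mapAlgHom F.val (C (⟨f, hf⟩ : F)) = C f
    rw [mapAlgHom_apply, map_C]
    rfl
  have hX : ∀ i, (X i : MvPolynomial (Fin 2) Ω) ∈ S := by
    intro i
    rw [hS]
    refine ⟨X i, ?_⟩
    change mapAlgHom F.val (X i : MvPolynomial (Fin 2) F) = X i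
    rw [mapAlgHom_apply, map_X]
  have h1 : shf w Pa ∈ S := by
    unfold shf
    refine sub_mem ?_ (hC _ ?_)
    · rw [Pa.as_sum, map_sum]
      refine sum_mem fun g _ => ?_
      rw [bind₁_monomial]
      refine mul_mem (hC _ (hT.le (hPa g))) (prod_mem fun i _ => pow_mem ?_ _)
      exact add_mem (hC _ (hT.wF i)) (hX i)
    · rw [Pa.as_sum, map_sum]
      refine sum_mem fun g _ => ?_
      rw [eval_monomial]
      exact mul_mem (hT.le (hPa g)) (prod_mem fun i _ => pow_mem (hT.wF i) _)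
  rw [hS] at h1
  obtain ⟨q, hq⟩ := h1
  rw [← hq]
  change coeff g (mapAlgHom F.val q) ∈ F
  rw [mapAlgHom_apply, coeff_map]
  exact (coeff g q).2

theorem eval_poly_mem (hT : Trn v W F w T) {Pa : MvPolynomial (Fin 2) Ω}
    (hPa : ∀ g, coeff g Pa ∈ W) : eval w Pa ∈ F := by
  rw [Pa.as_sum, map_sum]
  refine sum_mem fun g _ => ?_
  rw [eval_monomial]
  exact mul_mem (hT.le (hPa g)) (prod_mem fun i _ => pow_mem (hT.wF i) _)

theorem T_eval (hT : Trn v W F w T) {Pa : MvPolynomial (Fin 2) Ω} (hPa : ∀ g, coeff g Pa ∈ W)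
    (c : Fin 2 → k) : T c (eval w Pa) = eval w Pa + eval (pt c) (shf w Pa) := by
  rw [eval_shf, add_sub_cancel]
  conv_lhs => rw [Pa.as_sum, map_sum, map_sum]
  conv_rhs => rw [Pa.as_sum, map_sum]
  refine Finset.sum_congr rfl fun g _ => ?_
  rw [eval_monomial, eval_monomial, map_mul, hT.fix c _ (hPa g), Finsupp.prod, Finsupp.prod,
    map_prod]
  congr 1
  refine Finset.prod_congr rfl fun i _ => ?_
  rw [map_pow, hT.wT]
  rfl

/-- The tie after `z ↦ z - φ`. -/
theorem tieD_sub (hT : Trn v W F w T) {x z a₀ φ : Ω} {e : k} {κ : ℕ → k} {t : ℕ}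
    (xW : x ∈ W) (kap : κ t ≠ 0)
    (tie : ∀ ε : ℝ, 0 < ε → ∃ θ ∈ F, v.Ge (-ε) (z - θ) ∧
      ∃ h ∈ F, v.Ge (-ε) (algebraMap k Ω e * θ + x * PP p κ t θ + a₀ - h ^ p))
    (hφ : φ ∈ F) {Pa : MvPolynomial (Fin 2) Ω} (hPa : ∀ g, coeff g Pa ∈ W)
    (hv : VPos v (a₀ + algebraMap k Ω e * φ + x * PP p κ t φ - eval w Pa)) :
    TieD p v W F T x (z - φ) (eval w Pa) e κ t (shf w Pa) where
  xW := xW
  aF := eval_poly_mem hT hPa
  AF := coeff_shf hT hPa
  A0 := by
    rw [← eval_zero, eval_shf]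
    simp
  AT := T_eval hT hPa
  kap := kap
  tie := by
    intro ε hε
    obtain ⟨θ, hθ, h1, h, hh, h2⟩ := tie ε hε
    refine ⟨θ - φ, sub_mem hθ hφ, ?_, h, hh, ?_⟩
    · rwa [sub_sub_sub_cancel_right]
    · have h3 := h2.sub ((VPos.ge hv).mono (by linarith : -ε ≤ 0))
      have e1 : algebraMap k Ω e * (θ - φ) + x * PP p κ t (θ - φ) + eval w Pa - h ^ p =
          algebraMap k Ω e * θ + x * PP p κ t θ + a₀ - h ^ p -
            (a₀ + algebraMap k Ω e * φ + x * PP p κ t φ - eval w Pa) := by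
        rw [PP_sub]
        ring
      rwa [e1]

omit hp [CharP Ω p] in
theorem coeff_lin (ρ : Fin 2 → k) (g : Ex) (hg : ∀ i, g ≠ Finsupp.single i 1) :
    coeff g (∑ i, C (ρ i) * X i : MvPolynomial (Fin 2) k) = 0 := by
  classical
  rw [coeff_sum]
  refine Finset.sum_eq_zero fun i _ => ?_
  rw [coeff_C_mul, coeff_X, if_neg (Ne.symm (hg i)), mul_zero]

/-- **The normal form of `a₀`.** -/
theorem nfa (hk : Ctx0 k v) (hT : Trn v W F w T) (hD : DrvT v W F w T D dd)
    (hw : ∀ i, Lim v W 0 (w i)) {x z a₀ : Ω} {e : k} {κ : ℕ → k} {t : ℕ} (xW : x ∈ W)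
    (aF : a₀ ∈ F) (kap : κ t ≠ 0)
    (tie : ∀ ε : ℝ, 0 < ε → ∃ θ ∈ F, v.Ge (-ε) (z - θ) ∧
      ∃ h ∈ F, v.Ge (-ε) (algebraMap k Ω e * θ + x * PP p κ t θ + a₀ - h ^ p)) :
    ∃ (φ : Ω) (Pa : MvPolynomial (Fin 2) Ω) (l : MvPolynomial (Fin 2) k), φ ∈ F ∧
      (∀ g, coeff g Pa ∈ W) ∧ (∀ g, coeff g l ≠ 0 → ∃ i, g = Finsupp.single i 1) ∧
      (∀ g, ¬ (∀ i, p ∣ g i) → coeff g Pa = algebraMap k Ω (coeff g l)) ∧ (e = 0 ∨ l = 0) ∧
      (e ≠ 0 → ∀ i y, NatV v F (dd i) (z - φ) y → v.Ge 0 y) ∧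
      VPos v (a₀ + algebraMap k Ω e * φ + x * PP p κ t φ - eval w Pa) ∧
      TieD p v W F T x (z - φ) (eval w Pa) e κ t (shf w Pa) := by
  have hx : ∀ i, ∀ y ∈ F, dd i (x * PP p κ t y) = 0 := by
    intro i y hy
    rw [(hD.drvi i).mul _ (hT.le xW) _ (PP_mem hy), (hD.drvi i).map_PP hy, hD.ddW i x xW,
      mul_zero, mul_zero, add_zero]
  by_cases he : e = 0
  · -- no term in `z`: the residues of the `∂_i a₀`
    have h1 : ∀ i, v.Ge 0 (dd i a₀) := by
      intro i
      refine ge_zero_of_eps fun ε hε => ?_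
      obtain ⟨θ, hθ, -, h, hh, h2⟩ := tie ε hε
      have hxm : x * PP p κ t θ ∈ F := mul_mem (hT.le xW) (PP_mem hθ)
      rw [he, map_zero, zero_mul, zero_add] at h2
      have h3 := (hD.drvi i).norm _ (sub_mem (add_mem hxm aF) (pow_mem hh p)) _ h2
      rwa [(hD.drvi i).map_sub (add_mem hxm aF) (pow_mem hh p), (hD.drvi i).map_pow_char hh,
        sub_zero, (hD.drvi i).add _ hxm _ aF, hx i θ hθ, zero_add] at h3
    choose ρ hρ using fun i => exists_rs0 hk (h1 i)
    obtain ⟨L, hL⟩ : ∃ L : MvPolynomial (Fin 2) W, L = ∑ i, C (algebraMap k W (ρ i)) * X i :=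
      ⟨_, rfl⟩
    have hLd : ∀ i, dd i (aeval w L) = algebraMap k Ω (ρ i) := by
      intro i
      rw [dd_aeval hT hD, hL, map_sum, map_sum, Finset.sum_eq_single i]
      · rw [pderiv_C_mul, pderiv_X_self, mul_one, aeval_C]
        rfl
      · intro j _ hj
        rw [pderiv_C_mul, pderiv_X_of_ne hj, mul_zero, map_zero]
      · intro h0
        exact absurd (Finset.mem_univ _) h0
    have ha' : a₀ - aeval w L ∈ F := sub_mem aF (aeval_mem hT L)
    obtain ⟨q, hq⟩ := hT.dns' ha' 1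
    have h2 : ∀ i, VPos v (dd i (aeval w q)) := by
      intro i
      have h3 : VPos v (dd i (a₀ - aeval w L)) := by
        rw [(hD.drvi i).map_sub aF (aeval_mem hT L), hLd]
        exact hρ i
      have h4 : VPos v (dd i (a₀ - aeval w L - aeval w q)) :=
        vpos_of_ge one_pos ((hD.drvi i).norm _ (sub_mem ha' (aeval_mem hT q)) _ hq)
      rw [(hD.drvi i).map_sub ha' (aeval_mem hT q)] at h4
      have h5 := h3.add h4.neg
      rwa [← sub_eq_add_neg, sub_sub_cancel] at h5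
    obtain ⟨q', hq', h3⟩ := exists_pdv hk (p := p) hT hD hw h2
    obtain ⟨l, hl⟩ : ∃ l : MvPolynomial (Fin 2) k, l = ∑ i, C (ρ i) * X i := ⟨_, rfl⟩
    have hLl : up L = MvPolynomial.map (algebraMap k Ω) l := by
      unfold up
      rw [mapAlgHom_apply, hL, hl, map_sum, map_sum]
      refine Finset.sum_congr rfl fun i _ => ?_
      rw [map_mul, map_mul, map_C, map_C, map_X, map_X]
      rfl
    have hPa : ∀ g, coeff g (up (q' + L)) ∈ W := fun g => by
      rw [coeff_up]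
      exact (coeff g (q' + L)).2
    have hv : VPos v (a₀ + algebraMap k Ω e * 0 + x * PP p κ t 0 - eval w (up (q' + L))) := by
      have h4 : VPos v (a₀ - aeval w L - aeval w q) := vpos_of_ge one_pos hq
      have h5 := h4.add h3.neg
      rw [eval_up, map_add, PP_zero]
      convert h5 using 1
      ring
    refine ⟨0, up (q' + L), l, zero_mem _, hPa, ?_, ?_, Or.inl he, fun h => absurd he h, hv,
      tieD_sub hT xW kap tie (zero_mem _) hPa hv⟩
    · intro g hg
      by_contra h4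
      push Not at h4
      rw [hl] at hg
      exact hg (coeff_lin ρ g h4)
    · intro g hg
      push Not at hg
      obtain ⟨i, hi⟩ := hg
      have e1 : up (q' + L) = up q' + up L := by
        unfold up
        rw [map_add]
      rw [e1, coeff_add, hLl, coeff_map, coeff_up, hq' g i hi]
      simp
  · -- the term in `z` absorbs `a₀`
    obtain ⟨q, hq⟩ := hT.dns' aF 1
    obtain ⟨q₁, hq₁⟩ : ∃ q₁ : MvPolynomial (Fin 2) W, q₁ = C (algebraMap k W (-e⁻¹)) * q := ⟨_, rfl⟩
    obtain ⟨φ, hφ⟩ : ∃ φ : Ω, φ = aeval w q₁ := ⟨_, rfl⟩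
    have hφF : φ ∈ F := hφ ▸ aeval_mem hT q₁
    have hφq : algebraMap k Ω e * φ = -aeval w q := by
      rw [hφ, hq₁, map_mul, aeval_C]
      change algebraMap k Ω e * (algebraMap k Ω (-e⁻¹) * aeval w q) = _
      rw [← mul_assoc, ← map_mul, mul_neg, mul_inv_cancel₀ he, map_neg, map_one, neg_one_mul]
    obtain ⟨P, hP⟩ : ∃ P : MvPolynomial (Fin 2) W, P = C ⟨x, xW⟩ * PP p κ t q₁ := ⟨_, rfl⟩
    have : CharP W p := (W.val : W →+* Ω).charP W.val.injective p
    have hPv : eval w (up P) = x * PP p κ t φ := by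
      have e1 : aeval w (PP p κ t q₁) = PP p κ t (aeval w q₁ : Ω) :=
        PP_map ((aeval w : MvPolynomial (Fin 2) W →ₐ[W] Ω).restrictScalars k) q₁
      rw [eval_up, hP, map_mul, aeval_C, e1, ← hφ]
      rfl
    have hPd : PDv p P := by
      intro g i hg
      have h1 : PDv p (PP p κ t q₁) := by
        intro g j hj
        unfold PP
        rw [coeff_sum]
        refine Finset.sum_eq_zero fun i _ => ?_
        rw [IsScalarTower.algebraMap_apply k W (MvPolynomial (Fin 2) W), algebraMap_eq,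
          coeff_C_mul, pdv_pow q₁ i g j hj, mul_zero]
      rw [hP, coeff_C_mul, h1 g i hg, mul_zero]
    have hPa : ∀ g, coeff g (up P) ∈ W := fun g => by
      rw [coeff_up]
      exact (coeff g P).2
    have hv : VPos v (a₀ + algebraMap k Ω e * φ + x * PP p κ t φ - eval w (up P)) := by
      rw [hPv, add_sub_cancel_right, hφq, ← sub_eq_add_neg]
      exact vpos_of_ge one_pos hq
    refine ⟨φ, up P, 0, hφF, hPa, ?_, ?_, Or.inr rfl, ?_, hv,
      tieD_sub hT xW kap tie hφF hPa hv⟩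
    · intro g hg
      exact absurd (coeff_zero g) hg
    · intro g hg
      push Not at hg
      obtain ⟨i, hi⟩ := hg
      rw [coeff_up, hPd g i hi, coeff_zero, map_zero]
      rfl
    · intro _ i y hy
      refine ge_zero_of_eps fun ε hε => ?_
      obtain ⟨θ, hθ, h1, h, hh, h2⟩ := (tieD_sub hT xW kap tie hφF hPa hv).tie ε hε
      have h3 := hy ε hε θ hθ h1
      have m1 : algebraMap k Ω e * θ ∈ F := mul_mem (F.algebraMap_mem _) hθ
      have m2 : x * PP p κ t θ ∈ F := mul_mem (hT.le xW) (PP_mem hθ)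
      have m3 : x * PP p κ t φ ∈ F := mul_mem (hT.le xW) (PP_mem hφF)
      rw [hPv] at h2
      have h4 := (hD.drvi i).norm _ (sub_mem (add_mem (add_mem m1 m2) m3) (pow_mem hh p)) _ h2
      rw [(hD.drvi i).map_sub (add_mem (add_mem m1 m2) m3) (pow_mem hh p),
        (hD.drvi i).map_pow_char hh, sub_zero, (hD.drvi i).add _ (add_mem m1 m2) _ m3,
        (hD.drvi i).add _ m1 _ m2, hx i θ hθ, hx i φ hφF, add_zero, add_zero,
        (hD.drvi i).map_smul e hθ] at h4
      have h5 := (hk.ge e⁻¹).mul h4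
      rw [← mul_assoc, ← map_mul, inv_mul_cancel₀ he, map_one, one_mul, zero_add] at h5
      have h6 := h3.add h5
      rwa [sub_add_cancel] at h6

end Pool.Agent.TWCY
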