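import Pool.Agent.Lib.TWCY.Core
import Pool.Agent.Lib.TWCY.W1

/-!
# Row G: the residue polynomials exist
-/

set_option autoImplicit false

open MvPolynomial

namespace Pool.Agent.TWCY

open Pool.Agent.H15JM (RVal)
open Pool.Agent.LU1 (VPos)
open Pool.Agent.D2 (Ctx0)
open Pool.Agent.TWM
open Pool.Agent.TWS (IsoE SphC)
open Pool.Agent.TWLY

universe u

variable {k Ω : Type u} [Field k] [Field Ω] [Algebra k Ω] {v : RVal Ω}
  {W F K : IntermediateField k Ω} {w : Fin 2 → Ω} {x z a : Ω} {R : Rec k Ω}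
  {L : ℕ → IntermediateField k Ω} {p : ℕ}

theorem CD.DD (h : CD p v L W F K w x z a R) : DD v W F w R.D := h.drt.toDD

theorem CD.DDi (h : CD p v L W F K w x z a R) : DDi v W F w R.dd := h.drt.toDDi

theorem rowG [Fact p.Prime] [CharP Ω p] [CharP k p] [IsAlgClosed k] :
    RowG (k := k) p v := by
  intro L W F K w x z a R h
  have hDx : v.Ge 0 (R.D x) := by
    rw [h.base.Dx]
    exact fun _ => v.map_one.ge
  obtain ⟨nD, nd, G, Gi, lam, q, φ, hc⟩ := exists_coh (κ := R.κ) h.c0 h.sph h.trn h.shp h.tie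
    h.DD h.DDi hDx
  refine ⟨nD, nd, G, Gi, ⟨⟨h.toHD, ?_, h.base, h.trn, h.drt, h.shp, h.tie⟩, ?_⟩⟩
  · exact ⟨h.kap, h.PaW, h.lin, h.PaD, h.cas, h.Np, h.fp, h.rel⟩
  · refine ⟨hc.nat, fun g => ?_, hc.nati, fun i g => ?_⟩
    · have := hc.rG g
      rwa [coeff_dP h.DD.drv] at this
    · have := hc.rGi i g
      rwa [coeff_dP (h.DDi.drv i), zero_mul, add_zero] at this

end Pool.Agent.TWCY
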