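import Pool.Agent.Lib.TWCY.Fx
import Pool.Agent.Lib.TWCY.RowG

/-!
# Row One: the output for one motion

* `shA_*`: the coefficients of `Pa(w + s) - Pa(w)`;
* `CG.gt_WN`: (E1) for `W_1`;
* `rowOne : RowRel → RowZb → RowSm → RowTie → RowOne`.
-/

set_option autoImplicit false

open MvPolynomial

namespace Pool.Agent.TWCY

open Pool.Agent.H15JM (RVal)
open Pool.Agent.LU1 (VPos)
open Pool.Agent.D2 (Ctx0)
open Pool.Agent.TWM
open Pool.Agent.TWS (IsoE SphC)
open Pool.Agent.TWLY
open TWIV.JW (BB sh cz)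

universe u

variable {k Ω : Type u} [Field k] [Field Ω] [Algebra k Ω] {v : RVal Ω}
  {W F K : IntermediateField k Ω} {w : Fin 2 → Ω} {x z a : Ω} {R : Rec k Ω}
  {L : ℕ → IntermediateField k Ω} {p : ℕ}

section shA

theorem shA_eq (w : Fin 2 → Ω) (Pa : MvPolynomial (Fin 2) Ω) :
    shA w Pa = TWLY.tr w Pa - C (eval w Pa) := by
  unfold shA
  congr 1
  have : (bind₁ fun i => C (w i) + X i : MvPolynomial (Fin 2) Ω →ₐ[Ω] MvPolynomial (Fin 2) Ω) =
      TWLY.tr w := by
    apply MvPolynomial.algHom_ext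
    intro i
    rw [bind₁_X_right]
    unfold TWLY.tr
    rw [aeval_X, add_comm]
  rw [this]

theorem coeff_shA_eq {g : Ex} (hg : g ≠ 0) (w : Fin 2 → Ω) (Pa : MvPolynomial (Fin 2) Ω) :
    coeff g (shA w Pa) = eval w (coeff g (sh Ω Pa)) := by
  rw [shA_eq, coeff_sub, coeff_C, if_neg (fun h => hg h.symm), sub_zero, coeff_tr_eq]

theorem dvd_choose_add {p a b : ℕ} (hp : p.Prime) (h : p ∣ a + b) (ha : ¬ p ∣ a) :
    p ∣ (a + b).choose a := by
  obtain ⟨a', rfl⟩ : ∃ a', a = a' + 1 := by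
    rcases Nat.eq_zero_or_pos a with rfl | h0
    · exact absurd (dvd_zero p) ha
    · exact ⟨a - 1, by omega⟩
  have h1 := Nat.add_one_mul_choose_eq (a' + b) a'
  have h2 : a' + b + 1 = a' + 1 + b := by ring
  rw [h2] at h1
  have h3 : p ∣ (a' + 1 + b).choose (a' + 1) * (a' + 1) := by
    rw [← h1]
    exact Dvd.dvd.mul_right h _
  exact (hp.dvd_mul.1 h3).resolve_right ha

variable [hp : Fact p.Prime] [CharP Ω p]

theorem bn_eq_zero {g m : Ex} {i : Fin 2} (hg : ¬ p ∣ g i) (h : p ∣ g i + m i) :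
    (bn g m : Ω) = 0 := by
  rw [CharP.cast_eq_zero_iff Ω p]
  unfold bn
  have h1 := dvd_choose_add hp.out h hg
  fin_cases i
  · exact Dvd.dvd.mul_right h1 _
  · exact Dvd.dvd.mul_left h1 _

/-- The coefficients of exponents not divisible by `p` are constants. -/
theorem NF.coeff_shA_nd (h : NF p v W F K w x z a R) {g : Ex} {i : Fin 2} (hg : ¬ p ∣ g i) :
    coeff g (sh Ω R.Pa) = C (algebraMap k Ω (coeff g R.l)) := by
  have hg0 : g ≠ 0 := by
    rintro rfl
    exact hg (dvd_zero p)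
  ext m
  rw [coeff_sh', coeff_C]
  by_cases hm : m = 0
  · subst hm
    have h1 : bn g 0 = 1 := by
      unfold bn
      simp
    rw [if_pos rfl, h1, add_zero, Nat.cast_one, one_mul, h.PaD g fun hd => hg (hd i)]
  · rw [if_neg fun h => hm h.symm]
    by_cases hd : DvE p (g + m)
    · rw [bn_eq_zero hg (by simpa using hd i), zero_mul]
    · rw [h.PaD _ hd]
      have : coeff (g + m) R.l = 0 := by
        by_contra h0
        obtain ⟨j, hj⟩ := h.lin _ h0
        have h2 : ∀ a b : ℕ, a + b = 1 → a = 0 ∨ b = 0 := by omega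
        rcases h2 (g j) (m j) (by
          have := DFunLike.congr_fun hj j
          rwa [Finsupp.add_apply, Finsupp.single_apply, if_pos rfl] at this) with h3 | h3
        · apply hg0
          ext j'
          by_cases hjj : j' = j
          · rw [hjj, h3]; rfl
          · have := DFunLike.congr_fun hj j'
            rw [Finsupp.add_apply, Finsupp.single_apply, if_neg (fun h => hjj h.symm)] at this
            show g j' = 0
            omega
        · apply hm
          ext j'
          by_cases hjj : j' = j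
          · rw [hjj, h3]; rfl
          · have := DFunLike.congr_fun hj j'
            rw [Finsupp.add_apply, Finsupp.single_apply, if_neg (fun h => hjj h.symm)] at this
            show m j' = 0
            omega
      rw [this, map_zero, mul_zero]

theorem NF.D_shA {D : Ω → Ω} (hD : Drv v F D) (h : NF p v W F K w x z a R) {g : Ex}
    {i : Fin 2} (hg : ¬ p ∣ g i) : D (coeff g (shA w R.Pa)) = 0 := by
  have hg0 : g ≠ 0 := by
    rintro rfl
    exact hg (dvd_zero p)
  rw [coeff_shA_eq hg0, h.coeff_shA_nd hg, eval_C, hD.alg]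

theorem NF.dd_shA {T : (Fin 2 → k) → Ω →ₐ[k] Ω} {dd : Fin 2 → Ω → Ω} (hT : Trn v W F w T)
    (hdd : DDi v W F w dd) (h : NF p v W F K w x z a R) (he : R.e ≠ 0) (i : Fin 2) (g : Ex) :
    dd i (coeff g (shA w R.Pa)) = 0 := by
  have hl : R.l = 0 := h.cas.resolve_left he
  by_cases hg0 : g = 0
  · have h1 : coeff g (shA w R.Pa) = 0 := by
      rw [hg0, shA_eq, coeff_sub, coeff_zero_tr, coeff_C, if_pos rfl, sub_self]
    rw [h1, (hdd.drv i).map_zero]
  · rw [coeff_shA_eq hg0]
    have hW : ∀ m, coeff m (coeff g (sh Ω R.Pa)) ∈ W := by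
      intro m
      rw [coeff_sh']
      exact mul_mem (natCast_mem _ _) (h.PaW _)
    rw [dd_eval hT hdd i hW]
    by_cases hd : ∀ j, p ∣ g j
    · refine PDv.coeff_tr_single (p := p) ?_ w i
      intro m j hm
      rw [coeff_sh']
      have : ¬ DvE p (g + m) := by
        intro h1
        exact hm ((Nat.dvd_add_right (hd j)).1 (by simpa using h1 j))
      rw [h.PaD _ this, hl, coeff_zero, map_zero, mul_zero]
    · push Not at hd
      obtain ⟨j, hj⟩ := hd
      rw [h.coeff_shA_nd hj, hl, coeff_zero, map_zero, map_zero, map_zero, coeff_zero]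

end shA

/-- The linear form is additive. -/
theorem NF.adt (h : NF p v W F K w x z a R) : Adt R.l := by
  intro s c
  rw [eval_eq', eval_eq', eval_eq', ← Finset.sum_add_distrib]
  refine Finset.sum_congr rfl fun g hg => ?_
  obtain ⟨i, rfl⟩ := h.lin g (mem_support_iff.1 hg)
  have h1 : ∀ y : Fin 2 → k, ∏ j, y j ^ (Finsupp.single i 1 : Ex) j = y i := by
    intro y
    rw [Finset.prod_eq_single i]
    · rw [Finsupp.single_apply, if_pos rfl, pow_one]
    · intro j _ hj
      rw [Finsupp.single_apply, if_neg (fun h => hj h.symm), pow_zero]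
    · intro h0
      exact absurd (Finset.mem_univ _) h0
  rw [h1, h1, h1, Pi.add_apply, mul_add]

/-- The graded field of `F` is perfect. -/
theorem perfect_F (hk : Ctx0 k v) [IsAlgClosed k] (hp : p.Prime) (hWF : W ≤ F)
    (hfull : ∀ r : ℝ, ∃ y ∈ W, y ≠ 0 ∧ v y = r) (f : Ω) (h0 : f ≠ 0) :
    ∃ g ∈ F, Gt v (v f) (f - g ^ p) := by
  obtain ⟨g, hg, hg0, hgv⟩ := hfull (v f / p)
  have hp0 : (p : ℝ) ≠ 0 := by exact_mod_cast hp.ne_zero
  have hgp : v (g ^ p) = v f := by rw [v.map_pow hg0, hgv, mul_div_cancel₀ _ hp0]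
  have h1 : f / g ^ p ≠ 0 := div_ne_zero h0 (pow_ne_zero _ hg0)
  have h2 : v (f / g ^ p) = 0 := by rw [v.map_div h0 (pow_ne_zero _ hg0), hgp, sub_self]
  obtain ⟨c, hc0, hc⟩ := hk.res _ h1 h2
  obtain ⟨c', hc'⟩ := IsAlgClosed.exists_pow_nat_eq c hp.pos
  refine ⟨algebraMap k Ω c' * g, mul_mem (F.algebraMap_mem _) (hWF hg), ?_⟩
  have e : f - (algebraMap k Ω c' * g) ^ p = (f / g ^ p - algebraMap k Ω c) * g ^ p := by
    rw [mul_pow, ← map_pow, hc', sub_mul, div_mul_cancel₀ _ (pow_ne_zero _ hg0)]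
  rw [e]
  intro h3
  have h4 := left_ne_zero_of_mul h3
  rw [v.map_mul h4 (pow_ne_zero _ hg0), hgp]
  have := hc h4
  linarith

end Pool.Agent.TWCY
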