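import Pool.Agent.Lib.TWCY.One

/-!
# Row One, II: (E1) for `W_1`, the finite data
-/

set_option autoImplicit false

open MvPolynomial

namespace Pool.Agent.TWCY

open Pool.Agent.H15JM (RVal)
open Pool.Agent.LU1 (VPos)
open Pool.Agent.D2 (Ctx0)
open Pool.Agent.TWM
open Pool.Agent.TWS (IsoE SphC)
open Pool.Agent.TWLY
open TWIV.JW (BB sh cz)

universe u

variable {k Ω : Type u} [Field k] [Field Ω] [Algebra k Ω] {v : RVal Ω}
  {W F K : IntermediateField k Ω} {w : Fin 2 → Ω} {x z a : Ω} {R : Rec k Ω}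
  {L : ℕ → IntermediateField k Ω} {p : ℕ}

section WN

variable [hp : Fact p.Prime] [CharP Ω p] [IsAlgClosed k]

/-- **(E1) for `W_1`.** -/
theorem CG.exists_gt_WN (h : CG p v L W F K w x z a R) : ∃ η : ℝ, 0 < η ∧
    ∀ (X : Fin 2 → Ω) (Za h' : Ω), (∀ i, X i ∈ W) → (∀ i, v.Ge (-η) (X i)) → Za ∈ F → h' ∈ F →
    VPos v (algebraMap k Ω R.e * Za + x * PP p R.κ R.t Za + eval X (shA w R.Pa) - h' ^ p) →
    ∀ (g : MvPolynomial (Fin 2) k) (r : ℝ), r ≤ 0 → v.Ge r (R.Zp X Za - aeval X g) →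
    ∀ N ∈ R.WN, Gt v r (aeval X N) := by
  have hk := h.c0
  have hp0 : p ≠ 0 := hp.out.ne_zero
  have hgp : ∀ f ∈ F, f ≠ 0 → ∃ g ∈ F, Gt v (v f) (f - g ^ p) := fun f _ h0 =>
    perfect_F hk hp.out h.trn.le h.full f h0
  have hxF : x ∈ F := h.trn.le h.xW
  have hddx : ∀ i, R.dd i x = 0 := fun i => h.toCD.DDi.dW i x h.xW
  have hG : ∀ i, ∃ η : ℝ, 0 < η ∧ ∀ X : Fin 2 → Ω, (∀ j, X j ∈ F) → (∀ j, R.dd i (X j) = 0) →
      (∀ j, v.Ge (-η) (X j)) → ∀ Za ∈ F, ∀ h' ∈ F,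
      VPos v (algebraMap k Ω R.e * Za + x * PP p R.κ R.t Za + eval X (shA w R.Pa) - h' ^ p) →
      ∀ a ∈ F, R.dd i a = 0 → ∀ r : ℝ, r ≤ 0 → v.Ge r (Za - eval X (uu R.n R.N R.f) - a) →
      Gt v r (aeval X (R.Gi i)) := by
    intro i
    refine h.shp.gt_G hk hp0 hgp (h.toCD.DDi.drv i) (h.nati i) hxF (hddx i) h.tie.AF
      fun g => ?_
    have h0 : R.dd i 0 = 0 := (h.toCD.DDi.drv i).map_zero
    have e : coeff g (RG R.e (R.nd i) R.N R.f (shA w R.Pa) (R.dd i)) =
        algebraMap k Ω R.e * (∑ j, algebraMap k Ω (coeff g (R.N j)) * R.nd i j +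
          R.dd i (coeff g R.f)) + R.dd i (coeff g (shA w R.Pa)) := by
      unfold RG
      rw [coeff_add, coeff_C_mul, coeff_add, coeff_sum, coeff_dc h0, coeff_dc h0]
      congr 3
      refine Finset.sum_congr rfl fun j _ => ?_
      rw [coeff_C_mul, coeff_map, mul_comm]
    rw [e]
    exact h.resi i g
  choose η hη hG using hG
  refine ⟨min (η 0) (η 1), lt_min (hη 0) (hη 1), ?_⟩
  intro X Za h' hX hXs hZa hh' htie g r hr hZ N hN
  have hXF : ∀ i, X i ∈ F := fun i => h.trn.le (hX i)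
  have hgF : aeval X g ∈ F := TWCT.aeval_mem hXF g
  have hgW : aeval X g ∈ W := TWCT.aeval_mem hX g
  unfold Rec.WN at hN
  induction hN using Submodule.span_induction with
  | mem y hy =>
    rcases hy with ⟨j, rfl⟩ | ⟨i, rfl⟩
    · exact h.shp.gt_N hk hXF hZa hgF hZ j
    · have hmi : min (η 0) (η 1) ≤ η i := by
        fin_cases i
        · exact min_le_left _ _
        · exact min_le_right _ _
      exact hG i X hXF (fun j => h.toCD.DDi.dW i _ (hX j))
        (fun j => (hXs j).mono (by linarith)) Za hZa h' hh' htie _ hgF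
        (h.toCD.DDi.dW i _ hgW) r hr hZ
  | zero => rw [map_zero]; exact Gt.zero
  | add y y' _ _ hy hy' => rw [map_add]; exact hy.add hy'
  | smul c y _ hy =>
    rw [smul_eq_C_mul, map_mul, ← algebraMap_eq, AlgHom.commutes]
    have := hy.mul_ge (hk.ge c)
    rwa [add_zero, mul_comm] at this

end WN

section coh

variable [hp : Fact p.Prime] [CharP Ω p] [CharP k p] [IsAlgClosed k]

/-- The cocycle data. -/
theorem CG.exists_cohR (h : CG p v L W F K w x z a R) :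
    ∃ (lam : BB (Fin 2) k) (q : Ex → MvPolynomial (Fin 2) Ω) (φ : (Fin 2 → k) → Fin R.m → k),
      Coh p v W F w R.T R.D R.dd x R.e R.κ R.t R.n R.N R.f (shA w R.Pa) R.b R.nD R.nd R.G R.Gi
        lam q φ := by
  obtain ⟨lam, q, hq, hq1, hlam, hlamg⟩ := h.shp.exists_lam h.c0 h.trn
  choose φ hφ using fun (c : Fin 2 → k) (l : Fin R.m) =>
    exists_rs0 h.c0 (h.shp.ge_m h.c0 h.trn c l)
  refine ⟨lam, q, φ, h.nat, h.nati, fun g => ?_, fun i g => ?_, hq, hq1, hlam, hlamg, hφ⟩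
  · rw [coeff_dP h.toCD.DD.drv]
    exact h.res g
  · rw [coeff_dP (h.toCD.DDi.drv i), zero_mul, add_zero]
    exact h.resi i g

end coh

section fin

variable {T : (Fin 2 → k) → Ω →ₐ[k] Ω} {ι : Type} [Fintype ι] {n : ι → Ω}
  {N : ι → MvPolynomial (Fin 2) k} {f : MvPolynomial (Fin 2) Ω} {b : ι → Ex}
  {q : Ex → MvPolynomial (Fin 2) Ω} {φ : (Fin 2 → k) → ι → k}

theorem exists_etaS {α : Type*} (S : Finset α) {m : α → Ω} (hm : ∀ j ∈ S, VPos v (m j)) :
    ∃ η : ℝ, 0 < η ∧ ∀ j ∈ S, v.Ge η (m j) := exists_gap S hm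

/-- The finite data exist. -/
theorem exists_sml (hφ : ∀ c l, Rs v (T c (n l) - ∑ j, algebraMap k Ω (MM N b c l j) * n j -
      psi f b c l) (φ c l)) (hq1 : ∀ g, VPos v (coeff g f - eval w (q g)))
    (E : Finset Ex) : ∃ H : Finset Ex, E ⊆ H ∧ ∀ S : Finset (Fin 2 → k), ∃ η : ℝ, 0 < η ∧
      Sml v w T n N f b q φ H S η := by
  classical
  refine ⟨E ∪ {0} ∪ (Finset.univ.biUnion fun jl : ι × ι =>
      (coeff (b jl.1) (sh k (N jl.2))).support) ∪
    (Finset.univ.biUnion fun j => (coeff (b j) (sh Ω f)).support) ∪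
    (f.support.biUnion fun g => (TWLY.tr w (q g)).support), ?_, fun S => ?_⟩
  · intro g hg
    simp only [Finset.mem_union]
    exact Or.inl (Or.inl (Or.inl (Or.inl hg)))
  · obtain ⟨η₁, hη₁, h1⟩ := exists_etaS (v := v) (S ×ˢ (Finset.univ : Finset ι))
      (m := fun cj => mm T n N f b cj.1 cj.2 - algebraMap k Ω (φ cj.1 cj.2))
      fun cj _ => hφ cj.1 cj.2
    obtain ⟨η₂, hη₂, h2⟩ := exists_etaS (v := v) f.support
      (m := fun g => coeff g f - eval w (q g)) fun g _ => hq1 g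
    refine ⟨min η₁ η₂, lt_min hη₁ hη₂, ?_, ?_, ?_, ?_, ?_, ?_⟩
    · simp
    · intro j l m hm
      simp only [Finset.mem_union, Finset.mem_biUnion, Finset.mem_univ, true_and]
      exact Or.inl (Or.inl (Or.inr ⟨(j, l), hm⟩))
    · intro j m hm
      simp only [Finset.mem_union, Finset.mem_biUnion, Finset.mem_univ, true_and]
      exact Or.inl (Or.inr ⟨j, hm⟩)
    · intro g hg m hm
      simp only [Finset.mem_union, Finset.mem_biUnion, Finset.mem_univ, true_and]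
      exact Or.inr ⟨g, hg, hm⟩
    · intro c hc j
      exact (h1 (c, j) (Finset.mem_product.2 ⟨hc, Finset.mem_univ j⟩)).mono (min_le_left _ _)
    · intro g hg
      exact (h2 g hg).mono (min_le_right _ _)

/-- Small displacements have small values. -/
theorem exists_small' (hk : Ctx0 k v) (N : ι → MvPolynomial (Fin 2) k)
    (f : MvPolynomial (Fin 2) Ω) {η : ℝ} (hη : 0 < η) : ∃ ε : ℝ, 0 < ε ∧ ∀ X : Fin 2 → Ω,
      (∀ i, v.Ge (-ε) (X i)) → (∀ j, v.Ge (-η) (aeval X (N j))) ∧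
        ∀ g ∈ f.support, v.Ge (-η) (mo X g) := by
  classical
  set B : ℕ := ((Finset.univ.biUnion fun l => (N l).support) ∪ f.support).sup dg with hB
  have hle : ∀ g ∈ (Finset.univ.biUnion fun l => (N l).support) ∪ f.support, dg g ≤ B :=
    fun g hg => Finset.le_sup hg
  have hε : 0 < η / (B + 1) := by positivity
  have hdg : ∀ g : Ex, dg g ≤ B → (dg g : ℝ) * (η / (B + 1)) ≤ η := by
    intro g hg
    have h1 : (dg g : ℝ) ≤ B := by exact_mod_cast hg
    rw [← mul_div_assoc, div_le_iff₀ (by positivity)]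
    nlinarith
  refine ⟨η / (B + 1), hε, fun X hX => ⟨fun j => ?_, fun g hg => ?_⟩⟩
  · refine ge_aeval (w := fun _ => η / (B + 1)) hk hX (N j) fun m hm => ?_
    have h2 := hdg m (hle m (Finset.mem_union_left _
      (Finset.mem_biUnion.2 ⟨j, Finset.mem_univ j, hm⟩)))
    unfold dg at h2
    unfold wt
    push_cast at h2
    linarith
  · refine (ge_mo hX g).mono ?_
    have := hdg g (hle g (Finset.mem_union_right _ hg))
    linarith

end fin

end Pool.Agent.TWCY
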