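import Pool.Agent.Lib.TWCY.One2

/-!
# Row One, III: the space `W'`

* `Wq`: the elements of the span of the `N_j` of size `≥ -M`; `Pw`: the span of their powers;
* `br_ge`: interpolation of the brackets; `lamp`: the corrected `λ`.
-/

set_option autoImplicit false

open MvPolynomial

namespace Pool.Agent.TWCY

open Pool.Agent.H15JM (RVal)
open Pool.Agent.LU1 (VPos)
open Pool.Agent.D2 (Ctx0)
open Pool.Agent.TWM
open Pool.Agent.TWS (IsoE SphC)
open Pool.Agent.TWLY
open TWIV.JW (BB sh cz)

universe u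

section Pw

variable {k : Type u} [Field k]

/-- The span of the powers. -/
noncomputable def Pw (p t : ℕ) (V : Submodule k (MvPolynomial (Fin 2) k)) :
    Submodule k (MvPolynomial (Fin 2) k) :=
  Submodule.span k {P | ∃ M ∈ V, ∃ i ≤ t, P = M ^ p ^ (i + 1)}

/-- The defect of a translation is linear. -/
theorem tr_span {s : Set (MvPolynomial (Fin 2) k)} {V : Submodule k (MvPolynomial (Fin 2) k)}
    {c : Fin 2 → k} (h : ∀ P ∈ s, TWLY.tr c P - C (eval c P) ∈ V) :
    ∀ P ∈ Submodule.span k s, TWLY.tr c P - C (eval c P) ∈ V := by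
  intro P hP
  induction hP using Submodule.span_induction with
  | mem y hy => exact h y hy
  | zero => simp
  | add y y' _ _ hy hy' =>
    have : TWLY.tr c (y + y') - C (eval c (y + y')) =
        (TWLY.tr c y - C (eval c y)) + (TWLY.tr c y' - C (eval c y')) := by
      rw [map_add, map_add, C_add]
      ring
    rw [this]
    exact add_mem hy hy'
  | smul a y _ hy =>
    have : TWLY.tr c (a • y) - C (eval c (a • y)) = a • (TWLY.tr c y - C (eval c y)) := by
      rw [map_smul, smul_sub, smul_eval, C_mul, smul_eq_C_mul (C (eval c y)) a]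
    rw [this]
    exact Submodule.smul_mem _ _ hy

variable {p t : ℕ} {V : Submodule k (MvPolynomial (Fin 2) k)}

theorem PP_mem_Pw {κ : ℕ → k} {M : MvPolynomial (Fin 2) k} (hM : M ∈ V) :
    PP p κ t M ∈ Pw p t V := by
  unfold PP
  refine sum_mem fun i hi => ?_
  rw [← Algebra.smul_def]
  exact Submodule.smul_mem _ _ (Submodule.subset_span ⟨M, hM, i, by
    have := Finset.mem_range.1 hi
    omega, rfl⟩)

variable [hp : Fact p.Prime]

theorem Pw_zero (hV : ∀ M ∈ V, constantCoeff M = 0) {P : MvPolynomial (Fin 2) k}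
    (hP : P ∈ Pw p t V) : constantCoeff P = 0 := by
  unfold Pw at hP
  induction hP using Submodule.span_induction with
  | mem y hy =>
    obtain ⟨M, hM, i, _, rfl⟩ := hy
    rw [map_pow, hV M hM, zero_pow (pow_ne_zero _ hp.out.ne_zero)]
  | zero => exact map_zero _
  | add y y' _ _ hy hy' => rw [map_add, hy, hy', add_zero]
  | smul a y _ hy => rw [constantCoeff_smul, hy, smul_zero]

variable [CharP k p]

theorem Pw_fg (hV : V.FG) : (Pw p t V).FG := by
  classical
  obtain ⟨s, hs⟩ := hV
  refine ⟨(s ×ˢ Finset.range (t + 1)).image fun mi => mi.1 ^ p ^ (mi.2 + 1), ?_⟩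
  apply le_antisymm
  · rw [Submodule.span_le]
    intro P hP
    rw [Finset.mem_coe, Finset.mem_image] at hP
    obtain ⟨⟨m, i⟩, hmi, rfl⟩ := hP
    rw [Finset.mem_product] at hmi
    refine Submodule.subset_span ⟨m, ?_, i, ?_, rfl⟩
    · rw [← hs]
      exact Submodule.subset_span hmi.1
    · have := Finset.mem_range.1 hmi.2
      omega
  · unfold Pw
    rw [Submodule.span_le]
    rintro _ ⟨M, hM, i, hi, rfl⟩
    rw [← hs] at hM
    have hexp : ExpChar (MvPolynomial (Fin 2) k) p := ExpChar.prime hp.out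
    rw [SetLike.mem_coe]
    induction hM using Submodule.span_induction with
    | mem y hy =>
      refine Submodule.subset_span ?_
      rw [Finset.mem_coe, Finset.mem_image]
      exact ⟨(y, i), Finset.mem_product.2 ⟨hy, Finset.mem_range.2 (by omega)⟩, rfl⟩
    | zero =>
      rw [zero_pow (pow_ne_zero _ hp.out.ne_zero)]
      exact zero_mem _
    | add y y' _ _ hy hy' =>
      rw [add_pow_expChar_pow]
      exact add_mem hy hy'
    | smul c y _ hy =>
      rw [smul_pow]
      exact Submodule.smul_mem _ _ hy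

theorem Pw_tr (hV : ∀ c, ∀ M ∈ V, TWLY.tr c M - C (eval c M) ∈ V) (c : Fin 2 → k)
    {P : MvPolynomial (Fin 2) k} (hP : P ∈ Pw p t V) :
    TWLY.tr c P - C (eval c P) ∈ Pw p t V := by
  refine tr_span ?_ P hP
  rintro _ ⟨M, hM, i, hi, rfl⟩
  have hexp : ExpChar (MvPolynomial (Fin 2) k) p := ExpChar.prime hp.out
  have : TWLY.tr c (M ^ p ^ (i + 1)) - C (eval c (M ^ p ^ (i + 1))) =
      (TWLY.tr c M - C (eval c M)) ^ p ^ (i + 1) := by
    rw [map_pow, map_pow, C_pow, sub_pow_expChar_pow]
  rw [this]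
  exact Submodule.subset_span ⟨_, hV c M hM, i, hi, rfl⟩

end Pw

variable {k Ω : Type u} [Field k] [Field Ω] [Algebra k Ω] {v : RVal Ω}
  {W F : IntermediateField k Ω} {w : Fin 2 → Ω} {T : (Fin 2 → k) → Ω →ₐ[k] Ω}

/-- The powers are not too big. -/
theorem Pw_sm {p t : ℕ} [hp : Fact p.Prime] (hk : Ctx0 k v)
    {V : Submodule k (MvPolynomial (Fin 2) k)} {X : Fin 2 → Ω} {M r : ℝ} (hM : 0 ≤ M)
    (hV : ∀ P ∈ V, v.Ge (-M) (aeval X P)) (hr : r < -((p : ℝ) ^ (t + 1) * M))
    {P : MvPolynomial (Fin 2) k} (hP : P ∈ Pw p t V) : Gt v r (aeval X P) := by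
  unfold Pw at hP
  induction hP using Submodule.span_induction with
  | mem y hy =>
    obtain ⟨N, hN, i, hi, rfl⟩ := hy
    rw [map_pow]
    intro h0
    have h1 : aeval X N ≠ 0 := fun h => h0 (by
      rw [h, zero_pow (pow_ne_zero _ hp.out.ne_zero)])
    have h2 := hV N hN h1
    rw [v.map_pow h1]
    have h3 : ((p ^ (i + 1) : ℕ) : ℝ) ≤ (p : ℝ) ^ (t + 1) := by
      push_cast
      exact pow_le_pow_right₀ (by exact_mod_cast hp.out.one_lt.le) (by omega)
    have h4 : (0 : ℝ) ≤ ((p ^ (i + 1) : ℕ) : ℝ) := Nat.cast_nonneg _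
    nlinarith
  | zero => rw [map_zero]; exact Gt.zero
  | add y y' _ _ hy hy' => rw [map_add]; exact hy.add hy'
  | smul c y _ hy =>
    rw [smul_eq_C_mul, map_mul, ← algebraMap_eq, AlgHom.commutes]
    have := hy.mul_ge (hk.ge c)
    rwa [add_zero, mul_comm] at this

section Wq

variable {ι : Type} [Fintype ι] {z : Ω} {n : ι → Ω} {N : ι → MvPolynomial (Fin 2) k}
  {f : MvPolynomial (Fin 2) Ω} {b : ι → Ex} {X : Fin 2 → Ω} {M : ℝ}

/-- The elements of the span of the `N_j` of size `≥ -M`. -/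
noncomputable def Wq (hk : Ctx0 k v) (N : ι → MvPolynomial (Fin 2) k) (X : Fin 2 → Ω) (M : ℝ) :
    Submodule k (MvPolynomial (Fin 2) k) where
  carrier := {P | P ∈ Submodule.span k (Set.range N) ∧ v.Ge (-M) (aeval X P)}
  add_mem' := by
    rintro P Q ⟨h1, h2⟩ ⟨h3, h4⟩
    refine ⟨add_mem h1 h3, ?_⟩
    rw [map_add]
    exact h2.add h4
  zero_mem' := ⟨zero_mem _, by rw [map_zero]; exact RVal.Ge.zero⟩
  smul_mem' := by
    rintro c P ⟨h1, h2⟩
    refine ⟨Submodule.smul_mem _ _ h1, ?_⟩
    rw [smul_eq_C_mul, map_mul, ← algebraMap_eq, AlgHom.commutes]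
    have := (hk.ge c).mul h2
    rwa [zero_add] at this

omit [Fintype ι] in
theorem mem_Wq {hk : Ctx0 k v} {P : MvPolynomial (Fin 2) k} : P ∈ Wq hk N X M ↔
    P ∈ Submodule.span k (Set.range N) ∧ v.Ge (-M) (aeval X P) := Iff.rfl

theorem Wq_fg (hk : Ctx0 k v) : (Wq hk N X M).FG :=
  Submodule.FG.of_le (Submodule.fg_span (Set.finite_range N)) fun _ h => h.1

theorem Wq_tr [DecidableEq ι] [Infinite k] (hk : Ctx0 k v) (hT : Trn v W F w T)
    (h : Shp v F T z n N f b)
    (hbr : ∀ c l, v.Ge (-M) (br N b X c l)) (c : Fin 2 → k) {P : MvPolynomial (Fin 2) k}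
    (hP : P ∈ Wq hk N X M) : TWLY.tr c P - C (eval c P) ∈ Wq hk N X M := by
  have hN : ∀ l, N l ∈ Submodule.span k (Set.range N) := fun l => Submodule.subset_span ⟨l, rfl⟩
  have h1 : ∀ P ∈ Submodule.span k (Set.range N),
      v.Ge (-M) (aeval X (TWLY.tr c P - C (eval c P) - P)) := by
    intro P hP
    induction hP using Submodule.span_induction with
    | mem y hy =>
      obtain ⟨l, rfl⟩ := hy
      have := hbr c l
      convert this using 1
      rw [h.tr_N hk hT c l, add_sub_cancel_left, map_sub, map_sum]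
      unfold br
      congr 1
      refine Finset.sum_congr rfl fun j _ => ?_
      rw [map_mul, ← algebraMap_eq, AlgHom.commutes, mul_comm]
    | zero =>
      simp only [map_zero, sub_zero]
      exact RVal.Ge.zero
    | add y y' _ _ hy hy' =>
      have e : TWLY.tr c (y + y') - C (eval c (y + y')) - (y + y') =
          (TWLY.tr c y - C (eval c y) - y) + (TWLY.tr c y' - C (eval c y') - y') := by
        rw [map_add, map_add, C_add]
        ring
      rw [e, map_add]
      exact hy.add hy'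
    | smul a y _ hy =>
      have e : TWLY.tr c (a • y) - C (eval c (a • y)) - a • y =
          C a * (TWLY.tr c y - C (eval c y) - y) := by
        rw [map_smul, smul_eval, C_mul, smul_eq_C_mul, smul_eq_C_mul]
        ring
      rw [e, map_mul, ← algebraMap_eq, AlgHom.commutes]
      have := (hk.ge a).mul hy
      rwa [zero_add] at this
  refine ⟨tr_span ?_ P hP.1, ?_⟩
  · rintro _ ⟨l, rfl⟩
    rw [h.tr_N hk hT c l, add_sub_cancel_left]
    refine sum_mem fun j _ => ?_
    rw [← smul_eq_C_mul]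
    exact Submodule.smul_mem _ _ (hN j)
  · have h2 := (h1 P hP.1).add hP.2
    rw [← map_add, sub_add_cancel] at h2
    exact h2

/-- Interpolation of the brackets. -/
theorem br_ge (hk : Ctx0 k v) {H : Finset Ex} (h0 : (0 : Ex) ∈ H)
    (hM : ∀ j l, (coeff (b j) (sh k (N l))).support ⊆ H) {S : Finset (Fin 2 → k)}
    (hI : ∀ c, ∃ a : (Fin 2 → k) →₀ k, a.support ⊆ S ∧ Evl a H c) {r : ℝ}
    (hS : ∀ c ∈ S, ∀ l, v.Ge r (br N b X c l)) (c : Fin 2 → k) (l : ι) :
    v.Ge r (br N b X c l) := by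
  obtain ⟨a, haS, ha⟩ := hI c
  have h1 : AA' a (fun _ => (1 : Ω)) = 1 := by
    have h2 := AA'_alg (Ω := Ω) a (mn 0)
    rw [ha 0 h0, mn_zero, map_one] at h2
    have e : (fun _ : Fin 2 → k => (1 : Ω)) = fun c' => algebraMap k Ω (mn 0 c') := by
      funext c'
      rw [mn_zero, map_one]
    rw [e]
    exact h2
  have h3 : AA' a (fun c' => br N b X c' l) = br N b X c l := by
    unfold br
    rw [AA'_sub a (fun c' => ∑ j, aeval X (N j) * algebraMap k Ω (MM N b c' j l))
      (fun _ => aeval X (N l)), AA'_sum]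
    congr 1
    · refine Finset.sum_congr rfl fun j _ => ?_
      rw [AA'_mul, AA'_alg a (fun c' => MM N b c' j l)]
      congr 2
      have h4 : (fun c' => MM N b c' j l) = fun c' => eval c' (coeff (b j) (sh k (N l))) := by
        funext c'
        unfold MM
        rw [coeff_tr_eq]
      rw [h4, ha.pr_eq (hM j l)]
      unfold MM
      rw [coeff_tr_eq]
    · have := AA'_mul a (aeval X (N l)) (fun _ => (1 : Ω))
      rw [h1] at this
      simpa only [mul_one] using this
  rw [← h3]
  exact AA'_ge hk a fun c' hc' => hS c' (haS hc') l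

/-- A combination of small combinations. -/
theorem mem_of_prv {C' : Type*} {φ : ι → C' → k} {Λ : Set (C' →₀ k)}
    {V : Submodule k (MvPolynomial (Fin 2) k)}
    (hΛ : ∀ a ∈ Λ, ∑ j, C (prv φ a j) * N j ∈ V) {y : ι → k}
    (hy : y ∈ Submodule.span k (prv φ '' Λ)) : ∑ j, C (y j) * N j ∈ V := by
  induction hy using Submodule.span_induction with
  | mem y hy =>
    obtain ⟨a, ha, rfl⟩ := hy
    exact hΛ a ha
  | zero => simp
  | add y y' _ _ hy hy' =>
    have : ∑ j, C ((y + y') j) * N j = ∑ j, C (y j) * N j + ∑ j, C (y' j) * N j := by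
      rw [← Finset.sum_add_distrib]
      refine Finset.sum_congr rfl fun j _ => ?_
      rw [Pi.add_apply, C_add, add_mul]
    rw [this]
    exact add_mem hy hy'
  | smul c y _ hy =>
    have : ∑ j, C ((c • y) j) * N j = c • ∑ j, C (y j) * N j := by
      rw [Finset.smul_sum]
      refine Finset.sum_congr rfl fun j _ => ?_
      rw [Pi.smul_apply, smul_eq_mul, C_mul, smul_eq_C_mul, mul_assoc]
    rw [this]
    exact Submodule.smul_mem _ _ hy

/-- The corrected `λ`. -/
noncomputable def lamp (lam : BB (Fin 2) k) (N : ι → MvPolynomial (Fin 2) k) (H : Finset Ex)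
    (π : ι → H → k) : BB (Fin 2) k :=
  lam + ∑ h : H, monomial (h : Ex) (∑ j, C (π j h) * N j)

theorem evc_monomial (c : Fin 2 → k) (h : Ex) (P : MvPolynomial (Fin 2) k) :
    evc c (monomial h P) = P * C (mn h c) := by
  unfold evc mn
  rw [eval_monomial, Finsupp.prod_fintype _ _ (fun i => pow_zero _), map_prod]
  congr 1
  exact Finset.prod_congr rfl fun i _ => by rw [C_pow]

theorem evc_lamp {lam : BB (Fin 2) k} {H : Finset Ex} {π : ι → H → k} (c : Fin 2 → k) :
    evc c (lamp lam N H π) = evc c lam + ∑ j, C (∑ h : H, π j h * mn h c) * N j := by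
  unfold lamp
  rw [map_add, map_sum]
  congr 1
  have h1 : ∀ j, C (∑ h : H, π j h * mn h c) * N j =
      ∑ h : H, C (π j h) * N j * C (mn h c) := by
    intro j
    rw [map_sum, Finset.sum_mul]
    refine Finset.sum_congr rfl fun h _ => ?_
    rw [C_mul]
    ring
  rw [Finset.sum_congr rfl fun j _ => h1 j, Finset.sum_comm]
  refine Finset.sum_congr rfl fun h _ => ?_
  rw [evc_monomial, Finset.sum_mul]

theorem coeff_lamp {lam : BB (Fin 2) k} {H : Finset Ex} {π : ι → H → k} (e : Ex) :
    coeff e (lamp lam N H π) - coeff e lam ∈ Submodule.span k (Set.range N) := by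
  classical
  unfold lamp
  rw [coeff_add, add_sub_cancel_left, coeff_sum]
  refine sum_mem fun h _ => ?_
  rw [coeff_monomial]
  split_ifs
  · refine sum_mem fun j _ => ?_
    rw [← smul_eq_C_mul]
    exact Submodule.smul_mem _ _ (Submodule.subset_span ⟨j, rfl⟩)
  · exact zero_mem _

end Wq

end Pool.Agent.TWCY
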