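import Pool.Agent.Lib.TWCY.E1

/-!
# CT, j = 1, J1.3: the D-relation

`Za ∈ F` is the attained displacement of `z`, `X i` the displacements of `w i`,
`Z' = Za - u(X)`; `dG` is the polynomial `e (Σ n'_j N_j + D f) + P(u) + D A`, `G` its residues,
`dl` is the linear map `g ↦ D (g(X))`.

* `Drv.dl`, `Drv.dl_leib`, `Drv.dl_norm`: the fields `Dl`, `leib`, `norm` of `Lay`;
* `Shp.ge_nat`: the natural value of `D` at `Z' - a` is bounded by `Z' - a`;
* `Shp.rel'`: `|P(Z') + G(X) + D (e f(X) + l(X))| ≤ max (|Z' - f(X)|, 0)`;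
* `Shp.rel`: the field `rel` of `Lay`:
  `|P(Z') + G(X)| ≤ max (|Z' - f(X)|, |D (e f(X) + l(X))|, 0)`.
-/

set_option autoImplicit false

open MvPolynomial

namespace Pool.Agent.TWCY

open Pool.Agent.H15JM (RVal)
open Pool.Agent.LU1 (VPos)
open Pool.Agent.D2 (Ctx0)
open Pool.Agent.TWM
open Pool.Agent.TWS (IsoE SphC)
open Pool.Agent.TWLY
open Pool.Agent.TWCT (aeval_mem)

universe u

variable {k Ω : Type u} [Field k] [Field Ω] [Algebra k Ω] {v : RVal Ω}
  {F : IntermediateField k Ω}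

/-- The exponent is not a multiple of `p`. -/
def NP (p : ℕ) (g : Ex) : Prop := ¬ ∀ i, p ∣ g i

section der

variable {D : Ω → Ω}

theorem Drv.smul (hD : Drv v F D) (c : k) {f : Ω} (hf : f ∈ F) :
    D (algebraMap k Ω c * f) = algebraMap k Ω c * D f := by
  rw [hD.mul _ (F.algebraMap_mem c) f hf, hD.alg, mul_zero, add_zero]

/-- The map `g ↦ D (g(X))`. -/
noncomputable def Drv.dl (hD : Drv v F D) {X : Fin 2 → Ω} (hX : ∀ i, X i ∈ F) :
    MvPolynomial (Fin 2) k →ₗ[k] Ω where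
  toFun g := D (aeval X g)
  map_add' f g := by rw [map_add, hD.add _ (aeval_mem hX f) _ (aeval_mem hX g)]
  map_smul' c g := by
    rw [_root_.map_smul, Algebra.smul_def, hD.smul _ (aeval_mem hX g), RingHom.id_apply,
      Algebra.smul_def]

theorem Drv.dl_apply (hD : Drv v F D) {X : Fin 2 → Ω} (hX : ∀ i, X i ∈ F)
    (g : MvPolynomial (Fin 2) k) : hD.dl hX g = D (aeval X g) := rfl

theorem Drv.dl_leib (hD : Drv v F D) {X : Fin 2 → Ω} (hX : ∀ i, X i ∈ F)
    (f g : MvPolynomial (Fin 2) k) :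
    hD.dl hX (f * g) = aeval X f * hD.dl hX g + aeval X g * hD.dl hX f := by
  rw [hD.dl_apply, hD.dl_apply, hD.dl_apply, map_mul,
    hD.mul _ (aeval_mem hX f) _ (aeval_mem hX g)]

theorem Drv.dl_norm (hD : Drv v F D) {X : Fin 2 → Ω} (hX : ∀ i, X i ∈ F)
    (f : MvPolynomial (Fin 2) k) (r : ℝ) (h : v.Ge r (aeval X f)) : v.Ge r (hD.dl hX f) :=
  hD.norm _ (aeval_mem hX f) _ h

theorem Drv.pow_dvd (hD : Drv v F D) {p : ℕ} (hp : p ≠ 0) [CharP Ω p] {f : Ω} (hf : f ∈ F)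
    {m : ℕ} (hm : p ∣ m) : D (f ^ m) = 0 := by
  obtain ⟨a, rfl⟩ := hm
  rw [mul_comm, pow_mul]
  exact hD.pow_p hp (pow_mem hf a)

theorem Drv.mo_dvd (hD : Drv v F D) {p : ℕ} (hp : p ≠ 0) [CharP Ω p] {X : Fin 2 → Ω}
    (hX : ∀ i, X i ∈ F) {g : Ex} (hg : ∀ i, p ∣ g i) : D (mo X g) = 0 := by
  have e : mo X g = X 0 ^ g 0 * X 1 ^ g 1 := by
    rw [mo, Finsupp.prod_fintype _ _ fun i => pow_zero _, Fin.prod_univ_two]
  rw [e, hD.mul _ (pow_mem (hX 0) _) _ (pow_mem (hX 1) _), hD.pow_dvd hp (hX 0) (hg 0),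
    hD.pow_dvd hp (hX 1) (hg 1), mul_zero, mul_zero, add_zero]

/-- `D` of a value of a polynomial over `F`. -/
theorem Drv.eval_full (hD : Drv v F D) {X : Fin 2 → Ω} (hX : ∀ i, X i ∈ F)
    {f : MvPolynomial (Fin 2) Ω} (hf : ∀ g, coeff g f ∈ F) :
    D (eval X f) = eval X (dc D f) + ∑ g ∈ f.support, coeff g f * D (mo X g) := by
  rw [eval_dc, eval_sum_mo, hD.sum _ fun g _ => mul_mem (hf g) (mo_mem hX g),
    ← Finset.sum_add_distrib]
  refine Finset.sum_congr rfl fun g _ => ?_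
  rw [hD.mul _ (hf g) _ (mo_mem hX g)]
  ring

/-- The coefficients prime to `p` are those of a polynomial `l` over `k`. -/
theorem Drv.eval_cas (hD : Drv v F D) {p : ℕ} (hp : p ≠ 0) [CharP Ω p] {X : Fin 2 → Ω}
    (hX : ∀ i, X i ∈ F) {f : MvPolynomial (Fin 2) Ω} (hf : ∀ g, coeff g f ∈ F)
    {l : MvPolynomial (Fin 2) k} (hl : ∀ g, NP p g → coeff g f = algebraMap k Ω (coeff g l)) :
    D (eval X f) = eval X (dc D f) + D (aeval X l) := by
  classical
  have e1 : aeval X l = eval X (MvPolynomial.map (algebraMap k Ω) l) := (eval_map_aeval X l).symm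
  have hlF : ∀ g, coeff g (MvPolynomial.map (algebraMap k Ω) l) ∈ F := fun g => by
    rw [coeff_map]
    exact F.algebraMap_mem _
  have e2 : eval X (dc D (MvPolynomial.map (algebraMap k Ω) l)) = 0 := by
    rw [eval_dc]
    refine Finset.sum_eq_zero fun g _ => ?_
    rw [coeff_map, hD.alg, zero_mul]
  have key : ∀ (P : MvPolynomial (Fin 2) Ω) (S : Finset Ex), P.support ⊆ S →
      ∑ g ∈ P.support, coeff g P * D (mo X g) = ∑ g ∈ S with NP p g, coeff g P * D (mo X g) := by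
    intro P S hS
    rw [Finset.sum_subset hS fun g _ hg => by rw [notMem_support_iff.1 hg, zero_mul],
      Finset.sum_filter]
    refine Finset.sum_congr rfl fun g _ => ?_
    split_ifs with h1
    · rfl
    · rw [hD.mo_dvd hp hX (not_not.1 h1), mul_zero]
  rw [hD.eval_full hX hf, e1, hD.eval_full hX hlF, e2, zero_add]
  congr 1
  rw [key f (f.support ∪ (MvPolynomial.map (algebraMap k Ω) l).support)
      Finset.subset_union_left,
    key _ (f.support ∪ (MvPolynomial.map (algebraMap k Ω) l).support)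
      Finset.subset_union_right]
  refine Finset.sum_congr rfl fun g hg => ?_
  rw [hl g (Finset.mem_filter.1 hg).2, coeff_map]

theorem Drv.aeval_NP (hD : Drv v F D) {p : ℕ} (hp : p ≠ 0) [CharP Ω p] {X : Fin 2 → Ω}
    (hX : ∀ i, X i ∈ F) {N : MvPolynomial (Fin 2) k} (hN : ∀ g, NP p g → coeff g N = 0) :
    D (aeval X N) = 0 := by
  have h1 := hD.eval_cas hp hX (f := MvPolynomial.map (algebraMap k Ω) N) (l := 0)
    (fun g => by rw [coeff_map]; exact F.algebraMap_mem _)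
    fun g hg => by rw [coeff_map, hN g hg, coeff_zero]
  rw [eval_map_aeval, _root_.map_zero, hD.zero, add_zero, eval_dc] at h1
  rw [h1]
  refine Finset.sum_eq_zero fun g _ => ?_
  rw [coeff_map, hD.alg, zero_mul]

end der

section shape

variable {ι : Type} [Fintype ι] {T : (Fin 2 → k) → Ω →ₐ[k] Ω} {z : Ω} {n n' : ι → Ω}
  {N : ι → MvPolynomial (Fin 2) k} {f : MvPolynomial (Fin 2) Ω} {b : ι → Ex} {D : Ω → Ω}

/-- The natural value of `D` at `Z' - a`, if `u` has no coefficient at exponents prime to `p`. -/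
theorem Shp.ge_nat [DecidableEq ι] (h : Shp v F T z n N f b) (hk : Ctx0 k v) {p : ℕ}
    (hp : p ≠ 0) [CharP Ω p] (hD : Drv v F D)
    (hn' : ∀ j, NatV v F D (n j) (n' j)) {X : Fin 2 → Ω} (hX : ∀ i, X i ∈ F)
    (hNp : ∀ j, ∀ g, NP p g → coeff g (N j) = 0) (hfp : ∀ g, NP p g → coeff g f = 0)
    {Za a : Ω} (hZ : Za ∈ F) (ha : a ∈ F) {r : ℝ}
    (hr : v.Ge r (Za - eval X (uu n N f) - a)) :
    v.Ge r (D (Za - a) - ∑ j, aeval X (N j) * n' j - eval X (dc D f)) := by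
  classical
  have hm := h.gt_N hk hX hZ ha hr
  obtain ⟨ε, hε, hε'⟩ := exists_eps Finset.univ (m := fun j => aeval X (N j)) (r := r)
    fun j _ => hm j
  have hε2 : ∀ j, Gt v (r + ε) (aeval X (N j)) := fun j => hε' j (Finset.mem_univ j)
  choose θ hθ hθ' using fun j => h.lim j ε hε
  have hmF : ∀ j, aeval X (N j) ∈ F := fun j => aeval_mem hX _
  set y := Za - a - eval X f - ∑ j, aeval X (N j) * θ j with hy
  have hyF : y ∈ F := sub_mem (sub_mem (sub_mem hZ ha) (eval_mem hX h.fF))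
    (sum_mem fun j _ => mul_mem (hmF j) (hθ j))
  have hy1 : v.Ge r y := by
    have e : y = (Za - eval X (uu n N f) - a) + ∑ j, aeval X (N j) * (n j - θ j) := by
      rw [eval_uuX, hy]
      simp_rw [mul_sub]
      rw [Finset.sum_sub_distrib]
      ring
    rw [e]
    refine hr.add (RVal.Ge.sum _ _ fun j _ => ?_)
    exact ((hε2 j).ge.mul (hθ' j)).mono (by linarith)
  have h1 := hD.norm y hyF r hy1
  have hfe : D (eval X f) = eval X (dc D f) := by
    have h2 := hD.eval_cas hp hX h.fF (l := (0 : MvPolynomial (Fin 2) k))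
      fun g hg => by rw [hfp g hg, coeff_zero, map_zero]
    rwa [map_zero, hD.zero, add_zero] at h2
  have e1 : D y = D (Za - a) - eval X (dc D f) - ∑ j, aeval X (N j) * D (θ j) := by
    rw [hy, hD.sub (sub_mem (sub_mem hZ ha) (eval_mem hX h.fF))
      (sum_mem fun j _ => mul_mem (hmF j) (hθ j)),
      hD.sub (sub_mem hZ ha) (eval_mem hX h.fF), hfe,
      hD.sum _ fun j _ => mul_mem (hmF j) (hθ j)]
    congr 1
    refine Finset.sum_congr rfl fun j _ => ?_
    rw [hD.mul _ (hmF j) _ (hθ j), hD.aeval_NP hp hX (hNp j), mul_zero, add_zero]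
  have e2 : D (Za - a) - ∑ j, aeval X (N j) * n' j - eval X (dc D f) =
      D y - ∑ j, aeval X (N j) * (n' j - D (θ j)) := by
    rw [e1]
    simp_rw [mul_sub]
    rw [Finset.sum_sub_distrib]
    ring
  rw [e2]
  refine h1.sub (RVal.Ge.sum _ _ fun j _ => ?_)
  exact ((hε2 j).ge.mul (hn' j ε hε (θ j) (hθ j) ((hθ' j).mono (by linarith)))).mono
    (by linarith)

/-- `e (Σ n'_j N_j + D f) + P(u) + D A`, with residues `G`. -/
noncomputable def dG (p : ℕ) (κ : ℕ → k) (t : ℕ) (e : k) (n n' : ι → Ω)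
    (N : ι → MvPolynomial (Fin 2) k) (f A : MvPolynomial (Fin 2) Ω) (D : Ω → Ω) :
    MvPolynomial (Fin 2) Ω :=
  RG e n' N f A D + PP p κ t (uu n N f)

theorem eval_PPX {p : ℕ} {κ : ℕ → k} {t : ℕ} (X : Fin 2 → Ω) (y : MvPolynomial (Fin 2) Ω) :
    eval X (PP p κ t y) = PP p κ t (eval X y) := by
  have h := PP_map (p := p) (κ := κ) (t := t)
    ((aeval X : MvPolynomial (Fin 2) Ω →ₐ[Ω] Ω).restrictScalars k) y
  simpa [AlgHom.restrictScalars_apply, coe_aeval_eq_eval] using h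

theorem eval_dG {p : ℕ} {κ : ℕ → k} {t : ℕ} (e : k) (A : MvPolynomial (Fin 2) Ω)
    (X : Fin 2 → Ω) :
    eval X (dG p κ t e n n' N f A D) =
      algebraMap k Ω e * (∑ j, aeval X (N j) * n' j + eval X (dc D f)) + eval X (dc D A) +
        PP p κ t (eval X (uu n N f)) := by
  unfold dG
  rw [map_add, eval_RG, eval_PPX]

/-- **The D-relation**, with the cost term on the left. -/
theorem Shp.rel' [DecidableEq ι] (h : Shp v F T z n N f b) (hk : Ctx0 k v) {p : ℕ}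
    [Fact p.Prime] [CharP Ω p] {κ : ℕ → k} {t : ℕ} (hD : Drv v F D)
    (hn' : ∀ j, NatV v F D (n j) (n' j)) {x : Ω} {e : k} {A : MvPolynomial (Fin 2) Ω}
    {l : MvPolynomial (Fin 2) k} (hx : x ∈ F) (hDx : D x = 1) (hA : ∀ g, coeff g A ∈ F)
    (hAl : ∀ g, NP p g → coeff g A = algebraMap k Ω (coeff g l))
    (hNp : e ≠ 0 → ∀ j, ∀ g, NP p g → coeff g (N j) = 0)
    (hfp : e ≠ 0 → ∀ g, NP p g → coeff g f = 0) {G : MvPolynomial (Fin 2) k}
    (hG : ∀ g, Rs v (coeff g (dG p κ t e n n' N f A D)) (coeff g G)) :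
    ∃ η : ℝ, 0 < η ∧ ∀ X : Fin 2 → Ω, ∀ hX : ∀ i, X i ∈ F, (∀ i, v.Ge (-η) (X i)) →
      ∀ Za ∈ F, ∀ h ∈ F,
      VPos v (algebraMap k Ω e * Za + x * PP p κ t Za + eval X A - h ^ p) →
      ∀ fc : MvPolynomial (Fin 2) k, ∀ r : ℝ, r ≤ 0 →
      v.Ge r (Za - eval X (uu n N f) - aeval X fc) →
      v.Ge r (PP p κ t (Za - eval X (uu n N f)) + aeval X G + hD.dl hX (C e * fc + l)) := by
  have hp : p ≠ 0 := (Fact.out : p.Prime).ne_zero
  obtain ⟨η, hη, h1⟩ := exists_small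
    (dG p κ t e n n' N f A D - MvPolynomial.map (algebraMap k Ω) G) fun g => by
      rw [coeff_sub, coeff_map]
      exact hG g
  refine ⟨η, hη, fun X hX hXη Za hZ h₀ hh htie fc r hr hr1 => ?_⟩
  have h2 := h1 X hXη
  rw [map_sub, eval_map_aeval, eval_dG] at h2
  -- `D` of the tie
  have hP : PP p κ t Za ∈ F := PP_mem hZ
  have hEA : eval X A ∈ F := eval_mem hX hA
  have m1 : algebraMap k Ω e * Za ∈ F := mul_mem (F.algebraMap_mem _) hZ
  have m2 : x * PP p κ t Za ∈ F := mul_mem hx hP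
  have h3 : VPos v (algebraMap k Ω e * D Za + PP p κ t Za + eval X (dc D A) + D (aeval X l)) := by
    have e1 : algebraMap k Ω e * D Za + PP p κ t Za + eval X (dc D A) + D (aeval X l) =
        D (algebraMap k Ω e * Za + x * PP p κ t Za + eval X A - h₀ ^ p) := by
      rw [hD.sub (add_mem (add_mem m1 m2) hEA) (pow_mem hh p), hD.pow_p hp hh,
        sub_zero, hD.add _ (add_mem m1 m2) _ hEA, hD.add _ m1 _ m2, hD.smul _ hZ,
        hD.mul _ hx _ hP, hD.PP_zero hp hZ, hDx, hD.eval_cas hp hX hA hAl]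
      ring
    rw [e1]
    set y := algebraMap k Ω e * Za + x * PP p κ t Za + eval X A - h₀ ^ p with hy
    have hyF : y ∈ F := sub_mem (add_mem (add_mem m1 m2) hEA) (pow_mem hh p)
    by_cases h0 : y = 0
    · rw [h0, hD.zero]; exact Gt.zero
    · exact Gt.of_ge (hD.norm y hyF _ (RVal.ge_self (v := v) _)) (htie h0)
  -- the natural value
  have ha : aeval X fc ∈ F := aeval_mem hX fc
  have h4 : v.Ge r (algebraMap k Ω e *
      (D (Za - aeval X fc) - ∑ j, aeval X (N j) * n' j - eval X (dc D f))) := by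
    by_cases he : e = 0
    · rw [he, map_zero, zero_mul]; exact RVal.Ge.zero
    · have := (ge_alg hk e).mul (h.ge_nat hk hp hD hn' hX (hNp he) (hfp he) hZ ha hr1)
      rwa [zero_add] at this
  have h3' : v.Ge r (algebraMap k Ω e * D Za + PP p κ t Za + eval X (dc D A) +
      D (aeval X l)) := (Gt.mono (r := 0) h3 hr).ge
  have h2' := (Gt.mono (r := 0) h2 hr).ge
  have e1 : PP p κ t (Za - eval X (uu n N f)) + aeval X G + hD.dl hX (C e * fc + l) =
      (algebraMap k Ω e * D Za + PP p κ t Za + eval X (dc D A) + D (aeval X l)) -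
      algebraMap k Ω e *
        (D (Za - aeval X fc) - ∑ j, aeval X (N j) * n' j - eval X (dc D f)) -
      (algebraMap k Ω e * (∑ j, aeval X (N j) * n' j + eval X (dc D f)) + eval X (dc D A) +
        PP p κ t (eval X (uu n N f)) - aeval X G) := by
    rw [PP_sub, hD.sub hZ ha, hD.dl_apply, map_add, map_mul, aeval_C,
      hD.add _ (mul_mem (F.algebraMap_mem _) ha) _ (aeval_mem hX l), hD.smul _ ha]
    ring
  rw [e1]
  exact (h3'.sub h4).sub h2'

/-- **The D-relation.** -/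
theorem Shp.rel [DecidableEq ι] (h : Shp v F T z n N f b) (hk : Ctx0 k v) {p : ℕ}
    [Fact p.Prime] [CharP Ω p] {κ : ℕ → k} {t : ℕ} (hD : Drv v F D)
    (hn' : ∀ j, NatV v F D (n j) (n' j)) {x : Ω} {e : k} {A : MvPolynomial (Fin 2) Ω}
    {l : MvPolynomial (Fin 2) k} (hx : x ∈ F) (hDx : D x = 1) (hA : ∀ g, coeff g A ∈ F)
    (hAl : ∀ g, NP p g → coeff g A = algebraMap k Ω (coeff g l))
    (hNp : e ≠ 0 → ∀ j, ∀ g, NP p g → coeff g (N j) = 0)
    (hfp : e ≠ 0 → ∀ g, NP p g → coeff g f = 0) {G : MvPolynomial (Fin 2) k}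
    (hG : ∀ g, Rs v (coeff g (dG p κ t e n n' N f A D)) (coeff g G)) :
    ∃ η : ℝ, 0 < η ∧ ∀ X : Fin 2 → Ω, ∀ hX : ∀ i, X i ∈ F, (∀ i, v.Ge (-η) (X i)) →
      ∀ Za ∈ F, ∀ h ∈ F,
      VPos v (algebraMap k Ω e * Za + x * PP p κ t Za + eval X A - h ^ p) →
      ∀ fc : MvPolynomial (Fin 2) k, ∀ r : ℝ, r ≤ 0 →
      v.Ge r (Za - eval X (uu n N f) - aeval X fc) → v.Ge r (hD.dl hX (C e * fc + l)) →
      v.Ge r (PP p κ t (Za - eval X (uu n N f)) + aeval X G) := by
  obtain ⟨η, hη, h1⟩ := h.rel' hk hD hn' hx hDx hA hAl hNp hfp hG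
  refine ⟨η, hη, fun X hX hXη Za hZ h₀ hh htie fc r hr hr1 hr2 => ?_⟩
  have h2 := (h1 X hX hXη Za hZ h₀ hh htie fc r hr hr1).sub hr2
  rwa [add_sub_cancel_right] at h2

end shape

end Pool.Agent.TWCY
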