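import Pool.Agent.Lib.TWCY.Dat
import Pool.Agent.Lib.TWM.G3

/-!
# CT, j = 1, abelian case: the tie

* `exists_spec`: a polynomial expression of `z`, `z` of transcendental type over `F`, which is a limit
  of `p`-th powers of `F<z>`: the same at approximations of `z`, with `p`-th powers of `F`;
* `tie_of_rel`: the field `tie` of `TieD`, from the relation of `a`.
-/

set_option autoImplicit false

open MvPolynomial

namespace Pool.Agent.TWCY

open Pool.Agent.H15JM (RVal)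
open Pool.Agent.LU1 (VPos)
open Pool.Agent.D2 (Ctx0)
open Pool.Agent.TWM
open Pool.Agent.TWS (IsoE SphC)
open Pool.Agent.TWLY

universe u

variable {k Ω : Type u} [Field k] [Field Ω] [Algebra k Ω] {v : RVal Ω}
  {W F : IntermediateField k Ω} {z x : Ω} {p : ℕ}

/-- **Specialisation of a limit of `p`-th powers.** -/
theorem exists_spec [hp : Fact p.Prime] [CharP Ω p] [IsAlgClosed Ω] (hz : TL v F z 0)
    {f : Polynomial Ω} (hf : f ∈ PI F)
    (h : ∀ ε : ℝ, 0 < ε → ∃ g ∈ cadj v F z, v.Ge (-ε) (f.eval z - g ^ p)) {ε : ℝ} (hε : 0 < ε) :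
    ∃ θ ∈ F, v.Ge (-ε) (z - θ) ∧ ∃ g ∈ F, v.Ge (-ε) (f.eval θ - g ^ p) := by
  obtain ⟨g, hg, h1⟩ := h ε hε
  obtain ⟨Q, hQ, h2⟩ := hz.dense hg 0
  have hR : f - Q ^ p ∈ PI F := _root_.sub_mem hf (pow_mem hQ p)
  have h3 : v.Ge (-ε) ((f - Q ^ p).eval z) := by
    rw [Polynomial.eval_sub, Polynomial.eval_pow]
    have e : f.eval z - Q.eval z ^ p = (f.eval z - g ^ p) + (g - Q.eval z) ^ p := by
      rw [sub_pow_char]
      ring
    rw [e]
    refine h1.add ((ge_pow h2 p).mono ?_)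
    rw [mul_zero]
    linarith
  obtain ⟨δ, hδ, h4⟩ := hz.near0 hR
  obtain ⟨θ, hθ, h5⟩ := hz.lim (min δ ε) (lt_min hδ hε)
  have h6 := h4 θ (h5.mono (by linarith [min_le_left δ ε]))
  refine ⟨θ, hθ, h5.mono (by linarith [min_le_right δ ε]), Q.eval θ, eval_mem hQ hθ, ?_⟩
  have e : f.eval θ - Q.eval θ ^ p = (f - Q ^ p).eval θ := by
    rw [Polynomial.eval_sub, Polynomial.eval_pow]
  rw [e]
  intro h7
  rw [h6.2]
  refine h3 fun h8 => h7 ?_
  by_cases h9 : f - Q ^ p = 0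
  · rw [h9, Polynomial.eval_zero]
  · exact absurd h8 (hz.eval_ne (PI_mono (le_algc F) hR) h9)

/-- **The tie at the approximations of `z`**, from the relation of `a`. -/
theorem tie_of_rel [hp : Fact p.Prime] [CharP Ω p] [IsAlgClosed Ω] (hz : TL v F z 0) (hx : x ∈ F)
    {a a₀ : Ω} (ha₀ : a₀ ∈ F) {K : IntermediateField k Ω} (hK : K = cadj v F z) {e : k}
    {κ : ℕ → k} {t : ℕ} (hlp : ∀ ε : ℝ, 0 < ε → ∃ g ∈ K, v.Ge (0 - ε) (a - g ^ p))
    (hrel : ∃ g ∈ K, Gt v 0 (a - (algebraMap k Ω e * z + x * PP p κ t z + a₀) - g ^ p)) {ε : ℝ}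
    (hε : 0 < ε) : ∃ θ ∈ F, v.Ge (-ε) (z - θ) ∧
      ∃ h ∈ F, v.Ge (-ε) (algebraMap k Ω e * θ + x * PP p κ t θ + a₀ - h ^ p) := by
  subst hK
  obtain ⟨f, hf⟩ : ∃ f : Polynomial Ω, f = Polynomial.C (algebraMap k Ω e) * Polynomial.X +
      Polynomial.C x * (∑ i ∈ Finset.range (t + 1),
        Polynomial.C (algebraMap k Ω (κ i)) * Polynomial.X ^ p ^ (i + 1)) + Polynomial.C a₀ :=
    ⟨_, rfl⟩
  have hev : ∀ y : Ω, f.eval y = algebraMap k Ω e * y + x * PP p κ t y + a₀ := by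
    intro y
    rw [hf]
    simp only [Polynomial.eval_add, Polynomial.eval_mul, Polynomial.eval_C, Polynomial.eval_X,
      Polynomial.eval_finsetSum, Polynomial.eval_pow]
    rfl
  have hfF : f ∈ PI F := by
    rw [hf]
    refine add_mem (add_mem (mul_mem (C_mem_PI (F.algebraMap_mem _))
      X_mem_PI) (mul_mem (C_mem_PI hx) (sum_mem fun i _ =>
        mul_mem (C_mem_PI (F.algebraMap_mem _)) (pow_mem X_mem_PI _)))) (C_mem_PI ha₀)
  obtain ⟨θ, hθ, h1, g, hg, h2⟩ := exists_spec hz hfF (fun ε' hε' => by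
    obtain ⟨g, hg, h1⟩ := hlp ε' hε'
    obtain ⟨g', hg', h2⟩ := hrel
    refine ⟨g - g', _root_.sub_mem hg hg', ?_⟩
    rw [hev, sub_pow_char]
    have e1 : algebraMap k Ω e * z + x * PP p κ t z + a₀ - (g ^ p - g' ^ p) =
        (a - g ^ p) - (a - (algebraMap k Ω e * z + x * PP p κ t z + a₀) - g' ^ p) := by ring
    rw [e1]
    exact (h1.mono (by linarith)).sub (h2.ge.mono (by linarith))) hε
  rw [hev] at h2
  exact ⟨θ, hθ, h1, g, hg, h2⟩

end Pool.Agent.TWCY
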