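import Pool.Agent.Lib.TWCY.Core
import Pool.Agent.Lib.TWCY.NFa
import Pool.Agent.Lib.TWCY.ShpE
import Pool.Agent.Lib.TWCY.TieT
import Pool.Agent.Lib.TWM.B1

/-!
# CT, j = 1, abelian case: the normal form (row J1.1)

`m = 0` (`RowM0`: the relation of `a`, 58) gives the tie (`tie_of_rel`), the normal form of `a₀` (`nfa`)
and the shape of `z - φ` (`exists_shp`): `RowNF`.
-/

set_option autoImplicit false

open MvPolynomial

namespace Pool.Agent.TWCY

open Pool.Agent.H15JM (RVal)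
open Pool.Agent.LU1 (VPos)
open Pool.Agent.D2 (Ctx0)
open Pool.Agent.TWM
open Pool.Agent.TWS (IsoE SphC)
open Pool.Agent.TWII (PG LP)
open Pool.Agent.TWN1 (Par Unh)
open Pool.Agent.TWLY

universe u

variable {k Ω : Type u} [Field k] [Field Ω] [Algebra k Ω]

/-- `m = 0` (58): the relation of `a`. -/
def RowM0 (p : ℕ) (v : RVal Ω) : Prop := ∀ (L : ℕ → IntermediateField k Ω)
  (W F K : IntermediateField k Ω) (w : Fin 2 → Ω) (x z a : Ω) (D : Ω → Ω)
  (T : (Fin 2 → k) → Ω →ₐ[k] Ω) (dd : Fin 2 → Ω → Ω),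
  HD p v L W F K w x z a → BaseD p v W x D → Trn v W F w T → DrvT v W F w T D dd →
  ∃ (e : k) (κ : ℕ → k) (t : ℕ) (a₀ : Ω), κ t ≠ 0 ∧ a₀ ∈ F ∧
    PG p v K 0 (a - (algebraMap k Ω e * z + x * PP p κ t z + a₀))

variable {p : ℕ} {v : RVal Ω} {L : ℕ → IntermediateField k Ω} {W F K : IntermediateField k Ω}
  {w : Fin 2 → Ω} {x z a φ : Ω}

/-- The level of `a` does not change. -/
theorem unh_sub (hφ : φ ∈ F) {s ν : ℝ} (h : Unh p v F K (z - φ) s ν a) : Unh p v F K z s ν a := by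
  obtain ⟨f, hf, h1, h2⟩ := h
  refine ⟨Polynomial.taylor (-φ) f, taylor_mem_PI hf (neg_mem hφ), ?_, fun l hl hl0 => ?_⟩
  · rw [Polynomial.taylor_eval, ← sub_eq_add_neg]
    exact h1
  · rw [Polynomial.taylor_taylor, ← sub_eq_add_neg]
    exact h2 l hl hl0

/-- The data for `z - φ`. -/
theorem HD.sub (h : HD p v L W F K w x z a) (hφ : φ ∈ F) : HD p v L W F K w x (z - φ) a where
  c0 := h.c0
  cv := h.cv
  sph := h.sph
  hval := h.hval
  cld := h.cld
  full := h.full
  gp := h.gp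
  xW := h.xW
  mono := h.mono
  le := h.le
  dense := h.dense
  par := h.par
  zt := h.zt.sub_mem hφ
  K_eq := by rw [h.K_eq, cadj_sub_mem hφ]
  aK := h.aK
  lp := h.lp
  crit := h.crit
  hit := fun h1 => h.hit (unh_sub hφ h1)

/-- **The normal form, the shape and the tie**, from `m = 0`. -/
theorem rowNF [Infinite k] [hp : Fact p.Prime] [CharP k p] [CharP Ω p] [IsAlgClosed Ω]
    (hm : RowM0 (k := k) p v) : RowNF (k := k) p v := by
  intro L W F K w x z a D T dd H hB hT hD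
  obtain ⟨e, κ, t, a₀, kap, ha₀, hrel⟩ := hm L W F K w x z a D T dd H hB hT hD
  have hw : ∀ i, Lim v W 0 (w i) := by
    intro i
    fin_cases i
    · exact H.par.t1.lim
    · exact H.par.t2.lim
  have tie : ∀ ε : ℝ, 0 < ε → ∃ θ ∈ F, v.Ge (-ε) (z - θ) ∧
      ∃ h ∈ F, v.Ge (-ε) (algebraMap k Ω e * θ + x * PP p κ t θ + a₀ - h ^ p) :=
    fun ε hε => tie_of_rel H.zt (hT.le H.xW) ha₀ H.K_eq H.lp hrel hε
  obtain ⟨φ, Pa, l, hφ, hPa, hlin, hPaD, hcas, hn, hv, htd⟩ :=
    nfa H.c0 hT hD hw H.xW ha₀ kap tie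
  have hx1 : Rs v (D x) (1 : k) := by
    intro h1
    exact absurd (by rw [hB.Dx, map_one, sub_self]) h1
  have H' := H.sub hφ
  obtain ⟨m, n, N, f, b, hS, hNp, hfp⟩ := htd.exists_shp H.c0 H.sph hT hD hx1 H'.zt.lim hn
  refine ⟨φ, hφ, ⟨T, D, dd, e, κ, t, l, Pa, m, n, N, f, b, fun _ => 0, fun _ _ => 0, 0,
    fun _ => 0⟩, rfl, rfl, rfl, ?_⟩
  exact
    { toHD := H'
      kap := kap
      PaW := hPa
      lin := hlin
      PaD := hPaD
      cas := hcas
      Np := hNp
      fp := hfp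
      rel := by
        have h1 : PG p v K 0 (a₀ + algebraMap k Ω e * φ + x * PP p κ t φ - eval w Pa) :=
          PG.of_gt hv
        have h2 := hrel.add h1
        have e1 : a - (algebraMap k Ω e * z + x * PP p κ t z + a₀) +
            (a₀ + algebraMap k Ω e * φ + x * PP p κ t φ - eval w Pa) =
            a - (algebraMap k Ω e * (z - φ) + x * PP p κ t (z - φ) + eval w Pa) := by
          rw [PP_sub]
          ring
        rw [e1] at h2
        exact h2
      base := hB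
      trn := hT
      drt := hD
      shp := hS
      tie := htd }

end Pool.Agent.TWCY
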