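import Pool.Agent.Lib.TWRR.G1

/-!
# CT, j = 1: critical elements with strict derivatives

`W = W ^ p [X₀]`, `X₀` of level `lam`, `F` the closure of `W(w₀, w₁)`.

* `QX p F X₀`: the elements `∑ i, H i ^ p * X₀ ^ i`, `H i ∈ F`;
* `StrD`: the derivatives in the directions of the pair are strict;
* `StrD.exists_qx`: a critical element with strict derivatives is in `QX`, up to smaller elements;
* `oc_of_qx`: a critical element of `QX` is `h ^ p * X₀` + null;
* `cls0`: both.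
-/

set_option autoImplicit false
set_option linter.unusedSectionVars false

open Polynomial Finset

namespace Pool.Agent.TWCY

open Pool.Agent.H15JM (RVal)
open Pool.Agent.LU1 (VPos)
open Pool.Agent.D2 (Ctx0)
open Pool.Agent.TWM
open Pool.Agent.TWII (PG LP)
open Pool.Agent.TWN1 (PC Par)
open Pool.Agent.TWRR (OC)

universe u

variable {k Ω : Type u} [Field k] [Field Ω] [Algebra k Ω] {v : RVal Ω}
  {C W F K : IntermediateField k Ω} {p : ℕ} {w y X₀ : Ω} {ρ ν c lam : ℝ}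

/-- A common margin. -/
theorem gt_margin {ι : Type*} (S : Finset ι) (b : ι → ℝ) (x : ι → Ω)
    (h : ∀ i ∈ S, Gt v (b i) (x i)) : ∃ μ : ℝ, 0 < μ ∧ ∀ i ∈ S, v.Ge (b i + μ) (x i) := by
  classical
  induction S using Finset.induction_on with
  | empty => exact ⟨1, one_pos, fun i hi => absurd hi (notMem_empty i)⟩
  | insert i S hi ih =>
    obtain ⟨μ, hμ, h1⟩ := ih fun j hj => h j (mem_insert_of_mem hj)
    obtain ⟨μ', hμ', h2⟩ := TWLM.exists_ge_of_gt (h i (mem_insert_self i S))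
    refine ⟨min μ μ', lt_min hμ hμ', fun j hj => ?_⟩
    rcases mem_insert.1 hj with rfl | hj
    · exact h2.mono (by linarith [min_le_right μ μ'])
    · exact (h1 j hj).mono (by linarith [min_le_left μ μ'])

/-! ### The subfield `F ^ p [X₀]` -/

/-- The elements `∑ i, H i ^ p * X₀ ^ i`. -/
def QX (p : ℕ) (F : IntermediateField k Ω) (X₀ y : Ω) : Prop :=
  ∃ H : Fin p → Ω, (∀ i, H i ∈ F) ∧ y = ∑ i, H i ^ p * X₀ ^ (i : ℕ)

section QX

variable [hp : Fact p.Prime] [CharP Ω p]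

theorem QX.zero : QX p F X₀ 0 :=
  ⟨fun _ => 0, fun _ => zero_mem F, by simp [hp.out.ne_zero]⟩

theorem QX.add {y y' : Ω} (h : QX p F X₀ y) (h' : QX p F X₀ y') : QX p F X₀ (y + y') := by
  obtain ⟨H, hH, rfl⟩ := h
  obtain ⟨H', hH', rfl⟩ := h'
  refine ⟨fun i => H i + H' i, fun i => add_mem (hH i) (hH' i), ?_⟩
  rw [← sum_add_distrib]
  exact sum_congr rfl fun i _ => by rw [add_pow_char]; ring

theorem QX.sum {ι : Type*} (S : Finset ι) (f : ι → Ω) (h : ∀ i ∈ S, QX p F X₀ (f i)) :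
    QX p F X₀ (∑ i ∈ S, f i) := by
  classical
  induction S using Finset.induction_on with
  | empty =>
    rw [sum_empty]
    exact QX.zero
  | insert i S hi ih =>
    rw [sum_insert hi]
    exact (h i (mem_insert_self i S)).add (ih fun j hj => h j (mem_insert_of_mem hj))

omit hp [CharP Ω p] in
theorem QX.mul_pow {y g : Ω} (h : QX p F X₀ y) (hg : g ∈ F) : QX p F X₀ (y * g ^ p) := by
  obtain ⟨H, hH, rfl⟩ := h
  refine ⟨fun i => H i * g, fun i => mul_mem (hH i) hg, ?_⟩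
  rw [sum_mul]
  exact sum_congr rfl fun i _ => by ring

end QX

/-- The derivatives of `y` in the directions `w₀`, `w₁` are strict, at the level `c`. -/
structure StrD (v : RVal Ω) (W : IntermediateField k Ω) (w₀ : Ω) (r₀ : ℝ) (w₁ : Ω) (r₁ c : ℝ)
    (y : Ω) : Prop where
  d0 : ∃ f ∈ PI (cadj v W w₁), Gt v c (y - f.eval w₀) ∧ Gt v (c - r₀) ((hasseDeriv 1 f).eval w₀)
  d1 : ∃ f ∈ PI (cadj v W w₀), Gt v c (y - f.eval w₁) ∧ Gt v (c - r₁) ((hasseDeriv 1 f).eval w₁)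

section Jets

variable [IsAlgClosed Ω] [hp : Fact p.Prime] [CharP Ω p]

/-- **Taylor**: the jets of index not divisible by `p` are strict. -/
theorem jets_p (hw : TL v C w ρ) {f : Polynomial Ω} (hf : f ∈ PI C)
    (hs : ∀ l : ℕ, ¬ p ∣ l → Gt v (ν - l * ρ) ((hasseDeriv l f).eval w)) :
    ∃ δ : ℝ, 0 < δ ∧ ∀ ψ : Ω, v.Ge (ρ - δ) (w - ψ) →
      Gt v ν (f.eval w - ∑ j ∈ range (f.natDegree + 1),
        if p ∣ j then (hasseDeriv j f).eval ψ * (w - ψ) ^ j else 0) := by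
  classical
  obtain ⟨μ, hμ, hs'⟩ := gt_margin (v := v) ((range (f.natDegree + 1)).filter fun l => ¬ p ∣ l)
    (fun l => ν - l * ρ) (fun l => (hasseDeriv l f).eval w)
    fun l hl => hs l (mem_filter.1 hl).2
  obtain ⟨δ₁, hδ₁, hd1⟩ := TWN1.TL.deep hw ((range (f.natDegree + 1)).image fun l => hasseDeriv l f)
    (fun q hq => by
      obtain ⟨l, _, rfl⟩ := mem_image.1 hq
      exact hasse_mem_PI hf l)
  have hL1 : (0 : ℝ) < 2 * (f.natDegree + 1) := by positivity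
  refine ⟨min δ₁ (μ / (2 * (f.natDegree + 1))), lt_min hδ₁ (div_pos hμ hL1), fun ψ hψ => ?_⟩
  obtain ⟨δ, hδ⟩ : ∃ δ, δ = min δ₁ (μ / (2 * (f.natDegree + 1))) := ⟨_, rfl⟩
  rw [← hδ] at hψ
  have hδ' : 0 < δ := hδ ▸ lt_min hδ₁ (div_pos hμ hL1)
  have hδb : δ ≤ δ₁ := hδ ▸ min_le_left _ _
  have hLδ : (f.natDegree + 1) * δ ≤ μ / 2 := by
    have h1 : δ ≤ μ / (2 * (f.natDegree + 1)) := hδ ▸ min_le_right _ _
    rw [le_div_iff₀ hL1] at h1
    linarith
  rw [TWN1.rt_taylor (le_refl f.natDegree) ψ w, ← sum_sub_distrib]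
  refine Gt.sum _ _ fun j hj => ?_
  by_cases hpj : p ∣ j
  · rw [if_pos hpj, sub_self]
    exact Gt.zero
  rw [if_neg hpj, sub_zero]
  have hj1 := mem_range.1 hj
  have h7 : (j : ℝ) * δ ≤ μ / 2 := by
    refine le_trans ?_ hLδ
    refine mul_le_mul_of_nonneg_right ?_ hδ'.le
    have : (j : ℝ) ≤ f.natDegree := by exact_mod_cast (by omega : j ≤ f.natDegree)
    linarith
  have h4 := hs' j (mem_filter.2 ⟨hj, hpj⟩)
  have h5 := ((hd1 ψ (hψ.mono (by linarith)) _ (mem_image.2 ⟨j, hj, rfl⟩)).1 _).1 h4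
  refine Gt.of_ge (h5.mul (ge_pow hψ j)) ?_
  nlinarith

/-- Criticality and one strict derivative: all the jets of index not divisible by `p` are strict. -/
theorem strict_jets (hw : TL v C w ρ) {f : Polynomial Ω} (hf : f ∈ PI C)
    (hlp : LP p v (cadj v C w) ν (f.eval w)) (h1 : Gt v (ν - ρ) ((hasseDeriv 1 f).eval w)) (l : ℕ)
    (hpl : ¬ p ∣ l) : Gt v (ν - l * ρ) ((hasseDeriv l f).eval w) := by
  rcases lt_or_ge l 2 with h2 | h2
  · obtain rfl : l = 1 := by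
      rcases l with _ | l
      · exact absurd (dvd_zero p) hpl
      · omega
    rw [Nat.cast_one, one_mul]
    exact h1
  · rw [← taylor_coeff]
    exact TWII.LP.jet_prime_gt p hw hf hlp hpl h2

/-- **A critical element with strict derivatives** is in `QX`, up to smaller elements. -/
theorem StrD.exists_qx {w₀ w₁ : Ω} {r₀ r₁ : ℝ} (hP : Par v W F w₀ r₀ w₁ r₁)
    (hgen : ∀ f ∈ W, QX p W X₀ f) (hl : LP p v F c y) (hd : StrD v W w₀ r₀ w₁ r₁ c y) :
    ∃ y' : Ω, QX p F X₀ y' ∧ Gt v c (y - y') := by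
  classical
  obtain ⟨f, hf, h1, h2⟩ := hd.d1
  obtain ⟨f₀, hf₀, h3, h4⟩ := hd.d0
  have hlf : LP p v (cadj v (cadj v W w₀) w₁) c (f.eval w₁) := by
    rw [← hP.eq1]
    have h5 := hl.sub (TWII.LP.of_pg (PG.of_gt (p := p) (F := F) h1))
    rwa [sub_sub_cancel] at h5
  obtain ⟨δ₁, hδ₁, h5⟩ := jets_p (p := p) (ν := c) hP.t21 hf (strict_jets hP.t21 hf hlf h2)
  obtain ⟨ψ₁, hψ₁, h6⟩ := hP.t2.lim δ₁ hδ₁
  have h7 := h5 ψ₁ h6
  -- the coefficients
  have he : ∀ j : ℕ, ∃ q : Polynomial Ω, q ∈ PI W ∧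
      v.Ge (c + 1 - j * (r₁ - δ₁)) ((hasseDeriv j f).eval ψ₁ - q.eval w₀) := fun j => by
    obtain ⟨q, hq, h8⟩ := hP.t1.dense (eval_mem (hasse_mem_PI hf j) (le_cadj v W w₀ hψ₁))
      (c + 1 - j * (r₁ - δ₁))
    exact ⟨q, hq, h8⟩
  choose q hq hqe using he
  set R : Polynomial Ω := ∑ j ∈ range (f.natDegree + 1),
    if p ∣ j then C ((w₁ - ψ₁) ^ j) * q j else 0 with hR
  have hw1 : w₁ ∈ cadj v W w₁ := self_mem_cadj v W w₁
  have hWE : W ≤ cadj v W w₁ := le_cadj v W w₁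
  have hRE : R ∈ PI (cadj v W w₁) := sum_mem fun j _ => by
    split_ifs
    · exact mul_mem (C_mem_PI (pow_mem (sub_mem hw1 (hWE hψ₁)) j)) fun i => hWE (hq j i)
    · exact zero_mem _
  have hRv : Gt v c (f.eval w₁ - R.eval w₀) := by
    have e : f.eval w₁ - R.eval w₀ = (f.eval w₁ - ∑ j ∈ range (f.natDegree + 1),
        if p ∣ j then (hasseDeriv j f).eval ψ₁ * (w₁ - ψ₁) ^ j else 0) +
        ∑ j ∈ range (f.natDegree + 1),
          if p ∣ j then ((hasseDeriv j f).eval ψ₁ - (q j).eval w₀) * (w₁ - ψ₁) ^ j else 0 := by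
      rw [hR, eval_finsetSum, sub_add, ← sum_sub_distrib]
      congr 1
      refine sum_congr rfl fun j _ => ?_
      split_ifs
      · rw [eval_mul, eval_C]
        ring
      · rw [eval_zero, sub_zero]
    rw [e]
    refine h7.add (Gt.sum _ _ fun j _ => ?_)
    split_ifs
    · refine Gt.of_ge ((hqe j).mul (ge_pow h6 j)) ?_
      linarith
    · exact Gt.zero
  have hyR : Gt v c (y - R.eval w₀) := by
    have e : y - R.eval w₀ = (y - f.eval w₁) + (f.eval w₁ - R.eval w₀) := by ring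
    rw [e]
    exact h1.add hRv
  have hlR : LP p v (cadj v (cadj v W w₁) w₀) c (R.eval w₀) := by
    rw [← hP.eq2]
    have h5 := hl.sub (TWII.LP.of_pg (PG.of_gt (p := p) (F := F) hyR))
    rwa [sub_sub_cancel] at h5
  have hR1 : Gt v (c - r₀) ((hasseDeriv 1 R).eval w₀) := by
    have h8 : Gt v c ((f₀ - R).eval w₀) := by
      have e : (f₀ - R).eval w₀ = (y - R.eval w₀) - (y - f₀.eval w₀) := by
        rw [eval_sub]
        ring
      rw [e]
      exact hyR.sub h3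
    obtain ⟨μ, hμ, h9⟩ := (PG.of_gt (p := p) (F := cadj v (cadj v W w₁) w₀) h8).exists_pc
    have h10 := PC.jet_gt hP.t12 (sub_mem hf₀ hRE) h9 (j := 1)
      (hp.out.one_lt.not_ge ∘ Nat.le_of_dvd one_pos)
    rw [map_sub, eval_sub, Nat.cast_one, one_mul] at h10
    have e : (hasseDeriv 1 R).eval w₀ = (hasseDeriv 1 f₀).eval w₀ -
        ((hasseDeriv 1 f₀).eval w₀ - (hasseDeriv 1 R).eval w₀) := by ring
    rw [e]
    exact h4.sub (h10.mono (by linarith))
  obtain ⟨δ₀, hδ₀, h8⟩ := jets_p (p := p) (ν := c) hP.t12 hRE (strict_jets hP.t12 hRE hlR hR1)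
  obtain ⟨ψ₀, hψ₀, h9⟩ := hP.t1.lim δ₀ hδ₀
  refine ⟨_, ?_, by
    have e : y - ∑ i ∈ range (R.natDegree + 1),
        (if p ∣ i then (hasseDeriv i R).eval ψ₀ * (w₀ - ψ₀) ^ i else 0) = (y - R.eval w₀) +
        (R.eval w₀ - ∑ i ∈ range (R.natDegree + 1),
          if p ∣ i then (hasseDeriv i R).eval ψ₀ * (w₀ - ψ₀) ^ i else 0) := by ring
    have h10 := hyR.add (h8 ψ₀ h9)
    rw [← e] at h10
    exact h10⟩
  have hWF : W ≤ F := hP.le
  have hlift : ∀ f ∈ W, QX p F X₀ f := fun f hf => by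
    obtain ⟨H, hH, h10⟩ := hgen f hf
    exact ⟨H, fun i => hWF (hH i), h10⟩
  refine QX.sum _ _ fun i _ => ?_
  split_ifs with hi
  · obtain ⟨i', rfl⟩ := hi
    rw [mul_comm p i', pow_mul]
    refine QX.mul_pow ?_ (pow_mem (sub_mem hP.mem1 (hWF hψ₀)) _)
    rw [hR, map_sum, eval_finsetSum]
    refine QX.sum _ _ fun j _ => ?_
    split_ifs with hj
    · obtain ⟨j', rfl⟩ := hj
      rw [TWN1.hasse_C_mul, eval_mul, eval_C, mul_comm, mul_comm p j', pow_mul]
      exact QX.mul_pow (hlift _ (eval_mem (hasse_mem_PI (hq _) _) hψ₀))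
        (pow_mem (sub_mem hP.mem2 (hWF hψ₁)) _)
    · rw [map_zero, eval_zero]
      exact QX.zero
  · exact QX.zero

end Jets

/-! ### The class of a critical element of `F ^ p [X₀]` -/

/-- Polynomials of degree `< p`, the coefficients are `p`-th powers of `F`. -/
def PP' (p : ℕ) (F : IntermediateField k Ω) (f : Polynomial Ω) : Prop :=
  f.natDegree < p ∧ ∀ i, ∃ h ∈ F, f.coeff i = h ^ p

section Cls

variable [hp : Fact p.Prime] [CharP Ω p] {f : Polynomial Ω}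

theorem QX.exists_pp (h : QX p F X₀ y) : ∃ f : Polynomial Ω, PP' p F f ∧ f.eval X₀ = y := by
  classical
  obtain ⟨H, hH, rfl⟩ := h
  refine ⟨∑ i : Fin p, C (H i ^ p) * X ^ (i : ℕ), ⟨?_, fun i => ?_⟩, ?_⟩
  · have h1 := degree_sum_fin_lt (fun i : Fin p => H i ^ p)
    rcases eq_or_ne (∑ i : Fin p, C (H i ^ p) * (X : Polynomial Ω) ^ (i : ℕ)) 0 with h2 | h2
    · rw [h2, natDegree_zero]
      exact hp.out.pos
    · exact (natDegree_lt_iff_degree_lt h2).2 h1
  · rw [finset_sum_coeff]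
    simp only [coeff_C_mul_X_pow]
    by_cases hi : i < p
    · refine ⟨H ⟨i, hi⟩, hH _, ?_⟩
      rw [sum_eq_single_of_mem (⟨i, hi⟩ : Fin p) (mem_univ _)]
      · rw [if_pos rfl]
      · intro j _ hj
        rw [if_neg]
        rintro rfl
        exact hj rfl
    · refine ⟨0, zero_mem F, ?_⟩
      rw [zero_pow hp.out.ne_zero]
      refine sum_eq_zero fun j _ => ?_
      rw [if_neg]
      rintro rfl
      exact hi j.2
  · rw [eval_finsetSum]
    exact sum_congr rfl fun i _ => by rw [eval_mul, eval_C, eval_pow, eval_X]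

theorem PP'.deriv (h : PP' p F f) : PP' p F (derivative f) := by
  refine ⟨lt_of_le_of_lt ((natDegree_derivative_le f).trans (Nat.sub_le _ _)) h.1, fun i => ?_⟩
  obtain ⟨g, hg, h1⟩ := h.2 (i + 1)
  refine ⟨g * ((i + 1 : ℕ) : Ω), mul_mem hg (natCast_mem F _), ?_⟩
  have h2 : (((i + 1 : ℕ) : Ω)) ^ p = ((i + 1 : ℕ) : Ω) := by
    have := map_natCast (frobenius Ω p) (i + 1)
    rwa [frobenius_def] at this
  rw [coeff_derivative, h1, mul_pow, h2]
  push_cast
  ring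

theorem PP'.sub_C (h : PP' p F f) {g : Ω} (hg : g ∈ F) : PP' p F (f - Polynomial.C (g ^ p)) := by
  refine ⟨by rw [natDegree_sub_C]; exact h.1, fun i => ?_⟩
  obtain ⟨a, ha, h1⟩ := h.2 i
  rw [coeff_sub, coeff_C, h1]
  split_ifs
  · exact ⟨a - g, sub_mem ha hg, by rw [sub_pow_char]⟩
  · exact ⟨a, ha, by rw [sub_zero]⟩

theorem PP'.eval_pow (h : PP' p F f) {g : Ω} (hg : g ∈ F) : ∃ G ∈ F, f.eval (g ^ p) = G ^ p := by
  choose H hH hc using h.2
  refine ⟨∑ i ∈ range (f.natDegree + 1), H i * g ^ i, sum_mem fun i _ =>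
    mul_mem (hH i) (pow_mem hg i), ?_⟩
  rw [eval_eq_sum_range, sum_pow_char]
  refine sum_congr rfl fun i _ => ?_
  rw [hc, mul_pow, ← pow_mul, ← pow_mul, mul_comm p i]

/-- The norm of the derivative with respect to `X₀`. -/
def NmX (p : ℕ) (v : RVal Ω) (F : IntermediateField k Ω) (X₀ : Ω) (lam : ℝ) : Prop :=
  ∀ H : Fin p → Ω, (∀ i, H i ∈ F) → ∀ t : ℝ, v.Ge t (∑ i, H i ^ p * X₀ ^ (i : ℕ)) →
    v.Ge (t - lam) (∑ i : Fin p, ((i : ℕ) : Ω) * H i ^ p * X₀ ^ ((i : ℕ) - 1))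

theorem NmX.norm (hn : NmX p v F X₀ lam) (h : PP' p F f) {t : ℝ} (ht : v.Ge t (f.eval X₀)) :
    v.Ge (t - lam) ((derivative f).eval X₀) := by
  choose H hH hc using h.2
  have h1 := hn (fun i => H i) (fun i => hH i) t
  have e1 : ∑ i : Fin p, H (i : ℕ) ^ p * X₀ ^ (i : ℕ) = f.eval X₀ := by
    rw [eval_eq_sum_range' h.1, ← Fin.sum_univ_eq_sum_range (fun i => f.coeff i * X₀ ^ i)]
    exact sum_congr rfl fun i _ => by rw [hc]
  have e2 : ∑ i : Fin p, ((i : ℕ) : Ω) * H (i : ℕ) ^ p * X₀ ^ ((i : ℕ) - 1) =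
      (derivative f).eval X₀ := by
    rw [derivative_eval, sum_over_range' _ (fun n => by simp) p h.1,
      ← Fin.sum_univ_eq_sum_range (fun i => f.coeff i * (i : Ω) * X₀ ^ (i - 1))]
    exact sum_congr rfl fun i _ => by
      rw [hc]
      ring
  rw [e1, e2] at h1
  exact h1 ht

/-- **The class of a critical element of `F ^ p [X₀]`.** -/
theorem oc_of_qx (hX : X₀ ∈ F) (hlp : LP p v F lam X₀)
    (hgp : ∀ a ∈ F, a ≠ 0 → ∃ h ∈ W, Gt v (v a) (a - h ^ p)) (hWF : W ≤ F)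
    (hn : NmX p v F X₀ lam) (hy : QX p F X₀ y) (hl : LP p v F c y) : OC p v W F X₀ c y := by
  obtain ⟨f, hf, rfl⟩ := hy.exists_pp
  have hp0 : (0 : ℝ) < p := by exact_mod_cast hp.out.pos
  -- the first derivative
  have h1 : v.Ge (c - lam) ((derivative f).eval X₀) := by
    intro h0
    refine le_of_forall_pos_le_add fun ε hε => ?_
    obtain ⟨g, hg, h2⟩ := hl ε hε
    have h3 : v.Ge (c - ε) ((f - C (g ^ p)).eval X₀) := by
      rw [eval_sub, eval_C]
      exact h2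
    have h4 := hn.norm (hf.sub_C hg) h3
    rw [derivative_sub, derivative_C, sub_zero] at h4
    have := h4 h0
    linarith
  have hdF : (derivative f).eval X₀ ∈ F := by
    refine eval_mem (fun i => ?_) hX
    obtain ⟨h, hh, h2⟩ := hf.deriv.2 i
    rw [h2]
    exact pow_mem hh p
  obtain ⟨h, hh, h2⟩ : ∃ h ∈ W, Gt v (c - lam) ((derivative f).eval X₀ - h ^ p) := by
    by_cases h0 : (derivative f).eval X₀ = 0
    · refine ⟨0, zero_mem W, ?_⟩
      rw [h0, zero_pow hp.out.ne_zero, sub_zero]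
      exact Gt.zero
    · obtain ⟨h, hh, h2⟩ := hgp _ hdF h0
      exact ⟨h, hh, h2.mono (h1 h0)⟩
  obtain ⟨μ, hμ, h3⟩ := TWLM.exists_ge_of_gt h2
  -- the higher derivatives
  have h4 : ∀ j : ℕ, PP' p F (derivative^[j] f) ∧
      v.Ge (c - (j + 2) * lam + μ) ((derivative^[j + 2] f).eval X₀) := by
    intro j
    induction j with
    | zero =>
      refine ⟨hf, ?_⟩
      have h5 := hn.norm (hf.deriv.sub_C (hWF hh)) (t := c - lam + μ) (by
        rw [eval_sub, eval_C]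
        exact h3)
      rw [derivative_sub, derivative_C, sub_zero] at h5
      refine h5.mono (le_of_eq ?_)
      push_cast
      ring
    | succ j ih =>
      have e1 : ∀ n : ℕ, derivative^[n + 1] f = derivative (derivative^[n] f) := fun n =>
        Function.iterate_succ_apply' _ _ _
      refine ⟨by rw [e1]; exact ih.1.deriv, ?_⟩
      have h5 : PP' p F (derivative^[j + 2] f) := by
        rw [e1, e1]
        exact ih.1.deriv.deriv
      have h6 := hn.norm h5 ih.2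
      rw [show j + 1 + 2 = j + 2 + 1 from rfl, e1]
      refine h6.mono (le_of_eq ?_)
      push_cast
      ring
  have h5 : ∀ j : ℕ, v.Ge (c - (j + 2 : ℕ) * lam + μ) ((hasseDeriv (j + 2) f).eval X₀) := by
    intro j
    rcases lt_or_ge (j + 2) p with hj | hj
    · have h6 := (h4 j).2
      have e1 : (derivative^[j + 2] f) = (j + 2).factorial • hasseDeriv (j + 2) f :=
        (congrFun (factorial_smul_hasseDeriv (R := Ω) (k := j + 2)) f).symm
      rw [e1, eval_smul, nsmul_eq_mul] at h6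
      have h7 : ¬ p ∣ (j + 2).factorial := fun h8 => by
        rw [hp.out.dvd_factorial] at h8
        omega
      have hn' := TWM.val_natCast (v := v) (Ω := Ω) p h7
      intro h0
      have h8 := h6 (mul_ne_zero hn'.1 h0)
      rw [v.map_mul hn'.1 h0, hn'.2, zero_add] at h8
      push_cast at h8 ⊢
      exact h8
    · rw [hasseDeriv_eq_zero_of_lt_natDegree f (j + 2) (lt_of_lt_of_le hf.1 hj), eval_zero]
      exact RVal.Ge.zero
  -- an approximation of `X₀`
  obtain ⟨ε, hε⟩ : ∃ ε : ℝ, ε = μ / (2 * (p + 2)) := ⟨_, rfl⟩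
  have hε0 : 0 < ε := hε ▸ by positivity
  have hε1 : (p + 2) * ε = μ / 2 := by
    rw [hε]
    field_simp
  obtain ⟨g, hg, h6⟩ := hlp ε hε0
  obtain ⟨G, hG, h7⟩ := hf.eval_pow hg
  refine ⟨h, hh, G - h * g, sub_mem hG (mul_mem (hWF hh) hg), ?_⟩
  have e : f.eval X₀ - h ^ p * X₀ - (G - h * g) ^ p =
      ((derivative f).eval X₀ - h ^ p) * (X₀ - g ^ p) -
        ∑ j ∈ range f.natDegree, (hasseDeriv (j + 2) f).eval X₀ * (g ^ p - X₀) ^ (j + 2) := by
    have e1 := TWN1.rt_taylor (Nat.le_succ f.natDegree) X₀ (g ^ p)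
    rw [Nat.succ_eq_add_one, sum_range_succ', sum_range_succ', hasseDeriv_zero', pow_zero, mul_one,
      zero_add, hasseDeriv_one', pow_one, h7] at e1
    rw [sub_pow_char, e1, mul_pow]
    ring
  rw [e]
  refine Gt.sub (Gt.of_ge (h3.mul h6) ?_) (Gt.sum _ _ fun j hj => ?_)
  · nlinarith
  · have hj1 := mem_range.1 hj
    have h8 : v.Ge (lam - ε) (g ^ p - X₀) := by
      have e1 : g ^ p - X₀ = -(X₀ - g ^ p) := by ring
      rw [e1]
      exact h6.neg
    refine Gt.of_ge ((h5 j).mul (ge_pow h8 (j + 2))) ?_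
    have h9 : ((j + 2 : ℕ) : ℝ) * ε ≤ μ / 2 := by
      rw [← hε1]
      refine mul_le_mul_of_nonneg_right ?_ hε0.le
      have : ((j : ℕ) : ℝ) < f.natDegree := by exact_mod_cast hj1
      have h10 : (f.natDegree : ℝ) < p := by exact_mod_cast hf.1
      push_cast
      linarith
    push_cast at h9 ⊢
    nlinarith

/-- **Critical elements with strict derivatives are in the class of `X₀`.** -/
theorem cls0 [IsAlgClosed Ω] {w₀ w₁ : Ω} {r₀ r₁ : ℝ} (hP : Par v W F w₀ r₀ w₁ r₁) (hX : X₀ ∈ W)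
    (hgen : ∀ f ∈ W, QX p W X₀ f) (hlp : LP p v W lam X₀)
    (hgp : ∀ a ∈ F, a ≠ 0 → ∃ h ∈ W, Gt v (v a) (a - h ^ p)) (hn : NmX p v F X₀ lam)
    (hl : LP p v F c y) (hd : StrD v W w₀ r₀ w₁ r₁ c y) : OC p v W F X₀ c y := by
  obtain ⟨y', hy', h1⟩ := hd.exists_qx hP hgen hl
  have h2 : PG p v F c (y - y') := PG.of_gt h1
  have h3 : LP p v F c y' := by
    have h4 := hl.sub (TWII.LP.of_pg h2)
    rwa [sub_sub_cancel] at h4
  obtain ⟨h, hh, h4⟩ := oc_of_qx (hP.le hX) (TWN1.LP.of_le' hP.le hlp) hgp hP.le hn hy' h3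
  refine ⟨h, hh, ?_⟩
  have h5 := h2.add h4
  have e : y - y' + (y' - h ^ p * X₀) = y - h ^ p * X₀ := by ring
  rwa [e] at h5

end Cls

end Pool.Agent.TWCY
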