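import Pool.Agent.Lib.TWCY.Core
import Pool.Agent.Lib.TWCY.Nat
import Pool.Agent.Lib.TWCY.V0

/-!
# CT, j = 1: row V0

* `Drv.nmX`: a derivation of norm `≤ 0` with `D x = 1` bounds the `x`-derivative of `F ^ p [x]`;
* `Drv.strD`: from the derivations `∂_i` to `StrD`;
* `imm_root`: `gr F ≤ gr W`, `gr W` perfect;
* `rowV0`: critical elements of `F` with strict derivatives are in the class `x`.
-/

set_option autoImplicit false
set_option linter.unusedSectionVars false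

open Finset

namespace Pool.Agent.TWCY

open Pool.Agent.H15JM (RVal)
open Pool.Agent.LU1 (VPos)
open Pool.Agent.D2 (Ctx0)
open Pool.Agent.TWM
open Pool.Agent.TWS (IsoE SphC)
open Pool.Agent.TWII (PG LP)
open Pool.Agent.TWN1 (PC Par)
open Pool.Agent.TWRR (GP OC)

universe u

variable {k Ω : Type u} [Field k] [Field Ω] [Algebra k Ω] {v : RVal Ω}
  {W F : IntermediateField k Ω} {p : ℕ} {D : Ω → Ω}

namespace Drv

theorem map_npow (h : Drv v F D) {f : Ω} (hf : f ∈ F) (n : ℕ) :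
    D (f ^ n) = n * f ^ (n - 1) * D f := by
  induction n with
  | zero =>
    have := h.alg 1
    rw [_root_.map_one] at this
    rw [pow_zero, this]
    simp
  | succ n ih =>
    rw [pow_succ, h.mul _ (pow_mem hf n) f hf, ih]
    rcases Nat.eq_zero_or_pos n with rfl | hn
    · simp
    · obtain ⟨m, rfl⟩ : ∃ m, n = m + 1 := ⟨n - 1, by omega⟩
      simp only [Nat.add_sub_cancel, pow_succ]
      push_cast
      ring

/-- The value of a polynomial with coefficients of derivative `0`. -/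
theorem map_poly (h : Drv v F D) {E : IntermediateField k Ω} (hE : E ≤ F)
    (h0 : ∀ a ∈ E, D a = 0) {w : Ω} (hw : w ∈ F) {f : Polynomial Ω} (hf : f ∈ PI E) :
    D (f.eval w) = (Polynomial.hasseDeriv 1 f).eval w * D w := by
  rw [Polynomial.hasseDeriv_one', Polynomial.derivative_eval,
    Polynomial.sum_over_range _ (fun n => by simp), Polynomial.eval_eq_sum_range, h.map_sum,
    sum_mul]
  · refine sum_congr rfl fun i _ => ?_
    rw [h.mul _ (hE (hf i)) _ (pow_mem hw i), h0 _ (hf i), mul_zero, add_zero, h.map_npow hw]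
    ring
  · exact fun i _ => mul_mem (hE (hf i)) (pow_mem hw i)

/-- A derivation which kills `E` and `w'` kills `E⟨w'⟩`. -/
theorem zero_cadj [IsAlgClosed Ω] (h : Drv v F D) {E : IntermediateField k Ω} (hE : E ≤ F)
    (h0 : ∀ a ∈ E, D a = 0) {w : Ω} {r : ℝ} (hw : TL v E w r) (hwF : cadj v E w ≤ F)
    (h1 : D w = 0) {a : Ω} (ha : a ∈ cadj v E w) : D a = 0 := by
  refine TWLM.eq_zero_of_ge (v := v) fun b => ?_
  obtain ⟨f, hf, h2⟩ := hw.dense ha b
  have h3 := h.norm _ (sub_mem (hwF ha) (hwF (TWLM.eval_mem_cadj hf))) b h2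
  rw [h.map_sub (hwF ha) (hwF (TWLM.eval_mem_cadj hf)),
    h.map_poly hE h0 (hwF (self_mem_cadj v E w)) hf, h1, mul_zero, sub_zero] at h3
  exact h3

/-- The `x`-derivative of `F ^ p [x]`. -/
theorem nmX [hp : Fact p.Prime] [CharP Ω p] (h : Drv v F D) {x : Ω} (hx : x ∈ F) (h1 : D x = 1) :
    NmX p v F x 0 := by
  intro H hH t ht
  have hm : ∀ i : Fin p, H i ^ p * x ^ (i : ℕ) ∈ F := fun i =>
    mul_mem (pow_mem (hH i) p) (pow_mem hx _)
  have h2 := h.norm _ (sum_mem fun i _ => hm i) t ht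
  rw [h.map_sum _ fun i _ => hm i] at h2
  rw [sub_zero]
  refine (congrArg _ (sum_congr rfl fun i _ => ?_)).mp h2
  rw [h.mul _ (pow_mem (hH i) p) _ (pow_mem hx _), h.map_pow_char (hH i), mul_zero, add_zero,
    h.map_npow hx, h1, mul_one]
  ring

/-- **The strict derivatives.** -/
theorem strD [IsAlgClosed Ω] {w : Fin 2 → Ω} {dd : Fin 2 → Ω → Ω} {r₀ r₁ : ℝ}
    (hP : Par v W F (w 0) r₀ (w 1) r₁) (hd : ∀ i, Drv v F (dd i)) (hW : ∀ i, ∀ f ∈ W, dd i f = 0)
    (hw : ∀ i j, dd i (w j) = if i = j then 1 else 0) {y : Ω} (hy : y ∈ F) {c : ℝ}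
    (h0 : Gt v (c - r₀) (dd 0 y)) (h1 : Gt v (c - r₁) (dd 1 y)) :
    StrD v W (w 0) r₀ (w 1) r₁ c y := by
  have hWF : W ≤ F := hP.le
  have e0 : cadj v W (w 0) ≤ F := by
    rw [hP.eq1]
    exact le_cadj v _ _
  have e1 : cadj v W (w 1) ≤ F := by
    rw [hP.eq2]
    exact le_cadj v _ _
  constructor
  · have hy' := hy
    rw [hP.eq2] at hy'
    obtain ⟨f, hf, h2⟩ := hP.t12.dense hy' (max (c + 1) (c - r₀ + 1))
    have hfF : f.eval (w 0) ∈ F := by
      rw [hP.eq2]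
      exact TWLM.eval_mem_cadj hf
    refine ⟨f, hf, Gt.of_ge h2 (lt_of_lt_of_le (by linarith) (le_max_left _ _)), ?_⟩
    have h3 := (hd 0).norm _ (sub_mem hy hfF) _ h2
    rw [(hd 0).map_sub hy hfF, (hd 0).map_poly e1 (fun a ha => (hd 0).zero_cadj hWF (hW 0) hP.t2 e1
      (by rw [hw, if_neg (by decide)]) ha) hP.mem1 hf, hw, if_pos rfl, mul_one] at h3
    have e : (Polynomial.hasseDeriv 1 f).eval (w 0) = dd 0 y -
        (dd 0 y - (Polynomial.hasseDeriv 1 f).eval (w 0)) := by ring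
    rw [e]
    exact h0.sub (Gt.of_ge h3 (lt_of_lt_of_le (by linarith) (le_max_right _ _)))
  · have hy' := hy
    rw [hP.eq1] at hy'
    obtain ⟨f, hf, h2⟩ := hP.t21.dense hy' (max (c + 1) (c - r₁ + 1))
    have hfF : f.eval (w 1) ∈ F := by
      rw [hP.eq1]
      exact TWLM.eval_mem_cadj hf
    refine ⟨f, hf, Gt.of_ge h2 (lt_of_lt_of_le (by linarith) (le_max_left _ _)), ?_⟩
    have h3 := (hd 1).norm _ (sub_mem hy hfF) _ h2
    rw [(hd 1).map_sub hy hfF, (hd 1).map_poly e0 (fun a ha => (hd 1).zero_cadj hWF (hW 1) hP.t1 e0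
      (by rw [hw, if_neg (by decide)]) ha) hP.mem2 hf, hw, if_pos rfl, mul_one] at h3
    have e : (Polynomial.hasseDeriv 1 f).eval (w 1) = dd 1 y -
        (dd 1 y - (Polynomial.hasseDeriv 1 f).eval (w 1)) := by ring
    rw [e]
    exact h1.sub (Gt.of_ge h3 (lt_of_lt_of_le (by linarith) (le_max_right _ _)))

end Drv

/-- `gr F = gr W`, `gr W` perfect. -/
theorem imm_root (hi : Imm v W F) (hgp : GP p v W) {a : Ω} (ha : a ∈ F) (h0 : a ≠ 0) :
    ∃ h ∈ W, Gt v (v a) (a - h ^ p) := by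
  obtain ⟨b, hb, h1⟩ := hi.imm a ha h0
  obtain ⟨hb0, hv⟩ := h1.val_eq h0
  obtain ⟨h, hh, h2⟩ := hgp b hb hb0
  refine ⟨h, hh, ?_⟩
  have e : a - h ^ p = (a - b) + (b - h ^ p) := by ring
  rw [e]
  rw [hv] at h2
  exact h1.add h2

theorem imm_of_par [IsAlgClosed Ω] {K : IntermediateField k Ω} {w₀ w₁ : Ω} {r₀ r₁ : ℝ} (hP : Par v W K w₀ r₀ w₁ r₁) :
    Imm v W K := by
  have h1 : Imm v W (cadj v W w₀) := hP.t1.imm
  have h2 : Imm v (cadj v W w₀) K := by
    rw [hP.eq1]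
    exact hP.t21.imm
  refine ⟨hP.le, fun b hb hb0 => ?_⟩
  obtain ⟨a, ha, h3⟩ := h2.imm b hb hb0
  obtain ⟨ha0, hv⟩ := h3.val_eq hb0
  obtain ⟨a', ha', h4⟩ := h1.imm a ha ha0
  refine ⟨a', ha', ?_⟩
  have e : b - a' = (b - a) + (a - a') := by ring
  rw [e]
  rw [hv] at h4
  exact h3.add h4

/-- The value of `D` at a critical element. -/
theorem Drv.ge_of_lp [hp : Fact p.Prime] [CharP Ω p] (hD : Drv v F D) {y : Ω} (hy : y ∈ F) {c : ℝ}
    (hl : LP p v F c y) : v.Ge c (D y) := by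
  intro h0
  refine le_of_forall_pos_le_add fun ε hε => ?_
  obtain ⟨g, hg, h1⟩ := hl ε hε
  have h2 := hD.norm _ (sub_mem hy (pow_mem hg p)) _ h1
  rw [hD.map_sub hy (pow_mem hg p), hD.map_pow_char hg, sub_zero] at h2
  have := h2 h0
  linarith

/-- **Row V0.** -/
theorem rowV0 [hp : Fact p.Prime] [CharP Ω p] [IsAlgClosed Ω] : RowV0 (k := k) (Ω := Ω) p v := by
  intro L W F K w x z a D T dd hH hB hT hD y hy hl hs
  have hWF : W ≤ F := hH.par.le
  have hxF : x ∈ F := hWF hH.xW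
  have hlx : LP p v F 0 x := TWN1.LP.of_le' hWF hB.lp
  obtain ⟨h, hh, h1⟩ : OC p v W F x 0 y := by
    refine cls0 hH.par hH.xW hB.gen hB.lp (fun b hb hb0 => imm_root (imm_of_par hH.par) hH.gp hb hb0)
      (hD.drv.nmX hxF hB.Dx) hl (Drv.strD hH.par hD.drvi hD.ddW hD.ddw hy ?_ ?_)
    · rw [sub_zero]
      exact hs 0
    · rw [sub_zero]
      exact hs 1
  have hhF : h ∈ F := hWF hh
  -- `h` is integral
  have h2 : LP p v F 0 (h ^ p * x) := by
    have h3 := hl.sub (TWII.LP.of_pg h1)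
    rwa [sub_sub_cancel] at h3
  have h3 : v.Ge 0 (h ^ p) := by
    have h4 := hD.drv.ge_of_lp (mul_mem (pow_mem hhF p) hxF) h2
    rwa [hD.drv.mul _ (pow_mem hhF p) _ hxF, hD.drv.map_pow_char hhF, mul_zero, add_zero, hB.Dx,
      mul_one] at h4
  have h4 : v.Ge 0 h := by
    intro h0
    have h5 := h3 (pow_ne_zero p h0)
    rw [v.map_pow h0] at h5
    have hp0 : (0 : ℝ) < p := by exact_mod_cast hp.out.pos
    exact nonneg_of_mul_nonneg_right h5 hp0
  obtain ⟨c, hc⟩ := hH.c0.residue h4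
  refine ⟨c ^ p, ?_⟩
  obtain ⟨δ, hδ, h5⟩ := TWLM.exists_ge_of_gt hc
  rw [zero_add] at h5
  have h6 : PG p v F 0 ((1 * (h - algebraMap k Ω c)) ^ p * x) :=
    TWRR.lp_small hδ (sub_mem hhF (F.algebraMap_mem c)) h5 (by rw [one_pow, one_mul]; exact hlx)
  have e : y - algebraMap k Ω (c ^ p) * x = (y - h ^ p * x) + (1 * (h - algebraMap k Ω c)) ^ p * x := by
    rw [one_mul, sub_pow_char, map_pow]
    ring
  rw [e]
  exact h1.add h6

end Pool.Agent.TWCY
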