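import Pool.Agent.Lib.TWCY.RowNF
import Pool.Agent.Lib.TWCY.V0R
import Pool.Agent.Lib.TWM0.H

/-!
# CT, j = 1, abelian case: the normal form, without hypotheses

* `rowM0`: the relation of `a` (`m = 0`);
* `rowNF_all`: the normal form, the shape and the tie.
-/

set_option autoImplicit false

namespace Pool.Agent.TWCY

open Pool.Agent.H15JM (RVal)

universe u

variable {k Ω : Type u} [Field k] [Field Ω] [Algebra k Ω] {p : ℕ} {v : RVal Ω}

/-- **The relation of `a`.** -/
theorem rowM0 [Fact p.Prime] [CharP Ω p] [IsAlgClosed k] [IsAlgClosed Ω] :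
    RowM0 (k := k) p v := by
  intro L W F K w x z a D T dd h hB hT hD
  obtain ⟨e, κ, t, a₀, h1, h2, h3⟩ := TWM0.rel0 h hB hT hD
    (rowV0 L W F K w x z a D T dd h hB hT hD)
  exact ⟨e, κ, t, a₀, h2, h1, h3⟩

/-- **The normal form, the shape and the tie.** -/
theorem rowNF_all [Infinite k] [Fact p.Prime] [CharP k p] [CharP Ω p] [IsAlgClosed k]
    [IsAlgClosed Ω] : RowNF (k := k) p v := rowNF rowM0

end Pool.Agent.TWCY
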