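import Pool.Agent.Lib.TWCY.One3

/-!
# Row One: the output for one motion

`rowOne : RowRel → RowZb → RowSm → RowTie → RowOne`.
-/

set_option autoImplicit false

open MvPolynomial

namespace Pool.Agent.TWCY

open Pool.Agent.H15JM (RVal)
open Pool.Agent.LU1 (VPos)
open Pool.Agent.D2 (Ctx0)
open Pool.Agent.TWM
open Pool.Agent.TWS (IsoE SphC)
open Pool.Agent.TWLY
open TWIV.JW (BB sh cz)

universe u

variable {k Ω : Type u} [Field k] [Field Ω] [Algebra k Ω] {v : RVal Ω}
  {W F K : IntermediateField k Ω} {w : Fin 2 → Ω} {x z a : Ω} {R : Rec k Ω}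
  {L : ℕ → IntermediateField k Ω} {p : ℕ}

section nf

theorem NF.pdv_N (h : NF p v W F K w x z a R) (he : R.e ≠ 0) (j : Fin R.m) : PDv p (R.N j) :=
  fun g i hg => h.Np he g (fun hd => hg (hd i)) j

theorem NF.pdv_f (h : NF p v W F K w x z a R) (he : R.e ≠ 0) : PDv p R.f :=
  fun g i hg => h.fp he g fun hd => hg (hd i)

end nf

theorem vpos_zero : VPos v (0 : Ω) := fun h => absurd rfl h

/-- **Row One.** -/
theorem rowOne [hp : Fact p.Prime] [CharP Ω p] [CharP k p] [IsAlgClosed k]
    (hrel : RowRel (k := k) p v) (hzb : RowZb (k := k) p v) (hsm : RowSm (k := k) p v)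
    (htie : RowTie (k := k) p v) : RowOne (k := k) p v := by
  classical
  intro L W F K w x z a R h
  have hk := h.c0
  obtain ⟨lam, q, φ, hc⟩ := h.exists_cohR
  -- the exponents
  set E : Finset Ex := R.f.support ∪ Finset.univ.biUnion fun j => (R.N j).support with hE
  obtain ⟨H, hEH, hsml⟩ := exists_sml (w := w) (T := R.T) (b := R.b) hc.rφ hc.q1 E
  obtain ⟨Λ, π, hΛ, hπ⟩ := exists_dual (fun h : H => mn (k := k) h)
    (fun (j : Fin R.m) (c : Fin 2 → k) => φ c j)
  obtain ⟨S₁, hS₁⟩ := exists_interp (fun h : H => mn (k := k) h)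
  set S : Finset (Fin 2 → k) := S₁ ∪ Λ.biUnion Finsupp.support with hS
  obtain ⟨η, hη, hs⟩ := hsml S
  obtain ⟨ε₁, hε₁, hsmall⟩ := exists_small' hk R.N R.f hη
  obtain ⟨η₂, hη₂, hWN⟩ := h.exists_gt_WN
  obtain ⟨J₁, hJ₁⟩ := hrel L W F K w x z a R h
  obtain ⟨J₂, hJ₂⟩ := hsm L W F K w x z a R h.toCD (min ε₁ η₂) (lt_min hε₁ hη₂)
  obtain ⟨J₃, hJ₃⟩ := htie L W F K w x z a R h.toCD
  refine ⟨max J₁ (max J₂ J₃), fun J hJ Φ η' X Za Dl hMot hZ hDl hf₀ => ?_⟩
  obtain ⟨f₀, hf₀, hf0, hfv⟩ := hf₀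
  have hJ1 : J₁ ≤ J := (le_max_left _ _).trans hJ
  have hJ2 : J₂ ≤ J := ((le_max_left _ _).trans (le_max_right _ _)).trans hJ
  have hJ3 : J₃ ≤ J := ((le_max_right _ _).trans (le_max_right _ _)).trans hJ
  have hRel := hJ₁ J hJ1 Φ η' X Za Dl hMot hZ hDl
  have hXs := (hJ₂ J hJ2 Φ η' X Za hMot hZ).1
  obtain ⟨h', hh', htie'⟩ := hJ₃ J hJ3 Φ η' X Za hMot hZ
  obtain ⟨B, hBF, hBs, hB⟩ := hzb L W F K w x z a R h.toCD (L J) Φ η' X Za hMot hZ
  have hXW := hMot.XW
  have hXF : ∀ i, X i ∈ F := fun i => h.trn.le (hXW i)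
  have hBH : B.support ⊆ H := by
    intro g hg
    refine hEH ?_
    rw [hE, Finset.mem_union, Finset.mem_biUnion]
    rcases hBs g (mem_support_iff.1 hg) with h1 | ⟨j, h1⟩
    · exact Or.inl (mem_support_iff.2 h1)
    · exact Or.inr ⟨j, Finset.mem_univ j, mem_support_iff.2 h1⟩
  obtain ⟨hN1, hm1⟩ := hsmall X fun i => (hXs i).mono (neg_le_neg (min_le_left _ _))
  -- (E1)
  have hE1 := hWN X Za h' hXW (fun i => (hXs i).mono (neg_le_neg (min_le_right _ _))) hZ.mem
    hh' htie'
  have hge : ∀ g : MvPolynomial (Fin 2) k, ¬ v.Ge 0 (R.Zp X Za - aeval X g) := by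
    intro g hg
    have := hE1 g 0 le_rfl hg f₀ hf₀ hf0
    linarith
  have hne : ∀ g : MvPolynomial (Fin 2) k, R.Zp X Za - aeval X g ≠ 0 := fun g h0 =>
    hge g (by rw [h0]; exact RVal.Ge.zero)
  have hpos : ∀ g : MvPolynomial (Fin 2) k, v (R.Zp X Za - aeval X g) < 0 := by
    intro g
    by_contra h0
    push Not at h0
    exact hge g fun _ => h0
  have hDlW : ∀ f, Dl f ∈ W := fun f => by
    rw [hDl]
    exact h.base.dW _ (TWCT.aeval_mem hXW f)
  obtain ⟨M, hM0, hM1, hM2⟩ := exists_M (p := p) (κ := R.κ) (t := R.t) (T := R.T) hk h.trn.iso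
    h.trn.fix h.full h.kap hXW hDlW (fun g _ => hpos g) hRel S
  -- the brackets
  have hbr0 : ∀ c ∈ S, ∀ l, v.Ge (-M) (br R.N R.b X c l) := fun c hcS l =>
    (br_gt hk h.trn h.shp hs hXW hZ.mem hN1 hcS (by linarith : -M ≤ 0) (hM1 c hcS) l).ge
  have hI : ∀ c, ∃ a : (Fin 2 → k) →₀ k, a.support ⊆ S ∧ Evl a H c := by
    intro c
    obtain ⟨a, ha, ha'⟩ := hS₁ c
    exact ⟨a, ha.trans Finset.subset_union_left, fun h hh => ha' ⟨h, hh⟩⟩
  have hbr : ∀ c l, v.Ge (-M) (br R.N R.b X c l) := br_ge hk hs.H0 hs.HM hI hbr0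
  -- the small space
  have hVtr : ∀ c, ∀ P ∈ Wq hk R.N X M, TWLY.tr c P - C (eval c P) ∈ Wq hk R.N X M :=
    fun c P hP => Wq_tr hk h.trn h.shp hbr c hP
  have hVm : ∀ a ∈ (Λ : Set ((Fin 2 → k) →₀ k)),
      ∑ j, C (prv (fun (j : Fin R.m) (c : Fin 2 → k) => φ c j) a j) * R.N j ∈
        Wq hk R.N X M := by
    intro a ha
    refine ⟨sum_mem fun j _ => ?_, ?_⟩
    · rw [← smul_eq_C_mul]
      exact Submodule.smul_mem _ _ (Submodule.subset_span ⟨j, rfl⟩)
    · have hKil : Kil a H := fun h hh => hΛ a ha ⟨h, hh⟩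
      have haS : a.support ⊆ S :=
        (Finset.subset_biUnion_of_mem Finsupp.support ha).trans Finset.subset_union_right
      have h1 := fun_ge hk h.trn hs hc.qW hXW hN1 hm1 hBH hB hKil haS
      have h2 : v.Ge (-M) (AA' a fun c => R.T c (Za - eval X (uu R.n R.N R.f)) -
          (Za - eval X (uu R.n R.N R.f))) := AA'_ge hk a fun c hc => hM1 c (haS hc)
      have h3 := (h1.mono (by linarith : -M ≤ 0)).sub h2
      rw [add_sub_cancel_left] at h3
      convert h3 using 1
      rw [map_sum]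
      refine Finset.sum_congr rfl fun j _ => ?_
      rw [map_mul, ← algebraMap_eq, AlgHom.commutes]
      rfl
  have hWNfg : R.WN.FG := Submodule.fg_span ((Set.finite_range _).union (Set.finite_range _))
  have hNW : Submodule.span k (Set.range R.N) ≤ R.WN :=
    Submodule.span_mono Set.subset_union_left
  have hN0 : ∀ P ∈ R.WN, constantCoeff P = 0 := fun P hP =>
    Coh.zero hk h.shp h.tie h.toCD.DDi hc hP
  have hDx : Rs v (R.D x) (1 : k) := by
    rw [h.base.Dx]
    exact Rs.one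
  have hE0 := h.toNF
  refine ⟨R.WN ⊔ Pw p R.t (Wq hk R.N X M), lamp lam R.N H π, ?_⟩
  exact
    { kap := h.kap
      le1 := le_sup_left
      fg := hWNfg.sup (Pw_fg (Wq_fg hk))
      zero := by
        intro N hN
        obtain ⟨y, hy, y', hy', rfl⟩ := Submodule.mem_sup.1 hN
        have h1 : constantCoeff y' = 0 :=
          Pw_zero (V := Wq hk R.N X M) (fun P hP => hN0 P (hNW hP.1)) hy'
        rw [map_add, hN0 y hy, h1, add_zero]
      tr := by
        intro c N hN
        obtain ⟨y, hy, y', hy', rfl⟩ := Submodule.mem_sup.1 hN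
        have : TWLY.tr c (y + y') - C (eval c (y + y')) =
            (TWLY.tr c y - C (eval c y)) + (TWLY.tr c y' - C (eval c y')) := by
          rw [map_add, map_add, C_add]
          ring
        rw [this]
        exact Submodule.add_mem_sup
          (hc.tr hk h.trn h.shp h.tie h.toCD.DDi c hy) (Pw_tr hVtr c hy')
      ne := fun g _ => hne g
      pos := fun g _ => hpos g
      sm := by
        intro g hg N hN
        obtain ⟨y, hy, y', hy', rfl⟩ := Submodule.mem_sup.1 hN
        rw [map_add]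
        exact (hE1 g _ (hpos g).le (fun _ => le_rfl) y hy).add
          (Pw_sm (V := Wq hk R.N X M) hk hM0 (fun P hP => hP.2) (hM2 g hg) hy')
      rel := hRel
      leib := by
        intro f g
        rw [hDl, hDl, hDl, map_mul]
        exact h.base.drv.mul _ (TWCT.aeval_mem hXW f) _ (TWCT.aeval_mem hXW g)
      norm := by
        intro f r hr
        rw [hDl]
        exact h.base.drv.norm _ (TWCT.aeval_mem hXW f) r hr
      G0 := h.shp.G0 hk h.drt.drv h.tie.A0 hc.rG
      Gp := (pdv_G hk h.drt.drv (fun he => ⟨fun j => hE0.pdv_N he j, hE0.pdv_f he⟩)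
        (fun g i hg => by
          rw [hE0.D_shA h.drt.drv hg]
          exact vpos_zero) hc.rG).exists_pow
      om := by
        intro c
        have h1 := hc.om hk h.trn h.shp h.tie h.toCD.DD h.toCD.DDi hDx c
        have h2 := PP_mem_Pw (p := p) (t := R.t) (κ := R.κ) (mem_of_prv hVm (hπ c))
        have e : evc c (lamp lam R.N H π) = (evc c lam + ∑ l, C (φ c l) * R.N l) -
            ∑ j, C (φ c j - ∑ h : H, π j h * mn h c) * R.N j := by
          rw [evc_lamp, add_sub_assoc, ← Finset.sum_sub_distrib]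
          congr 1
          refine Finset.sum_congr rfl fun j _ => ?_
          rw [C_sub]
          ring
        rw [e, PP_sub, ← add_sub_assoc]
        rw [sub_eq_add_neg _ (PP p R.κ R.t (∑ j, C (φ c j - ∑ h : H, π j h * mn h c) * R.N j))]
        exact Submodule.add_mem_sup h1 (neg_mem h2)
      lin := hE0.adt
      cas := by
        by_cases he : R.e = 0
        · exact Or.inl he
        · refine Or.inr ⟨hE0.cas.resolve_left he, fun i => ?_, fun c i => ?_⟩
          · have h1 := h.shp.S1 hk hp h.trn h.toCD.DDi (hE0.pdv_f he) he (fun i g => by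
              rw [hE0.dd_shA h.trn h.toCD.DDi he i g]
              exact vpos_zero) hc.rGi hc.qW hc.q1 hc.rlamg i
            have h2 := hNW (coeff_lamp (lam := lam) (N := R.N) (π := π) (Finsupp.single i 1))
            have h3 := add_mem h2 h1
            rw [sub_add_cancel] at h3
            exact Submodule.mem_sup_left h3
          · rw [evc_lamp, coeff_add,
              Shp.S2 hk hp (fun j => hE0.pdv_N he j) (hE0.pdv_f he) hc.rlam c i, zero_add,
              coeff_sum]
            refine Finset.sum_eq_zero fun j _ => ?_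
            rw [coeff_C_mul, hE0.pdv_N he j _ i (not_dvd_single i), mul_zero] }

end Pool.Agent.TWCY
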