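import Pool.Agent.Lib.TWCY.Dat

/-!
# Residues and polynomials in two variables

* API of `Rs`;
* `ge_coeff`: a polynomial of value `≥ r` at all points of `k²` has coefficients of value `≥ r`;
* `exists_rs`: the residue polynomial.
-/

set_option autoImplicit false

open MvPolynomial

namespace Pool.Agent.TWCY

open Pool.Agent.H15JM (RVal)
open Pool.Agent.LU1 (VPos)
open Pool.Agent.D2 (Ctx0)
open Pool.Agent.TWM
open Pool.Agent.TWS (IsoE SphC)
open Pool.Agent.TWLY

universe u

variable {k Ω : Type u} [Field k] [Field Ω] [Algebra k Ω] {v : RVal Ω}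

section rs

theorem Rs.add {x y : Ω} {a b : k} (hx : Rs v x a) (hy : Rs v y b) : Rs v (x + y) (a + b) := by
  unfold Rs at *
  have := hx.add hy
  rw [map_add]
  convert this using 1
  ring

theorem Rs.neg {x : Ω} {a : k} (hx : Rs v x a) : Rs v (-x) (-a) := by
  unfold Rs at *
  have := hx.neg
  rw [map_neg]
  convert this using 1
  ring

theorem Rs.sub {x y : Ω} {a b : k} (hx : Rs v x a) (hy : Rs v y b) : Rs v (x - y) (a - b) := by
  rw [sub_eq_add_neg, sub_eq_add_neg]
  exact hx.add hy.neg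

theorem Rs.const (c : k) : Rs v (algebraMap k Ω c) c := by
  unfold Rs
  rw [sub_self]
  exact VPos.zero

theorem Rs.zero : Rs v (0 : Ω) (0 : k) := by
  have := Rs.const (v := v) (0 : k)
  rwa [map_zero] at this

theorem Rs.one : Rs v (1 : Ω) (1 : k) := by
  have := Rs.const (v := v) (1 : k)
  rwa [map_one] at this

theorem rs_zero_iff {x : Ω} : Rs v x (0 : k) ↔ VPos v x := by
  unfold Rs
  rw [map_zero, sub_zero]

theorem Rs.ge (hk : Ctx0 k v) {x : Ω} {a : k} (hx : Rs v x a) : v.Ge 0 x := by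
  have h1 : v.Ge 0 (x - algebraMap k Ω a) := VPos.ge hx
  have := h1.add (hk.ge a)
  rwa [sub_add_cancel] at this

theorem Rs.mul (hk : Ctx0 k v) {x y : Ω} {a b : k} (hx : Rs v x a) (hy : Rs v y b) :
    Rs v (x * y) (a * b) := by
  have h1 : VPos v ((x - algebraMap k Ω a) * y) := VPos.mul hx (hy.ge hk)
  have h2 : VPos v (algebraMap k Ω a * (y - algebraMap k Ω b)) := VPos.mul' (hk.ge a) hy
  have := h1.add h2
  unfold Rs
  rw [map_mul]
  convert this using 1
  ring

theorem Rs.pow (hk : Ctx0 k v) {x : Ω} {a : k} (hx : Rs v x a) (n : ℕ) :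
    Rs v (x ^ n) (a ^ n) := by
  induction n with
  | zero => rw [pow_zero, pow_zero]; exact Rs.one
  | succ n ih => rw [pow_succ, pow_succ]; exact ih.mul hk hx

theorem Rs.unique (hk : Ctx0 k v) {x : Ω} {a b : k} (hx : Rs v x a) (hy : Rs v x b) : a = b := by
  have h := hx.sub hy
  rw [sub_self] at h
  unfold Rs at h
  rw [zero_sub] at h
  have := hk.const_eq_zero (c := a - b) (by
    have := h.neg
    rwa [neg_neg] at this)
  exact sub_eq_zero.1 this

theorem Rs.sum {ι : Type*} (S : Finset ι) {x : ι → Ω} {a : ι → k} (h : ∀ i ∈ S, Rs v (x i) (a i)) :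
    Rs v (∑ i ∈ S, x i) (∑ i ∈ S, a i) := by
  classical
  induction S using Finset.induction_on with
  | empty => rw [Finset.sum_empty, Finset.sum_empty]; exact Rs.zero
  | insert i S hi ih =>
    rw [Finset.sum_insert hi, Finset.sum_insert hi]
    exact (h i (Finset.mem_insert_self i S)).add
      (ih fun j hj => h j (Finset.mem_insert_of_mem hj))

theorem Rs.congr {x y : Ω} {a : k} (hx : Rs v x a) (hy : VPos v (y - x)) : Rs v y a := by
  have := hx.add (rs_zero_iff.2 hy)
  rwa [add_zero, add_sub_cancel] at this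

theorem exists_rs0 (hk : Ctx0 k v) {x : Ω} (hx : v.Ge 0 x) : ∃ a : k, Rs v x a := hk.residue hx

theorem Rs.smul (hk : Ctx0 k v) {x : Ω} {a : k} (hx : Rs v x a) (c : k) :
    Rs v (algebraMap k Ω c * x) (c * a) := (Rs.const c).mul hk hx

theorem Rs.map {T : Ω →ₐ[k] Ω} (hT : IsoE v v T) {x : Ω} {a : k} (hx : Rs v x a) :
    Rs v (T x) a := by
  unfold Rs at *
  intro h0
  have h1 : T x - algebraMap k Ω a = T (x - algebraMap k Ω a) := by
    rw [map_sub, AlgHom.commutes]
  rw [h1] at h0 ⊢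
  have h2 : x - algebraMap k Ω a ≠ 0 := fun h => h0 (by rw [h, map_zero])
  rw [hT.val _ h2]
  exact hx h2

theorem Rs.PP (hk : Ctx0 k v) {p : ℕ} {κ : ℕ → k} {t : ℕ} {x : Ω} {a : k} (hx : Rs v x a) :
    Rs v (TWLY.PP p κ t x) (TWLY.PP p κ t a) := by
  unfold TWLY.PP
  refine Rs.sum _ fun i _ => ?_
  exact (hx.pow hk _).smul hk (κ i)

theorem VPos.ge_iff {x : Ω} (hx : VPos v x) : ∃ r : ℝ, 0 < r ∧ v.Ge r x := by
  by_cases h : x = 0
  · exact ⟨1, one_pos, by rw [h]; exact RVal.Ge.zero⟩
  · exact ⟨v x, hx h, fun _ => le_rfl⟩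

theorem vpos_of_ge {x : Ω} {r : ℝ} (hr : 0 < r) (hx : v.Ge r x) : VPos v x :=
  fun h => hr.trans_le (hx h)

end rs

section poly

theorem eval_mem' {K : Type*} [Field K] {σ : Type*} {S : Type*} [SetLike S K] [SubringClass S K]
    {F : S} {f : MvPolynomial σ K} (hf : ∀ g, coeff g f ∈ F) {x : σ → K}
    (hx : ∀ i, x i ∈ F) : eval x f ∈ F := by
  rw [eval_eq]
  exact sum_mem fun m _ => mul_mem (hf m) (prod_mem fun i _ => pow_mem (hx i) _)

theorem pt_mem (F : IntermediateField k Ω) (c : Fin 2 → k) (i : Fin 2) : pt (Ω := Ω) c i ∈ F :=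
  F.algebraMap_mem _

theorem eval_pt_mem {F : IntermediateField k Ω} {f : MvPolynomial (Fin 2) Ω}
    (hf : ∀ g, coeff g f ∈ F) (c : Fin 2 → k) : eval (pt c) f ∈ F :=
  eval_mem' hf (pt_mem F c)

theorem pt_add (c s : Fin 2 → k) : pt (Ω := Ω) (c + s) = pt c + pt s := by
  funext i
  simp [pt]

theorem eval_pt_map (c : Fin 2 → k) (N : MvPolynomial (Fin 2) k) :
    eval (pt (Ω := Ω) c) (MvPolynomial.map (algebraMap k Ω) N) = algebraMap k Ω (eval c N) := by
  have : pt (Ω := Ω) c = fun i => algebraMap k Ω (c i) := rfl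
  rw [this, eval_map]
  exact (eval₂_comp (algebraMap k Ω) c N).symm

theorem ge_eval (hk : Ctx0 k v) {r : ℝ} {f : MvPolynomial (Fin 2) Ω}
    (hf : ∀ g, v.Ge r (coeff g f)) (c : Fin 2 → k) : v.Ge r (eval (pt c) f) := by
  rw [eval_eq]
  refine RVal.Ge.sum _ _ fun m _ => ?_
  have h1 : v.Ge 0 (∏ i ∈ m.support, pt (Ω := Ω) c i ^ m i) := by
    have : (∏ i ∈ m.support, pt (Ω := Ω) c i ^ m i) =
        algebraMap k Ω (∏ i ∈ m.support, c i ^ m i) := by
      rw [map_prod]
      refine Finset.prod_congr rfl fun i _ => ?_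
      rw [map_pow]
      rfl
    rw [this]
    exact hk.ge _
  have := (hf m).mul h1
  rwa [add_zero] at this

theorem rs_eval (hk : Ctx0 k v) {f : MvPolynomial (Fin 2) Ω} {G : MvPolynomial (Fin 2) k}
    (hf : ∀ g, Rs v (coeff g f) (coeff g G)) (c : Fin 2 → k) :
    Rs v (eval (pt c) f) (eval c G) := by
  have h : eval (pt c) f - algebraMap k Ω (eval c G) =
      eval (pt c) (f - MvPolynomial.map (algebraMap k Ω) G) := by
    rw [map_sub, eval_pt_map]
  unfold Rs
  rw [h, eval_eq]
  classical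
  generalize (f - MvPolynomial.map (algebraMap k Ω) G).support = S
  induction S using Finset.induction_on with
  | empty => rw [Finset.sum_empty]; exact VPos.zero
  | insert m S hm ih =>
    rw [Finset.sum_insert hm]
    refine VPos.add (VPos.mul ?_ ?_) ih
    · rw [coeff_sub, coeff_map]
      exact hf m
    · have : (∏ i : Fin 2, pt (Ω := Ω) c i ^ m i) = algebraMap k Ω (∏ i : Fin 2, c i ^ m i) := by
        rw [map_prod]
        refine Finset.prod_congr rfl fun i _ => ?_
        rw [map_pow]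
        rfl
      have h2 : (∏ i ∈ m.support, pt (Ω := Ω) c i ^ m i) =
          algebraMap k Ω (∏ i ∈ m.support, c i ^ m i) := by
        rw [map_prod]
        refine Finset.prod_congr rfl fun i _ => ?_
        rw [map_pow]
        rfl
      rw [h2]
      exact hk.ge _

/-- The residue polynomial. -/
theorem exists_rs (hk : Ctx0 k v) {f : MvPolynomial (Fin 2) Ω} (hf : ∀ g, v.Ge 0 (coeff g f)) :
    ∃ G : MvPolynomial (Fin 2) k, ∀ g, Rs v (coeff g f) (coeff g G) := by
  classical
  choose a ha using fun g => exists_rs0 hk (hf g)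
  refine ⟨∑ g ∈ f.support, monomial g (a g), fun g => ?_⟩
  have : coeff g (∑ g ∈ f.support, monomial g (a g)) = a g := by
    rw [coeff_sum]
    by_cases hg : g ∈ f.support
    · rw [Finset.sum_eq_single_of_mem g hg, coeff_monomial, if_pos rfl]
      intro b _ hb
      rw [coeff_monomial, if_neg hb]
    · rw [Finset.sum_eq_zero]
      · have h0 : coeff g f = 0 := notMem_support_iff.1 hg
        have h1 := ha g
        rw [h0] at h1
        exact Rs.unique hk Rs.zero h1
      · intro b hb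
        rw [coeff_monomial, if_neg]
        rintro rfl
        exact hg hb
  rw [this]
  exact ha g

/-- **Values and coefficients.** -/
theorem ge_coeff [Infinite k] (hk : Ctx0 k v) {r : ℝ} {f : MvPolynomial (Fin 2) Ω}
    (hf : ∀ c : Fin 2 → k, v.Ge r (eval (pt c) f)) (g : Ex) : v.Ge r (coeff g f) := by
  classical
  by_contra hcon
  have hg0 : coeff g f ≠ 0 ∧ v (coeff g f) < r := by
    unfold RVal.Ge at hcon
    push Not at hcon
    exact hcon
  have hne : f.support.Nonempty := ⟨g, mem_support_iff.2 hg0.1⟩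
  obtain ⟨m, hm, hmin⟩ := f.support.exists_min_image (fun g => v (coeff g f)) hne
  have hm0 : coeff m f ≠ 0 := mem_support_iff.1 hm
  have hmr : v (coeff m f) < r := (hmin g (mem_support_iff.2 hg0.1)).trans_lt hg0.2
  set t := coeff m f with ht
  set f' : MvPolynomial (Fin 2) Ω := C t⁻¹ * f with hf'
  have hc : ∀ g, coeff g f' = t⁻¹ * coeff g f := fun g => by rw [hf', coeff_C_mul]
  have h1 : ∀ g, v.Ge 0 (coeff g f') := by
    intro g h0
    rw [hc] at h0 ⊢
    have hg1 : coeff g f ≠ 0 := right_ne_zero_of_mul h0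
    rw [v.map_mul (inv_ne_zero hm0) hg1, v.map_inv hm0]
    have := hmin g (mem_support_iff.2 hg1)
    linarith
  obtain ⟨G, hG⟩ := exists_rs hk h1
  have hG0 : G ≠ 0 := by
    rintro rfl
    have h2 := hG m
    rw [hc, ← ht, inv_mul_cancel₀ hm0, coeff_zero] at h2
    have := Rs.unique hk h2 Rs.one
    exact zero_ne_one this
  obtain ⟨c, hcG⟩ : ∃ c : Fin 2 → k, eval c G ≠ 0 := by
    by_contra hall
    push Not at hall
    exact hG0 (MvPolynomial.funext fun x => by rw [hall x, map_zero])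
  have h3 := rs_eval hk hG c
  have h4 : eval (pt c) f' = t⁻¹ * eval (pt c) f := by rw [hf', map_mul, eval_C]
  have h5 : eval (pt (Ω := Ω) c) f' ≠ 0 := by
    intro h0
    rw [h0] at h3
    exact hcG (Rs.unique hk h3 Rs.zero)
  have h6 : v (eval (pt (Ω := Ω) c) f') ≤ 0 := by
    by_contra h7
    push Not at h7
    have h8 : Rs v (eval (pt (Ω := Ω) c) f') (0 : k) := rs_zero_iff.2 fun _ => h7
    exact hcG (Rs.unique hk h3 h8)
  rw [h4] at h5 h6
  have h7 : eval (pt (Ω := Ω) c) f ≠ 0 := right_ne_zero_of_mul h5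
  rw [v.map_mul (inv_ne_zero hm0) h7, v.map_inv hm0] at h6
  have h8 := hf c h7
  linarith

end poly

end Pool.Agent.TWCY
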