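import Pool.Agent.Lib.TWCY.Lam2

/-!
# (S1), (S2), `G = h ^ p`
-/

set_option autoImplicit false

open MvPolynomial

namespace Pool.Agent.TWCY

open Pool.Agent.H15JM (RVal)
open Pool.Agent.LU1 (VPos)
open Pool.Agent.D2 (Ctx0)
open Pool.Agent.TWM
open Pool.Agent.TWS (IsoE SphC)
open Pool.Agent.TWLY
open TWIV.JW (BB sh cz)

universe u

/-- All exponents are divisible by `p`. -/
def PDv {K : Type*} [CommSemiring K] (p : ℕ) (f : MvPolynomial (Fin 2) K) : Prop :=
  ∀ (g : Ex) (i : Fin 2), ¬ p ∣ g i → coeff g f = 0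

theorem bn_single (g : Ex) (i : Fin 2) : bn g (Finsupp.single i 1) = g i + 1 := by
  unfold bn
  rw [Finsupp.single_apply, Finsupp.single_apply]
  fin_cases i
  · simp
  · simp

theorem single_ne (i : Fin 2) : (Finsupp.single i 1 : Ex) ≠ 0 := by
  intro h
  have := DFunLike.congr_fun h i
  rw [Finsupp.single_apply, if_pos rfl] at this
  exact one_ne_zero this

section pd

variable {K : Type*} [Field K] {p : ℕ} [hp : Fact p.Prime] [CharP K p]

theorem not_dvd_single (i : Fin 2) : ¬ p ∣ (Finsupp.single i 1 : Ex) i := by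
  rw [Finsupp.single_apply, if_pos rfl]
  intro h
  exact hp.out.one_lt.ne' (Nat.dvd_one.1 h)

omit hp in
theorem PDv.sh_single {f : MvPolynomial (Fin 2) K} (hf : PDv p f) (g : Ex) (i : Fin 2) :
    coeff (Finsupp.single i 1) (coeff g (sh K f)) = 0 := by
  rw [coeff_sh', bn_single]
  by_cases h : p ∣ g i + 1
  · rw [(CharP.cast_eq_zero_iff K p _).2 h, zero_mul]
  · rw [hf (g + Finsupp.single i 1) i, mul_zero]
    rwa [Finsupp.add_apply, Finsupp.single_apply, if_pos rfl]

omit hp in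
theorem PDv.coeff_tr_single {f : MvPolynomial (Fin 2) K} (hf : PDv p f) (c : Fin 2 → K)
    (i : Fin 2) : coeff (Finsupp.single i 1) (TWLY.tr c f) = 0 := by
  rw [coeff_tr_eq]
  have : coeff (Finsupp.single i 1) (sh K f) = 0 := by
    ext m
    rw [coeff_sh', bn_comm, bn_single, coeff_zero]
    by_cases h : p ∣ m i + 1
    · rw [(CharP.cast_eq_zero_iff K p _).2 h, zero_mul]
    · rw [hf _ i, mul_zero]
      rwa [Finsupp.add_apply, Finsupp.single_apply, if_pos rfl, add_comm]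
  rw [this, map_zero]

theorem pdv_pow (f : MvPolynomial (Fin 2) K) (i : ℕ) : PDv p (f ^ p ^ (i + 1)) := by
  intro g j hj
  by_contra h
  obtain ⟨m, hm⟩ := exists_of_coeff_pow p f (i + 1) h
  refine hj ?_
  rw [hm.1, Finsupp.smul_apply, pow_succ, smul_eq_mul, mul_assoc]
  exact Dvd.intro (p ^ i * m j / 1) (by rw [Nat.div_one]; ring)

/-- A polynomial with exponents divisible by `p` is a `p`-th power. -/
theorem PDv.exists_pow [IsAlgClosed K] {G : MvPolynomial (Fin 2) K} (hG : PDv p G) :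
    ∃ h, G = h ^ p := by
  choose r hr using fun a : K => IsAlgClosed.exists_pow_nat_eq a hp.out.pos
  have hd : ∀ g ∈ G.support, ∀ i, p ∣ g i := by
    intro g hg i
    by_contra h
    exact (mem_support_iff.1 hg) (hG g i h)
  refine ⟨∑ g ∈ G.support, monomial (mk (g 0 / p) (g 1 / p)) (r (coeff g G)), ?_⟩
  rw [sum_pow_char]
  conv_lhs => rw [G.as_sum]
  refine Finset.sum_congr rfl fun g hg => ?_
  have e : p • mk (g 0 / p) (g 1 / p) = g := by
    refine ex_ext ?_ ?_
    · rw [Finsupp.smul_apply, mk_zero', smul_eq_mul, Nat.mul_div_cancel' (hd g hg 0)]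
    · rw [Finsupp.smul_apply, mk_one', smul_eq_mul, Nat.mul_div_cancel' (hd g hg 1)]
  rw [monomial_pow, hr, e]

end pd

variable {k Ω : Type u} [Field k] [Field Ω] [Algebra k Ω] {v : RVal Ω}
  {W F : IntermediateField k Ω} {w : Fin 2 → Ω} {T : (Fin 2 → k) → Ω →ₐ[k] Ω} {D : Ω → Ω}
  {dd : Fin 2 → Ω → Ω} {p : ℕ} [hp : Fact p.Prime] [CharP Ω p] [CharP k p] {κ : ℕ → k} {t : ℕ}
  {ι : Type} [Fintype ι] {z : Ω} {n : ι → Ω} {N : ι → MvPolynomial (Fin 2) k}
  {f : MvPolynomial (Fin 2) Ω} {b : ι → Ex}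

omit hp [CharP Ω p] [CharP k p] in
theorem coeff_dP (hD : Drv v F D) {n' : ι → Ω} {e : k} {ξ : Ω} {A : MvPolynomial (Fin 2) Ω}
    (g : Ex) : coeff g (dP p D ξ e κ t n n' N f A) =
    algebraMap k Ω e * (∑ j, algebraMap k Ω (coeff g (N j)) * n' j + D (coeff g f)) +
      ξ * coeff g (PP p κ t (uu n N f)) + D (coeff g A) := by
  unfold dP
  rw [coeff_add, coeff_add, coeff_C_mul, coeff_C_mul, coeff_add, coeff_sum, coeff_Dc hD,
    coeff_Dc hD]
  congr 4
  refine Finset.sum_congr rfl fun j _ => ?_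
  rw [coeff_C_mul, coeff_map, mul_comm]

omit [CharP k p] in
theorem pdv_PP (f : MvPolynomial (Fin 2) Ω) : PDv p (PP p κ t f) := by
  intro g j hj
  unfold PP
  rw [coeff_sum]
  refine Finset.sum_eq_zero fun i _ => ?_
  rw [IsScalarTower.algebraMap_apply k Ω (MvPolynomial (Fin 2) Ω), algebraMap_eq, coeff_C_mul,
    pdv_pow f i g j hj, mul_zero]

omit [CharP Ω p] [CharP k p] in
theorem coeff_zero_PP {f : MvPolynomial (Fin 2) Ω} (hf : coeff 0 f = 0) :
    coeff 0 (PP p κ t f) = 0 := by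
  unfold PP
  rw [coeff_sum]
  refine Finset.sum_eq_zero fun i _ => ?_
  rw [IsScalarTower.algebraMap_apply k Ω (MvPolynomial (Fin 2) Ω), algebraMap_eq, coeff_C_mul,
    ← constantCoeff_eq, map_pow, constantCoeff_eq, hf, zero_pow (pow_ne_zero _ hp.out.ne_zero),
    mul_zero]

section main

variable [DecidableEq ι]

omit hp [CharP Ω p] [CharP k p] in
theorem Shp.uu0 (h : Shp v F T z n N f b) : coeff 0 (uu n N f) = 0 := by
  have h1 : ∀ j, coeff 0 (N j) = 0 := fun j => by rw [← constantCoeff_eq, h.N0]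
  have h2 : coeff 0 f = 0 := by rw [← constantCoeff_eq, h.f0]
  rw [coeff_uu, h2, add_zero]
  refine Finset.sum_eq_zero fun j _ => ?_
  rw [h1, map_zero, zero_mul]

omit [CharP Ω p] [CharP k p] in
/-- `G(0) = 0`. -/
theorem Shp.G0 (hk : Ctx0 k v) (h : Shp v F T z n N f b) (hD : Drv v F D) {n' : ι → Ω} {e : k}
    {ξ : Ω} {A : MvPolynomial (Fin 2) Ω} (hA : constantCoeff A = 0) {G : MvPolynomial (Fin 2) k}
    (hG : ∀ g, Rs v (coeff g (dP p D ξ e κ t n n' N f A)) (coeff g G)) :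
    constantCoeff G = 0 := by
  have h1 : ∀ j, coeff 0 (N j) = 0 := fun j => by rw [← constantCoeff_eq, h.N0]
  have h2 : coeff 0 f = 0 := by rw [← constantCoeff_eq, h.f0]
  have h3 := hG 0
  rw [constantCoeff_eq] at hA
  rw [coeff_dP hD, h2, hA, hD.map_zero, coeff_zero_PP h.uu0, mul_zero, add_zero, add_zero,
    Finset.sum_eq_zero, add_zero, mul_zero] at h3
  · rw [constantCoeff_eq]
    exact Rs.unique hk h3 Rs.zero
  · intro j _
    rw [h1, map_zero, zero_mul]

omit [DecidableEq ι] [CharP k p] in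
/-- `G` has exponents divisible by `p`. -/
theorem pdv_G (hk : Ctx0 k v) (hD : Drv v F D) {n' : ι → Ω} {e : k}
    {ξ : Ω} {A : MvPolynomial (Fin 2) Ω} (he : e ≠ 0 → (∀ j, PDv p (N j)) ∧ PDv p f)
    (hA : ∀ (g : Ex) (i : Fin 2), ¬ p ∣ g i → VPos v (D (coeff g A)))
    {G : MvPolynomial (Fin 2) k}
    (hG : ∀ g, Rs v (coeff g (dP p D ξ e κ t n n' N f A)) (coeff g G)) : PDv p G := by
  intro g i hg
  have h3 := hG g
  have h4 : algebraMap k Ω e * (∑ j, algebraMap k Ω (coeff g (N j)) * n' j + D (coeff g f)) = 0 := by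
    by_cases h0 : e = 0
    · rw [h0, map_zero, zero_mul]
    · obtain ⟨h1, h2⟩ := he h0
      rw [h2 g i hg, hD.map_zero, add_zero, Finset.sum_eq_zero, mul_zero]
      intro j _
      rw [h1 j g i hg, map_zero, zero_mul]
  rw [coeff_dP hD, h4, pdv_PP (uu n N f) g i hg, mul_zero, zero_add, zero_add] at h3
  exact Rs.unique hk h3 (rs_zero_iff.2 (hA g i hg))

omit [DecidableEq ι] hp [CharP k p] in
/-- **(S2)** -/
theorem Shp.S2 (hk : Ctx0 k v) (hp1 : Fact p.Prime) (hN : ∀ j, PDv p (N j)) (hf : PDv p f)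
    {lam : BB (Fin 2) k} (hlam : ∀ c g, Rs v (coeff g (Lc T N f b c)) (coeff g (evc c lam)))
    (c : Fin 2 → k) (i : Fin 2) : coeff (Finsupp.single i 1) (evc c lam) = 0 := by
  have h1 := hlam c (Finsupp.single i 1)
  have hnd : ¬ p ∣ (Finsupp.single i 1 : Ex) i := not_dvd_single i
  rw [coeff_Lc, hf _ i hnd, map_zero, zero_add, if_neg (single_ne i), add_zero,
    hf.coeff_tr_single, sub_zero, Finset.sum_eq_zero] at h1
  · exact Rs.unique hk h1 Rs.zero
  · intro l _
    rw [hN l _ i hnd, map_zero, zero_mul]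

omit hp [CharP k p] in
/-- **(S1)** -/
theorem Shp.S1 (hk : Ctx0 k v) (hp1 : Fact p.Prime) (hT : Trn v W F w T)
    (h : Shp v F T z n N f b) (hdd : DDi v W F w dd)
    (hf : PDv p f) {e : k} (he : e ≠ 0) {A : MvPolynomial (Fin 2) Ω}
    (hA : ∀ i g, VPos v (dd i (coeff g A))) {n'' : Fin 2 → ι → Ω}
    {Gi : Fin 2 → MvPolynomial (Fin 2) k}
    (hGi : ∀ i g, Rs v (coeff g (dP p (dd i) 0 e κ t n (n'' i) N f A)) (coeff g (Gi i)))
    {q : Ex → MvPolynomial (Fin 2) Ω}
    (hq : ∀ g h, coeff h (q g) ∈ W) (hq1 : ∀ g, VPos v (coeff g f - eval w (q g)))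
    {lam : BB (Fin 2) k} (hlam : ∀ g m, Rs v (coeff m (Lg w q N f b g)) (coeff g (coeff m lam)))
    (i : Fin 2) : coeff (Finsupp.single i 1) lam ∈
      Submodule.span k (Set.range N ∪ Set.range Gi) := by
  have he' : algebraMap k Ω e ≠ 0 := by simpa using he
  -- the residues of `dd i (coeff g f)`
  have h1 : ∀ g, Rs v (dd i (coeff g f)) (coeff g (coeff (Finsupp.single i 1) lam)) := by
    intro g
    have h2 := hlam g (Finsupp.single i 1)
    have h3 : coeff (Finsupp.single i 1) (Lg w q N f b g) = dd i (eval w (q g)) := by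
      unfold Lg
      rw [coeff_sub, coeff_add, coeff_add, coeff_sum, hf.sh_single, sub_zero,
        Finset.sum_eq_zero, add_zero, dd_eval hT hdd i (hq g)]
      · split_ifs
        · rw [hf _ i (not_dvd_single i), add_zero]
        · rw [coeff_zero, add_zero]
      · intro l _
        rw [coeff_C_mul, hf.sh_single, mul_zero]
    rw [h3] at h2
    refine h2.congr ?_
    rw [← (hdd.drv i).map_sub (h.fF g) (hT.eval_mem (hq g))]
    exact (hdd.drv i).vpos (sub_mem (h.fF g) (hT.eval_mem (hq g))) (hq1 g)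
  have hcd : ∀ g, coeff g (dP p (dd i) 0 e κ t n (n'' i) N f A) =
      algebraMap k Ω e * (∑ j, algebraMap k Ω (coeff g (N j)) * n'' i j + dd i (coeff g f)) +
        dd i (coeff g A) := by
    intro g
    rw [coeff_dP (hdd.drv i), zero_mul, add_zero]
  -- the residues of `n''`
  have h4 : ∀ l, ∃ r : k, Rs v (n'' i l) r := by
    intro l
    have h5 := hGi i (b l)
    rw [hcd, h.fb, (hdd.drv i).map_zero, add_zero] at h5
    have h6 : ∑ j, algebraMap k Ω (coeff (b l) (N j)) * n'' i j = n'' i l := by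
      rw [Finset.sum_eq_single l]
      · rw [h.Nb, if_pos rfl, map_one, one_mul]
      · intro j _ hj
        rw [h.Nb, if_neg hj, map_zero, zero_mul]
      · intro h0
        exact absurd (Finset.mem_univ _) h0
    rw [h6] at h5
    have h7 := (h5.sub (rs_zero_iff.2 (hA i (b l)))).smul hk e⁻¹
    rw [add_sub_cancel_right, ← mul_assoc, ← map_mul, inv_mul_cancel₀ he, map_one, one_mul] at h7
    exact ⟨_, h7⟩
  choose r hr using h4
  have h8 : coeff (Finsupp.single i 1) lam = C e⁻¹ * Gi i - ∑ j, C (r j) * N j := by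
    ext g
    rw [coeff_sub, coeff_C_mul, coeff_sum]
    have h9 := hGi i g
    rw [hcd] at h9
    have h10 : Rs v (algebraMap k Ω e * (∑ j, algebraMap k Ω (coeff g (N j)) * n'' i j +
        dd i (coeff g f)) + dd i (coeff g A))
        (e * (∑ j, coeff g (N j) * r j + coeff g (coeff (Finsupp.single i 1) lam)) + 0) :=
      (((Rs.sum _ fun j _ => (hr j).smul hk _).add (h1 g)).smul hk e).add (rs_zero_iff.2 (hA i g))
    have h11 := Rs.unique hk h9 h10
    have h12 : ∑ j, coeff g (C (r j) * N j) = ∑ j, coeff g (N j) * r j :=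
      Finset.sum_congr rfl fun j _ => by rw [coeff_C_mul, mul_comm]
    rw [h12, h11, add_zero, ← mul_assoc, inv_mul_cancel₀ he, one_mul]
    ring
  rw [h8]
  refine sub_mem ?_ (sum_mem fun j _ => ?_)
  · rw [← smul_eq_C_mul]
    exact Submodule.smul_mem _ _ (Submodule.subset_span (Or.inr ⟨i, rfl⟩))
  · rw [← smul_eq_C_mul]
    exact Submodule.smul_mem _ _ (Submodule.subset_span (Or.inl ⟨j, rfl⟩))

end main

end Pool.Agent.TWCY
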