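import Pool.Agent.Lib.TWCY.W1
import Pool.Agent.Lib.TWCY.LA
import Pool.Agent.Lib.TWCY.E1
import Pool.Agent.Lib.TWLY.D

/-!
# The strong bound

* `gt_T`: `T - 1` is strict on the whole big field, if `W` is fixed and has all values;
* `strong`: `Q |(T - 1) Z'| < |Z' - g(X)|`;
* `exists_M`: one bound for finitely many translations.
-/

set_option autoImplicit false

open MvPolynomial

namespace Pool.Agent.TWCY

open Pool.Agent.H15JM (RVal)
open Pool.Agent.LU1 (VPos)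
open Pool.Agent.D2 (Ctx0)
open Pool.Agent.TWM
open Pool.Agent.TWS (IsoE SphC)
open Pool.Agent.TWLY
open TWIV.JW (BB sh cz)

universe u

variable {k Ω : Type u} [Field k] [Field Ω] [Algebra k Ω] {v : RVal Ω}
  {W F : IntermediateField k Ω}

/-- **`T - 1` is strict.** -/
theorem gt_T (hk : Ctx0 k v) {T : Ω →ₐ[k] Ω} (hT : IsoE v v T) (hW : ∀ f ∈ W, T f = f)
    (hfull : ∀ r : ℝ, ∃ y ∈ W, y ≠ 0 ∧ v y = r) {r : ℝ} {y : Ω} (hy : v.Ge r y) :
    Gt v r (T y - y) := by
  by_cases h0 : y = 0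
  · rw [h0, map_zero, sub_zero]
    exact Gt.zero
  · obtain ⟨g, hg, hg0, hgv⟩ := hfull (v y)
    have h1 : y / g ≠ 0 := div_ne_zero h0 hg0
    have h2 : v (y / g) = 0 := by rw [v.map_div h0 hg0, hgv, sub_self]
    obtain ⟨c, hc0, hc⟩ := hk.res _ h1 h2
    set y' := y - algebraMap k Ω c * g with hy'
    have hy'v : Gt v (v y) y' := by
      have e : y' = (y / g - algebraMap k Ω c) * g := by
        rw [sub_mul, div_mul_cancel₀ _ hg0]
      rw [e]
      intro h3
      have h4 := left_ne_zero_of_mul h3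
      rw [v.map_mul h4 hg0, hgv]
      have := hc h4
      linarith
    have e : T y - y = T y' - y' := by
      rw [hy', map_sub, map_mul, AlgHom.commutes, hW g hg]
      ring
    rw [e]
    have h5 : Gt v (v y) (T y' - y') := by
      have h6 : Gt v (v y) (T y') := hT.gt_iff.2 hy'v
      rw [sub_eq_add_neg]
      refine Gt.add h6 ?_
      intro h7
      have h8 : y' ≠ 0 := fun h => h7 (by rw [h, neg_zero])
      rw [v.map_neg _ h8]
      exact hy'v h8
    intro h7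
    exact (hy h0).trans_lt (h5 h7)

section strong

variable {p : ℕ} [hp : Fact p.Prime] [CharP Ω p] {κ : ℕ → k} {t : ℕ}

/-- **The strong bound.** -/
theorem strong (hk : Ctx0 k v) {T : Ω →ₐ[k] Ω} (hT : IsoE v v T) (hW : ∀ f ∈ W, T f = f)
    (hfull : ∀ r : ℝ, ∃ y ∈ W, y ≠ 0 ∧ v y = r) (hκ : κ t ≠ 0) {X : Fin 2 → Ω}
    (hX : ∀ i, X i ∈ W) {Z : Ω} {G : MvPolynomial (Fin 2) k} {e : k}
    {l : MvPolynomial (Fin 2) k} {Dl : MvPolynomial (Fin 2) k →ₗ[k] Ω} (hDl : ∀ f, Dl f ∈ W)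
    (hpos : ∀ g : MvPolynomial (Fin 2) k, constantCoeff g = 0 → v (Z - aeval X g) < 0)
    (hrel : ∀ g : MvPolynomial (Fin 2) k, constantCoeff g = 0 → ∀ r ≤ 0,
      v.Ge r (Z - aeval X g) → v.Ge r (PP p κ t Z + aeval X G + Dl (C e * g + l)))
    {g : MvPolynomial (Fin 2) k} (hg : constantCoeff g = 0) (h0 : T Z - Z ≠ 0)
    (h1 : v (T Z - Z) < 0) : v (Z - aeval X g) < (p : ℝ) ^ (t + 1) * v (T Z - Z) := by
  set r := v (Z - aeval X g) with hr
  have h2 := hrel g hg r (hpos g hg).le (fun _ => le_rfl)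
  have h3 := gt_T hk hT hW hfull h2
  have hGX : aeval X G ∈ W := TWCT.aeval_mem hX G
  have e1 : T (PP p κ t Z + aeval X G + Dl (C e * g + l)) -
      (PP p κ t Z + aeval X G + Dl (C e * g + l)) = PP p κ t (T Z - Z) := by
    rw [map_add, map_add, PP_map, hW _ hGX, hW _ (hDl _), PP_sub]
    ring
  rw [e1] at h3
  obtain ⟨h4, h5⟩ := v_PP (p := p) hk hκ h0 h1
  have := h3 h4
  rwa [h5] at this

/-- One bound for finitely many translations. -/
theorem exists_M (hk : Ctx0 k v) {T : (Fin 2 → k) → Ω →ₐ[k] Ω} (hT : ∀ c, IsoE v v (T c))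
    (hW : ∀ c, ∀ f ∈ W, T c f = f)
    (hfull : ∀ r : ℝ, ∃ y ∈ W, y ≠ 0 ∧ v y = r) (hκ : κ t ≠ 0) {X : Fin 2 → Ω}
    (hX : ∀ i, X i ∈ W) {Z : Ω} {G : MvPolynomial (Fin 2) k} {e : k}
    {l : MvPolynomial (Fin 2) k} {Dl : MvPolynomial (Fin 2) k →ₗ[k] Ω} (hDl : ∀ f, Dl f ∈ W)
    (hpos : ∀ g : MvPolynomial (Fin 2) k, constantCoeff g = 0 → v (Z - aeval X g) < 0)
    (hrel : ∀ g : MvPolynomial (Fin 2) k, constantCoeff g = 0 → ∀ r ≤ 0,
      v.Ge r (Z - aeval X g) → v.Ge r (PP p κ t Z + aeval X G + Dl (C e * g + l)))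
    (S : Finset (Fin 2 → k)) :
    ∃ M : ℝ, 0 ≤ M ∧ (∀ c ∈ S, v.Ge (-M) (T c Z - Z)) ∧
      ∀ g : MvPolynomial (Fin 2) k, constantCoeff g = 0 →
        v (Z - aeval X g) < -((p : ℝ) ^ (t + 1) * M) := by
  classical
  induction S using Finset.induction_on with
  | empty =>
    exact ⟨0, le_rfl, by simp, fun g hg => by simpa using hpos g hg⟩
  | insert c S hc ih =>
    obtain ⟨M, hM, h1, h2⟩ := ih
    by_cases h3 : v.Ge (-M) (T c Z - Z)
    · refine ⟨M, hM, fun c' hc' => ?_, h2⟩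
      rcases Finset.mem_insert.1 hc' with rfl | hc'
      · exact h3
      · exact h1 c' hc'
    · unfold RVal.Ge at h3
      push Not at h3
      obtain ⟨h4, h5⟩ := h3
      have h6 : v (T c Z - Z) < 0 := by linarith
      refine ⟨-v (T c Z - Z), by linarith, fun c' hc' => ?_, fun g hg => ?_⟩
      · rw [neg_neg]
        rcases Finset.mem_insert.1 hc' with rfl | hc'
        · exact fun _ => le_rfl
        · exact (h1 c' hc').mono h5.le
      · have := strong hk (hT c) (hW c) hfull hκ hX hDl hpos hrel hg h4 h6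
        linarith

end strong

end Pool.Agent.TWCY
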