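import Pool.Agent.Lib.TWCY.Coc

/-!
# The shape of `z` under a translation

From `Trn` and `Shp`: `T_c n_l = Σ M_lj n_j + ψ_l + O_0`, `N_j(s + c) = N_j(c) + Σ M_lj N_l(s)`, and
the `F`-part `Lc` of `T_c u(s) + u(c) - u(s + c)` has integral coefficients.
-/

set_option autoImplicit false

open MvPolynomial

namespace Pool.Agent.TWCY

open Pool.Agent.H15JM (RVal)
open Pool.Agent.LU1 (VPos)
open Pool.Agent.D2 (Ctx0)
open Pool.Agent.TWM
open Pool.Agent.TWS (IsoE SphC)
open Pool.Agent.TWLY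

universe u

variable {k Ω : Type u} [Field k] [Field Ω] [Algebra k Ω] {v : RVal Ω}
  {W F : IntermediateField k Ω} {w : Fin 2 → Ω} {T : (Fin 2 → k) → Ω →ₐ[k] Ω}

theorem map_pt (T : Ω →ₐ[k] Ω) (s : Fin 2 → k) (i : Fin 2) : T (pt s i) = pt s i :=
  AlgHom.commutes _ _

theorem eval_map_pt (T : Ω →ₐ[k] Ω) (s : Fin 2 → k) (f : MvPolynomial (Fin 2) Ω) :
    eval (pt s) (MvPolynomial.map (T : Ω →+* Ω) f) = T (eval (pt s) f) := by
  have h : pt (Ω := Ω) s = fun i => (T : Ω →+* Ω) (pt s i) := by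
    funext i
    exact (map_pt T s i).symm
  conv_lhs => rw [h]
  rw [eval_map]
  exact (eval₂_comp (T : Ω →+* Ω) (pt s) f).symm

theorem coeff_tr_mem (c : Fin 2 → k) {f : MvPolynomial (Fin 2) Ω} (hf : ∀ g, coeff g f ∈ F) (g : Ex) :
    coeff g (TWLY.tr (pt c) f) ∈ F := by
  have h1 : TWLY.tr (pt c) f = ∑ m ∈ f.support, C (coeff m f) * TWLY.tr (pt c) (monomial m 1) := by
    conv_lhs => rw [f.as_sum, map_sum]
    refine Finset.sum_congr rfl fun m _ => ?_
    have : monomial m (coeff m f) = C (coeff m f) * monomial m (1 : Ω) := by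
      rw [C_mul_monomial, mul_one]
    rw [this, map_mul]
    congr 1
    rw [← algebraMap_eq, AlgHom.commutes]
  have h2 : ∀ m : Ex, TWLY.tr (pt (Ω := Ω) c) (monomial m 1) =
      MvPolynomial.map (algebraMap k Ω) (TWLY.tr c (monomial m 1)) := by
    intro m
    unfold TWLY.tr
    rw [aeval_monomial, aeval_monomial, map_one, map_one, one_mul, one_mul, Finsupp.prod,
      Finsupp.prod, map_prod]
    refine Finset.prod_congr rfl fun i _ => ?_
    rw [map_pow, map_add, map_X, map_C]
    rfl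
  rw [h1, coeff_sum]
  refine sum_mem fun m _ => ?_
  rw [coeff_C_mul, h2, coeff_map]
  exact mul_mem (hf m) (F.algebraMap_mem _)

theorem tr_map (c : Fin 2 → k) (N : MvPolynomial (Fin 2) k) :
    TWLY.tr (pt (Ω := Ω) c) (MvPolynomial.map (algebraMap k Ω) N) =
      MvPolynomial.map (algebraMap k Ω) (TWLY.tr c N) := by
  induction N using MvPolynomial.induction_on with
  | C a =>
    have h1 : TWLY.tr c (C a : MvPolynomial (Fin 2) k) = C a := by
      rw [← algebraMap_eq, AlgHom.commutes]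
    rw [h1, map_C, ← algebraMap_eq, AlgHom.commutes]
  | add P Q hP hQ => rw [map_add, map_add, map_add, map_add, hP, hQ]
  | mul_X P i hP =>
    rw [map_mul, map_mul, map_mul, map_mul, hP]
    congr 1
    unfold TWLY.tr
    rw [map_X, aeval_X, aeval_X, map_add, map_X, map_C]
    rfl

section shape

variable {ι : Type} [Fintype ι] {z : Ω} {n : ι → Ω} {N : ι → MvPolynomial (Fin 2) k}
  {f : MvPolynomial (Fin 2) Ω} {b : ι → Ex}

theorem coeff_uu (g : Ex) :
    coeff g (uu n N f) = ∑ j, algebraMap k Ω (coeff g (N j)) * n j + coeff g f := by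
  unfold uu
  rw [coeff_add, coeff_sum]
  congr 1
  refine Finset.sum_congr rfl fun j _ => ?_
  rw [coeff_C_mul, coeff_map, mul_comm]

theorem eval_uu (s : Fin 2 → k) :
    eval (pt s) (uu n N f) = ∑ j, algebraMap k Ω (eval s (N j)) * n j + eval (pt s) f := by
  unfold uu
  rw [map_add, map_sum]
  congr 1
  refine Finset.sum_congr rfl fun j _ => ?_
  rw [map_mul, eval_C, eval_pt_map, mul_comm]

variable [DecidableEq ι]

theorem Shp.b_ne (h : Shp v F T z n N f b) (l : ι) : b l ≠ 0 := by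
  intro h0
  have h1 := h.Nb l l
  rw [h0, if_pos rfl] at h1
  have h2 := h.N0 l
  rw [constantCoeff_eq] at h2
  rw [h2] at h1
  exact zero_ne_one h1

theorem lim_tt (hT : Trn v W F w T) (hz : Lim v F 0 z) (c s : Fin 2 → k) :
    v.Ge 0 (T c (T s z) - T (s + c) z) := by
  refine ge_zero_of_eps fun ε hε => ?_
  obtain ⟨θ, hθ, h1⟩ := Lim.neg_eps hz hε
  have e : T c (T s z) - T (s + c) z = T c (T s (z - θ)) - T (s + c) (z - θ) := by
    simp only [map_sub]
    rw [hT.add c s θ hθ, add_comm c s]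
    ring
  rw [e]
  exact (IsoE.ge' (hT.iso c) (IsoE.ge' (hT.iso s) h1)).sub (IsoE.ge' (hT.iso _) h1)

theorem Shp.jet2 (hT : Trn v W F w T) (h : Shp v F T z n N f b) (c s : Fin 2 → k) :
    v.Ge 0 (T c (eval (pt s) (uu n N f)) + eval (pt c) (uu n N f) -
      eval (pt (s + c)) (uu n N f)) := by
  have h1 := lim_tt hT h.zlim c s
  have h2 := IsoE.ge' (hT.iso c) (h.jet s)
  have h3 := h.jet c
  have h4 := h.jet (s + c)
  have := ((h1.sub h2).sub h3).add h4
  simp only [map_sub] at this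
  convert this using 1
  ring

variable [Infinite k]

theorem Shp.coeff_ge (hk : Ctx0 k v) (hT : Trn v W F w T) (h : Shp v F T z n N f b)
    (c : Fin 2 → k) {g : Ex} (hg : g ≠ 0) :
    v.Ge 0 (∑ j, algebraMap k Ω (coeff g (N j)) * T c (n j) + T c (coeff g f) -
      (∑ j, algebraMap k Ω (coeff g (TWLY.tr c (N j))) * n j + coeff g (TWLY.tr (pt c) f))) := by
  set Q : MvPolynomial (Fin 2) Ω := MvPolynomial.map (T c : Ω →+* Ω) (uu n N f) +
    C (eval (pt c) (uu n N f)) - TWLY.tr (pt c) (uu n N f) with hQ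
  have h1 : ∀ s : Fin 2 → k, v.Ge 0 (eval (pt s) Q) := by
    intro s
    rw [hQ, map_sub, map_add, eval_map_pt, eval_C, eval_tr, ← pt_add]
    exact h.jet2 hT c s
  have h2 := ge_coeff hk h1 g
  have h3 : TWLY.tr (pt c) (uu n N f) = uu n (fun j => TWLY.tr c (N j)) (TWLY.tr (pt c) f) := by
    unfold uu
    rw [map_add, map_sum]
    congr 1
    refine Finset.sum_congr rfl fun j _ => ?_
    rw [map_mul, tr_map]
    congr 1
    rw [← algebraMap_eq, AlgHom.commutes]
  rw [hQ, coeff_sub, coeff_add, coeff_C, if_neg (fun h0 => hg h0.symm), add_zero, h3, coeff_uu,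
    coeff_map, coeff_uu] at h2
  have h4 : (T c : Ω →+* Ω) (∑ j, algebraMap k Ω (coeff g (N j)) * n j + coeff g f) =
      ∑ j, algebraMap k Ω (coeff g (N j)) * T c (n j) + T c (coeff g f) := by
    rw [map_add, map_sum]
    congr 1
    refine Finset.sum_congr rfl fun j _ => ?_
    rw [map_mul]
    congr 1
    exact (T c).commutes _
  rw [h4] at h2
  exact h2

/-- the matrix of `T_c` on the noises -/
noncomputable def MM (N : ι → MvPolynomial (Fin 2) k) (b : ι → Ex) (c : Fin 2 → k) (l j : ι) : k :=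
  coeff (b l) (TWLY.tr c (N j))

/-- the `F`-part of `T_c n_l` -/
noncomputable def psi (f : MvPolynomial (Fin 2) Ω) (b : ι → Ex) (c : Fin 2 → k) (l : ι) : Ω :=
  coeff (b l) (TWLY.tr (pt c) f)

theorem Shp.ge_m (hk : Ctx0 k v) (hT : Trn v W F w T) (h : Shp v F T z n N f b)
    (c : Fin 2 → k) (l : ι) :
    v.Ge 0 (T c (n l) - ∑ j, algebraMap k Ω (MM N b c l j) * n j - psi f b c l) := by
  have h1 := h.coeff_ge hk hT c (h.b_ne l)
  rw [h.fb, map_zero, add_zero] at h1
  have h2 : ∑ j, algebraMap k Ω (coeff (b l) (N j)) * T c (n j) = T c (n l) := by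
    rw [Finset.sum_eq_single l]
    · rw [h.Nb, if_pos rfl, map_one, one_mul]
    · intro j _ hj
      rw [h.Nb, if_neg hj, map_zero, zero_mul]
    · intro h0
      exact absurd (Finset.mem_univ _) h0
  rw [h2] at h1
  convert h1 using 1
  unfold MM psi
  ring

/-- **The space of the `N_j` is stable under translations, up to constants.** -/
theorem Shp.coeff_tr (hk : Ctx0 k v) (hT : Trn v W F w T) (h : Shp v F T z n N f b)
    (c : Fin 2 → k) {g : Ex} (hg : g ≠ 0) (i : ι) :
    coeff g (TWLY.tr c (N i)) = ∑ j, coeff g (N j) * MM N b c j i := by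
  have h1 := h.coeff_ge hk hT c hg
  have h2 : v.Ge 0 (∑ j, algebraMap k Ω (coeff g (N j)) *
      (T c (n j) - ∑ i, algebraMap k Ω (MM N b c j i) * n i - psi f b c j)) :=
    ge_sum_smul hk _ fun j => h.ge_m hk hT c j
  have h3 := h1.sub h2
  set y : Ω := coeff g (TWLY.tr (pt c) f) - T c (coeff g f) -
    ∑ j, algebraMap k Ω (coeff g (N j)) * psi f b c j with hy
  have hyF : y ∈ F := by
    refine sub_mem (sub_mem (coeff_tr_mem c h.fF g) (hT.mem c _ (h.fF g))) (sum_mem fun j _ => ?_)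
    exact mul_mem (F.algebraMap_mem _) (coeff_tr_mem c h.fF _)
  have h4 : ∑ i, algebraMap k Ω (∑ j, coeff g (N j) * MM N b c j i -
      coeff g (TWLY.tr c (N i))) * n i - y =
      ∑ j, algebraMap k Ω (coeff g (N j)) * T c (n j) + T c (coeff g f) -
      (∑ j, algebraMap k Ω (coeff g (TWLY.tr c (N j))) * n j + coeff g (TWLY.tr (pt c) f)) -
      ∑ j, algebraMap k Ω (coeff g (N j)) *
        (T c (n j) - ∑ i, algebraMap k Ω (MM N b c j i) * n i - psi f b c j) := by
    have e1 : ∑ i, algebraMap k Ω (∑ j, coeff g (N j) * MM N b c j i -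
        coeff g (TWLY.tr c (N i))) * n i =
        ∑ j, algebraMap k Ω (coeff g (N j)) * ∑ i, algebraMap k Ω (MM N b c j i) * n i -
        ∑ j, algebraMap k Ω (coeff g (TWLY.tr c (N j))) * n j := by
      have e2 : ∑ j, algebraMap k Ω (coeff g (N j)) * ∑ i, algebraMap k Ω (MM N b c j i) * n i =
          ∑ i, ∑ j, algebraMap k Ω (coeff g (N j)) * (algebraMap k Ω (MM N b c j i) * n i) := by
        rw [Finset.sum_comm]
        exact Finset.sum_congr rfl fun j _ => by rw [Finset.mul_sum]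
      rw [e2, ← Finset.sum_sub_distrib]
      refine Finset.sum_congr rfl fun i _ => ?_
      rw [map_sub, sub_mul, map_sum, Finset.sum_mul]
      congr 1
      refine Finset.sum_congr rfl fun j _ => ?_
      rw [map_mul]
      ring
    rw [e1, hy]
    simp only [mul_sub, Finset.sum_sub_distrib]
    ring
  rw [← h4] at h3
  have h5 := h.ind _ ⟨y, hyF, h3⟩ i
  exact (sub_eq_zero.1 h5).symm

theorem Shp.tr_N (hk : Ctx0 k v) (hT : Trn v W F w T) (h : Shp v F T z n N f b)
    (c : Fin 2 → k) (i : ι) :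
    TWLY.tr c (N i) = C (eval c (N i)) + ∑ j, C (MM N b c j i) * N j := by
  ext g
  rw [coeff_add, coeff_C, coeff_sum]
  by_cases hg : g = 0
  · subst hg
    rw [if_pos rfl]
    have h1 : coeff 0 (TWLY.tr c (N i)) = eval c (N i) := by
      have := eval_tr c 0 (N i)
      rw [zero_add] at this
      rw [← this, ← constantCoeff_eq, MvPolynomial.eval_zero]
    rw [h1, Finset.sum_eq_zero, add_zero]
    intro j _
    rw [coeff_C_mul]
    have := h.N0 j
    rw [constantCoeff_eq] at this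
    rw [this, mul_zero]
  · rw [if_neg fun h0 => hg h0.symm, zero_add, h.coeff_tr hk hT c hg i]
    refine Finset.sum_congr rfl fun j _ => ?_
    rw [coeff_C_mul, mul_comm]

theorem Shp.eval_N (hk : Ctx0 k v) (hT : Trn v W F w T) (h : Shp v F T z n N f b)
    (c s : Fin 2 → k) (i : ι) :
    eval (s + c) (N i) = eval c (N i) + ∑ l, eval s (N l) * MM N b c l i := by
  rw [← eval_tr, h.tr_N hk hT c i, map_add, eval_C, map_sum]
  congr 1
  refine Finset.sum_congr rfl fun j _ => ?_
  rw [map_mul, eval_C, mul_comm]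

/-- The `F`-part of `T_c u(s) + u(c) - u(s + c)`. -/
noncomputable def Lc (T : (Fin 2 → k) → Ω →ₐ[k] Ω) (N : ι → MvPolynomial (Fin 2) k)
    (f : MvPolynomial (Fin 2) Ω) (b : ι → Ex) (c : Fin 2 → k) : MvPolynomial (Fin 2) Ω :=
  MvPolynomial.map (T c : Ω →+* Ω) f + ∑ l, C (psi f b c l) * MvPolynomial.map (algebraMap k Ω) (N l) +
    C (eval (pt c) f) - TWLY.tr (pt c) f

omit [DecidableEq ι] [Infinite k] in
theorem eval_Lc (c s : Fin 2 → k) : eval (pt s) (Lc T N f b c) =
    T c (eval (pt s) f) + ∑ l, algebraMap k Ω (eval s (N l)) * psi f b c l + eval (pt c) f -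
      eval (pt (s + c)) f := by
  unfold Lc
  rw [map_sub, map_add, map_add, eval_map_pt, eval_C, eval_tr, ← pt_add, map_sum]
  congr 3
  refine Finset.sum_congr rfl fun l _ => ?_
  rw [map_mul, eval_C, eval_pt_map, mul_comm]

theorem Shp.ge_Lc (hk : Ctx0 k v) (hT : Trn v W F w T) (h : Shp v F T z n N f b)
    (c : Fin 2 → k) (g : Ex) : v.Ge 0 (coeff g (Lc T N f b c)) := by
  refine ge_coeff hk (fun s => ?_) g
  have h1 := h.jet2 hT c s
  rw [eval_uu, eval_uu, eval_uu, coc_L (M := MM N b c) (ψ := psi f b c)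
    (m := fun l => T c (n l) - ∑ j, algebraMap k Ω (MM N b c l j) * n j - psi f b c l)
    (fun j => h.eval_N hk hT c s j) (fun l => by ring)] at h1
  have h2 := h1.sub (ge_sum_smul hk (fun l => eval s (N l)) fun l => h.ge_m hk hT c l)
  rw [add_sub_cancel_right] at h2
  rw [eval_Lc]
  exact h2

end shape

end Pool.Agent.TWCY
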