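import Pool.Agent.Lib.TWCY.DerX
import Pool.Agent.Lib.TWCY.Core
import Pool.Agent.Lib.TWCT.Null
import Pool.Agent.Lib.TWCT.Str

/-!
# CT, j = 1, abelian case: the translations and the derivations (`RowTrn`)
-/

set_option autoImplicit false
set_option linter.unusedSectionVars false

open MvPolynomial

namespace Pool.Agent.TWCY

open Pool.Agent.H15JM (RVal)
open Pool.Agent.LU1 (VPos)
open Pool.Agent.D2 (Ctx0)
open Pool.Agent.D2P (clI mem_clI)
open Pool.Agent.TWM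
open Pool.Agent.TWS (IsoE SphC)
open Pool.Agent.TWN1 (Par)

universe u

variable {k Ω : Type u} [Field k] [Field Ω] [Algebra k Ω] {v : RVal Ω}
  {W F K : IntermediateField k Ω} {w : Fin 2 → Ω} {D₀ : Ω → Ω}

/-! ### Density -/

/-- The polynomials in `w` over `W`. -/
noncomputable def SW (W : IntermediateField k Ω) (w : Fin 2 → Ω) : Subalgebra W Ω :=
  (aeval (R := W) w : MvPolynomial (Fin 2) W →ₐ[W] Ω).range

theorem SW.mem_w (W : IntermediateField k Ω) (w : Fin 2 → Ω) (i : Fin 2) : w i ∈ SW W w :=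
  ⟨X i, aeval_X w i⟩

theorem SW.poly (W : IntermediateField k Ω) (w : Fin 2 → Ω) {f : Polynomial Ω} (hf : f ∈ PI W)
    (i : Fin 2) : f.eval (w i) ∈ SW W w := by
  rw [Polynomial.eval_eq_sum_range]
  refine sum_mem fun j _ => mul_mem ?_ (pow_mem (SW.mem_w W w i) j)
  exact (SW W w).algebraMap_mem ⟨_, hf j⟩

/-- The polynomials in `w` are dense in `F`. -/
theorem Par.dns [IsAlgClosed Ω] (h : Par v W F (w 0) 0 (w 1) 0) {y : Ω} (hy : y ∈ F) (r : ℝ) :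
    ∃ q : MvPolynomial (Fin 2) Ω, (∀ g, coeff g q ∈ W) ∧ v.Ge r (y - eval w q) := by
  rw [h.eq1] at hy
  obtain ⟨f, hf, h1⟩ := h.t21.dense hy r
  have h2 : ∀ i, ∃ s ∈ SW W w, v.Ge r ((f.coeff i - s) * w 1 ^ i) := by
    intro i
    obtain ⟨g, hg, h3⟩ := h.t1.dense (hf i) (r - v (w 1 ^ i))
    refine ⟨g.eval (w 0), SW.poly W w hg 0, ?_⟩
    have h4 := h3.mul (v.ge_self (w 1 ^ i))
    rwa [sub_add_cancel] at h4
  choose s hs hsr using h2
  have h3 : ∑ i ∈ Finset.range (f.natDegree + 1), s i * w 1 ^ i ∈ SW W w :=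
    sum_mem fun j _ => mul_mem (hs j) (pow_mem (SW.mem_w W w 1) j)
  obtain ⟨q, hq⟩ := h3
  have hq' : aeval w q = ∑ i ∈ Finset.range (f.natDegree + 1), s i * w 1 ^ i := hq
  refine ⟨q.map (algebraMap W Ω), fun g => by rw [coeff_map]; exact SetLike.coe_mem _, ?_⟩
  have e1 : eval w (q.map (algebraMap W Ω)) = aeval w q := by
    rw [eval_map, aeval_def]
  have e2 : y - eval w (q.map (algebraMap W Ω)) = (y - f.eval (w 1)) +
      ∑ i ∈ Finset.range (f.natDegree + 1), (f.coeff i - s i) * w 1 ^ i := by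
    rw [e1, hq', Polynomial.eval_eq_sum_range]
    simp only [sub_mul, Finset.sum_sub_distrib]
    ring
  rw [e2]
  exact h1.add (RVal.Ge.sum _ _ fun i _ => hsr i)

/-! ### Translations -/

/-- One translation. -/
theorem Par.exists_trn [IsAlgClosed Ω] (h0 : Ctx0 k v) (hs : SphC v)
    (hval : ∀ ρ : ℝ, ∃ x : Ω, x ≠ 0 ∧ v x = ρ) (h : Par v W F (w 0) 0 (w 1) 0) (c : Fin 2 → k) :
    ∃ T : Ω →ₐ[k] Ω, IsoE v v T ∧ (∀ f ∈ W, T f = f) ∧
      ∀ i, T (w i) = w i + algebraMap k Ω (c i) := by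
  obtain ⟨T₁, h1, h2, h3, -⟩ := TWCT.exists_trans h0 hs hval h.t1 (h0.ge (c 0))
  have h4 : v.Ge 0 (w 1 + algebraMap k Ω (c 1) - T₁ (w 1)) := by
    refine TWM.ge_of_eps fun ε hε => ?_
    obtain ⟨a, ha, h5⟩ := h.t2.lim ε hε
    have h6 := h1.ge_iff.2 h5
    rw [map_sub, h2 a ha] at h6
    have e : w 1 + algebraMap k Ω (c 1) - T₁ (w 1) =
        (w 1 - a) - (T₁ (w 1) - a) + algebraMap k Ω (c 1) := by ring
    rw [e]
    exact (h5.sub h6).add ((h0.ge (c 1)).mono (by linarith))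
  obtain ⟨T, g1, g2, g3, -⟩ := TWCT.IsoE.exists_trans h0 hs hval h1 h.t21 h4
  refine ⟨T, g1, fun f hf => ?_, fun i => ?_⟩
  · rw [g2 f (le_cadj v W _ hf), h2 f hf]
  · fin_cases i
    · show T (w 0) = _
      rw [g2 _ (self_mem_cadj v W _), h3]
      rfl
    · exact g3

theorem Par.trn [IsAlgClosed Ω] (h0 : Ctx0 k v) (hs : SphC v)
    (hval : ∀ ρ : ℝ, ∃ x : Ω, x ≠ 0 ∧ v x = ρ) (h : Par v W F (w 0) 0 (w 1) 0) :
    ∃ T : (Fin 2 → k) → Ω →ₐ[k] Ω, Trn v W F w T := by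
  choose T hT1 hT2 hT3 using fun c => Par.exists_trn h0 hs hval h c
  have hle : W ≤ F := by
    rw [h.eq1]
    exact (le_cadj v W _).trans (le_cadj v _ _)
  have hF : Cld v F := by
    rw [h.eq1]
    exact cld_cadj v _ _
  have hwF : ∀ i, w i ∈ F := by
    intro i
    rw [h.eq1]
    fin_cases i
    · exact le_cadj v _ _ (self_mem_cadj v W _)
    · exact self_mem_cadj v _ _
  have hmap : ∀ (Φ : Ω →ₐ[k] Ω), IsoE v v Φ → (∀ f ∈ W, Φ f ∈ F) → (∀ i, Φ (w i) ∈ F) →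
      ∀ f ∈ F, Φ f ∈ F := by
    intro Φ hΦ h1 h2 f hf
    rw [h.eq1] at hf
    exact TWCT.map_cadj_le hΦ hF (fun a ha => TWCT.map_cadj_le hΦ hF h1 (h2 0) a ha) (h2 1) f hf
  have heq : ∀ (Φ Ψ : Ω →ₐ[k] Ω), IsoE v v Φ → IsoE v v Ψ → (∀ f ∈ W, Φ f = Ψ f) →
      (∀ i, Φ (w i) = Ψ (w i)) → ∀ f ∈ F, Φ f = Ψ f := by
    intro Φ Ψ hΦ hΨ h1 h2 f hf
    rw [h.eq1] at hf
    exact TWCT.eq_on_cadj hΦ hΨ (fun a ha => TWCT.eq_on_cadj hΦ hΨ h1 (h2 0) a ha) (h2 1) f hf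
  have hmem : ∀ c, ∀ f ∈ F, T c f ∈ F := fun c =>
    hmap (T c) (hT1 c) (fun f hf => by rw [hT2 c f hf]; exact hle hf) fun i => by
      rw [hT3]
      exact add_mem (hwF i) (F.algebraMap_mem _)
  refine ⟨T, hle, hT1, hT2, hwF, hT3, hmem, fun c c' f hf => ?_, fun y hy r => Par.dns h hy r⟩
  have h1 := heq ((T c).comp (T c')) (T (c + c')) ⟨fun a ha => by
      rw [AlgHom.comp_apply, (hT1 c).val _ (TWS.IsoE.ne_zero ha), (hT1 c').val _ ha]⟩ (hT1 _)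
    (fun f hf => by rw [AlgHom.comp_apply, hT2 c' f hf, hT2 c f hf, hT2 _ f hf])
    (fun i => by
      rw [AlgHom.comp_apply, hT3, map_add, hT3, AlgHom.commutes, hT3, Pi.add_apply, map_add]
      ring) f hf
  exact h1

/-! ### Derivations -/

/-- **The derivations of `F`** with given natural values at `w i`. -/
theorem Par.exists_drv [IsAlgClosed Ω] (h0 : Ctx0 k v) (hΩ : CompleteV v)
    (h : Par v W F (w 0) 0 (w 1) 0) (hD : Drv v W D₀) {y : Fin 2 → Ω}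
    (hy : ∀ i, NatA v W D₀ (w i) (y i)) :
    ∃ D : Ω → Ω, Drv v F D ∧ (∀ a ∈ W, D a = D₀ a) ∧ (∀ i, D (w i) = y i) ∧
      ∀ B : IntermediateField k Ω, Cld v B → F ≤ B → (∀ a ∈ W, D₀ a ∈ B) →
        (∀ i, y i ∈ B) → ∀ f ∈ F, D f ∈ B := by
  obtain ⟨D₁, h1, h2, h3, h4⟩ := hD.exists_tl h0 hΩ h.t1 (hy 0)
  have hy1 : NatA v W D₁ (w 1) (y 1) := fun a ha r hr => by
    rw [h2 a ha]
    exact hy 1 a ha r hr
  obtain ⟨D, g1, g2, g3, g4⟩ := h1.exists_tl h0 hΩ h.t21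
    (NatA.up (le_cadj v W _) h1 h.t2.lim h.t21 hy1)
  rw [← h.eq1] at g1 g4
  refine ⟨D, g1, fun a ha => ?_, fun i => ?_, fun B hB hFB hDB hyB f hf => ?_⟩
  · rw [g2 a (le_cadj v W _ ha), h2 a ha]
  · fin_cases i
    · show D (w 0) = y 0
      rw [g2 _ (self_mem_cadj v W _), h3]
    · exact g3
  · have hle : cadj v W (w 0) ≤ F := by
      rw [h.eq1]
      exact le_cadj v _ _
    have hw0 : w 0 ∈ F := hle (self_mem_cadj v W _)
    have hw1 : w 1 ∈ F := by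
      rw [h.eq1]
      exact self_mem_cadj v _ _
    refine g4 B hB (fun a ha => hFB (hle ha)) (hFB hw1) (fun a ha => ?_) (hyB 1) f hf
    exact h4 B hB (fun a ha => hFB (hle (le_cadj v W _ ha))) (hFB hw0) hDB (hyB 0) a ha

theorem drv_zero (v : RVal Ω) (W : IntermediateField k Ω) : Drv v W fun _ => 0 where
  add _ _ _ _ := (add_zero 0).symm
  mul f _ g _ := by rw [mul_zero, mul_zero, add_zero]
  alg _ := rfl
  norm _ _ _ _ := RVal.Ge.zero

variable {p : ℕ} {L : ℕ → IntermediateField k Ω} {x z a : Ω}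

/-- **`RowTrn`.** -/
theorem rowTrn [IsAlgClosed Ω] : RowTrn (k := k) (Ω := Ω) p v := by
  intro L W F K w x z a D₀ hH hB
  have h := hH.par
  have h0 := hH.c0
  obtain ⟨T, hT⟩ := Par.trn h0 hH.sph hH.hval h
  obtain ⟨y0, hy0⟩ := hB.drv.exists_nat hH.sph h.t1
  obtain ⟨y1, hy1⟩ := hB.drv.exists_nat hH.sph h.t2
  have hF : Cld v F := by
    rw [h.eq1]
    exact cld_cadj v _ _
  have hTL : ∀ i, TL v W (w i) 0 := by
    intro i
    fin_cases i
    exacts [h.t1, h.t2]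
  obtain ⟨D, g1, g2, g3, g4⟩ := Par.exists_drv h0 hH.cv h hB.drv (y := ![y0, y1]) (by
    intro i
    fin_cases i
    exacts [hy0, hy1])
  have hi : ∀ i : Fin 2, ∃ d : Ω → Ω, Drv v F d ∧ (∀ a ∈ W, d a = 0) ∧
      (∀ j, d (w j) = if i = j then 1 else 0) ∧ ∀ f ∈ F, d f ∈ F := by
    intro i
    have hv1 : v.Ge 0 (1 : Ω) := by
      have := h0.ge (1 : k)
      rwa [map_one] at this
    obtain ⟨d, e1, e2, e3, e4⟩ := Par.exists_drv h0 hH.cv h (drv_zero v W)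
      (y := fun j => if i = j then 1 else 0) (by
      intro j a ha r hr
      have hr0 := TL.neg_of_ge (hTL j) ha hr
      show v.Ge r ((if i = j then 1 else 0) - 0)
      rw [sub_zero]
      split_ifs
      · exact hv1.mono hr0.le
      · exact RVal.Ge.zero)
    exact ⟨d, e1, e2, e3, e4 F hF le_rfl (fun _ _ => F.zero_mem) fun j => by
      split_ifs
      exacts [F.one_mem, F.zero_mem]⟩
  choose dd hd1 hd2 hd3 hd4 using hi
  refine ⟨T, D, dd, hT, ⟨g1, hd1, fun f hf => ?_, fun i ε hε => ?_, hd4, hd2, hd3⟩, g2⟩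
  · rw [g2 f hf]
    exact hB.dW f hf
  · obtain ⟨b, hb, h1⟩ := (hTL i).lim ε hε
    refine ⟨D₀ b, hB.dW b hb, ?_⟩
    rw [g3]
    fin_cases i
    · exact hy0 b hb _ h1
    · exact hy1 b hb _ h1

end Pool.Agent.TWCY
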